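import Pool.Agent.W_7d29a1_SR.ModelS

/-!
THEOREM (SR) (hand-in ScalingLaw), MP_7d29a1_pr, clause (4): the moments of the maximal displacement
`mx s = max_{0 ≤ i ≤ n} |S_i|` from a stretched exponential tail at the scale `w` and a lower bound for the probability
that the walk leaves the ball of radius `c w`.
-/

namespace Pool.Agent.W_7d29a1_SR

open MeasureTheory ProbabilityTheory Filter Topology Pool.Agent.W_7d29a1_h47

noncomputable section

/-- The maximal displacement `max_{0 ≤ i ≤ n} |S_i|` of a walk of length `n`. -/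
def mx {n : ℕ} (s : Fin n → Bool) : ℝ :=
  (Finset.range (n + 1)).sup' Finset.nonempty_range_add_one fun i => |(walk s i : ℝ)|

theorem mx_le_iff {n : ℕ} (s : Fin n → Bool) (r : ℝ) : mx s ≤ r ↔ s ∈ ball n r := by
  unfold mx ball
  rw [Finset.sup'_le_iff]
  simp only [Finset.mem_range, Set.mem_ofPred_eq]
  exact ⟨fun h i hi => h i (by omega), fun h i hi => h i (by omega)⟩

theorem mx_nonneg {n : ℕ} (s : Fin n → Bool) : 0 ≤ mx s := by
  have h : |(walk s 0 : ℝ)| ≤ mx s :=
    Finset.le_sup' (s := Finset.range (n + 1)) (fun i => |(walk s i : ℝ)|) (by simp)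
  exact (abs_nonneg _).trans h

theorem abs_walk_le {n : ℕ} (s : Fin n → Bool) (i : ℕ) : |(walk s i : ℝ)| ≤ n := by
  unfold walk
  push_cast
  refine (Finset.abs_sum_le_sum_abs _ _).trans ?_
  refine (Finset.sum_le_card_nsmul _ _ 1 fun j _ => ?_).trans (by simp)
  split_ifs <;> norm_num

theorem mx_le {n : ℕ} (s : Fin n → Bool) : mx s ≤ n :=
  Finset.sup'_le _ _ fun i _ => abs_walk_le s i

/-! ### The polymer expectation -/

theorem polE_mono' (β : ℝ) (η : ℕ × ℤ → ℝ) (n : ℕ) {F G : (Fin n → Bool) → ℝ} (h : ∀ s, F s ≤ G s) :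
    polE β η n F ≤ polE β η n G :=
  div_le_div_of_nonneg_right (Finset.sum_le_sum fun s _ => mul_le_mul_of_nonneg_right (h s) (Real.exp_pos _).le)
    (Finset.sum_nonneg fun _ _ => (Real.exp_pos _).le)

theorem polE_const' (β : ℝ) (η : ℕ × ℤ → ℝ) (n : ℕ) (c : ℝ) : polE β η n (fun _ => c) = c := by
  unfold polE
  rw [← Finset.mul_sum]
  exact mul_div_cancel_right₀ c (Finset.sum_pos (fun _ _ => Real.exp_pos _) Finset.univ_nonempty).ne'

theorem polE_add' (β : ℝ) (η : ℕ × ℤ → ℝ) (n : ℕ) (F G : (Fin n → Bool) → ℝ) :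
    polE β η n (fun s => F s + G s) = polE β η n F + polE β η n G := by
  unfold polE
  rw [← add_div, ← Finset.sum_add_distrib]
  simp only [add_mul]

theorem polE_mul' (β : ℝ) (η : ℕ × ℤ → ℝ) (n : ℕ) (c : ℝ) (F : (Fin n → Bool) → ℝ) :
    polE β η n (fun s => c * F s) = c * polE β η n F := by
  unfold polE
  rw [← mul_div_assoc, Finset.mul_sum]
  simp only [mul_assoc]

theorem polE_sum' (β : ℝ) (η : ℕ × ℤ → ℝ) (n : ℕ) {ι : Type*} (t : Finset ι) (F : ι → (Fin n → Bool) → ℝ) :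
    polE β η n (fun s => ∑ i ∈ t, F i s) = ∑ i ∈ t, polE β η n (F i) := by
  classical
  induction t using Finset.induction_on with
  | empty =>
    simp only [Finset.sum_empty]
    exact polE_const' β η n 0
  | insert a t ha ih =>
    simp only [Finset.sum_insert ha]
    rw [polE_add', ih]

open Classical in
/-- `E_n 1_{S ∉ A} = 1 - P_n (A)`. -/
theorem polE_ind (β : ℝ) (η : ℕ × ℤ → ℝ) (n : ℕ) (A : Set (Fin n → Bool)) :
    polE β η n (fun s => if s ∈ A then 0 else 1) = 1 - polP β η n A := by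
  have h : polE β η n (fun s => if s ∈ A then (0 : ℝ) else 1) + polP β η n A = 1 := by
    unfold polP
    rw [← polE_add']
    refine Eq.trans ?_ (polE_const' β η n 1)
    congr 1
    funext s
    split_ifs <;> norm_num
  linarith

/-! ### The layers -/

open Classical in
theorem layers {n : ℕ} (s : Fin n → Bool) (q : ℕ) {w : ℝ} (hw : 0 ≤ w) (N : ℕ) (hN : mx s ≤ 2 ^ N * w) :
    mx s ^ q ≤ w ^ q + ∑ j ∈ Finset.range N, (2 ^ (j + 1) * w) ^ q * (if s ∈ ball n (2 ^ j * w) then 0 else 1) := by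
  induction N with
  | zero =>
    rw [pow_zero, one_mul] at hN
    simpa using pow_le_pow_left₀ (mx_nonneg s) hN q
  | succ N ih =>
    rw [Finset.sum_range_succ]
    have hpos : ∀ j : ℕ, (0 : ℝ) ≤ (2 ^ (j + 1) * w) ^ q := fun j => by positivity
    by_cases h : s ∈ ball n (2 ^ N * w)
    · rw [if_pos h, mul_zero, add_zero]
      exact ih ((mx_le_iff s _).2 h)
    · rw [if_neg h, mul_one]
      have h1 : mx s ^ q ≤ (2 ^ (N + 1) * w) ^ q := pow_le_pow_left₀ (mx_nonneg s) hN q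
      have h2 : 0 ≤ w ^ q := by positivity
      have h3 : 0 ≤ ∑ j ∈ Finset.range N, (2 ^ (j + 1) * w) ^ q * (if s ∈ ball n (2 ^ j * w) then (0 : ℝ) else 1) :=
        Finset.sum_nonneg fun j _ => mul_nonneg (hpos j) (by split_ifs <;> norm_num)
      linarith

theorem polE_mx_le (β : ℝ) (η : ℕ × ℤ → ℝ) (n q : ℕ) {w : ℝ} (hw : 0 ≤ w) (N : ℕ) (hN : (n : ℝ) ≤ 2 ^ N * w) :
    polE β η n (fun s => mx s ^ q) ≤
      w ^ q + ∑ j ∈ Finset.range N, (2 ^ (j + 1) * w) ^ q * (1 - polP β η n (ball n (2 ^ j * w))) := by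
  classical
  refine (polE_mono' β η n fun s => layers s q hw N ((mx_le s).trans hN)).trans_eq ?_
  rw [polE_add', polE_const', polE_sum']
  congr 1
  refine Finset.sum_congr rfl fun j _ => ?_
  rw [polE_mul', polE_ind]

theorem le_polE_mx (β : ℝ) (η : ℕ × ℤ → ℝ) (n q : ℕ) {r : ℝ} (hr : 0 ≤ r) :
    r ^ q * (1 - polP β η n (ball n r)) ≤ polE β η n (fun s => mx s ^ q) := by
  classical
  rw [← polE_ind, ← polE_mul']
  refine polE_mono' β η n fun s => ?_
  by_cases h : s ∈ ball n r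
  · rw [if_pos h, mul_zero]
    exact pow_nonneg (mx_nonneg s) q
  · rw [if_neg h, mul_one]
    refine pow_le_pow_left₀ hr ?_ q
    rw [← mx_le_iff, not_le] at h
    exact h.le

/-- A stretched exponential is below every power. -/
theorem stretched_le {a g : ℝ} (ha : 0 < a) (hg : 0 < g) (q : ℕ) :
    ∃ C : ℝ, 0 < C ∧ ∀ R : ℝ, 1 ≤ R → Real.exp (-(a * R ^ g)) ≤ C / R ^ (q + 1) := by
  obtain ⟨k, hk⟩ := exists_nat_ge (((q + 1 : ℕ) : ℝ) / g)
  refine ⟨(Nat.factorial k : ℝ) / a ^ k, by positivity, fun R hR => ?_⟩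
  have hR0 : 0 < R := by linarith
  have hx : 0 < a * R ^ g := by positivity
  have h1 : (a * R ^ g) ^ k / (Nat.factorial k : ℝ) ≤ Real.exp (a * R ^ g) := Real.pow_div_factorial_le_exp _ hx.le k
  have h2 : R ^ (q + 1) ≤ (R ^ g) ^ k := by
    rw [← Real.rpow_natCast (R ^ g) k, ← Real.rpow_mul hR0.le, ← Real.rpow_natCast R (q + 1)]
    refine Real.rpow_le_rpow_of_exponent_le hR ?_
    rw [div_le_iff₀ hg] at hk
    linarith [mul_comm g (k : ℝ)]
  rw [Real.exp_neg, div_div, ← one_div]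
  rw [div_le_div_iff₀ (Real.exp_pos _) (by positivity), one_mul]
  have h3 : (a * R ^ g) ^ k ≤ Real.exp (a * R ^ g) * (Nat.factorial k : ℝ) := by
    rwa [div_le_iff₀ (by positivity)] at h1
  rw [mul_pow] at h3
  have h4 : a ^ k * R ^ (q + 1) ≤ a ^ k * (R ^ g) ^ k := mul_le_mul_of_nonneg_left h2 (by positivity)
  linarith [mul_comm (Real.exp (a * R ^ g)) (Nat.factorial k : ℝ)]

/-! ### The moments -/

variable {Ω : Type*} [MeasurableSpace Ω] {P : Measure Ω} [IsProbabilityMeasure P] {ω : ℕ × ℤ → Ω → ℝ} {β : ℝ}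

theorem polE_meas' (hmeas : ∀ p, Measurable (ω p)) (β : ℝ) (n : ℕ) (F : (Fin n → Bool) → ℝ) :
    Measurable fun x => polE β (fun p => ω p x) n F := by
  have he : ∀ s : Fin n → Bool, Measurable fun x => energy (fun p => ω p x) s := fun s => by
    unfold energy
    exact Finset.measurable_sum _ fun i _ => hmeas _
  unfold polE
  exact (Finset.measurable_sum _ fun s _ => ((he s).const_mul β).exp.const_mul _).div
    (Finset.measurable_sum _ fun s _ => ((he s).const_mul β).exp)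

theorem polE_integrable (hmeas : ∀ p, Measurable (ω p)) (β : ℝ) (n : ℕ) (F : (Fin n → Bool) → ℝ) :
    Integrable (fun x => polE β (fun p => ω p x) n F) P := by
  have hb : ∀ s : Fin n → Bool, |F s| ≤ ∑ s : Fin n → Bool, |F s| := fun s =>
    Finset.single_le_sum (f := fun s => |F s|) (fun _ _ => abs_nonneg _) (Finset.mem_univ s)
  refine Integrable.of_bound (polE_meas' hmeas β n F).aestronglyMeasurable (∑ s : Fin n → Bool, |F s|)
    (Eventually.of_forall fun x => ?_)
  rw [Real.norm_eq_abs, abs_le]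
  constructor
  · rw [← polE_const' β (fun p => ω p x) n (-(∑ s : Fin n → Bool, |F s|))]
    exact polE_mono' _ _ _ fun s => by linarith [hb s, neg_abs_le (F s)]
  · rw [← polE_const' β (fun p => ω p x) n (∑ s : Fin n → Bool, |F s|)]
    exact polE_mono' _ _ _ fun s => by linarith [hb s, le_abs_self (F s)]

theorem polP_integrable (hmeas : ∀ p, Measurable (ω p)) (β : ℝ) (n : ℕ) (A : Set (Fin n → Bool)) :
    Integrable (fun x => polP β (fun p => ω p x) n A) P := by
  classical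
  unfold polP
  exact polE_integrable hmeas β n _

/-- Clause (4) at one length `n` and one scale `w`: the constants depend on `A, a, g, c, d, q` only. -/
theorem mx_moment_one {A a g c d : ℝ} (hA : 0 ≤ A) (ha : 0 < a) (hg : 0 < g) (hc : 0 < c) (hd : 0 < d) (q : ℕ) :
    ∃ b B : ℝ, 0 < b ∧ 0 < B ∧ ∀ (Ω : Type*) [MeasurableSpace Ω] (P : Measure Ω) [IsProbabilityMeasure P]
      (ω : ℕ × ℤ → Ω → ℝ) (β : ℝ), (∀ p, Measurable (ω p)) → ∀ (n : ℕ) (w : ℝ), 0 < w →
      ((∀ R : ℝ, 1 ≤ R →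
          ∫ x, (1 - polP β (fun p => ω p x) n (ball n (R * w))) ∂P ≤ A * Real.exp (-(a * R ^ g))) →
        ∫ x, polE β (fun p => ω p x) n (fun s => mx s ^ q) ∂P ≤ B * w ^ q) ∧
      (∫ x, polP β (fun p => ω p x) n (ball n (c * w)) ∂P ≤ 1 - d →
        b * w ^ q ≤ ∫ x, polE β (fun p => ω p x) n (fun s => mx s ^ q) ∂P) := by
  obtain ⟨C, hC, hCR⟩ := stretched_le ha hg q
  refine ⟨d * c ^ q, 1 + A * C * 2 ^ q * 2, by positivity, by positivity, ?_⟩
  intro Ω _ P _ ω β hmeas n w hw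
  constructor
  · intro hup
    obtain ⟨N, hN⟩ : ∃ N : ℕ, (n : ℝ) ≤ 2 ^ N * w := by
      obtain ⟨N, hN⟩ := pow_unbounded_of_one_lt ((n : ℝ) / w) (one_lt_two : (1 : ℝ) < 2)
      exact ⟨N, by rw [div_lt_iff₀ hw] at hN; exact hN.le⟩
    have hi : ∀ j : ℕ, Integrable (fun x => (2 ^ (j + 1) * w) ^ q * (1 - polP β (fun p => ω p x) n (ball n (2 ^ j * w))))
        P := fun j => ((integrable_const (1 : ℝ)).sub (polP_integrable hmeas β n _)).const_mul _
    calc ∫ x, polE β (fun p => ω p x) n (fun s => mx s ^ q) ∂P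
        ≤ ∫ x, (w ^ q + ∑ j ∈ Finset.range N, (2 ^ (j + 1) * w) ^ q *
            (1 - polP β (fun p => ω p x) n (ball n (2 ^ j * w)))) ∂P :=
          integral_mono (polE_integrable hmeas β n _)
            ((integrable_const _).add (integrable_finsetSum _ fun j _ => hi j))
            fun x => polE_mx_le β _ n q hw.le N hN
      _ = w ^ q + ∑ j ∈ Finset.range N, (2 ^ (j + 1) * w) ^ q *
            ∫ x, (1 - polP β (fun p => ω p x) n (ball n (2 ^ j * w))) ∂P := by
          rw [integral_add (integrable_const _) (integrable_finsetSum _ fun j _ => hi j),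
            integral_finsetSum _ fun j _ => hi j]
          simp [integral_const_mul]
      _ ≤ w ^ q + ∑ j ∈ Finset.range N, A * C * 2 ^ q * w ^ q * (1 / 2) ^ j := by
          refine add_le_add le_rfl (Finset.sum_le_sum fun j _ => ?_)
          have h2 : (1 : ℝ) ≤ 2 ^ j := one_le_pow₀ one_le_two
          have h3 := (hup (2 ^ j) h2).trans (mul_le_mul_of_nonneg_left (hCR (2 ^ j) h2) hA)
          refine (mul_le_mul_of_nonneg_left h3 (by positivity)).trans_eq ?_
          have h4 : ((2 : ℝ) ^ j) ^ (q + 1) = ((2 : ℝ) ^ j) ^ q * 2 ^ j := pow_succ _ _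
          have h5 : ((2 : ℝ) ^ (j + 1) * w) ^ q = ((2 : ℝ) ^ j) ^ q * 2 ^ q * w ^ q := by
            rw [pow_succ, mul_pow, mul_pow]
          have h6 : ((2 : ℝ) ^ j) ^ q ≠ 0 := by positivity
          have h7 : ((2 : ℝ) ^ j) ≠ 0 := by positivity
          rw [h4, h5, one_div, inv_pow]
          field_simp
      _ ≤ (1 + A * C * 2 ^ q * 2) * w ^ q := by
          rw [← Finset.mul_sum]
          have h8 : ∑ j ∈ Finset.range N, ((1 : ℝ) / 2) ^ j ≤ 2 := by
            have := Summable.sum_le_tsum (Finset.range N) (fun j _ => by positivity) summable_geometric_two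
            rwa [tsum_geometric_two] at this
          have h9 : 0 ≤ A * C * 2 ^ q * w ^ q := by positivity
          have h10 := mul_le_mul_of_nonneg_left h8 h9
          linarith
  · intro hlo
    have h1 : ∫ x, (c * w) ^ q * (1 - polP β (fun p => ω p x) n (ball n (c * w))) ∂P ≤
        ∫ x, polE β (fun p => ω p x) n (fun s => mx s ^ q) ∂P :=
      integral_mono (((integrable_const (1 : ℝ)).sub (polP_integrable hmeas β n _)).const_mul _)
        (polE_integrable hmeas β n _) fun x => le_polE_mx β _ n q (by positivity)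
    refine le_trans ?_ h1
    rw [integral_const_mul, integral_sub (integrable_const _) (polP_integrable hmeas β n _), integral_const,
      probReal_univ, one_smul, mul_pow]
    have h2 : d ≤ 1 - ∫ x, polP β (fun p => ω p x) n (ball n (c * w)) ∂P := by linarith
    have h3 : 0 ≤ c ^ q * w ^ q := by positivity
    have h4 := mul_le_mul_of_nonneg_left h2 h3
    linarith [mul_comm (c ^ q * w ^ q) d, mul_assoc d (c ^ q) (w ^ q)]

/-- Clause (4): `E E_n (max_{i ≤ n} |S_i|)^q` is of the order `w_n^q`. -/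
theorem mx_moments (hmeas : ∀ p, Measurable (ω p)) {w : ℕ → ℝ} {n₁ : ℕ} (hw : ∀ n, n₁ ≤ n → 0 < w n) {A a g c d : ℝ}
    (hA : 0 ≤ A) (ha : 0 < a) (hg : 0 < g) (hc : 0 < c) (hd : 0 < d)
    (hup : ∀ n, n₁ ≤ n → ∀ R : ℝ, 1 ≤ R →
      ∫ x, (1 - polP β (fun p => ω p x) n (ball n (R * w n))) ∂P ≤ A * Real.exp (-(a * R ^ g)))
    (hlo : ∀ n, n₁ ≤ n → ∫ x, polP β (fun p => ω p x) n (ball n (c * w n)) ∂P ≤ 1 - d) (q : ℕ) :
    ∃ b B : ℝ, 0 < b ∧ 0 < B ∧ ∀ n, n₁ ≤ n →
      b * w n ^ q ≤ ∫ x, polE β (fun p => ω p x) n (fun s => mx s ^ q) ∂P ∧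
      ∫ x, polE β (fun p => ω p x) n (fun s => mx s ^ q) ∂P ≤ B * w n ^ q := by
  obtain ⟨b, B, hb, hB, h⟩ := mx_moment_one hA ha hg hc hd q
  exact ⟨b, B, hb, hB, fun n hn => ⟨(h Ω P ω β hmeas n (w n) (hw n hn)).2 (hlo n hn),
    (h Ω P ω β hmeas n (w n) (hw n hn)).1 (hup n hn)⟩⟩

end

end Pool.Agent.W_7d29a1_SR
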