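import Pool.Agent.W_7d29a1_SR.TubeS
import Pool.Agent.W_7d29a1_h57g.TubeMC
import Pool.Agent.W_7d29a1_h10.Unlucky

/-!
THEOREM (SR) (hand-in ScalingLaw), proofs row 626, section (S3).
-/

namespace Pool.Agent.W_7d29a1_SR

open MeasureTheory ProbabilityTheory Filter Topology
open Pool.Agent.W_7d29a1_F Pool.Agent.W_7d29a1_h4g Pool.Agent.W_7d29a1_G Pool.Agent.W_7d29a1_L

variable {μ : Measure ℝ} [IsProbabilityMeasure μ] {c C : ℝ} {n₀ : ℕ}

/-- The unit doubles in boundedly many octaves (from every scale). -/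
theorem dbl_of (h : In μ c C n₀) : Pool.Agent.W_7d29a1_h10.Dbl μ := by
  obtain ⟨T, x₀, hd⟩ := h.dbl
  refine ⟨T + 1, 2 ^ x₀, fun n hn => ?_⟩
  have hn0 : n ≠ 0 := by
    have : 0 < 2 ^ x₀ := by positivity
    omega
  have h1 : 2 ^ Nat.log 2 n ≤ n := Nat.pow_log_le_self 2 hn0
  have h2 : n < 2 ^ (Nat.log 2 n + 1) := Nat.lt_pow_succ_log_self (by norm_num) n
  have hx : x₀ ≤ Nat.log 2 n := Nat.le_log_of_pow_le (by norm_num) hn
  have h3 := hd (Nat.log 2 n + 1) (by omega)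
  have hE : ∀ m : ℕ, 0 < EE μ m := fun m => by
    have := one_le_EE (μ := μ) m
    linarith
  have h4 : 2 * EE μ (2 ^ (Nat.log 2 n + 1)) ≤ EE μ (2 ^ (Nat.log 2 n + 1 + T)) := by
    unfold gg at h3
    have h5 := Real.rpow_le_rpow_of_exponent_le (x := 2) (by norm_num) h3
    rw [Real.rpow_add (by norm_num), Real.rpow_logb (by norm_num) (by norm_num) (hE _),
      Real.rpow_logb (by norm_num) (by norm_num) (hE _), Real.rpow_one] at h5
    linarith
  have h5 : EE μ n ≤ EE μ (2 ^ (Nat.log 2 n + 1)) := EE_mono h2.le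
  have h6 : EE μ (2 ^ (Nat.log 2 n + 1 + T)) ≤ EE μ (2 ^ (T + 1) * n) := by
    refine EE_mono ?_
    calc 2 ^ (Nat.log 2 n + 1 + T) = 2 ^ (T + 1) * 2 ^ Nat.log 2 n := by ring
      _ ≤ 2 ^ (T + 1) * n := Nat.mul_le_mul_left _ h1
  linarith

/-- The input of the unlucky tail from (S2). -/
theorem tubeIn_of (h : In μ c C n₀) : Pool.Agent.W_7d29a1_h10.TubeInK μ c := by
  obtain ⟨R, C', hR, hC', n₁, ht⟩ := tubeS h
  obtain ⟨n₂, hw⟩ := (tendsto_atTop.1 (wd_tendsto h) 1).exists_forall_of_atTop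
  have hc0 := h.c0
  refine ⟨R + c + 1, C', max (max n₁ n₂) 1, by linarith, fun n hn z hz0 hz1 hz => ?_⟩
  have hn1 : n₁ ≤ n := ((le_max_left _ _).trans (le_max_left _ _)).trans hn
  have hn2 : n₂ ≤ n := ((le_max_right _ _).trans (le_max_left _ _)).trans hn
  have hnp : 1 ≤ n := (le_max_right _ _).trans hn
  have hnr : (0 : ℝ) < n := by exact_mod_cast hnp
  have hw1 := hw n hn2
  have hz' : |(z : ℝ) - n / 2| ≤ c * vA μ 1 n * n := by
    have : |(z : ℝ) - n / 2| ≤ c * (vA μ 1 n * n) := hz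
    linarith
  obtain ⟨hp, hm⟩ := ht n hn1 n z le_rfl hz0 hz1 (by linarith)
  have hwd : Pool.Agent.W_7d29a1_h10.wd μ n = wd μ n := rfl
  rw [hwd]
  have hsub : ∀ p ∈ St (R * wd μ n) (0 : Pt), (0 : Pt).1 < p.1 → p.1 ≤ (0 : Pt).1 + n →
      p ∈ Pool.Agent.W_7d29a1_g.Tube (0 : Pt) ((z : ℝ) / n) ((R + c + 1) * wd μ n) := by
    intro p hp1 hp2 hp3
    unfold St at hp1
    unfold Pool.Agent.W_7d29a1_g.Tube
    simp only [Set.mem_ofPred_eq, Prod.fst_zero, Prod.snd_zero, zero_add, sub_zero, Int.cast_zero] at hp1 hp2 hp3 ⊢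
    have e0 : (0 : ℝ) ≤ (p.1 : ℝ) := by exact_mod_cast hp2.le
    have e1 : (p.1 : ℝ) ≤ n := by exact_mod_cast hp3
    have e2 : |((z : ℝ) / n - 1 / 2) * p.1| ≤ c * wd μ n := by
      rw [abs_mul, abs_of_nonneg e0]
      have e3 : |(z : ℝ) / n - 1 / 2| * n ≤ c * wd μ n := by
        have e4 : |(z : ℝ) / n - 1 / 2| * n = |(z : ℝ) - n / 2| := by
          rw [← abs_of_pos hnr, ← abs_mul, abs_of_pos hnr]
          congr 1
          field_simp
        rw [e4]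
        exact hz
      exact (mul_le_mul_of_nonneg_left e1 (abs_nonneg _)).trans e3
    have e5 : (p.2 : ℝ) - (z : ℝ) / n * p.1 = 1 / 2 * (2 * (p.2 : ℝ) - p.1) - ((z : ℝ) / n - 1 / 2) * p.1 := by ring
    rw [e5]
    have e6 : |1 / 2 * (2 * (p.2 : ℝ) - p.1)| ≤ R * wd μ n := by
      rw [abs_mul, abs_of_pos (by norm_num : (0 : ℝ) < 1 / 2)]
      linarith
    calc |1 / 2 * (2 * (p.2 : ℝ) - p.1) - ((z : ℝ) / n - 1 / 2) * p.1|
        ≤ |1 / 2 * (2 * (p.2 : ℝ) - p.1)| + |((z : ℝ) / n - 1 / 2) * p.1| := abs_sub _ _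
      _ ≤ R * wd μ n + c * wd μ n := add_le_add e6 e2
      _ ≤ (R + c + 1) * wd μ n := by nlinarith
  have hle : ∀ η, WR μ 0 (St (R * wd μ n) 0) η 0 n z ≤
      WR μ 0 (Pool.Agent.W_7d29a1_g.Tube (0 : Pt) ((z : ℝ) / n) ((R + c + 1) * wd μ n)) η 0 n z :=
    fun η => Pool.Agent.W_7d29a1_h10.WR_mono_on η 0 n z hsub
  have hzr : 0 < Zr (St (R * wd μ n) 0) (fun _ => 0) 0 n z := by
    have h1 := hp fun _ => 0
    unfold WR at h1
    exact (mul_pos_iff_of_pos_left (Real.exp_pos _)).1 h1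
  have hpS : Pool.Agent.W_7d29a1_g.HasPath (St (R * wd μ n) 0) 0 n z :=
    Pool.Agent.W_7d29a1_h57g.hasPath_of_pos n z hzr
  have hpT : Pool.Agent.W_7d29a1_g.HasPath
      (Pool.Agent.W_7d29a1_g.Tube (0 : Pt) ((z : ℝ) / n) ((R + c + 1) * wd μ n)) 0 n z := by
    refine Pool.Agent.W_7d29a1_h57g.hasPath_of_pos (η := fun _ => 0) n z ?_
    have h1 := (hp fun _ => 0).trans_le (hle fun _ => 0)
    unfold WR at h1
    exact (mul_pos_iff_of_pos_left (Real.exp_pos _)).1 h1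
  refine ⟨hpT, ?_⟩
  unfold Pool.Agent.W_7d29a1_h10.pR
  refine le_trans ?_ hm
  refine integral_mono ((hpT.sub.neg.max (Sub.const 0)).integrable h.em) ((hpS.sub.neg.max (Sub.const 0)).integrable h.em)
    fun η => ?_
  exact max_le_max (neg_le_neg (Real.log_le_log (hp η) (hle η))) le_rfl

/-- (S3) UNLUCKY, stretched exponential form: the costs of the displacements of the cone `c / 16`. -/
theorem unlucky_exp (h : In μ c C n₀) : ∃ A c' γ : ℝ, 0 < A ∧ 0 < c' ∧ 0 < γ ∧ γ ≤ 1 ∧ ∀ n : ℕ, 1 ≤ n → ∀ y : ℤ,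
    0 ≤ y → y ≤ n → |(y : ℝ) - n / 2| ≤ c / 16 * vA μ 1 n * n + 1 → ∀ u : ℝ, 0 ≤ u →
    (law μ).real {η | u * EE μ n ≤ X μ 0 η 0 n y} ≤ A * Real.exp (-(c' * u ^ γ)) := by
  have hc0 := h.c0
  have hc1 := h.c1
  obtain ⟨A, c', γ, hA, hc', hγ, hγ1, hU⟩ := Pool.Agent.W_7d29a1_h10.unluckyK h.em h.nd (κ₀ := c) (κ := c / 8)
    (by positivity) (by linarith) (by linarith) (tubeIn_of h) (dbl_of h)
  obtain ⟨C₁, hC₁, htriv⟩ := Pool.Agent.W_7d29a1_h10.triv h.em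
  obtain ⟨n₂, hw⟩ := (tendsto_atTop.1 (wd_tendsto h) (8 / c)).exists_forall_of_atTop
  obtain ⟨c₂, hc₂, hc₂a, hc₂b⟩ : ∃ c₂ : ℝ, 0 < c₂ ∧ c₂ ≤ c' ∧ c₂ ≤ 1 / 2 :=
    ⟨min c' (1 / 2), lt_min hc' (by norm_num), min_le_left _ _, min_le_right _ _⟩
  obtain ⟨S, hS1, hS2⟩ : ∃ S : ℝ, 1 ≤ S ∧ C₁ * n₂ ≤ S := ⟨max 1 (C₁ * n₂), le_max_left _ _, le_max_right _ _⟩
  refine ⟨max (max A 1) (Real.exp (c₂ * S ^ γ)), c₂, γ, lt_of_lt_of_le hA ((le_max_left _ _).trans (le_max_left _ _)), hc₂, hγ, hγ1,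
    fun n hn y hy0 hy1 hy u hu => ?_⟩
  set A' : ℝ := max (max A 1) (Real.exp (c₂ * S ^ γ)) with hA'
  have hug : 0 ≤ u ^ γ := by positivity
  by_cases hn2 : n₂ ≤ n
  · -- large scales
    have hw' := hw n hn2
    rw [div_le_iff₀ hc0] at hw'
    have hy' : |(y : ℝ) - n / 2| ≤ c / 8 * (vA μ 1 n * n) + 1 / 2 := by
      have e1 : wd μ n = vA μ 1 n * n := rfl
      rw [e1] at hw'
      have e2 : c / 16 * vA μ 1 n * n = c / 16 * (vA μ 1 n * n) := by ring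
      rw [e2] at hy
      linarith
    refine (hU n y u hn hy0 hy1 hy' hu).trans ?_
    refine mul_le_mul ((le_max_left _ _).trans (le_max_left _ _)) (Real.exp_le_exp.2 ?_) (Real.exp_pos _).le
      (le_trans hA.le ((le_max_left _ _).trans (le_max_left _ _)))
    have := mul_le_mul_of_nonneg_right hc₂a hug
    linarith
  · push Not at hn2
    have hA1 : 1 ≤ A' := (le_max_right _ _).trans (le_max_left _ _)
    by_cases huS : u ≤ S
    · refine measureReal_le_one.trans ?_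
      have e1 : u ^ γ ≤ S ^ γ := Real.rpow_le_rpow hu huS hγ.le
      calc (1 : ℝ) ≤ Real.exp (c₂ * S ^ γ) * Real.exp (-(c₂ * u ^ γ)) := by
            rw [← Real.exp_add]
            refine Real.one_le_exp ?_
            have := mul_le_mul_of_nonneg_left e1 hc₂.le
            linarith
        _ ≤ A' * Real.exp (-(c₂ * u ^ γ)) := mul_le_mul_of_nonneg_right (le_max_right _ _) (Real.exp_pos _).le
    · push Not at huS
      have hu1 : 1 ≤ u := hS1.trans huS.le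
      have hCn : C₁ * n ≤ u := by
        have : (n : ℝ) ≤ n₂ := by exact_mod_cast hn2.le
        have := mul_le_mul_of_nonneg_left this hC₁.le
        linarith
      refine (htriv n y u _ hy0 hy1 (one_le_EE n) hCn).trans ?_
      have e1 : u ^ γ ≤ u := by
        calc u ^ γ ≤ u ^ (1 : ℝ) := Real.rpow_le_rpow_of_exponent_le hu1 hγ1
          _ = u := Real.rpow_one u
      have e2 : c₂ * u ^ γ ≤ 1 / 2 * u := mul_le_mul hc₂b e1 hug (by norm_num)
      calc Real.exp (-(1 / 2 * u)) ≤ Real.exp (-(c₂ * u ^ γ)) := Real.exp_le_exp.2 (by linarith)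
        _ ≤ A' * Real.exp (-(c₂ * u ^ γ)) := le_mul_of_one_le_left (Real.exp_pos _).le hA1

/-- (S3) UNLUCKY: the costs of the displacements of the cone `c / 16` have all polynomial tails in the unit. -/
theorem unlucky (h : In μ c C n₀) (q : ℕ) : ∃ A : ℝ, ∀ n : ℕ, 1 ≤ n → ∀ y : ℤ, 0 ≤ y → y ≤ n →
    |(y : ℝ) - n / 2| ≤ c / 16 * vA μ 1 n * n + 1 → ∀ u : ℝ, 1 ≤ u →
    (law μ).real {η | u * EE μ n ≤ X μ 0 η 0 n y} ≤ A / u ^ q := by
  obtain ⟨A, c', γ, hA, hc', hγ, hγ1, hU⟩ := unlucky_exp h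
  obtain ⟨m, hm⟩ := exists_nat_ge ((q : ℝ) / γ)
  refine ⟨A * (m.factorial / c' ^ m), fun n hn y hy0 hy1 hy u hu => (hU n hn y hy0 hy1 hy u (by linarith)).trans ?_⟩
  have hu0 : 0 < u := by linarith
  have hx0 : 0 < c' * u ^ γ := by positivity
  have h1 := Real.pow_div_factorial_le_exp (c' * u ^ γ) hx0.le m
  have hf : (0 : ℝ) < m.factorial := by exact_mod_cast m.factorial_pos
  have h2 : Real.exp (-(c' * u ^ γ)) ≤ m.factorial / (c' * u ^ γ) ^ m := by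
    rw [Real.exp_neg, inv_le_comm₀ (Real.exp_pos _) (by positivity), inv_div]
    exact h1
  have h3 : u ^ q ≤ (u ^ γ) ^ m := by
    rw [← Real.rpow_natCast (u ^ γ) m, ← Real.rpow_mul hu0.le, ← Real.rpow_natCast u q]
    refine Real.rpow_le_rpow_of_exponent_le hu ?_
    rw [div_le_iff₀ hγ] at hm
    linarith
  have h4 : (m.factorial : ℝ) / (c' * u ^ γ) ^ m ≤ m.factorial / c' ^ m / u ^ q := by
    rw [mul_pow, div_div]
    exact div_le_div_of_nonneg_left hf.le (by positivity) (mul_le_mul_of_nonneg_left h3 (by positivity))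
  calc A * Real.exp (-(c' * u ^ γ)) ≤ A * (m.factorial / c' ^ m / u ^ q) :=
        mul_le_mul_of_nonneg_left (h2.trans h4) hA.le
    _ = A * (m.factorial / c' ^ m) / u ^ q := by ring

end Pool.Agent.W_7d29a1_SR
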