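import Pool.Agent.W_7d29a1_SR.ExitS

/-!
THEOREM (SR) (hand-in ScalingLaw), proofs row 626, section (S5), with stretched exponential rates.
-/

namespace Pool.Agent.W_7d29a1_SR

open MeasureTheory ProbabilityTheory Filter Topology
open Pool.Agent.W_7d29a1_F Pool.Agent.W_7d29a1_h4g Pool.Agent.W_7d29a1_G Pool.Agent.W_7d29a1_L

variable {μ : Measure ℝ} [IsProbabilityMeasure μ] {c C : ℝ} {n₀ : ℕ}

/-- (S5) EXIT, stretched exponential. The hypothesis `ht` is `tail_V_exp`. -/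
theorem exitE (h : In μ c C n₀) (ht : ∃ A a g : ℝ, 0 < a ∧ 0 < g ∧ g ≤ 1 ∧ ∀ n : ℕ, 1 ≤ n → ∀ u : ℝ, 0 ≤ u →
      (law μ).real {η | V μ 0 η 0 n ≤ -(u * EE μ n)} ≤ A * Real.exp (-(a * u ^ g))) :
    ∃ A a g c' : ℝ, 0 < a ∧ 0 < g ∧ g ≤ 1 ∧ 0 < c' ∧ ∃ n₁ : ℕ, ∀ n, n₁ ≤ n → ∀ R : ℝ, 1 ≤ R →
      (law μ).real {η | Real.exp (-(c' * R * EE μ n)) * Real.exp (V μ 0 η 0 n) ≤
        Real.exp (V μ 0 η 0 n) - cf μ (R * wd μ n) η 0 n} ≤ A * Real.exp (-(a * R ^ g)) := by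
  obtain ⟨At, a, g, ha, hg, hg1, hAt⟩ := ht
  have hc0 := h.c0
  have hC0 : 0 < C := lt_of_lt_of_le one_pos h.C1
  obtain ⟨R0, hR01, hu, n₁, hn₁, hmain⟩ := exit_main h
  obtain ⟨a', ha'⟩ : ∃ a' : ℝ, a' = min (c / (16 * C)) (a * (c / 16) ^ g) := ⟨_, rfl⟩
  have ha0 : 0 < a' := by
    rw [ha']
    refine lt_min (by positivity) (mul_pos ha (Real.rpow_pos_of_pos (by positivity) g))
  have ha1 : a' ≤ c / (16 * C) := by rw [ha']; exact min_le_left _ _
  have ha2 : a' ≤ a * (c / 16) ^ g := by rw [ha']; exact min_le_right _ _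
  refine ⟨Real.exp (a' * R0 ^ g) + 4 * C + |At|, a', g, c / 64, ha0, hg, hg1, by positivity, n₁, fun n hn R hR => ?_⟩
  have hRp : 0 < R := lt_of_lt_of_le one_pos hR
  have hX0 : 0 < Real.exp (-(a' * R ^ g)) := Real.exp_pos _
  rcases lt_or_ge R R0 with hRR | hRR
  · refine measureReal_le_one.trans ?_
    have h1 : R ^ g ≤ R0 ^ g := Real.rpow_le_rpow hRp.le hRR.le hg.le
    have h2 : 1 ≤ Real.exp (a' * R0 ^ g) * Real.exp (-(a' * R ^ g)) := by
      rw [← Real.exp_add]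
      refine Real.one_le_exp ?_
      have := mul_le_mul_of_nonneg_left h1 ha0.le
      linarith
    have h3 : 0 ≤ (4 * C + |At|) * Real.exp (-(a' * R ^ g)) := by positivity
    have h4 : (Real.exp (a' * R0 ^ g) + 4 * C + |At|) * Real.exp (-(a' * R ^ g)) =
        Real.exp (a' * R0 ^ g) * Real.exp (-(a' * R ^ g)) + (4 * C + |At|) * Real.exp (-(a' * R ^ g)) := by ring
    linarith
  refine (hmain n hn R hRR).trans ?_
  have hRg : R ^ g ≤ R := by
    calc R ^ g ≤ R ^ (1 : ℝ) := Real.rpow_le_rpow_of_exponent_le hR hg1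
      _ = R := Real.rpow_one R
  have hRg0 : 0 ≤ R ^ g := Real.rpow_nonneg hRp.le g
  have h1 : Real.exp (-(c * R / (16 * C))) ≤ Real.exp (-(a' * R ^ g)) := by
    refine Real.exp_le_exp.2 ?_
    have e1 : c * R / (16 * C) = c / (16 * C) * R := by ring
    have h2 : a' * R ^ g ≤ c / (16 * C) * R := mul_le_mul ha1 hRg hRg0 (by positivity)
    linarith
  have h2 : (law μ).real {η | V μ 0 η 0 n ≤ -(c * R / 16 * EE μ n)} ≤ |At| * Real.exp (-(a' * R ^ g)) := by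
    have h3 := hAt n (hn₁.trans hn) (c * R / 16) (by positivity)
    have e1 : (c * R / 16) ^ g = (c / 16) ^ g * R ^ g := by
      rw [← Real.mul_rpow (by positivity) hRp.le]
      congr 1
      ring
    have h4 : Real.exp (-(a * (c * R / 16) ^ g)) ≤ Real.exp (-(a' * R ^ g)) := by
      refine Real.exp_le_exp.2 ?_
      rw [e1]
      have := mul_le_mul_of_nonneg_right ha2 hRg0
      linarith
    refine h3.trans ?_
    calc At * Real.exp (-(a * (c * R / 16) ^ g)) ≤ |At| * Real.exp (-(a * (c * R / 16) ^ g)) :=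
          mul_le_mul_of_nonneg_right (le_abs_self _) (Real.exp_nonneg _)
      _ ≤ |At| * Real.exp (-(a' * R ^ g)) := mul_le_mul_of_nonneg_left h4 (abs_nonneg _)
  have h3 := mul_le_mul_of_nonneg_left h1 hC0.le
  have h4 : 0 ≤ Real.exp (a' * R0 ^ g) * Real.exp (-(a' * R ^ g)) := by positivity
  have h5 : (Real.exp (a' * R0 ^ g) + 4 * C + |At|) * Real.exp (-(a' * R ^ g)) =
      Real.exp (a' * R0 ^ g) * Real.exp (-(a' * R ^ g)) + 4 * (C * Real.exp (-(a' * R ^ g))) +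
        |At| * Real.exp (-(a' * R ^ g)) := by ring
  rw [h5]
  linarith

end Pool.Agent.W_7d29a1_SR
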