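import Mathlib

/-!
MP_7d29a1_pr, THEOREM (SR), clause (6): if the rate function behaves like `|v| ^ κ` at `0` (in the logarithmic sense) then the
exponents of the standard deviation and of the width satisfy `x = 1 - κ (1 - a)`; `κ = 2` is the scaling relation `χ = 2 ν - 1`
(pure; helper12).
-/

set_option autoImplicit false

namespace Pool.Agent.W_7d29a1_SR

open Filter Topology

lemma limsup_le_of_eps {x y : ℕ → ℝ} (hx : IsBoundedUnder (· ≥ ·) atTop x) (hy : IsBoundedUnder (· ≤ ·) atTop y)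
    (h : ∀ ε : ℝ, 0 < ε → ∀ᶠ n in atTop, x n ≤ y n + ε) : limsup x atTop ≤ limsup y atTop := by
  refine le_of_forall_gt_imp_ge_of_dense fun b hb => ?_
  obtain ⟨b', hb1, hb2⟩ := exists_between hb
  refine limsup_le_of_le hx.isCoboundedUnder_le ?_
  filter_upwards [h (b - b') (by linarith), eventually_lt_of_limsup_lt hb1 hy] with n h1 h2
  linarith

lemma le_liminf_of_eps {x y : ℕ → ℝ} (hx : IsBoundedUnder (· ≤ ·) atTop x) (hy : IsBoundedUnder (· ≥ ·) atTop y)
    (h : ∀ ε : ℝ, 0 < ε → ∀ᶠ n in atTop, y n ≤ x n + ε) : liminf y atTop ≤ liminf x atTop := by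
  refine le_of_forall_lt_imp_le_of_dense fun b hb => ?_
  obtain ⟨b', hb1, hb2⟩ := exists_between hb
  refine le_liminf_of_le hx.isCoboundedUnder_ge ?_
  filter_upwards [h (b' - b) (by linarith), eventually_lt_of_lt_liminf hb2 hy] with n h1 h2
  linarith

/-- Sequences with vanishing difference have the same limits superior and inferior. -/
theorem limsup_eq_of_sub {x y : ℕ → ℝ} (hy1 : IsBoundedUnder (· ≤ ·) atTop y) (hy2 : IsBoundedUnder (· ≥ ·) atTop y)
    (h : Tendsto (fun n => x n - y n) atTop (𝓝 0)) :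
    limsup x atTop = limsup y atTop ∧ liminf x atTop = liminf y atTop := by
  have h1 : ∀ ε : ℝ, 0 < ε → ∀ᶠ n in atTop, x n ≤ y n + ε := by
    intro ε hε
    filter_upwards [h.eventually (gt_mem_nhds hε)] with n hn
    linarith
  have h2 : ∀ ε : ℝ, 0 < ε → ∀ᶠ n in atTop, y n ≤ x n + ε := by
    intro ε hε
    filter_upwards [h.eventually (lt_mem_nhds (show -ε < 0 by linarith))] with n hn
    linarith
  have hx1 : IsBoundedUnder (· ≤ ·) atTop x := by
    obtain ⟨b, hb⟩ := hy1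
    refine ⟨b + 1, ?_⟩
    rw [eventually_map] at hb ⊢
    filter_upwards [hb, h1 1 one_pos] with n h3 h4
    linarith
  have hx2 : IsBoundedUnder (· ≥ ·) atTop x := by
    obtain ⟨b, hb⟩ := hy2
    refine ⟨b - 1, ?_⟩
    rw [eventually_map] at hb ⊢
    filter_upwards [hb, h2 1 one_pos] with n h3 h4
    simp only [ge_iff_le] at h3 ⊢
    linarith
  exact ⟨le_antisymm (limsup_le_of_eps hx2 hy1 h1) (limsup_le_of_eps hy2 hx1 h2),
    le_antisymm (le_liminf_of_eps hy1 hx2 h1) (le_liminf_of_eps hx1 hy2 h2)⟩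

/-- The logarithmic size of the width is in `[0, 1]`. -/
lemma kappa_mem {w : ℕ → ℝ} {n₁ : ℕ} {c : ℝ} (hc : 0 < c) (hw1 : ∀ n, n₁ ≤ n → 1 ≤ w n)
    (hw2 : ∀ n, n₁ ≤ n → w n ≤ (n : ℝ) ^ (1 - c)) {n : ℕ} (hn : n₁ ≤ n) (hn2 : 2 ≤ n) :
    0 ≤ Real.log (w n) / Real.log n ∧ Real.log (w n) / Real.log n ≤ 1 := by
  have hn2' : (2 : ℝ) ≤ n := by exact_mod_cast hn2
  have hl : 0 < Real.log n := Real.log_pos (by linarith)
  have hwp : 0 < w n := by linarith [hw1 n hn]
  refine ⟨div_nonneg (Real.log_nonneg (hw1 n hn)) hl.le, ?_⟩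
  rw [div_le_one hl]
  refine Real.log_le_log hwp ((hw2 n hn).trans ?_)
  calc (n : ℝ) ^ (1 - c) ≤ (n : ℝ) ^ (1 : ℝ) := Real.rpow_le_rpow_of_exponent_le (by linarith) (by linarith)
    _ = n := Real.rpow_one _

/-- The exponents of the standard deviation and of the width at the scale `n`. -/
theorem kappa_diff {J : ℝ → ℝ} {σ w : ℕ → ℝ} {n₁ : ℕ} {κ a A c : ℝ}
    (hκ : Tendsto (fun v : ℝ => Real.log (J v) / Real.log v) (𝓝[>] 0) (𝓝 κ)) (hc : 0 < c)
    (hw1 : ∀ n, n₁ ≤ n → 1 ≤ w n) (hw2 : ∀ n, n₁ ≤ n → w n ≤ (n : ℝ) ^ (1 - c)) (ha : 0 < a) (hA : 0 < A)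
    (hσ : ∀ n, n₁ ≤ n → 0 < σ n) (h1 : ∀ n, n₁ ≤ n → a * (n * J (w n / n)) ≤ σ n)
    (h2 : ∀ n, n₁ ≤ n → σ n ≤ A * (n * J (w n / n))) :
    Tendsto (fun n : ℕ => Real.log (σ n) / Real.log n - (1 - κ * (1 - Real.log (w n) / Real.log n))) atTop (𝓝 0) := by
  have hlog : Tendsto (fun n : ℕ => Real.log n) atTop atTop := Real.tendsto_log_atTop.comp tendsto_natCast_atTop_atTop
  -- the slopes tend to zero
  have hv0 : Tendsto (fun n : ℕ => w n / n) atTop (𝓝[>] 0) := by
    refine tendsto_nhdsWithin_iff.2 ⟨?_, ?_⟩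
    · have h3 : Tendsto (fun n : ℕ => (n : ℝ) ^ (-c)) atTop (𝓝 0) :=
        (tendsto_rpow_neg_atTop hc).comp tendsto_natCast_atTop_atTop
      refine tendsto_of_tendsto_of_tendsto_of_le_of_le' tendsto_const_nhds h3 ?_ ?_
      · filter_upwards [eventually_ge_atTop n₁] with n hn
        have := hw1 n hn
        positivity
      · filter_upwards [eventually_ge_atTop n₁, eventually_ge_atTop 1] with n hn hn1
        have hnp : (0 : ℝ) < n := by exact_mod_cast hn1
        rw [div_le_iff₀ hnp]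
        refine (hw2 n hn).trans_eq ?_
        rw [← Real.rpow_add_one hnp.ne']
        congr 1
        ring
    · filter_upwards [eventually_ge_atTop n₁, eventually_ge_atTop 1] with n hn hn1
      have hnp : (0 : ℝ) < n := by exact_mod_cast hn1
      have := hw1 n hn
      exact div_pos (by linarith) hnp
  have hκn : Tendsto (fun n : ℕ => Real.log (J (w n / n)) / Real.log (w n / n)) atTop (𝓝 κ) := hκ.comp hv0
  have hJp : ∀ n, n₁ ≤ n → 1 ≤ n → 0 < J (w n / n) := by
    intro n hn hn1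
    have hnp : (0 : ℝ) < n := by exact_mod_cast hn1
    have h6 : 0 < A * (n * J (w n / n)) := lt_of_lt_of_le (hσ n hn) (h2 n hn)
    exact pos_of_mul_pos_right (pos_of_mul_pos_right h6 hA.le) hnp.le
  have hz : Tendsto (fun n : ℕ => (|Real.log A| + |Real.log a|) / Real.log n +
      |Real.log (J (w n / n)) / Real.log (w n / n) - κ|) atTop (𝓝 0) := by
    have h3 : Tendsto (fun n : ℕ => (|Real.log A| + |Real.log a|) / Real.log n) atTop (𝓝 0) :=
      tendsto_const_nhds.div_atTop hlog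
    have h4 : Tendsto (fun n : ℕ => |Real.log (J (w n / n)) / Real.log (w n / n) - κ|) atTop (𝓝 0) := by
      have h5 := (hκn.sub_const κ).abs
      rwa [sub_self, abs_zero] at h5
    have h5 := h3.add h4
    rwa [add_zero] at h5
  refine squeeze_zero_norm' ?_ hz
  have hv1 : ∀ᶠ n : ℕ in atTop, w n / n < 1 :=
    (tendsto_nhdsWithin_iff.1 hv0).1.eventually (gt_mem_nhds one_pos)
  filter_upwards [hv1, eventually_ge_atTop n₁, eventually_ge_atTop 2] with n hv hn hn2
  have hn2' : (2 : ℝ) ≤ n := by exact_mod_cast hn2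
  have hnp : (0 : ℝ) < n := by linarith
  have hl : 0 < Real.log n := Real.log_pos (by linarith)
  have hwp : 0 < w n := by linarith [hw1 n hn]
  have hvp : 0 < w n / n := div_pos hwp hnp
  have hlv : Real.log (w n / n) < 0 := Real.log_neg hvp hv
  have hJ := hJp n hn (by omega)
  obtain ⟨ha0, ha1⟩ := kappa_mem hc hw1 hw2 hn hn2
  obtain ⟨x, hx⟩ : ∃ x, x = Real.log (w n) / Real.log n := ⟨_, rfl⟩
  obtain ⟨k, hk⟩ : ∃ k, k = Real.log (J (w n / n)) / Real.log (w n / n) := ⟨_, rfl⟩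
  rw [← hx] at ha0 ha1 ⊢
  rw [← hk]
  have hwx : Real.log (w n) = x * Real.log n := by rw [hx, div_mul_cancel₀ _ hl.ne']
  have hJk : Real.log (J (w n / n)) = k * ((x - 1) * Real.log n) := by
    have h3 : Real.log (w n / n) = (x - 1) * Real.log n := by
      rw [Real.log_div hwp.ne' hnp.ne', hwx]
      ring
    rw [← h3, hk, div_mul_cancel₀ _ hlv.ne]
  have hup : Real.log (σ n) ≤ Real.log A + (Real.log n + k * ((x - 1) * Real.log n)) := by
    have h3 := Real.log_le_log (hσ n hn) (h2 n hn)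
    rwa [Real.log_mul hA.ne' (by positivity), Real.log_mul hnp.ne' hJ.ne', hJk] at h3
  have hlo : Real.log a + (Real.log n + k * ((x - 1) * Real.log n)) ≤ Real.log (σ n) := by
    have h3 := Real.log_le_log (by positivity) (h1 n hn)
    rwa [Real.log_mul ha.ne' (by positivity), Real.log_mul hnp.ne' hJ.ne', hJk] at h3
  have e : Real.log (σ n) / Real.log n - (1 - κ * (1 - x)) =
      (Real.log (σ n) - (Real.log n + k * ((x - 1) * Real.log n))) / Real.log n + (k - κ) * (x - 1) := by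
    field_simp
    ring
  rw [e]
  refine (norm_add_le _ _).trans (add_le_add ?_ ?_)
  · rw [norm_div, Real.norm_eq_abs, Real.norm_eq_abs, abs_of_pos hl]
    refine div_le_div_of_nonneg_right ?_ hl.le
    rw [abs_le]
    have h3 := neg_abs_le (Real.log a)
    have h4 := le_abs_self (Real.log A)
    have h5 := abs_nonneg (Real.log a)
    have h6 := abs_nonneg (Real.log A)
    constructor <;> linarith
  · rw [norm_mul, Real.norm_eq_abs, Real.norm_eq_abs]
    have h3 : |x - 1| ≤ 1 := by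
      rw [abs_le]
      constructor <;> linarith
    calc |k - κ| * |x - 1| ≤ |k - κ| * 1 := mul_le_mul_of_nonneg_left h3 (abs_nonneg _)
      _ = _ := mul_one _

/-- **The scaling relation** for a rate function with the exponent `κ` at `0`: `σ n` is of the order of `n J (w n / n)`. -/
theorem kappa_relation {J : ℝ → ℝ} {σ w : ℕ → ℝ} {n₁ : ℕ} {κ a A c : ℝ}
    (hκ : Tendsto (fun v : ℝ => Real.log (J v) / Real.log v) (𝓝[>] 0) (𝓝 κ)) (hκ0 : 0 ≤ κ) (hc : 0 < c)
    (hw1 : ∀ n, n₁ ≤ n → 1 ≤ w n) (hw2 : ∀ n, n₁ ≤ n → w n ≤ (n : ℝ) ^ (1 - c)) (ha : 0 < a) (hA : 0 < A)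
    (hσ : ∀ n, n₁ ≤ n → 0 < σ n) (h1 : ∀ n, n₁ ≤ n → a * (n * J (w n / n)) ≤ σ n)
    (h2 : ∀ n, n₁ ≤ n → σ n ≤ A * (n * J (w n / n))) :
    limsup (fun n : ℕ => Real.log (σ n) / Real.log n) atTop =
        1 - κ * (1 - limsup (fun n : ℕ => Real.log (w n) / Real.log n) atTop) ∧
      liminf (fun n : ℕ => Real.log (σ n) / Real.log n) atTop =
        1 - κ * (1 - liminf (fun n : ℕ => Real.log (w n) / Real.log n) atTop) := by
  have hmem : ∀ n : ℕ, n₁ ≤ n → 2 ≤ n → 0 ≤ Real.log (w n) / Real.log n ∧ Real.log (w n) / Real.log n ≤ 1 :=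
    fun n hn hn2 => kappa_mem hc hw1 hw2 hn hn2
  have hb1 : IsBoundedUnder (· ≤ ·) atTop (fun n : ℕ => Real.log (w n) / Real.log n) := by
    refine ⟨1, ?_⟩
    rw [eventually_map]
    filter_upwards [eventually_ge_atTop n₁, eventually_ge_atTop 2] with n h1 h2 using (hmem n h1 h2).2
  have hb2 : IsBoundedUnder (· ≥ ·) atTop (fun n : ℕ => Real.log (w n) / Real.log n) := by
    refine ⟨0, ?_⟩
    rw [eventually_map]
    filter_upwards [eventually_ge_atTop n₁, eventually_ge_atTop 2] with n h1 h2 using (hmem n h1 h2).1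
  have hdiff := kappa_diff hκ hc hw1 hw2 ha hA hσ h1 h2
  -- the affine map
  have hmono : Monotone fun t : ℝ => 1 - κ * (1 - t) := fun s t hst => by
    have := mul_le_mul_of_nonneg_left hst hκ0
    simp only
    linarith
  have hcont : Continuous fun t : ℝ => 1 - κ * (1 - t) := by fun_prop
  have hy1 : IsBoundedUnder (· ≤ ·) atTop (fun n : ℕ => 1 - κ * (1 - Real.log (w n) / Real.log n)) := by
    refine ⟨1, ?_⟩
    rw [eventually_map]
    filter_upwards [eventually_ge_atTop n₁, eventually_ge_atTop 2] with n h1 h2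
    have h3 := mul_le_mul_of_nonneg_left (hmem n h1 h2).2 hκ0
    linarith
  have hy2 : IsBoundedUnder (· ≥ ·) atTop (fun n : ℕ => 1 - κ * (1 - Real.log (w n) / Real.log n)) := by
    refine ⟨1 - κ, ?_⟩
    rw [eventually_map]
    filter_upwards [eventually_ge_atTop n₁, eventually_ge_atTop 2] with n h1 h2
    have h3 := mul_le_mul_of_nonneg_left (hmem n h1 h2).1 hκ0
    simp only [ge_iff_le]
    linarith
  obtain ⟨e1, e2⟩ := limsup_eq_of_sub hy1 hy2 hdiff
  refine ⟨e1.trans ?_, e2.trans ?_⟩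
  · exact (hmono.map_limsup_of_continuousAt (fun n : ℕ => Real.log (w n) / Real.log n) hcont.continuousAt hb1
      hb2.isCoboundedUnder_le).symm
  · exact (hmono.map_liminf_of_continuousAt (fun n : ℕ => Real.log (w n) / Real.log n) hcont.continuousAt
      hb1.isCoboundedUnder_ge hb2).symm

/-- The lower exponent of the standard deviation is at least half of `1 -` the upper exponent of the width if `n ≤ C w σ²`. -/
theorem liminf_ge_of_w {σ w : ℕ → ℝ} {n₁ : ℕ} {a c B : ℝ} (hc : 0 < c) (hw1 : ∀ n, n₁ ≤ n → 1 ≤ w n)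
    (hw2 : ∀ n, n₁ ≤ n → w n ≤ (n : ℝ) ^ (1 - c)) (ha : 0 < a) (hσ : ∀ n, n₁ ≤ n → 0 < σ n)
    (hσB : ∀ n, n₁ ≤ n → σ n ≤ (n : ℝ) ^ B) (hn : ∀ n, n₁ ≤ n → a * n ≤ w n * σ n ^ 2) :
    (1 - limsup (fun n : ℕ => Real.log (w n) / Real.log n) atTop) / 2 ≤
      liminf (fun n : ℕ => Real.log (σ n) / Real.log n) atTop := by
  have hlog : Tendsto (fun n : ℕ => Real.log n) atTop atTop := Real.tendsto_log_atTop.comp tendsto_natCast_atTop_atTop
  have hb1 : IsBoundedUnder (· ≤ ·) atTop (fun n : ℕ => Real.log (w n) / Real.log n) := by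
    refine ⟨1, ?_⟩
    rw [eventually_map]
    filter_upwards [eventually_ge_atTop n₁, eventually_ge_atTop 2] with n h1 h2 using (kappa_mem hc hw1 hw2 h1 h2).2
  have hx1 : IsBoundedUnder (· ≤ ·) atTop (fun n : ℕ => Real.log (σ n) / Real.log n) := by
    refine ⟨B, ?_⟩
    rw [eventually_map]
    filter_upwards [eventually_ge_atTop n₁, eventually_ge_atTop 2] with n h1 h2
    have hn2' : (2 : ℝ) ≤ n := by exact_mod_cast h2
    have hl : 0 < Real.log n := Real.log_pos (by linarith)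
    rw [div_le_iff₀ hl, ← Real.log_rpow (by linarith)]
    exact Real.log_le_log (hσ n h1) (hσB n h1)
  refine le_of_forall_lt_imp_le_of_dense fun b hb => ?_
  obtain ⟨l, hl⟩ : ∃ l, l = limsup (fun n : ℕ => Real.log (w n) / Real.log n) atTop := ⟨_, rfl⟩
  rw [← hl] at hb
  obtain ⟨e, he⟩ : ∃ e, e = (1 - l) / 2 - b := ⟨_, rfl⟩
  have he0 : 0 < e := by rw [he]; linarith
  refine le_liminf_of_le hx1.isCoboundedUnder_ge ?_
  have hz : Tendsto (fun n : ℕ => |Real.log a| / Real.log n) atTop (𝓝 0) := tendsto_const_nhds.div_atTop hlog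
  filter_upwards [eventually_lt_of_limsup_lt (show limsup (fun n : ℕ => Real.log (w n) / Real.log n) atTop < l + e by
    rw [← hl]; linarith) hb1, hz.eventually (gt_mem_nhds he0), eventually_ge_atTop n₁, eventually_ge_atTop 2]
    with n h1 h2 h3 h4
  have hn2' : (2 : ℝ) ≤ n := by exact_mod_cast h4
  have hnp : (0 : ℝ) < n := by linarith
  have hlp : 0 < Real.log n := Real.log_pos (by linarith)
  have hwp : 0 < w n := by linarith [hw1 n h3]
  have hσp := hσ n h3
  have h5 := Real.log_le_log (by positivity) (hn n h3)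
  rw [Real.log_mul ha.ne' hnp.ne', Real.log_mul hwp.ne' (by positivity), Real.log_pow] at h5
  push_cast at h5
  rw [div_lt_iff₀ hlp] at h1 h2
  rw [le_div_iff₀ hlp]
  have h6 := neg_abs_le (Real.log a)
  have h7 : b * Real.log n = ((1 - l) / 2 - e) * Real.log n := by rw [he]; ring
  nlinarith

/-- **The window of the exponents**: with the exponent `κ` of the rate function at `0`, `n ≤ C w σ²` and `σ ≤ C n ^ (1 / 2)`
give `(2 κ - 1) / (2 κ + 1) ≤ liminf log w / log n` and `limsup log w / log n ≤ 1 - 1 / (2 κ)`. -/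
theorem kappa_window {J : ℝ → ℝ} {σ w : ℕ → ℝ} {n₁ : ℕ} {κ a A c b B : ℝ}
    (hκ : Tendsto (fun v : ℝ => Real.log (J v) / Real.log v) (𝓝[>] 0) (𝓝 κ)) (hκ0 : 0 < κ) (hc : 0 < c)
    (hw1 : ∀ n, n₁ ≤ n → 1 ≤ w n) (hw2 : ∀ n, n₁ ≤ n → w n ≤ (n : ℝ) ^ (1 - c)) (ha : 0 < a) (hA : 0 < A)
    (hσ : ∀ n, n₁ ≤ n → 0 < σ n) (h1 : ∀ n, n₁ ≤ n → a * (n * J (w n / n)) ≤ σ n)
    (h2 : ∀ n, n₁ ≤ n → σ n ≤ A * (n * J (w n / n))) (hb : 0 < b) (hn : ∀ n, n₁ ≤ n → b * n ≤ w n * σ n ^ 2)
    (hB : 0 < B) (hσB : ∀ n, n₁ ≤ n → σ n ≤ B * (n : ℝ) ^ (1 / 2 : ℝ)) :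
    (2 * κ - 1) / (2 * κ + 1) ≤ liminf (fun n : ℕ => Real.log (w n) / Real.log n) atTop ∧
      limsup (fun n : ℕ => Real.log (w n) / Real.log n) atTop ≤ 1 - 1 / (2 * κ) := by
  have hlog : Tendsto (fun n : ℕ => Real.log n) atTop atTop := Real.tendsto_log_atTop.comp tendsto_natCast_atTop_atTop
  have hb1 : IsBoundedUnder (· ≤ ·) atTop (fun n : ℕ => Real.log (w n) / Real.log n) := by
    refine ⟨1, ?_⟩
    rw [eventually_map]
    filter_upwards [eventually_ge_atTop n₁, eventually_ge_atTop 2] with n h1 h2 using (kappa_mem hc hw1 hw2 h1 h2).2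
  have hb2 : IsBoundedUnder (· ≥ ·) atTop (fun n : ℕ => Real.log (w n) / Real.log n) := by
    refine ⟨0, ?_⟩
    rw [eventually_map]
    filter_upwards [eventually_ge_atTop n₁, eventually_ge_atTop 2] with n h1 h2 using (kappa_mem hc hw1 hw2 h1 h2).1
  have hdiff := kappa_diff hκ hc hw1 hw2 ha hA hσ h1 h2
  have hzb : Tendsto (fun n : ℕ => |Real.log b| / Real.log n) atTop (𝓝 0) := tendsto_const_nhds.div_atTop hlog
  have hzB : Tendsto (fun n : ℕ => |Real.log B| / Real.log n) atTop (𝓝 0) := tendsto_const_nhds.div_atTop hlog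
  constructor
  · refine le_of_forall_lt_imp_le_of_dense fun x hx => ?_
    obtain ⟨e, he⟩ : ∃ e, e = ((2 * κ - 1) / (2 * κ + 1) - x) * (2 * κ + 1) / 3 := ⟨_, rfl⟩
    have he0 : 0 < e := by rw [he]; have : 0 < (2 * κ - 1) / (2 * κ + 1) - x := by linarith
                           positivity
    have he3 : (2 * κ + 1) * x = 2 * κ - 1 - 3 * e := by
      rw [he]
      field_simp
      ring
    refine le_liminf_of_le hb1.isCoboundedUnder_ge ?_
    filter_upwards [hdiff.eventually (gt_mem_nhds he0), hzb.eventually (gt_mem_nhds he0), eventually_ge_atTop n₁,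
      eventually_ge_atTop 2] with n g1 g2 g3 g4
    have hn2' : (2 : ℝ) ≤ n := by exact_mod_cast g4
    have hnp : (0 : ℝ) < n := by linarith
    have hlp : 0 < Real.log n := Real.log_pos (by linarith)
    have hwp : 0 < w n := by linarith [hw1 n g3]
    have hσp := hσ n g3
    have h5 := Real.log_le_log (by positivity) (hn n g3)
    rw [Real.log_mul hb.ne' hnp.ne', Real.log_mul hwp.ne' (by positivity), Real.log_pow] at h5
    push_cast at h5
    obtain ⟨u, hu⟩ : ∃ u, u = Real.log (w n) / Real.log n := ⟨_, rfl⟩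
    obtain ⟨v, hv⟩ : ∃ v, v = Real.log (σ n) / Real.log n := ⟨_, rfl⟩
    have e1 : Real.log (w n) = u * Real.log n := by rw [hu, div_mul_cancel₀ _ hlp.ne']
    have e2 : Real.log (σ n) = v * Real.log n := by rw [hv, div_mul_cancel₀ _ hlp.ne']
    rw [e1, e2] at h5
    rw [← hu, ← hv] at g1
    rw [← hu]
    rw [div_lt_iff₀ hlp] at g2
    have h6 := neg_abs_le (Real.log b)
    have h7 : (1 - e) * Real.log n ≤ (u + 2 * v) * Real.log n := by nlinarith
    have h8 := le_of_mul_le_mul_right h7 hlp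
    nlinarith
  · refine le_of_forall_gt_imp_ge_of_dense fun x hx => ?_
    obtain ⟨e, he⟩ : ∃ e, e = (x - (1 - 1 / (2 * κ))) * κ / 2 := ⟨_, rfl⟩
    have he0 : 0 < e := by rw [he]; have : 0 < x - (1 - 1 / (2 * κ)) := by linarith
                           positivity
    have he3 : κ * x = κ - 1 / 2 + 2 * e := by
      rw [he]
      field_simp
      ring
    refine limsup_le_of_le hb2.isCoboundedUnder_le ?_
    filter_upwards [hdiff.eventually (lt_mem_nhds (show -e < 0 by linarith)), hzB.eventually (gt_mem_nhds he0),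
      eventually_ge_atTop n₁, eventually_ge_atTop 2] with n g1 g2 g3 g4
    have hn2' : (2 : ℝ) ≤ n := by exact_mod_cast g4
    have hnp : (0 : ℝ) < n := by linarith
    have hlp : 0 < Real.log n := Real.log_pos (by linarith)
    have hσp := hσ n g3
    have h5 := Real.log_le_log hσp (hσB n g3)
    rw [Real.log_mul hB.ne' (Real.rpow_pos_of_pos hnp _).ne', Real.log_rpow hnp] at h5
    obtain ⟨u, hu⟩ : ∃ u, u = Real.log (w n) / Real.log n := ⟨_, rfl⟩
    obtain ⟨v, hv⟩ : ∃ v, v = Real.log (σ n) / Real.log n := ⟨_, rfl⟩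
    have e2 : Real.log (σ n) = v * Real.log n := by rw [hv, div_mul_cancel₀ _ hlp.ne']
    rw [e2] at h5
    rw [← hu, ← hv] at g1
    rw [← hu]
    rw [div_lt_iff₀ hlp] at g2
    have h6 := le_abs_self (Real.log B)
    have h7 : v * Real.log n ≤ (1 / 2 + e) * Real.log n := by nlinarith
    have h8 := le_of_mul_le_mul_right h7 hlp
    nlinarith

end Pool.Agent.W_7d29a1_SR
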