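import Mathlib

/-!
MP_7d29a1_pr, THEOREM (SR), S8: the exponents `ν` and `χ` of the problem from bounds at one scale (pure statements about
abstract sequences; helper12).
-/

set_option autoImplicit false

namespace Pool.Agent.W_7d29a1_SR

open MeasureTheory Filter Topology

/-- Nonnegative functions with summable integrals tend to zero almost surely. -/
theorem ae_tendsto_zero_of_sum {Ω : Type*} [MeasurableSpace Ω] {P : Measure Ω} {f : ℕ → Ω → ℝ}
    (hm : ∀ n, Measurable (f n)) (h0 : ∀ n x, 0 ≤ f n x) (hi : ∀ n, Integrable (f n) P)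
    (hs : Summable fun n => ∫ x, f n x ∂P) : ∀ᵐ x ∂P, Tendsto (fun n => f n x) atTop (𝓝 0) := by
  have h1 : ∫⁻ x, ∑' n, ENNReal.ofReal (f n x) ∂P = ∑' n, ∫⁻ x, ENNReal.ofReal (f n x) ∂P :=
    lintegral_tsum fun n => (hm n).ennreal_ofReal.aemeasurable
  have h2 : ∑' n, ∫⁻ x, ENNReal.ofReal (f n x) ∂P = ∑' n, ENNReal.ofReal (∫ x, f n x ∂P) := by
    congr 1
    funext n
    exact (ofReal_integral_eq_lintegral_ofReal (hi n) (Eventually.of_forall (h0 n))).symm
  have h3 : ∫⁻ x, ∑' n, ENNReal.ofReal (f n x) ∂P ≠ ⊤ := by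
    rw [h1, h2]
    exact hs.tsum_ofReal_ne_top
  have h4 := ae_lt_top (Measurable.tsum fun n => (hm n).ennreal_ofReal) h3
  filter_upwards [h4] with x hx
  have h5 := ENNReal.tendsto_atTop_zero_of_tsum_ne_top hx.ne
  have h6 := (ENNReal.tendsto_toReal ENNReal.zero_ne_top).comp h5
  simpa [Function.comp_def, ENNReal.toReal_ofReal (h0 _ x)] using h6

section nu

variable {Ω : Type*} [MeasurableSpace Ω] {P : Measure Ω} [IsProbabilityMeasure P] {p : ℕ → ℝ → Ω → ℝ}
  {w : ℕ → ℝ} {n₀ : ℕ}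

/-- The logarithmic size of the width is between `0` and `1`. -/
lemma logw_mem (hw1 : ∀ n, n₀ ≤ n → 1 ≤ w n) (hw2 : ∀ n, n₀ ≤ n → w n ≤ n) {n : ℕ} (hn : n₀ ≤ n) (hn2 : 2 ≤ n) :
    0 ≤ Real.log (w n) / Real.log n ∧ Real.log (w n) / Real.log n ≤ 1 := by
  have hn2' : (2 : ℝ) ≤ n := by exact_mod_cast hn2
  have hl : 0 < Real.log n := Real.log_pos (by linarith)
  refine ⟨div_nonneg (Real.log_nonneg (hw1 n hn)) hl.le, ?_⟩
  rw [div_le_one hl]
  exact Real.log_le_log (by linarith [hw1 n hn]) (hw2 n hn)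

lemma logw_bdd (hw1 : ∀ n, n₀ ≤ n → 1 ≤ w n) (hw2 : ∀ n, n₀ ≤ n → w n ≤ n) :
    IsBoundedUnder (· ≤ ·) atTop (fun n : ℕ => Real.log (w n) / Real.log n) ∧
      IsBoundedUnder (· ≥ ·) atTop fun n : ℕ => Real.log (w n) / Real.log n := by
  constructor
  · refine ⟨1, ?_⟩
    rw [eventually_map]
    filter_upwards [eventually_ge_atTop n₀, eventually_ge_atTop 2] with n h1 h2 using (logw_mem hw1 hw2 h1 h2).2
  · refine ⟨0, ?_⟩
    rw [eventually_map]
    filter_upwards [eventually_ge_atTop n₀, eventually_ge_atTop 2] with n h1 h2 using (logw_mem hw1 hw2 h1 h2).1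

/-- **The wandering exponent from the width**: `p n r x` is the polymer probability of the tube of radius `r`. -/
theorem nu_eq_limsup (hm : ∀ n r, Measurable (p n r)) (h0 : ∀ n r x, 0 ≤ p n r x) (h1 : ∀ n r x, p n r x ≤ 1)
    (hmono : ∀ n x r r', r ≤ r' → p n r x ≤ p n r' x) (hw1 : ∀ n, n₀ ≤ n → 1 ≤ w n) (hw2 : ∀ n, n₀ ≤ n → w n ≤ n)
    (hloc : ∀ q : ℕ, ∃ C : ℝ, ∀ n, n₀ ≤ n → ∀ R : ℝ, 1 ≤ R → 1 - ∫ x, p n (R * w n) x ∂P ≤ C * (R ^ q)⁻¹)
    (hspr : ∃ c d : ℝ, 0 < c ∧ 0 < d ∧ ∀ n, n₀ ≤ n → ∫ x, p n (c * w n) x ∂P ≤ 1 - d) :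
    sInf {a : ℝ | 0 < a ∧ ∫ x, liminf (fun n : ℕ => p n ((n : ℝ) ^ a) x) atTop ∂P = 1} =
      limsup (fun n : ℕ => Real.log (w n) / Real.log n) atTop := by
  obtain ⟨hb1, hb2⟩ := logw_bdd hw1 hw2
  set L : ℝ := limsup (fun n : ℕ => Real.log (w n) / Real.log n) atTop with hL
  set S : Set ℝ := {a : ℝ | 0 < a ∧ ∫ x, liminf (fun n : ℕ => p n ((n : ℝ) ^ a) x) atTop ∂P = 1} with hS
  have hL0 : 0 ≤ L := by
    refine le_limsup_of_frequently_le (Eventually.frequently ?_) hb1
    filter_upwards [eventually_ge_atTop n₀, eventually_ge_atTop 2] with n h1 h2 using (logw_mem hw1 hw2 h1 h2).1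
  have hi : ∀ n r, Integrable (p n r) P := fun n r => by
    refine Integrable.of_bound (hm n r).aestronglyMeasurable 1 (Eventually.of_forall fun x => ?_)
    rw [Real.norm_eq_abs, abs_of_nonneg (h0 n r x)]
    exact h1 n r x
  -- the exponents above the limsup
  have hup : ∀ a, L < a → a ∈ S := by
    intro a ha
    have ha0 : 0 < a := hL0.trans_lt ha
    refine ⟨ha0, ?_⟩
    obtain ⟨b, hLb, hba⟩ := exists_between ha
    have hev : ∀ᶠ n : ℕ in atTop, Real.log (w n) / Real.log n < b := eventually_lt_of_limsup_lt hLb hb1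
    obtain ⟨q, hq⟩ := exists_nat_ge (2 / (a - b))
    obtain ⟨C, hC⟩ := hloc q
    have hab : 0 < a - b := by linarith
    have hq' : 2 ≤ (a - b) * q := by
      rw [div_le_iff₀ hab] at hq
      linarith
    have key : ∀ᶠ n : ℕ in atTop, ∫ x, (1 - p n ((n : ℝ) ^ a) x) ∂P ≤ |C| * ((n : ℝ) ^ 2)⁻¹ := by
      filter_upwards [hev, eventually_ge_atTop n₀, eventually_ge_atTop 2] with n hn hn0 hn2
      have hn2' : (2 : ℝ) ≤ n := by exact_mod_cast hn2
      have hn1 : (1 : ℝ) ≤ n := by linarith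
      have hnp : (0 : ℝ) < n := by linarith
      have hl : 0 < Real.log n := Real.log_pos (by linarith)
      have hwp : 0 < w n := by linarith [hw1 n hn0]
      have hwb : w n ≤ (n : ℝ) ^ b := by
        rw [div_lt_iff₀ hl] at hn
        rw [← Real.log_le_log_iff hwp (Real.rpow_pos_of_pos hnp _), Real.log_rpow hnp]
        exact hn.le
      have hR1 : 1 ≤ (n : ℝ) ^ (a - b) := Real.one_le_rpow hn1 hab.le
      have hRw : (n : ℝ) ^ (a - b) * w n ≤ (n : ℝ) ^ a := by
        calc (n : ℝ) ^ (a - b) * w n ≤ (n : ℝ) ^ (a - b) * (n : ℝ) ^ b :=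
              mul_le_mul_of_nonneg_left hwb (by positivity)
          _ = (n : ℝ) ^ a := by
              rw [← Real.rpow_add hnp]
              congr 1
              ring
      have h5 : ∫ x, p n ((n : ℝ) ^ (a - b) * w n) x ∂P ≤ ∫ x, p n ((n : ℝ) ^ a) x ∂P :=
        integral_mono (hi _ _) (hi _ _) fun x => hmono n x _ _ hRw
      have h6 := hC n hn0 _ hR1
      have h7 : ((n : ℝ) ^ 2) ≤ ((n : ℝ) ^ (a - b)) ^ q := by
        rw [← Real.rpow_natCast ((n : ℝ) ^ (a - b)) q, ← Real.rpow_mul hnp.le, ← Real.rpow_natCast (n : ℝ) 2]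
        exact Real.rpow_le_rpow_of_exponent_le hn1 (by exact_mod_cast hq')
      have h8 : (((n : ℝ) ^ (a - b)) ^ q)⁻¹ ≤ ((n : ℝ) ^ 2)⁻¹ := inv_anti₀ (by positivity) h7
      have h9 : C * (((n : ℝ) ^ (a - b)) ^ q)⁻¹ ≤ |C| * ((n : ℝ) ^ 2)⁻¹ := by
        calc C * (((n : ℝ) ^ (a - b)) ^ q)⁻¹ ≤ |C| * (((n : ℝ) ^ (a - b)) ^ q)⁻¹ :=
              mul_le_mul_of_nonneg_right (le_abs_self C) (by positivity)
          _ ≤ _ := mul_le_mul_of_nonneg_left h8 (abs_nonneg C)
      rw [integral_sub (integrable_const _) (hi _ _)]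
      simp only [integral_const, probReal_univ, smul_eq_mul, mul_one]
      linarith
    have hsum : Summable fun n : ℕ => ∫ x, (1 - p n ((n : ℝ) ^ a) x) ∂P := by
      have h2 : Summable fun n : ℕ => |C| * ((n : ℝ) ^ 2)⁻¹ :=
        (Real.summable_nat_pow_inv.2 (by norm_num)).mul_left _
      refine summable_of_isBigO_nat h2 ?_
      refine Asymptotics.IsBigO.of_bound 1 ?_
      filter_upwards [key] with n hn
      have h3 : 0 ≤ ∫ x, (1 - p n ((n : ℝ) ^ a) x) ∂P := integral_nonneg fun x => by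
        have := h1 n ((n : ℝ) ^ a) x
        simp only [Pi.zero_apply]
        linarith
      rw [one_mul, Real.norm_eq_abs, Real.norm_eq_abs, abs_of_nonneg h3, abs_of_nonneg (by positivity)]
      exact hn
    have hae := ae_tendsto_zero_of_sum (P := P) (f := fun n x => 1 - p n ((n : ℝ) ^ a) x)
      (fun n => measurable_const.sub (hm _ _)) (fun n x => by linarith [h1 n ((n : ℝ) ^ a) x])
      (fun n => (integrable_const _).sub (hi _ _)) hsum
    have hae2 : ∀ᵐ x ∂P, liminf (fun n : ℕ => p n ((n : ℝ) ^ a) x) atTop = 1 := by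
      filter_upwards [hae] with x hx
      have h3 : Tendsto (fun n : ℕ => p n ((n : ℝ) ^ a) x) atTop (𝓝 1) := by
        have h4 := hx.const_sub 1
        simpa using h4
      exact h3.liminf_eq
    rw [integral_congr_ae hae2]
    simp
  -- the exponents of the set are at least the limsup
  have hlow : ∀ a ∈ S, L ≤ a := by
    intro a ha
    obtain ⟨ha0, ha1⟩ := ha
    by_contra hlt
    push Not at hlt
    obtain ⟨b, hab, hbL⟩ := exists_between hlt
    have hfr : ∃ᶠ n : ℕ in atTop, b < Real.log (w n) / Real.log n :=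
      frequently_lt_of_lt_limsup hb2.isCoboundedUnder_le hbL
    obtain ⟨c, d, hc, hd, hcd⟩ := hspr
    set g : Ω → ℝ := fun x => liminf (fun n : ℕ => p n ((n : ℝ) ^ a) x) atTop with hg
    have hbA : ∀ x, IsBoundedUnder (· ≤ ·) atTop fun n : ℕ => p n ((n : ℝ) ^ a) x := fun x =>
      ⟨1, eventually_map.2 (Eventually.of_forall fun n => h1 _ _ _)⟩
    have hbB : ∀ x, IsBoundedUnder (· ≥ ·) atTop fun n : ℕ => p n ((n : ℝ) ^ a) x := fun x =>
      ⟨0, eventually_map.2 (Eventually.of_forall fun n => h0 _ _ _)⟩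
    have hg1 : ∀ x, g x ≤ 1 := fun x =>
      liminf_le_of_frequently_le (Eventually.of_forall fun n => h1 _ _ _).frequently (hbB x)
    have hg0 : ∀ x, 0 ≤ g x := fun x =>
      le_liminf_of_le (hbA x).isCoboundedUnder_ge (Eventually.of_forall fun n => h0 _ _ _)
    have hgm : Measurable g := Measurable.liminf fun n => hm _ _
    have hgi : Integrable g P := Integrable.of_bound hgm.aestronglyMeasurable 1 (Eventually.of_forall fun x => by
      rw [Real.norm_eq_abs, abs_of_nonneg (hg0 x)]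
      exact hg1 x)
    have hgae : ∀ᵐ x ∂P, g x = 1 := by
      have h3 : ∫ x, (1 - g x) ∂P = 0 := by
        rw [integral_sub (integrable_const _) hgi, ha1]
        simp
      have h5 : ∀ x, 0 ≤ 1 - g x := fun x => by linarith [hg1 x]
      have h4 := (integral_eq_zero_iff_of_nonneg (f := fun x => 1 - g x) h5 ((integrable_const _).sub hgi)).1 h3
      filter_upwards [h4] with x hx
      have : 1 - g x = 0 := hx
      linarith
    have hae : ∀ᵐ x ∂P, Tendsto (fun n : ℕ => p n ((n : ℝ) ^ a) x) atTop (𝓝 1) := by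
      filter_upwards [hgae] with x hx
      refine tendsto_of_le_liminf_of_limsup_le hx.ge ?_ (hbA x) (hbB x)
      exact limsup_le_of_le (hbB x).isCoboundedUnder_le (Eventually.of_forall fun n => h1 _ _ _)
    have hlim : Tendsto (fun n : ℕ => ∫ x, p n ((n : ℝ) ^ a) x ∂P) atTop (𝓝 (∫ _, (1 : ℝ) ∂P)) := by
      refine tendsto_integral_of_dominated_convergence (fun _ => 1) (fun n => (hm _ _).aestronglyMeasurable)
        (integrable_const _) (fun n => Eventually.of_forall fun x => ?_) hae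
      rw [Real.norm_eq_abs, abs_of_nonneg (h0 n _ x)]
      exact h1 n _ x
    simp only [integral_const, probReal_univ, smul_eq_mul, mul_one] at hlim
    have hev1 : ∀ᶠ n : ℕ in atTop, 1 - d < ∫ x, p n ((n : ℝ) ^ a) x ∂P :=
      hlim.eventually (lt_mem_nhds (by linarith))
    have hev2 : ∀ᶠ n : ℕ in atTop, (n : ℝ) ^ a ≤ c * (n : ℝ) ^ b := by
      have h3 : Tendsto (fun n : ℕ => (n : ℝ) ^ (b - a)) atTop atTop :=
        (tendsto_rpow_atTop (by linarith)).comp tendsto_natCast_atTop_atTop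
      filter_upwards [h3.eventually_ge_atTop (1 / c), eventually_ge_atTop 1] with n hn hn1
      have hnp : (0 : ℝ) < n := by exact_mod_cast hn1
      have h4 : (n : ℝ) ^ b = (n : ℝ) ^ (b - a) * (n : ℝ) ^ a := by
        rw [← Real.rpow_add hnp]
        congr 1
        ring
      rw [div_le_iff₀ hc] at hn
      have h5 : 0 < (n : ℝ) ^ a := Real.rpow_pos_of_pos hnp _
      rw [h4]
      nlinarith
    obtain ⟨n, hn1, hn2, hn3, hn4, hn5⟩ := (hfr.and_eventually (hev1.and (hev2.and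
      ((eventually_ge_atTop n₀).and (eventually_ge_atTop 2))))).exists
    have hn2' : (2 : ℝ) ≤ n := by exact_mod_cast hn5
    have hnp : (0 : ℝ) < n := by linarith
    have hl : 0 < Real.log n := Real.log_pos (by linarith)
    have hwp : 0 < w n := by linarith [hw1 n hn4]
    have hwb : (n : ℝ) ^ b ≤ w n := by
      rw [lt_div_iff₀ hl] at hn1
      rw [← Real.log_le_log_iff (Real.rpow_pos_of_pos hnp _) hwp, Real.log_rpow hnp]
      exact hn1.le
    have h6 : (n : ℝ) ^ a ≤ c * w n := hn3.trans (mul_le_mul_of_nonneg_left hwb hc.le)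
    have h7 : ∫ x, p n ((n : ℝ) ^ a) x ∂P ≤ ∫ x, p n (c * w n) x ∂P :=
      integral_mono (hi _ _) (hi _ _) fun x => hmono n x _ _ h6
    have h8 := hcd n hn4
    linarith
  refine le_antisymm ?_ ?_
  · refine le_of_forall_gt_imp_ge_of_dense fun a ha => csInf_le ⟨L, hlow⟩ (hup a ha)
  · exact le_csInf ⟨L + 1, hup _ (by linarith)⟩ hlow

end nu

section chi

variable {s : ℕ → ℝ} {n₀ : ℕ}

/-- **The fluctuation exponent is the lower exponent of the standard deviation** `s n`. -/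
theorem chi_eq_liminf (hs1 : ∀ n, n₀ ≤ n → 1 ≤ s n) (hs2 : ∀ n, n₀ ≤ n → s n ≤ n) :
    sSup {x : ℝ | 0 < x ∧ ∀ᶠ n : ℕ in atTop, (n : ℝ) ^ (2 * x) ≤ s n ^ 2} =
      liminf (fun n : ℕ => Real.log (s n) / Real.log n) atTop := by
  obtain ⟨hb1, hb2⟩ := logw_bdd hs1 hs2
  set L : ℝ := liminf (fun n : ℕ => Real.log (s n) / Real.log n) atTop with hL
  have hL0 : 0 ≤ L := by
    refine le_liminf_of_le hb1.isCoboundedUnder_ge ?_
    filter_upwards [eventually_ge_atTop n₀, eventually_ge_atTop 2] with n h1 h2 using (logw_mem hs1 hs2 h1 h2).1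
  have hup : ∀ x ∈ {x : ℝ | 0 < x ∧ ∀ᶠ n : ℕ in atTop, (n : ℝ) ^ (2 * x) ≤ s n ^ 2}, x ≤ L := by
    rintro x ⟨-, hx⟩
    refine le_liminf_of_le hb1.isCoboundedUnder_ge ?_
    filter_upwards [hx, eventually_ge_atTop n₀, eventually_ge_atTop 2] with n hn hn0 hn2
    have hn2' : (2 : ℝ) ≤ n := by exact_mod_cast hn2
    have hnp : (0 : ℝ) < n := by linarith
    have hl : 0 < Real.log n := Real.log_pos (by linarith)
    have hsp : 0 < s n := by linarith [hs1 n hn0]
    rw [le_div_iff₀ hl]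
    have h3 := Real.log_le_log (Real.rpow_pos_of_pos hnp _) hn
    rw [Real.log_rpow hnp, Real.log_pow] at h3
    push_cast at h3
    linarith
  have hlow : ∀ x, 0 < x → x < L → x ∈ {x : ℝ | 0 < x ∧ ∀ᶠ n : ℕ in atTop, (n : ℝ) ^ (2 * x) ≤ s n ^ 2} := by
    intro x hx0 hx
    refine ⟨hx0, ?_⟩
    filter_upwards [eventually_lt_of_lt_liminf hx hb2, eventually_ge_atTop n₀, eventually_ge_atTop 2] with n hn hn0 hn2
    have hn2' : (2 : ℝ) ≤ n := by exact_mod_cast hn2
    have hnp : (0 : ℝ) < n := by linarith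
    have hl : 0 < Real.log n := Real.log_pos (by linarith)
    have hsp : 0 < s n := by linarith [hs1 n hn0]
    rw [lt_div_iff₀ hl] at hn
    rw [← Real.log_le_log_iff (Real.rpow_pos_of_pos hnp _) (by positivity), Real.log_rpow hnp, Real.log_pow]
    push_cast
    linarith
  rcases hL0.eq_or_lt with h0 | h0
  · have hemp : {x : ℝ | 0 < x ∧ ∀ᶠ n : ℕ in atTop, (n : ℝ) ^ (2 * x) ≤ s n ^ 2} = ∅ := by
      rw [Set.eq_empty_iff_forall_notMem]
      intro x hx
      have h1 := hup x hx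
      have h2 : 0 < x := hx.1
      linarith
    rw [hemp, Real.sSup_empty]
    exact h0
  · refine le_antisymm (csSup_le ⟨L / 2, hlow _ (by linarith) (by linarith)⟩ hup) ?_
    refine le_of_forall_lt_imp_le_of_dense fun x hx => ?_
    rcases le_or_gt x 0 with hx0 | hx0
    · have h1 : L / 2 ≤ sSup {x : ℝ | 0 < x ∧ ∀ᶠ n : ℕ in atTop, (n : ℝ) ^ (2 * x) ≤ s n ^ 2} :=
        le_csSup ⟨L, hup⟩ (hlow _ (by linarith) (by linarith))
      linarith
    · exact le_csSup ⟨L, hup⟩ (hlow x hx0 hx)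

end chi

end Pool.Agent.W_7d29a1_SR
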