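import Pool.Agent.W_7d29a1_SR.Lucky
import Pool.Agent.W_7d29a1_SL.NotConf17

/-!
THEOREM (SR) (hand-in ScalingLaw), proofs row 626, section (S6).
-/

namespace Pool.Agent.W_7d29a1_SR

open MeasureTheory ProbabilityTheory Filter Topology
open Pool.Agent.W_7d29a1_F Pool.Agent.W_7d29a1_h4g Pool.Agent.W_7d29a1_G Pool.Agent.W_7d29a1_L
open Pool.Agent.W_7d29a1_SL (ZR Rx not_conf)

variable {μ : Measure ℝ} [IsProbabilityMeasure μ] {c C : ℝ} {n₀ : ℕ}

/-- The mean of the positive part of the luck. -/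
private theorem Vp_le (hμ : Pool.Agent.W_7d29a1_h47.EM μ) (m : ℕ) :
    ∫ η, max (V μ 0 η 0 m) 0 ∂(law μ) ≤ EE μ m := by
  have hV : Integrable (fun η => V μ 0 η 0 m) (law μ) := (Sub_V 0 m).integrable hμ
  have hM : Integrable (fun η => max (X μ 0 η 0 m (md m)) 0) (law μ) :=
    ((Sub_X (μ := μ) (s := 0) 0 (md_nonneg m) (md_le m)).max (Sub.const 0)).integrable hμ
  have hpt : ∀ η, max (V μ 0 η 0 m) 0 ≤ V μ 0 η 0 m + max (X μ 0 η 0 m (md m)) 0 := by
    intro η
    have h3 := neg_X_le_V (μ := μ) (s := 0) η 0 (md_nonneg m) (md_le m)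
    have h4 : X μ 0 η 0 m (md m) ≤ max (X μ 0 η 0 m (md m)) 0 := le_max_left _ _
    have h5 : 0 ≤ max (X μ 0 η 0 m (md m)) 0 := le_max_right _ _
    exact max_le (by linarith) (by linarith)
  have h6 := integral_mono (((Sub_V (μ := μ) (s := 0) 0 m).max (Sub.const 0)).integrable hμ) (hV.add hM) hpt
  have h7 : ∫ η, (V μ 0 η 0 m + max (X μ 0 η 0 m (md m)) 0) ∂(law μ) =
      ∫ η, V μ 0 η 0 m ∂(law μ) + ep μ m (md m) := integral_add hV hM
  have h8 := integral_V_nonpos hμ 0 m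
  have h9 := ep_le_EE (μ := μ) (le_refl m)
  have h10 : ∫ η, max (V μ 0 η 0 m) 0 ∂(law μ) ≤ ∫ η, (V μ 0 η 0 m + max (X μ 0 η 0 m (md m)) 0) ∂(law μ) := h6
  linarith

/-- Markov's inequality. -/
private theorem markov {f : Env → ℝ} (h0 : ∀ η, 0 ≤ f η) (hi : Integrable f (law μ)) {a b : ℝ} (ha : 0 < a)
    (hb : ∫ η, f η ∂(law μ) ≤ b) {E : Set Env} (hE : ∀ η ∈ E, a ≤ f η) : (law μ).real E ≤ b / a := by
  have h1 := mul_meas_ge_le_integral_of_nonneg (μ := law μ) (Eventually.of_forall h0) hi a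
  have h2 : (law μ).real E ≤ (law μ).real {η | a ≤ f η} := measureReal_mono hE (measure_ne_top _ _)
  rw [le_div_iff₀ ha]
  have h3 := mul_le_mul_of_nonneg_left h2 ha.le
  linarith

/-- (S6) SPREAD (helper51's proof). -/
theorem spread (h : In μ c C n₀) : ∃ c' d : ℝ, 0 < c' ∧ 0 < d ∧ ∃ n₁ : ℕ, ∀ n, n₁ ≤ n →
    ∫ η, cf μ (c' * wd μ n) η 0 n / Real.exp (V μ 0 η 0 n) ∂(law μ) ≤ 1 - d := by
  have hμ := h.em
  obtain ⟨p, hp, nl, hl⟩ := lucky h 4
  obtain ⟨ε, hε⟩ : ∃ ε, ε = p / 10 := ⟨_, rfl⟩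
  have hε0 : 0 < ε := by rw [hε]; linarith
  obtain ⟨J, na, hJ⟩ := scale_a h (C / ε + 1)
  obtain ⟨nw, hw⟩ := wd_lower h
  obtain ⟨nv, hv⟩ := Filter.eventually_atTop.1 (h.tv.eventually (eventually_le_nhds (show (0 : ℝ) < 1 / 4 by norm_num)))
  have hC := h.C1
  refine ⟨c / (12 * 2 ^ J), ε, by have := h.c0; positivity, hε0,
    2 ^ J * (nl + na + nw + nv + n₀ + 4), fun n hn => ?_⟩
  obtain ⟨m, hm⟩ : ∃ m, m = n / 2 ^ J := ⟨_, rfl⟩
  have h2J : 0 < 2 ^ J := by positivity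
  have hmn : 2 ^ J * m ≤ n := by rw [hm]; exact Nat.mul_div_le n (2 ^ J)
  have hmn' : n < 2 ^ J * (m + 1) := by
    rw [hm]
    have := Nat.lt_mul_div_succ n h2J
    exact this
  have hmge : nl + na + nw + nv + n₀ + 4 ≤ m := by
    rw [hm, Nat.le_div_iff_mul_le h2J, mul_comm]
    exact hn
  have hmle : m ≤ n := by
    refine le_trans ?_ hmn
    exact Nat.le_mul_of_pos_left m h2J
  have hm1 : (1 : ℝ) ≤ m := by exact_mod_cast (by omega : 1 ≤ m)
  have hm4 : (4 : ℝ) ≤ m := by exact_mod_cast (by omega : 4 ≤ m)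
  have hEm := one_le_EE (μ := μ) m
  have hEn := one_le_EE (μ := μ) n
  have hEJ := hJ m n (by omega) hmn
  have hwm := hw m n (by omega) hmle
  have hvm := hv m (by omega)
  have hv0 := vA_nonneg (μ := μ) hμ zero_le_one m
  have hvn0 := vA_nonneg (μ := μ) hμ zero_le_one n
  have hwn0 : 0 ≤ wd μ n := mul_nonneg hvn0 (Nat.cast_nonneg n)
  have hwm0 : 0 ≤ wd μ m := mul_nonneg hv0 (Nat.cast_nonneg m)
  -- the width
  have hwd : wd μ n ≤ 4 * 2 ^ J * wd μ m := by
    have h1 : (n : ℝ) ≤ 2 ^ J * (2 * m) := by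
      have h2 : (n : ℝ) ≤ 2 ^ J * (m + 1) := by exact_mod_cast hmn'.le
      refine h2.trans (mul_le_mul_of_nonneg_left (by linarith) (by positivity))
    have h2 : (m : ℝ) * wd μ n ≤ m * (4 * 2 ^ J * wd μ m) := by
      calc (m : ℝ) * wd μ n ≤ 2 * (n * wd μ m) := hwm
        _ ≤ 2 * (2 ^ J * (2 * m) * wd μ m) := by
            refine mul_le_mul_of_nonneg_left (mul_le_mul_of_nonneg_right h1 hwm0) (by norm_num)
        _ = _ := by ring
    exact le_of_mul_le_mul_left h2 (by linarith)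
  obtain ⟨r, hr⟩ : ∃ r, r = c / (12 * 2 ^ J) * wd μ n := ⟨_, rfl⟩
  have hr0 : 0 ≤ r := by rw [hr]; exact mul_nonneg (by have := h.c0; positivity) hwn0
  have hr3 : 3 * r ≤ c * wd μ m := by
    rw [hr]
    have h1 : c / (12 * 2 ^ J) * wd μ n ≤ c / (12 * 2 ^ J) * (4 * 2 ^ J * wd μ m) :=
      mul_le_mul_of_nonneg_left hwd (by have := h.c0; positivity)
    have h2 : 3 * (c / (12 * 2 ^ J) * (4 * 2 ^ J * wd μ m)) = c * wd μ m := by
      field_simp
      ring
    linarith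
  obtain ⟨x1, hx1⟩ : ∃ x1 : ℤ, x1 = ⌊2 * r⌋ + 1 := ⟨_, rfl⟩
  have hx1a : 2 * r < x1 := by
    rw [hx1]
    push_cast
    exact Int.lt_floor_add_one _
  have hx1b : (x1 : ℝ) ≤ 2 * r + 1 := by
    rw [hx1]
    push_cast
    linarith [Int.floor_le (2 * r)]
  have hx10 : 0 < x1 := by
    have : (0 : ℝ) < x1 := by linarith
    exact_mod_cast this
  -- the costs
  obtain ⟨A, hA⟩ : ∃ A, A = C * EE μ m / ε := ⟨_, rfl⟩
  have hA0 : 0 < A := by rw [hA]; positivity
  have hAd : C * EE μ m / A = ε := by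
    rw [hA]
    field_simp
  have hN : m + (n - m) = n := by omega
  have key := not_conf (μ := μ) (s := 0) (R := St r 0) (x1 := x1) ?_ (m := m) (n := n - m) (by omega)
    (E := EE μ n) (c := A) (d := ε) (ε := ε) (p1 := p) ?_ hε0.le ?_ ?_ ?_ ?_ ?_
  · rw [hN] at key
    rw [← hr]
    exact key
  · -- disjoint
    rw [Set.disjoint_left]
    intro q hq hq'
    have h1 : |2 * ((q.2 : ℝ) - (((0 : Pt).2 : ℤ) : ℝ)) - ((q.1 : ℝ) - (((0 : Pt).1 : ℤ) : ℝ))| ≤ 2 * r := hq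
    have h2 : |2 * ((((q.2 - x1 : ℤ) : ℤ) : ℝ) - (((0 : Pt).2 : ℤ) : ℝ)) - ((q.1 : ℝ) - (((0 : Pt).1 : ℤ) : ℝ))| ≤ 2 * r :=
      hq'
    simp only [Prod.fst_zero, Prod.snd_zero, Int.cast_zero, sub_zero] at h1 h2
    push_cast at h2
    have h3 := abs_le.1 h1
    have h4 := abs_le.1 h2
    linarith [h3.2, h4.1]
  · -- the number
    have h1 : Real.log 2 < 1 := by
      have := Real.log_two_lt_d9
      linarith
    have h2 : (C / ε + 1) * EE μ m = A + EE μ m := by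
      rw [hA]
      ring
    rw [h2] at hEJ
    linarith
  · rw [hN]
    exact hl n (by omega)
  · rw [hN]
    have h1 := markov (μ := μ) (f := fun η => max (V μ 0 η 0 n) 0) (fun η => le_max_right _ _)
      (((Sub_V (μ := μ) (s := 0) 0 n).max (Sub.const 0)).integrable hμ) (a := 2 * EE μ n) (by linarith)
      (Vp_le hμ n) (E := {η | V μ 0 η 0 n ≤ 2 * EE μ n}ᶜ) (fun η hη => by
        have h2 : ¬ V μ 0 η 0 n ≤ 2 * EE μ n := hη
        exact (not_le.1 h2).le.trans (le_max_left _ _))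
    have h2 : EE μ n / (2 * EE μ n) = 1 / 2 := by
      field_simp
    rw [h2, probReal_compl_eq_one_sub (measurableSet_le (measurable_V 0 n) measurable_const)] at h1
    linarith
  · intro k hk0 hk1 hk
    have h1 : |2 * ((k : ℝ) - (((0 : Pt).2 : ℤ) : ℝ)) - (((m : ℤ) : ℝ) - (((0 : Pt).1 : ℤ) : ℝ))| ≤ 2 * r := hk
    simp only [Prod.fst_zero, Prod.snd_zero, Int.cast_zero, sub_zero, Int.cast_natCast] at h1
    have h2 := abs_le.1 h1
    have hy : |((x1 + k : ℤ) : ℝ) - (m : ℝ) / 2| ≤ c * vA μ 1 m * m + 1 := by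
      have h3 : c * vA μ 1 m * m = c * wd μ m := by
        unfold wd
        ring
      rw [h3, abs_le]
      push_cast
      constructor <;> linarith [h2.1, h2.2]
    have hy1 : x1 + k ≤ (m : ℤ) := by
      have h3 : ((x1 + k : ℤ) : ℝ) ≤ m := by
        have h4 := (abs_le.1 hy).2
        have h5 : c * vA μ 1 m * m ≤ 1 / 4 * m := by
          refine mul_le_mul_of_nonneg_right ?_ (Nat.cast_nonneg m)
          have := mul_le_mul h.c1 hvm hv0 zero_le_one
          linarith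
        linarith
      exact_mod_cast h3
    have h3 := h.inn m (by omega) m (x1 + k) (by omega) (by omega) hy1 hy
    have h4 := markov (μ := μ) (f := fun η => max (X μ 0 η 0 m (x1 + k)) 0) (fun η => le_max_right _ _)
      (((Sub_X (μ := μ) (s := 0) 0 (n := m) (y := x1 + k) (by omega) hy1).max (Sub.const 0)).integrable hμ)
      (a := A) hA0 h3
      (E := {η | W μ 0 η 0 m (x1 + k) < Real.exp (-A)}) (fun η hη => by
        have h5 : W μ 0 η 0 m (x1 + k) < Real.exp (-A) := hη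
        have hpos := W_pos (μ := μ) (s := 0) η 0 (n := m) (y := x1 + k) (by omega) hy1
        have h6 := Real.log_lt_log hpos h5
        rw [Real.log_exp] at h6
        refine le_trans ?_ (le_max_left _ _)
        unfold X
        linarith)
    rw [hAd] at h4
    exact h4
  · have h1 := markov (μ := μ) (f := fun η => max (V μ 0 η 0 m) 0) (fun η => le_max_right _ _)
      (((Sub_V (μ := μ) (s := 0) 0 m).max (Sub.const 0)).integrable hμ) (a := A) hA0
      ((Vp_le hμ m).trans (by nlinarith : EE μ m ≤ C * EE μ m)) (E := {η | A < V μ 0 η 0 m}) (fun η hη => by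
        have h2 : A < V μ 0 η 0 m := hη
        exact h2.le.trans (le_max_left _ _))
    rw [hAd] at h1
    exact h1
  · rw [hε]
    linarith

end Pool.Agent.W_7d29a1_SR
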