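import Pool.Agent.W_7d29a1_SR.Trans
import Pool.Agent.W_7d29a1_F.MainV

/-!
THEOREM (SR) (hand-in ScalingLaw), proofs row 626, section (S8): transfer, second part (measurability, means and variances,
the rate function; helper12).
-/

namespace Pool.Agent.W_7d29a1_SR

open MeasureTheory ProbabilityTheory Filter Topology
open Pool.Agent.W_7d29a1_F Pool.Agent.W_7d29a1_h4g Pool.Agent.W_7d29a1_G Pool.Agent.W_7d29a1_L

section model

variable {β : ℝ}

theorem pZ_pos (β : ℝ) (η : ℕ × ℤ → ℝ) (n : ℕ) : 0 < pZ β η n :=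
  div_pos (Finset.sum_pos (fun _ _ => Real.exp_pos _) Finset.univ_nonempty) (by positivity)

open Classical in
theorem polP_nonneg (β : ℝ) (η : ℕ × ℤ → ℝ) (n : ℕ) (A : Set (Fin n → Bool)) : 0 ≤ polP β η n A := by
  unfold polP Pool.Agent.W_7d29a1_h47.polE
  refine div_nonneg (Finset.sum_nonneg fun s _ => mul_nonneg ?_ (Real.exp_pos _).le)
    (Finset.sum_nonneg fun s _ => (Real.exp_pos _).le)
  beta_reduce
  split_ifs <;> norm_num

open Classical in
theorem polP_mono (β : ℝ) (η : ℕ × ℤ → ℝ) (n : ℕ) {A B : Set (Fin n → Bool)} (h : A ⊆ B) :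
    polP β η n A ≤ polP β η n B := by
  unfold polP Pool.Agent.W_7d29a1_h47.polE
  refine div_le_div_of_nonneg_right (Finset.sum_le_sum fun s _ =>
    mul_le_mul_of_nonneg_right ?_ (Real.exp_pos _).le) (Finset.sum_nonneg fun s _ => (Real.exp_pos _).le)
  beta_reduce
  by_cases hA : s ∈ A
  · rw [if_pos hA, if_pos (h hA)]
  · rw [if_neg hA]
    split_ifs <;> norm_num

theorem polP_univ (β : ℝ) (η : ℕ × ℤ → ℝ) (n : ℕ) : polP β η n Set.univ = 1 := by
  unfold polP Pool.Agent.W_7d29a1_h47.polE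
  simp only [Set.mem_univ, if_true, one_mul]
  exact div_self (Finset.sum_pos (fun _ _ => Real.exp_pos _) Finset.univ_nonempty).ne'

theorem polP_le_one (β : ℝ) (η : ℕ × ℤ → ℝ) (n : ℕ) (A : Set (Fin n → Bool)) : polP β η n A ≤ 1 :=
  (polP_mono β η n (Set.subset_univ A)).trans_eq (polP_univ β η n)

open Classical in
theorem polP_compl (β : ℝ) (η : ℕ × ℤ → ℝ) (n : ℕ) (A : Set (Fin n → Bool)) : polP β η n Aᶜ = 1 - polP β η n A := by
  rw [← polP_univ β η n]
  unfold polP Pool.Agent.W_7d29a1_h47.polE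
  rw [← sub_div, ← Finset.sum_sub_distrib]
  congr 1
  refine Finset.sum_congr rfl fun s _ => ?_
  beta_reduce
  by_cases hA : s ∈ A
  · rw [if_neg (show ¬ s ∈ Aᶜ from fun h => h hA), if_pos (Set.mem_univ _), if_pos hA]
    ring
  · rw [if_pos (show s ∈ Aᶜ from hA), if_pos (Set.mem_univ _), if_neg hA]
    ring

theorem ball_mono (n : ℕ) {r r' : ℝ} (h : r ≤ r') : ball n r ⊆ ball n r' := fun _ hs i hi => (hs i hi).trans h

variable {Ω : Type*} [MeasurableSpace Ω] {ω : ℕ × ℤ → Ω → ℝ}

theorem energy_meas (hmeas : ∀ p, Measurable (ω p)) {n : ℕ} (s : Fin n → Bool) :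
    Measurable fun x => Pool.Agent.W_7d29a1_h47.energy (fun p => ω p x) s := by
  unfold Pool.Agent.W_7d29a1_h47.energy
  exact Finset.measurable_sum _ fun i _ => hmeas _

theorem pZ_meas (hmeas : ∀ p, Measurable (ω p)) (β : ℝ) (n : ℕ) : Measurable fun x => pZ β (fun p => ω p x) n := by
  unfold pZ
  exact (Finset.measurable_sum _ fun s _ => ((energy_meas hmeas s).const_mul β).exp).div_const _

open Classical in
theorem polP_meas (hmeas : ∀ p, Measurable (ω p)) (β : ℝ) (n : ℕ) (A : Set (Fin n → Bool)) :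
    Measurable fun x => polP β (fun p => ω p x) n A := by
  unfold polP Pool.Agent.W_7d29a1_h47.polE
  exact (Finset.measurable_sum _ fun s _ => ((energy_meas hmeas s).const_mul β).exp.const_mul _).div
    (Finset.measurable_sum _ fun s _ => ((energy_meas hmeas s).const_mul β).exp)

end model

section law

variable {Ω : Type*} [MeasurableSpace Ω] {P : Measure Ω} [IsProbabilityMeasure P] {ω : ℕ × ℤ → Ω → ℝ} {β : ℝ}
  {μ : Measure ℝ} [IsProbabilityMeasure μ]

theorem toF_integral (hmp : MeasurePreserving (fun x => toF β fun p => ω p x) P (law μ)) {F : Env → ℝ}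
    (hF : Measurable F) : ∫ x, F (toF β fun p => ω p x) ∂P = ∫ η, F η ∂(law μ) := by
  rw [← hmp.map_eq]
  exact (integral_map hmp.measurable.aemeasurable hF.aestronglyMeasurable).symm

theorem toF_real (hmp : MeasurePreserving (fun x => toF β fun p => ω p x) P (law μ)) {A : Set Env}
    (hA : MeasurableSet A) : P.real {x | (toF β fun p => ω p x) ∈ A} = (law μ).real A := by
  unfold Measure.real
  rw [← hmp.measure_preimage hA.nullMeasurableSet]
  rfl

/-- The mean of `log Z_n`. -/
theorem mean_pZ (hμ : Pool.Agent.W_7d29a1_h47.EM μ)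
    (hmp : MeasurePreserving (fun x => toF β fun p => ω p x) P (law μ)) (n : ℕ) :
    ∫ x, Real.log (pZ β (fun p => ω p x) n) ∂P =
      ∫ η, V μ 0 η 0 n ∂(law μ) + n * (Pool.Agent.W_7d29a1_h47.Lam μ 0 - Real.log 2) := by
  have h1 : ∀ x, Real.log (pZ β (fun p => ω p x) n) =
      V μ 0 (toF β fun p => ω p x) 0 n + n * (Pool.Agent.W_7d29a1_h47.Lam μ 0 - Real.log 2) := by
    intro x
    rw [V_toF]
    ring
  simp only [h1]
  have hi : Integrable (fun x => V μ 0 (toF β fun p => ω p x) 0 n) P := by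
    have h2 : Integrable (fun η => V μ 0 η 0 n) (law μ) := (Sub_V (μ := μ) (s := 0) 0 n).integrable hμ
    exact (hmp.integrable_comp (g := fun η => V μ 0 η 0 n) h2.aestronglyMeasurable).2 h2
  rw [integral_add hi (integrable_const _), toF_integral hmp (measurable_V 0 n)]
  simp

/-- The variance of `log Z_n`. -/
theorem var_pZ (hmp : MeasurePreserving (fun x => toF β fun p => ω p x) P (law μ)) (n : ℕ) :
    Var[fun x => Real.log (pZ β (fun p => ω p x) n); P] = Var[fun η => V μ 0 η 0 n; law μ] := by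
  have h1 : (fun x => Real.log (pZ β (fun p => ω p x) n)) =
      fun x => V μ 0 (toF β fun p => ω p x) 0 n + n * (Pool.Agent.W_7d29a1_h47.Lam μ 0 - Real.log 2) := by
    funext x
    rw [V_toF]
    ring
  have hV : Measurable fun η : Env => V μ 0 η 0 n := measurable_V 0 n
  have hc : AEMeasurable (fun x => V μ 0 (toF β fun p => ω p x) 0 n) P :=
    (hV.comp hmp.measurable).aemeasurable
  rw [h1, variance_add_const hc.aestronglyMeasurable, variance_eq_integral hc,
    variance_eq_integral hV.aemeasurable, toF_integral hmp hV]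
  exact toF_integral hmp (F := fun η => (V μ 0 η 0 n - ∫ η, V μ 0 η 0 n ∂(law μ)) ^ 2)
    ((hV.sub measurable_const).pow_const 2)

end law

/-- The rate function of `NoFlatPiece` is `J μ (v / 2)`. -/
theorem J_of_lub {μ : Measure ℝ} {lam' : ℝ → ℝ}
    (hlam : ∀ h, lam' h = Pool.Agent.W_7d29a1_h47.Lam μ h - Pool.Agent.W_7d29a1_h47.Lam μ 0) {v j : ℝ}
    (hj : IsLUB (Set.range fun h => h * v - lam' h) j) : J μ (v / 2) = j := by
  unfold J
  have h1 : {r : ℝ | ∃ s : ℝ, r = s * (v / 2) - (lam μ s - lam μ 0 - s / 2)} = Set.range fun h => h * v - lam' h := by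
    ext r
    constructor
    · rintro ⟨s, rfl⟩
      refine ⟨s / 2, ?_⟩
      simp only [hlam]
      unfold lam
      rw [zero_div]
      ring
    · rintro ⟨h, rfl⟩
      refine ⟨2 * h, ?_⟩
      simp only [hlam]
      unfold lam
      rw [zero_div, mul_div_cancel_left₀ h two_ne_zero]
      ring
  rw [h1]
  exact hj.csSup_eq (Set.range_nonempty _)

end Pool.Agent.W_7d29a1_SR
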