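import Pool.Agent.W_7d29a1_SR.CoreS
import Pool.Agent.W_7d29a1_SR.TransB
import Pool.Agent.W_7d29a1_SR.NuChi
import Pool.Agent.W_7d29a1_SR.Kappa
import Pool.Agent.W_7d29a1_SR.ExitE
import Pool.Agent.W_7d29a1_SR.Spread

/-!
THEOREM (SR) (hand-in ScalingLaw), proofs row 626: the statements of the law of the environment on the probability space of the
problem.
-/

namespace Pool.Agent.W_7d29a1_SR

open MeasureTheory ProbabilityTheory Filter Topology
open Pool.Agent.W_7d29a1_F Pool.Agent.W_7d29a1_h4g Pool.Agent.W_7d29a1_G Pool.Agent.W_7d29a1_L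

section pure

/-- One form for all the tails. -/
theorem tail_le {A a g c C : ℝ} (ha : c ≤ a) (hg : c ≤ g) (h0 : 0 < c) (h1 : c ≤ 1) (hC : 3 * |A| ≤ C) {s : ℝ} (hs : 0 ≤ s) :
    A * Real.exp (-(a * s ^ g)) ≤ C * Real.exp (-(c * s ^ c)) := by
  have hA := le_abs_self A
  have hA0 := abs_nonneg A
  have hC0 : 0 ≤ C := by linarith
  rcases le_total s 1 with hs1 | hs1
  · have h2 : c * s ^ c ≤ 1 := by
      have h3 : s ^ c ≤ 1 := Real.rpow_le_one hs hs1 h0.le
      have h4 : 0 ≤ s ^ c := Real.rpow_nonneg hs c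
      nlinarith
    have h3 : Real.exp (-1) ≤ Real.exp (-(c * s ^ c)) := Real.exp_le_exp.2 (by linarith)
    have h4 : Real.exp (-(a * s ^ g)) ≤ 1 := by
      refine Real.exp_le_one_iff.2 ?_
      have : 0 ≤ a * s ^ g := mul_nonneg (by linarith) (Real.rpow_nonneg hs g)
      linarith
    have h5 : (1 : ℝ) / 3 ≤ Real.exp (-1) := by
      rw [Real.exp_neg, ← one_div]
      exact one_div_le_one_div_of_le (Real.exp_pos 1) (by linarith [Real.exp_one_lt_d9])
    have h6 := Real.exp_pos (-(a * s ^ g))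
    calc A * Real.exp (-(a * s ^ g)) ≤ |A| * Real.exp (-(a * s ^ g)) := mul_le_mul_of_nonneg_right hA h6.le
      _ ≤ |A| * 1 := mul_le_mul_of_nonneg_left h4 hA0
      _ = 3 * |A| * (1 / 3) := by ring
      _ ≤ C * (1 / 3) := mul_le_mul_of_nonneg_right hC (by norm_num)
      _ ≤ C * Real.exp (-(c * s ^ c)) := mul_le_mul_of_nonneg_left (h5.trans h3) hC0
  · have h2 : s ^ c ≤ s ^ g := Real.rpow_le_rpow_of_exponent_le hs1 hg
    have h3 : 0 ≤ s ^ c := Real.rpow_nonneg hs c
    have h4 : c * s ^ c ≤ a * s ^ g := mul_le_mul ha h2 h3 (by linarith)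
    have h5 : Real.exp (-(a * s ^ g)) ≤ Real.exp (-(c * s ^ c)) := Real.exp_le_exp.2 (by linarith)
    have h6 := Real.exp_pos (-(a * s ^ g))
    calc A * Real.exp (-(a * s ^ g)) ≤ |A| * Real.exp (-(a * s ^ g)) := mul_le_mul_of_nonneg_right hA h6.le
      _ ≤ C * Real.exp (-(a * s ^ g)) := mul_le_mul_of_nonneg_right (by linarith) h6.le
      _ ≤ _ := mul_le_mul_of_nonneg_left h5 hC0

/-- A stretched exponential is smaller than any power. -/
theorem exp_le_pow {c : ℝ} (hc : 0 < c) (q : ℕ) : ∃ K : ℝ, 0 ≤ K ∧ ∀ R : ℝ, 1 ≤ R → Real.exp (-(c * R ^ c)) ≤ K * (R ^ q)⁻¹ := by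
  obtain ⟨k, hk⟩ : ∃ k : ℕ, (q : ℝ) / c ≤ k := exists_nat_ge _
  refine ⟨k.factorial / c ^ k, by positivity, fun R hR => ?_⟩
  have hR0 : 0 < R := by linarith
  have h1 : (c * R ^ c) ^ k / k.factorial ≤ Real.exp (c * R ^ c) :=
    Real.pow_div_factorial_le_exp _ (by positivity) k
  have h2 : (R : ℝ) ^ q ≤ (R ^ c) ^ k := by
    rw [← Real.rpow_natCast R q, ← Real.rpow_natCast (R ^ c) k, ← Real.rpow_mul hR0.le]
    refine Real.rpow_le_rpow_of_exponent_le hR ?_
    rw [div_le_iff₀ hc] at hk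
    linarith
  have h3 : c ^ k * R ^ q / k.factorial ≤ Real.exp (c * R ^ c) := by
    refine le_trans (div_le_div_of_nonneg_right ?_ (by positivity)) h1
    rw [mul_pow]
    exact mul_le_mul_of_nonneg_left h2 (by positivity)
  have hk0 : (0 : ℝ) < k.factorial := by exact_mod_cast Nat.factorial_pos k
  have h4 : 0 < c ^ k * R ^ q / k.factorial := by positivity
  rw [Real.exp_neg]
  refine (inv_anti₀ h4 h3).trans (le_of_eq ?_)
  field_simp

/-- The width only depends on the values of the rate function on `[0, 1)`. -/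
theorem wid_congr {J J' : ℝ → ℝ} (h : ∀ v, |v| < 1 → J v = J' v) (σ : ℝ) (n : ℕ) : wid J σ n = wid J' σ n := by
  unfold wid
  congr 1
  ext w
  simp only [Set.mem_ofPred_eq]
  constructor
  · rintro ⟨h0, h1, h2⟩
    refine ⟨h0, h1, ?_⟩
    rwa [← h (w / n) ?_]
    rw [abs_of_nonneg (by positivity), div_lt_one (by linarith)]
    exact h1
  · rintro ⟨h0, h1, h2⟩
    refine ⟨h0, h1, ?_⟩
    rwa [h (w / n) ?_]
    rw [abs_of_nonneg (by positivity), div_lt_one (by linarith)]
    exact h1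

end pure

section law

variable {Ω : Type*} [MeasurableSpace Ω] {P : Measure Ω} [IsProbabilityMeasure P] {ω : ℕ × ℤ → Ω → ℝ} {β : ℝ}
  {μ : Measure ℝ} [IsProbabilityMeasure μ]

theorem sgm_eq (hmp : MeasurePreserving (fun x => toF β fun p => ω p x) P (law μ)) (n : ℕ) : sgm P β ω n = sV μ n := by
  unfold sgm sV
  rw [var_pZ hmp]

theorem dev_eq (hμ : Pool.Agent.W_7d29a1_h47.EM μ)
    (hmp : MeasurePreserving (fun x => toF β fun p => ω p x) P (law μ)) (n : ℕ) (x : Ω) :
    Real.log (pZ β (fun p => ω p x) n) - ∫ y, Real.log (pZ β (fun p => ω p y) n) ∂P =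
      V μ 0 (toF β fun p => ω p x) 0 n - ∫ η, V μ 0 η 0 n ∂(law μ) := by
  rw [mean_pZ hμ hmp, V_toF]
  ring

/-- The tails of the free energy. -/
theorem dev_P (hμ : Pool.Agent.W_7d29a1_h47.EM μ)
    (hmp : MeasurePreserving (fun x => toF β fun p => ω p x) P (law μ)) (n : ℕ) (t : ℝ) :
    P.real {x | t ≤ |Real.log (pZ β (fun p => ω p x) n) - ∫ y, Real.log (pZ β (fun p => ω p y) n) ∂P|} =
      (law μ).real {η | t ≤ |V μ 0 η 0 n - ∫ ξ, V μ 0 ξ 0 n ∂(law μ)|} := by
  have hA : MeasurableSet {η : Env | t ≤ |V μ 0 η 0 n - ∫ ξ, V μ 0 ξ 0 n ∂(law μ)|} :=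
    measurableSet_le measurable_const ((measurable_V 0 n).sub_const _).abs
  rw [← toF_real hmp hA]
  congr 1
  ext x
  simp only [Set.mem_ofPred_eq, dev_eq hμ hmp]

/-- The luck. -/
theorem luck_P (hμ : Pool.Agent.W_7d29a1_h47.EM μ)
    (hmp : MeasurePreserving (fun x => toF β fun p => ω p x) P (law μ)) (n : ℕ) (t : ℝ) :
    P.real {x | t ≤ Real.log (pZ β (fun p => ω p x) n) - ∫ y, Real.log (pZ β (fun p => ω p y) n) ∂P} =
      (law μ).real {η | t ≤ V μ 0 η 0 n - ∫ ξ, V μ 0 ξ 0 n ∂(law μ)} := by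
  have hA : MeasurableSet {η : Env | t ≤ V μ 0 η 0 n - ∫ ξ, V μ 0 ξ 0 n ∂(law μ)} :=
    measurableSet_le measurable_const ((measurable_V 0 n).sub_const _)
  rw [← toF_real hmp hA]
  congr 1
  ext x
  simp only [Set.mem_ofPred_eq, dev_eq hμ hmp]

theorem measurable_cf (r : ℝ) (n : ℕ) : Measurable fun η : Env => cf μ r η 0 n := by
  unfold cf
  refine Finset.measurable_sum _ fun y _ => ?_
  exact (poly_WR (μ := μ) (s := 0) (St r 0) (0 : Pt) n y).measurable

/-- The exits. -/
theorem exit_P (hmp : MeasurePreserving (fun x => toF β fun p => ω p x) P (law μ)) (n : ℕ) {r : ℝ} (hr : 0 ≤ r) (t : ℝ) :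
    P.real {x | t ≤ 1 - polP β (fun p => ω p x) n (ball n (2 * r))} =
      (law μ).real {η | t * Real.exp (V μ 0 η 0 n) ≤ Real.exp (V μ 0 η 0 n) - cf μ r η 0 n} := by
  have hA : MeasurableSet {η : Env | t * Real.exp (V μ 0 η 0 n) ≤ Real.exp (V μ 0 η 0 n) - cf μ r η 0 n} :=
    measurableSet_le ((Real.measurable_exp.comp (measurable_V 0 n)).const_mul t)
      ((Real.measurable_exp.comp (measurable_V 0 n)).sub (measurable_cf r n))
  rw [← toF_real hmp hA]
  congr 1
  ext x
  simp only [Set.mem_ofPred_eq]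
  rw [← cf_toF μ β (fun p => ω p x) n hr]
  have hE := Real.exp_pos (V μ 0 (toF β fun p => ω p x) 0 n)
  rw [one_sub_div hE.ne', le_div_iff₀ hE]

/-- The mean of the probability of a ball. -/
theorem ball_P (hmp : MeasurePreserving (fun x => toF β fun p => ω p x) P (law μ)) (n : ℕ) {r : ℝ} (hr : 0 ≤ r) :
    ∫ x, polP β (fun p => ω p x) n (ball n (2 * r)) ∂P = ∫ η, cf μ r η 0 n / Real.exp (V μ 0 η 0 n) ∂(law μ) := by
  rw [← toF_integral hmp (F := fun η => cf μ r η 0 n / Real.exp (V μ 0 η 0 n))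
    ((measurable_cf r n).div (Real.measurable_exp.comp (measurable_V 0 n)))]
  refine integral_congr_ae (Filter.Eventually.of_forall fun x => ?_)
  exact (cf_toF μ β (fun p => ω p x) n hr).symm

theorem polP_int (hmeas : ∀ p, Measurable (ω p)) (n : ℕ) (A : Set (Fin n → Bool)) :
    Integrable (fun x => polP β (fun p => ω p x) n A) P := by
  refine (integrable_const (1 : ℝ)).mono' (polP_meas hmeas β n A).aestronglyMeasurable (Filter.Eventually.of_forall fun x => ?_)
  rw [Real.norm_eq_abs, abs_of_nonneg (polP_nonneg _ _ _ _)]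
  exact polP_le_one _ _ _ _

/-- The mean exit probability from the tail. -/
theorem exit_mean (hmeas : ∀ p, Measurable (ω p)) (n : ℕ) (A : Set (Fin n → Bool)) {t : ℝ} (ht : 0 ≤ t) :
    1 - ∫ x, polP β (fun p => ω p x) n A ∂P ≤ P.real {x | t ≤ 1 - polP β (fun p => ω p x) n A} + t := by
  classical
  have hm : Measurable fun x => 1 - polP β (fun p => ω p x) n A := measurable_const.sub (polP_meas hmeas β n A)
  have hS : MeasurableSet {x | t ≤ 1 - polP β (fun p => ω p x) n A} := measurableSet_le measurable_const hm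
  have h1 : 1 - ∫ x, polP β (fun p => ω p x) n A ∂P = ∫ x, (1 - polP β (fun p => ω p x) n A) ∂P := by
    rw [integral_sub (integrable_const _) (polP_int hmeas n A)]
    simp
  rw [h1]
  have h2 : ∫ x, (1 - polP β (fun p => ω p x) n A) ∂P ≤
      ∫ x, ({x | t ≤ 1 - polP β (fun p => ω p x) n A}.indicator (fun _ => (1 : ℝ)) x + t) ∂P := by
    refine integral_mono ((integrable_const _).sub (polP_int hmeas n A))
      (((integrable_const (1 : ℝ)).indicator hS).add (integrable_const t)) fun x => ?_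
    show 1 - polP β (fun p => ω p x) n A ≤ _
    by_cases hx : x ∈ {x | t ≤ 1 - polP β (fun p => ω p x) n A}
    · rw [Set.indicator_of_mem hx]
      have := polP_nonneg β (fun p => ω p x) n A
      linarith
    · rw [Set.indicator_of_notMem hx]
      rw [Set.mem_ofPred_eq, not_le] at hx
      linarith
  refine h2.trans (le_of_eq ?_)
  rw [integral_add ((integrable_const (1 : ℝ)).indicator hS) (integrable_const t), integral_indicator hS,
    setIntegral_const, integral_const]
  simp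

end law

end Pool.Agent.W_7d29a1_SR
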