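import Pool.Agent.W_7d29a1_h47q.ModelQ

/-!
# The objects of the scaling law in dimension `1 + 1`

Walks of length `n` are step sequences `s : Fin n → Bool` of simple random walk on `ℤ` (`Pool/Agent/W_7d29a1_h47/Model.lean`):
`walk s i` is the position `S_i` and `energy η s = ∑_{i=1}^n η (i, S_i)`; `polE β η n` is the expectation `E_n^{β,η}`.
-/

namespace Pool.Agent.W_7d29a1_SR

open MeasureTheory ProbabilityTheory Filter Topology Pool.Agent.W_7d29a1_h47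

noncomputable section

/-- The partition function `Z_n^{β,η} = E exp (β ∑_{i=1}^n η (i, S_i))`. -/
def pZ (β : ℝ) (η : ℕ × ℤ → ℝ) (n : ℕ) : ℝ := (∑ s : Fin n → Bool, Real.exp (β * energy η s)) / 2 ^ n

open Classical in
/-- The polymer probability `P_n^{β,η} (A)` of a set `A` of walks. -/
def polP (β : ℝ) (η : ℕ × ℤ → ℝ) (n : ℕ) (A : Set (Fin n → Bool)) : ℝ :=
  polE β η n fun s => if s ∈ A then 1 else 0

/-- The event `max_{0 ≤ i ≤ n} |S_i| ≤ r`. -/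
def ball (n : ℕ) (r : ℝ) : Set (Fin n → Bool) := {s | ∀ i ≤ n, |(walk s i : ℝ)| ≤ r}

variable {Ω : Type*} [MeasurableSpace Ω]

/-- The wandering exponent `ν` of the problem (dimension `1`). -/
def nuP (P : Measure Ω) (β : ℝ) (ω : ℕ × ℤ → Ω → ℝ) : ℝ :=
  sInf {a | 0 < a ∧ ∫ x, liminf (fun n : ℕ => polP β (fun p => ω p x) n (ball n ((n : ℝ) ^ a))) atTop ∂P = 1}

/-- The fluctuation exponent `χ` of the problem (dimension `1`). -/
def chiP (P : Measure Ω) (β : ℝ) (ω : ℕ × ℤ → Ω → ℝ) : ℝ :=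
  sSup {a | 0 < a ∧ ∀ᶠ n : ℕ in atTop, (n : ℝ) ^ (2 * a) ≤ Var[fun x => Real.log (pZ β (fun p => ω p x) n); P]}

/-- The standard deviation `σ_n` of `log Z_n`. -/
def sgm (P : Measure Ω) (β : ℝ) (ω : ℕ × ℤ → Ω → ℝ) (n : ℕ) : ℝ :=
  Real.sqrt (Var[fun x => Real.log (pZ β (fun p => ω p x) n); P])

/-- The width `w ∈ [0, n)` with `n J (w / n) = σ`: `sup {w : n J (w / n) ≤ σ}`. -/
def wid (J : ℝ → ℝ) (σ : ℝ) (n : ℕ) : ℝ := sSup {w : ℝ | 0 ≤ w ∧ w < n ∧ n * J (w / n) ≤ σ}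

end

end Pool.Agent.W_7d29a1_SR
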