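import Pool.Agent.W_7d29a1_SR.Defs
import Pool.Agent.W_7d29a1_SR.ModelS
import Pool.Agent.W_7d29a1_g.TubeA17
import Pool.Agent.W_7d29a1_h47.Main

/-!
THEOREM (SR) (hand-in ScalingLaw), proofs row 626, section (S8): transfer from the coordinates of `W_7d29a1_F` to the problem.
-/

namespace Pool.Agent.W_7d29a1_SR

open MeasureTheory ProbabilityTheory Filter Topology
open Pool.Agent.W_7d29a1_F Pool.Agent.W_7d29a1_g

/-- The environment in the coordinates of `W_7d29a1_F`. The rows `t ≤ 0` get fresh sites. -/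
noncomputable def toF (β : ℝ) (ω : ℕ × ℤ → ℝ) : Env := fun p =>
  if 1 ≤ p.1 then β * ω (p.1.toNat, 2 * p.2 - p.1) else β * ω ((1 - p.1).toNat, 2 * p.2 - p.1)

/-- The index map. -/
private def idx (p : Pt) : ℕ × ℤ :=
  if 1 ≤ p.1 then (p.1.toNat, 2 * p.2 - p.1) else ((1 - p.1).toNat, 2 * p.2 - p.1)

private lemma idx_inj : Function.Injective idx := by
  rintro ⟨t, x⟩ ⟨u, y⟩ h
  unfold idx at h
  simp only at h
  split_ifs at h with h1 h2 h2 <;> simp only [Prod.mk.injEq] at h <;> obtain ⟨h3, h4⟩ := h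
  · have : t = u := by omega
    subst this
    have : x = y := by omega
    subst this
    rfl
  · omega
  · omega
  · have : t = u := by omega
    subst this
    have : x = y := by omega
    subst this
    rfl

private lemma toF_eq (β : ℝ) (ω : ℕ × ℤ → ℝ) : toF β ω = fun p => β * ω (idx p) := by
  funext p
  unfold toF idx
  split_ifs <;> rfl

/-- The law of the environment. -/
theorem mp_toF {Ω : Type*} [MeasurableSpace Ω] {P : Measure Ω} [IsProbabilityMeasure P]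
    {ω : ℕ × ℤ → Ω → ℝ} (hmeas : ∀ p, Measurable (ω p)) (hindep : iIndepFun ω P)
    (hident : ∀ p q, IdentDistrib (ω p) (ω q) P P) (β : ℝ) :
    MeasurePreserving (fun x => toF β fun p => ω p x) P (law (P.map fun x => β * ω (0, 0) x)) := by
  have e : (fun x => toF β fun p => ω p x) = fun x (p : Pt) => β * ω (idx p) x := by
    funext x
    rw [toF_eq]
  rw [e]
  have h1 : iIndepFun (fun (p : Pt) x => β * ω (idx p) x) P := by
    have h2 : iIndepFun (fun p : Pt => ω (idx p)) P := hindep.precomp idx_inj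
    exact h2.comp (fun _ u => β * u) fun _ => measurable_const_mul β
  have hm : ∀ p : Pt, Measurable fun x => β * ω (idx p) x := fun p => (hmeas _).const_mul β
  refine ⟨measurable_pi_iff.2 hm, ?_⟩
  have h3 := h1.map_fun_eq_infinitePi_map hm
  have h4 : (fun p : Pt => P.map fun x => β * ω (idx p) x) = fun _ => P.map fun x => β * ω (0, 0) x := by
    funext p
    exact ((hident (idx p) (0, 0)).comp (measurable_const_mul β)).map_eq
  rw [h4] at h3
  exact h3

private lemma pos_eq (s : ℕ → Bool) (i : ℕ) :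
    Pool.Agent.W_7d29a1_h47.pos s i = 2 * TA_q s i - i := by
  induction i with
  | zero => simp [Pool.Agent.W_7d29a1_h47.pos, TA_q_zero]
  | succ i ih =>
    have h1 : Pool.Agent.W_7d29a1_h47.pos s (i + 1) =
        Pool.Agent.W_7d29a1_h47.pos s i + Pool.Agent.W_7d29a1_h47.stp (s i) := by
      unfold Pool.Agent.W_7d29a1_h47.pos
      rw [Finset.sum_range_succ]
    rw [h1, ih, TA_q_succ]
    unfold Pool.Agent.W_7d29a1_h47.stp
    push_cast
    split_ifs <;> ring

/-- The total weight of the paths in a region as a sum over the walks. -/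
private lemma sum_Zr (R : Set Pt) (η : Env) (n : ℕ) :
    ∑ y ∈ Finset.Icc (0 : ℤ) n, Zr R η 0 n y = ∑ s ∈ Pool.Agent.W_7d29a1_h47.T n, TA_pw R η 0 n s := by
  simp only [TA_Zr]
  rw [Finset.sum_comm]
  refine Finset.sum_congr rfl fun s _ => ?_
  rw [Finset.sum_ite_eq, if_pos]
  rw [Finset.mem_Icc]
  exact ⟨TA_q_nonneg s n, TA_q_le s n⟩

open Classical in
/-- The weight of a walk. -/
private lemma pw_toF (R : Set Pt) (β : ℝ) (ω : ℕ × ℤ → ℝ) {n : ℕ} (s : Fin n → Bool) :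
    TA_pw R (toF β ω) 0 n (Pool.Agent.W_7d29a1_h47.ext s) =
      if ∀ i < n, (((i : ℤ) + 1, TA_q (Pool.Agent.W_7d29a1_h47.ext s) (i + 1)) : Pt) ∈ R then
        Real.exp (β * Pool.Agent.W_7d29a1_h47.energy ω s) else 0 := by
  unfold TA_pw
  have e0 : ∀ i : ℕ, (((0 : Pt).1 + ((i : ℤ) + 1), (0 : Pt).2 + TA_q (Pool.Agent.W_7d29a1_h47.ext s) (i + 1)) : Pt) =
      ((i : ℤ) + 1, TA_q (Pool.Agent.W_7d29a1_h47.ext s) (i + 1)) := by
    intro i
    simp
  simp only [e0]
  by_cases h : ∀ i < n, (((i : ℤ) + 1, TA_q (Pool.Agent.W_7d29a1_h47.ext s) (i + 1)) : Pt) ∈ R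
  · rw [if_pos h]
    have h1 : ∀ i ∈ Finset.range n, R.indicator (fun p => Real.exp (toF β ω p))
        (((i : ℤ) + 1, TA_q (Pool.Agent.W_7d29a1_h47.ext s) (i + 1)) : Pt) =
        Real.exp (β * ω (i + 1, Pool.Agent.W_7d29a1_h47.pos (Pool.Agent.W_7d29a1_h47.ext s) (i + 1))) := by
      intro i hi
      rw [Set.indicator_of_mem (h i (Finset.mem_range.1 hi))]
      congr 1
      unfold toF
      rw [if_pos (by simp only; omega), pos_eq]
      congr 2
    rw [Finset.prod_congr rfl h1, ← Real.exp_sum]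
    congr 1
    unfold Pool.Agent.W_7d29a1_h47.energy
    rw [Finset.sum_range fun i => _, Finset.mul_sum]
    refine Finset.sum_congr rfl fun i _ => ?_
    rw [Pool.Agent.W_7d29a1_h47.walk_eq s (by omega)]
  · rw [if_neg h]
    push Not at h
    obtain ⟨i, hi, hR⟩ := h
    exact Finset.prod_eq_zero (Finset.mem_range.2 hi) (Set.indicator_of_notMem hR _)

private lemma sum_univ (β : ℝ) (ω : ℕ × ℤ → ℝ) (n : ℕ) :
    ∑ y ∈ Finset.Icc (0 : ℤ) n, Zr Set.univ (toF β ω) 0 n y =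
      ∑ s : Fin n → Bool, Real.exp (β * Pool.Agent.W_7d29a1_h47.energy ω s) := by
  rw [sum_Zr, Pool.Agent.W_7d29a1_h47.sum_T_eq]
  refine Finset.sum_congr rfl fun s _ => ?_
  rw [pw_toF, if_pos fun _ _ => Set.mem_univ _]

private lemma exp_V (μ : Measure ℝ) (η : Env) (n : ℕ) :
    Real.exp (V μ 0 η 0 n) = Real.exp (-(n * Pool.Agent.W_7d29a1_h47.Lam μ 0)) *
      ∑ y ∈ Finset.Icc (0 : ℤ) n, Zr Set.univ η 0 n y := by
  have h1 : WS μ 0 η 0 n (Finset.Icc (0 : ℤ) n) = Real.exp (-(n * Pool.Agent.W_7d29a1_h47.Lam μ 0)) *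
      ∑ y ∈ Finset.Icc (0 : ℤ) n, Zr Set.univ η 0 n y := by
    rw [Finset.mul_sum]
    unfold WS W WR lam
    refine Finset.sum_congr rfl fun y _ => ?_
    congr 2
    simp
  have h2 : 0 < ∑ y ∈ Finset.Icc (0 : ℤ) n, Zr Set.univ η 0 n y := by
    refine Finset.sum_pos' (fun y _ => Zr_nonneg _ _ _ _ _) ⟨0, ?_, Zr_pos η 0 le_rfl (by positivity)⟩
    rw [Finset.mem_Icc]
    exact ⟨le_rfl, by positivity⟩
  unfold V
  rw [h1, Real.exp_log (by positivity)]

/-- The luck. -/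
theorem V_toF (μ : Measure ℝ) (β : ℝ) (ω : ℕ × ℤ → ℝ) (n : ℕ) :
    V μ 0 (toF β ω) 0 n = Real.log (pZ β ω n) - n * (Pool.Agent.W_7d29a1_h47.Lam μ 0 - Real.log 2) := by
  have h1 := exp_V μ (toF β ω) n
  rw [sum_univ] at h1
  have h2 : 0 < ∑ s : Fin n → Bool, Real.exp (β * Pool.Agent.W_7d29a1_h47.energy ω s) :=
    Finset.sum_pos (fun _ _ => Real.exp_pos _) Finset.univ_nonempty
  have h3 : V μ 0 (toF β ω) 0 n = -(n * Pool.Agent.W_7d29a1_h47.Lam μ 0) +
      Real.log (∑ s : Fin n → Bool, Real.exp (β * Pool.Agent.W_7d29a1_h47.energy ω s)) := by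
    rw [← Real.log_exp (V μ 0 (toF β ω) 0 n), h1, Real.log_mul (Real.exp_pos _).ne' h2.ne', Real.log_exp]
  unfold pZ
  rw [h3, Real.log_div h2.ne' (by positivity), Real.log_pow]
  ring

/-- The confined walks. -/
theorem cf_toF (μ : Measure ℝ) (β : ℝ) (ω : ℕ × ℤ → ℝ) (n : ℕ) {r : ℝ} (hr : 0 ≤ r) :
    cf μ r (toF β ω) 0 n / Real.exp (V μ 0 (toF β ω) 0 n) = polP β ω n (ball n (2 * r)) := by
  classical
  have h1 : cf μ r (toF β ω) 0 n = Real.exp (-(n * Pool.Agent.W_7d29a1_h47.Lam μ 0)) *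
      ∑ y ∈ Finset.Icc (0 : ℤ) n, Zr (St r 0) (toF β ω) 0 n y := by
    rw [Finset.mul_sum]
    unfold cf WR lam
    refine Finset.sum_congr rfl fun y _ => ?_
    congr 2
    simp
  rw [h1, exp_V, sum_univ, mul_div_mul_left _ _ (Real.exp_pos _).ne', sum_Zr, Pool.Agent.W_7d29a1_h47.sum_T_eq]
  unfold polP Pool.Agent.W_7d29a1_h47.polE
  congr 1
  refine Finset.sum_congr rfl fun s _ => ?_
  beta_reduce
  rw [pw_toF]
  have h2 : (∀ i < n, (((i : ℤ) + 1, TA_q (Pool.Agent.W_7d29a1_h47.ext s) (i + 1)) : Pt) ∈ St r 0) ↔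
      s ∈ ball n (2 * r) := by
    have h3 : ∀ i < n, ((((i : ℤ) + 1, TA_q (Pool.Agent.W_7d29a1_h47.ext s) (i + 1)) : Pt) ∈ St r 0 ↔
        |(Pool.Agent.W_7d29a1_h47.walk s (i + 1) : ℝ)| ≤ 2 * r) := by
      intro i hi
      rw [Pool.Agent.W_7d29a1_h47.walk_eq s (by omega), pos_eq]
      unfold St
      rw [Set.mem_ofPred_eq]
      push_cast
      simp
    constructor
    · intro h i hi
      rcases Nat.eq_zero_or_pos i with h0 | h0
      · rw [h0, Pool.Agent.W_7d29a1_h47.walk_eq s (Nat.zero_le n)]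
        simp only [Pool.Agent.W_7d29a1_h47.pos, Finset.range_zero, Finset.sum_empty, Int.cast_zero, abs_zero]
        positivity
      · obtain ⟨j, rfl⟩ : ∃ j, i = j + 1 := ⟨i - 1, by omega⟩
        exact (h3 j (by omega)).1 (h j (by omega))
    · intro h i hi
      exact (h3 i hi).2 (h (i + 1) (by omega))
  by_cases h : s ∈ ball n (2 * r)
  · rw [if_pos (h2.2 h), if_pos h, one_mul]
  · rw [if_neg fun h' => h (h2.1 h'), if_neg h, zero_mul]

end Pool.Agent.W_7d29a1_SR
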