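import Pool.Agent.W_7d29a1_SR.MidS

/-!
THEOREM (SR) (hand-in ScalingLaw), proofs row 626: the scaling law for `J μ (v / 2)` on the probability space of the problem.
-/

namespace Pool.Agent.W_7d29a1_SR

open MeasureTheory ProbabilityTheory Filter Topology
open Pool.Agent.W_7d29a1_F Pool.Agent.W_7d29a1_h4g Pool.Agent.W_7d29a1_G Pool.Agent.W_7d29a1_L

variable {Ω : Type*} [MeasurableSpace Ω] {P : Measure Ω} [IsProbabilityMeasure P] {ω : ℕ × ℤ → Ω → ℝ} {β : ℝ}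
  {μ : Measure ℝ} [IsProbabilityMeasure μ] {c C : ℝ} {n₀ : ℕ}

/-- The width at the problem level. -/
noncomputable def wth (P : Measure Ω) (β : ℝ) (ω : ℕ × ℤ → Ω → ℝ) (J : ℝ → ℝ) (n : ℕ) : ℝ := wid J (sgm P β ω n) n

/-- The scales are comparable. -/
theorem scales (h : In μ c C n₀) (hmp : MeasurePreserving (fun x => toF β fun p => ω p x) P (law μ)) :
    ∃ a A b B : ℝ, 0 < a ∧ 0 < A ∧ 0 < b ∧ 0 < B ∧ ∃ n₁ : ℕ, 1 ≤ n₁ ∧ ∀ n, n₁ ≤ n →
      a * EE μ n ≤ sgm P β ω n ∧ sgm P β ω n ≤ A * EE μ n ∧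
      b * wd μ n ≤ wth P β ω (fun v => J μ (v / 2)) n ∧ wth P β ω (fun v => J μ (v / 2)) n ≤ B * wd μ n ∧ 1 ≤ wd μ n := by
  obtain ⟨a, A, ha, hA, h1⟩ := sV_EE h
  obtain ⟨b, B, hb, n₁, h2⟩ := widthS h (σ := fun n => sgm P β ω n) ha (n₂ := 1) (A := A) fun n hn => by
    rw [sgm_eq hmp]
    exact h1 n hn
  obtain ⟨n₂, h3⟩ := eventually_atTop.1 ((wd_tendsto h).eventually_ge_atTop 1)
  refine ⟨a, A, b, |B| + 1, ha, hA, hb, by positivity, max 1 (max n₁ n₂), le_max_left _ _, fun n hn => ?_⟩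
  have hn1 : 1 ≤ n := (le_max_left _ _).trans hn
  have hn2 : n₁ ≤ n := (le_max_left _ _).trans ((le_max_right _ _).trans hn)
  have hn3 : n₂ ≤ n := (le_max_right _ _).trans ((le_max_right _ _).trans hn)
  have h4 := h3 n hn3
  have h5 := h1 n hn1
  have h6 := h2 n hn2
  rw [← sgm_eq hmp] at h5
  refine ⟨h5.1, h5.2, h6.1, h6.2.trans (mul_le_mul_of_nonneg_right ?_ (by linarith)), h4⟩
  have := le_abs_self B
  linarith

/-- The tails of the free energy at the unit `σ_n`. -/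
theorem devS (h : In μ c C n₀) (hmp : MeasurePreserving (fun x => toF β fun p => ω p x) P (law μ)) :
    ∃ A a g : ℝ, 0 < a ∧ 0 < g ∧ ∃ n₁ : ℕ, ∀ n, n₁ ≤ n → ∀ s : ℝ, 0 ≤ s →
      P.real {x | s * sgm P β ω n ≤ |Real.log (pZ β (fun p => ω p x) n) - ∫ y, Real.log (pZ β (fun p => ω p y) n) ∂P|} ≤
        A * Real.exp (-(a * s ^ g)) := by
  obtain ⟨A, a, g, ha, hg, hg1, h1⟩ := dev_V_exp h
  obtain ⟨b, B, hb, hB, h2⟩ := sV_EE h
  refine ⟨A, a * b ^ g, g, by positivity, hg, 1, fun n hn s hs => ?_⟩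
  have h3 := h1 n hn (s * b) (by positivity)
  have h4 := (h2 n hn).1
  rw [dev_P h.em hmp, sgm_eq hmp]
  refine (measureReal_mono (fun η hη => ?_) (measure_ne_top _ _)).trans (h3.trans (le_of_eq ?_))
  · rw [Set.mem_ofPred_eq] at hη ⊢
    refine le_trans ?_ hη
    have := mul_le_mul_of_nonneg_left h4 hs
    linarith
  · rw [Real.mul_rpow hs hb.le]
    congr 2
    ring

/-- The exits from the ball of radius `R w_n`. -/
theorem exitS_P (h : In μ c C n₀) (hmeas : ∀ p, Measurable (ω p))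
    (hmp : MeasurePreserving (fun x => toF β fun p => ω p x) P (law μ)) :
    ∃ A a g : ℝ, 0 < a ∧ 0 < g ∧ ∃ n₁ : ℕ, ∀ n, n₁ ≤ n → ∀ R : ℝ, 1 ≤ R →
      1 - ∫ x, polP β (fun p => ω p x) n (ball n (R * wth P β ω (fun v => J μ (v / 2)) n)) ∂P ≤ A * Real.exp (-(a * R ^ g)) := by
  obtain ⟨A, a, g, c', ha, hg, hg1, hc', n₁, hex⟩ := exitE h (tail_V_exp h)
  obtain ⟨a₁, A₁, b, B, -, -, hb, hB, n₂, hn₂, hsc⟩ := scales (P := P) (β := β) (ω := ω) h hmp
  obtain ⟨a₂, ha₂⟩ : ∃ a₂ : ℝ, a₂ = min a c' := ⟨_, rfl⟩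
  have ha₂0 : 0 < a₂ := by rw [ha₂]; exact lt_min ha hc'
  have ha₂a : a₂ ≤ a := by rw [ha₂]; exact min_le_left _ _
  have ha₂c : a₂ ≤ c' := by rw [ha₂]; exact min_le_right _ _
  have hb2 : 0 < b / 2 := by positivity
  refine ⟨(|A| + 1) * Real.exp a₂, a₂ * (b / 2) ^ g, g, by positivity, hg, max n₁ n₂, fun n hn R hR => ?_⟩
  have hn1 : n₁ ≤ n := (le_max_left _ _).trans hn
  have hn2 : n₂ ≤ n := (le_max_right _ _).trans hn
  obtain ⟨-, -, hw1, hw2, hwd⟩ := hsc n hn2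
  have hA0 := abs_nonneg A
  obtain ⟨R', hR'⟩ : ∃ R' : ℝ, R' = R * b / 2 := ⟨_, rfl⟩
  have hR'0 : 0 < R' := by rw [hR']; positivity
  have hpow : (b / 2) ^ g * R ^ g = R' ^ g := by
    rw [← Real.mul_rpow hb2.le (by linarith), hR']
    congr 1
    ring
  have hrew : a₂ * (b / 2) ^ g * R ^ g = a₂ * R' ^ g := by rw [mul_assoc, hpow]
  rw [hrew]
  have hRg : 0 ≤ R' ^ g := Real.rpow_nonneg hR'0.le g
  rcases le_or_gt 1 R' with h1 | h1
  · -- the ball contains a strip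
    have hsub : ball n (2 * (R' * wd μ n)) ⊆ ball n (R * wth P β ω (fun v => J μ (v / 2)) n) := by
      refine ball_mono n ?_
      have h3 := mul_le_mul_of_nonneg_left hw1 (show 0 ≤ R by linarith)
      have e : 2 * (R' * wd μ n) = R * (b * wd μ n) := by
        rw [hR']
        ring
      rw [e]
      exact h3
    have hint : ∫ x, polP β (fun p => ω p x) n (ball n (2 * (R' * wd μ n))) ∂P ≤
        ∫ x, polP β (fun p => ω p x) n (ball n (R * wth P β ω (fun v => J μ (v / 2)) n)) ∂P :=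
      integral_mono (polP_int hmeas n _) (polP_int hmeas n _) fun x => polP_mono _ _ _ hsub
    have hE := Pool.Agent.W_7d29a1_G.one_le_EE (μ := μ) n
    have h4 := exit_mean (P := P) (β := β) hmeas n (ball n (2 * (R' * wd μ n)))
      (t := Real.exp (-(c' * R' * EE μ n))) (Real.exp_pos _).le
    rw [exit_P hmp n (by positivity)] at h4
    have h5 := hex n hn1 R' h1
    have h6 : Real.exp (-(c' * R' * EE μ n)) ≤ Real.exp (-(a₂ * R' ^ g)) := by
      refine Real.exp_le_exp.2 (neg_le_neg ?_)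
      have h7 : R' ^ g ≤ R' := by
        calc R' ^ g ≤ R' ^ (1 : ℝ) := Real.rpow_le_rpow_of_exponent_le h1 hg1
          _ = R' := Real.rpow_one _
      calc a₂ * R' ^ g ≤ c' * R' := mul_le_mul ha₂c h7 hRg hc'.le
        _ ≤ c' * R' * EE μ n := le_mul_of_one_le_right (by positivity) hE
    have h7 : A * Real.exp (-(a * R' ^ g)) ≤ |A| * Real.exp (-(a₂ * R' ^ g)) := by
      have h8 : Real.exp (-(a * R' ^ g)) ≤ Real.exp (-(a₂ * R' ^ g)) :=
        Real.exp_le_exp.2 (neg_le_neg (mul_le_mul_of_nonneg_right ha₂a hRg))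
      exact mul_le_mul (le_abs_self A) h8 (Real.exp_pos _).le hA0
    have h8 : 1 ≤ Real.exp a₂ := Real.one_le_exp ha₂0.le
    have h9 := Real.exp_pos (-(a₂ * R' ^ g))
    have h10 : (|A| + 1) * Real.exp (-(a₂ * R' ^ g)) ≤ (|A| + 1) * Real.exp a₂ * Real.exp (-(a₂ * R' ^ g)) :=
      mul_le_mul_of_nonneg_right (le_mul_of_one_le_right (by positivity) h8) h9.le
    linarith
  · have h2 : 1 - ∫ x, polP β (fun p => ω p x) n (ball n (R * wth P β ω (fun v => J μ (v / 2)) n)) ∂P ≤ 1 := by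
      have h3 : 0 ≤ ∫ x, polP β (fun p => ω p x) n (ball n (R * wth P β ω (fun v => J μ (v / 2)) n)) ∂P :=
        integral_nonneg fun x => polP_nonneg _ _ _ _
      linarith
    refine h2.trans ?_
    have h3 : R' ^ g ≤ 1 := Real.rpow_le_one hR'0.le h1.le hg.le
    have h4 : (1 : ℝ) ≤ Real.exp a₂ * Real.exp (-(a₂ * R' ^ g)) := by
      rw [← Real.exp_add]
      refine Real.one_le_exp ?_
      nlinarith
    calc (1 : ℝ) ≤ Real.exp a₂ * Real.exp (-(a₂ * R' ^ g)) := h4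
      _ ≤ (|A| + 1) * (Real.exp a₂ * Real.exp (-(a₂ * R' ^ g))) := le_mul_of_one_le_left (by positivity) (by linarith)
      _ = _ := by ring

/-- The spread at the scale `w_n`. -/
theorem spreadS_P (h : In μ c C n₀) (hmeas : ∀ p, Measurable (ω p))
    (hmp : MeasurePreserving (fun x => toF β fun p => ω p x) P (law μ)) :
    ∃ c' d : ℝ, 0 < c' ∧ 0 < d ∧ ∃ n₁ : ℕ, ∀ n, n₁ ≤ n →
      ∫ x, polP β (fun p => ω p x) n (ball n (c' * wth P β ω (fun v => J μ (v / 2)) n)) ∂P ≤ 1 - d := by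
  obtain ⟨c', d, hc', hd, n₁, hs⟩ := spread h
  obtain ⟨a₁, A₁, b, B, -, -, hb, hB, n₂, hn₂, hsc⟩ := scales (P := P) (β := β) (ω := ω) h hmp
  refine ⟨2 * c' / B, d, by positivity, hd, max n₁ n₂, fun n hn => ?_⟩
  obtain ⟨-, -, hw1, hw2, hwd⟩ := hsc n ((le_max_right _ _).trans hn)
  have h1 := hs n ((le_max_left _ _).trans hn)
  rw [← ball_P (P := P) (β := β) hmp n (by positivity)] at h1
  refine le_trans (integral_mono (polP_int hmeas n _) (polP_int hmeas n _) fun x => polP_mono _ _ _ (ball_mono n ?_)) h1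
  have h2 := mul_le_mul_of_nonneg_left hw2 (show 0 ≤ 2 * c' / B by positivity)
  refine h2.trans (le_of_eq ?_)
  field_simp

/-- The luck at the unit `σ_n`. -/
theorem luckS_P (h : In μ c C n₀) (hmp : MeasurePreserving (fun x => toF β fun p => ω p x) P (law μ)) (K : ℝ) :
    ∃ p : ℝ, 0 < p ∧ ∃ n₁ : ℕ, ∀ n, n₁ ≤ n →
      p ≤ P.real {x | K * sgm P β ω n ≤ Real.log (pZ β (fun p => ω p x) n) - ∫ y, Real.log (pZ β (fun p => ω p y) n) ∂P} := by
  obtain ⟨a, A, ha, hA, h2⟩ := sV_EE h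
  obtain ⟨p, hp, n₁, h1⟩ := lucky h (|K| * A)
  refine ⟨p, hp, max 1 n₁, fun n hn => ?_⟩
  rw [luck_P h.em hmp, sgm_eq hmp]
  refine (h1 n ((le_max_right _ _).trans hn)).trans (measureReal_mono (fun η hη => ?_) (measure_ne_top _ _))
  rw [Set.mem_ofPred_eq] at hη ⊢
  have h3 := (h2 n ((le_max_left _ _).trans hn))
  have h4 := (mean_V h n).2
  have h5 : K * sV μ n ≤ |K| * (A * EE μ n) := by
    have hs : 0 ≤ sV μ n := Real.sqrt_nonneg _
    exact mul_le_mul (le_abs_self K) h3.2 hs (abs_nonneg K)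
  linarith

end Pool.Agent.W_7d29a1_SR
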