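import Pool.Agent.W_7d29a1_SR.SubH
import Pool.Agent.W_7d29a1_G.ElemD1

/-!
STORM X / THEOREM (SR): the cone closes at ALL scales, from (SUB) with the exponent `1 / 2` and `HF2` (slope `3 / 4`), and the doubling
of the rate function (D2).
-/

namespace Pool.Agent.W_7d29a1_SR

open MeasureTheory ProbabilityTheory Filter Topology
open Pool.Agent.W_7d29a1_F Pool.Agent.W_7d29a1_h4g Pool.Agent.W_7d29a1_G Pool.Agent.W_7d29a1_L

/-- RISING SUN: a function which grows on all stretches by at most `j / 2 + K` has in every window of a fixed length a point from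
which it grows by at most `3 j / 4` for `L` steps. -/
theorem rising {g : ℕ → ℝ} {K : ℝ} {x₀ : ℕ} (hg : ∀ x j, x₀ ≤ x → g (x + j) ≤ g x + j / 2 + K) (L : ℕ) {N : ℕ}
    (hN : 4 * K ≤ N) {x : ℕ} (hx : x₀ ≤ x) : ∃ x', x ≤ x' ∧ x' ≤ x + N ∧ ∀ j ≤ L, g (x' + j) ≤ g x' + 3 / 4 * j := by
  by_contra hcon
  push Not at hcon
  have key : ∀ k : ℕ, k ≤ N + 1 → ∃ y, x + k ≤ y ∧ g x + 3 / 4 * ((y : ℝ) - x) ≤ g y := by
    intro k
    induction k with
    | zero => exact fun _ => ⟨x, le_rfl, by simp⟩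
    | succ k ih =>
      intro hk
      obtain ⟨y, hy1, hy2⟩ := ih (by omega)
      rcases lt_or_ge (x + k) y with hlt | hge
      · exact ⟨y, by omega, hy2⟩
      · have hyk : y = x + k := by omega
        obtain ⟨j, -, hj2⟩ := hcon y (by omega) (by omega)
        have hj0 : j ≠ 0 := by
          rintro rfl
          simp at hj2
        refine ⟨y + j, by omega, ?_⟩
        push_cast
        linarith
  obtain ⟨y, hy1, hy2⟩ := key (N + 1) le_rfl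
  have h1 := hg x (y - x) hx
  have h2 : x + (y - x) = y := by omega
  rw [h2] at h1
  have h3 : ((y - x : ℕ) : ℝ) = (y : ℝ) - x := by
    rw [Nat.cast_sub (by omega)]
  rw [h3] at h1
  have h4 : (x : ℝ) + (N + 1) ≤ y := by exact_mod_cast hy1
  linarith

variable {μ : Measure ℝ} [IsProbabilityMeasure μ] {c C : ℝ} {n₀ : ℕ}

/-- The growth of the unit along the octaves. -/
theorem gg_half (h : In μ c C n₀) : ∃ (K : ℝ) (x₀ : ℕ), ∀ x j : ℕ, x₀ ≤ x → gg μ (x + j) ≤ gg μ x + j / 2 + K := by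
  obtain ⟨A, hA, n₁, hn1, hs⟩ := sub_half h
  refine ⟨Real.logb 2 A / 2, n₁, fun x j hx => ?_⟩
  have hpx : n₁ ≤ 2 ^ x := hx.trans (Nat.lt_two_pow_self).le
  have h1 := hs (2 ^ x) (2 ^ (x + j)) hpx (Nat.pow_le_pow_right (by norm_num) (by omega))
  have hE1 := EE_pos (μ := μ) (2 ^ x)
  have hE2 := EE_pos (μ := μ) (2 ^ (x + j))
  have h2 : (((2 ^ (x + j) : ℕ) : ℝ) / ((2 ^ x : ℕ) : ℝ)) = (2 : ℝ) ^ j := by
    push_cast
    rw [pow_add]
    field_simp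
  rw [h2] at h1
  have h3 := Real.logb_le_logb_of_le one_lt_two (pow_pos hE2 2) h1
  rw [Real.logb_mul (by positivity) (by positivity), Real.logb_mul (by positivity) (by positivity), Real.logb_pow,
    Real.logb_pow, Real.logb_pow, Real.logb_self_eq_one one_lt_two] at h3
  unfold gg
  push_cast at h3
  linarith

/-- **The cone closes at all scales.** -/
theorem cone_all (h : In μ c C n₀) (hF : HF2 μ) : ∃ (L x₁ : ℕ) (δ : ℝ), 0 < δ ∧ 1 ≤ L ∧ ∀ x, x₁ ≤ x →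
    ff μ 1 x + δ ≤ ff μ 1 (x + L) := by
  obtain ⟨K, x₀, hK⟩ := gg_half h
  obtain ⟨α, x₂, hα⟩ := h.soft
  obtain ⟨T, x₃, hT⟩ := h.dbl
  have hmono : Monotone (ff μ 1) := ff_mono h.em one_pos
  -- the upper bound from the origin
  obtain ⟨b₀, hb₀⟩ : ∃ b₀ : ℝ, ∀ x : ℕ, gg μ x ≤ (x : ℝ) / 2 + b₀ := by
    refine ⟨gg μ x₀ + |K|, fun x => ?_⟩
    have hx0 : (0 : ℝ) ≤ x := Nat.cast_nonneg x
    rcases le_total x₀ x with hx | hx
    · have h1 := hK x₀ (x - x₀) le_rfl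
      have h2 : x₀ + (x - x₀) = x := by omega
      rw [h2, Nat.cast_sub hx] at h1
      have h3 := le_abs_self K
      have h4 : (0 : ℝ) ≤ x₀ := Nat.cast_nonneg x₀
      linarith
    · have h1 := gg_mono (μ := μ) hx
      have h3 := abs_nonneg K
      linarith
  obtain ⟨L, x₄, δ, hδ, hF'⟩ := hF T (max x₂ x₃) (max b₀ α) (fun x hx => hT x ((le_max_right _ _).trans hx))
    (fun x hx => (hα x ((le_max_left _ _).trans hx)).mono (le_max_right _ _))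
    (fun x => (hb₀ x).trans (by linarith [le_max_left b₀ α]))
  obtain ⟨N, hN⟩ : ∃ N : ℕ, 4 * K ≤ N := exists_nat_ge _
  refine ⟨N + L + 1, max x₀ x₄, δ, hδ, by omega, fun x hx => ?_⟩
  obtain ⟨x', h1, h2, h3⟩ := rising hK L hN ((le_max_left _ _).trans hx)
  have h4 := hF' x' (((le_max_right _ _).trans hx).trans h1) h3
  have h5 : ff μ 1 x ≤ ff μ 1 x' := hmono h1
  have h6 : ff μ 1 (x' + L) ≤ ff μ 1 (x + (N + L + 1)) := hmono (by omega)
  linarith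

/-- Iteration. -/
theorem cone_iter (h : In μ c C n₀) (hF : HF2 μ) : ∃ (a b : ℝ) (x₁ : ℕ), 0 < a ∧ ∀ x j : ℕ, x₁ ≤ x →
    ff μ 1 x + a * j - b ≤ ff μ 1 (x + j) := by
  obtain ⟨L, x₁, δ, hδ, hL, hc⟩ := cone_all h hF
  have hmono : Monotone (ff μ 1) := ff_mono h.em one_pos
  have hLR : (0 : ℝ) < L := by exact_mod_cast hL
  refine ⟨δ / L, δ, x₁, by positivity, fun x j hx => ?_⟩
  have h1 : ∀ k : ℕ, ff μ 1 x + δ * k ≤ ff μ 1 (x + k * L) := by
    intro k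
    induction k with
    | zero => simp
    | succ k ih =>
      have h2 := hc (x + k * L) (by omega)
      have h3 : x + k * L + L = x + (k + 1) * L := by ring
      rw [h3] at h2
      push_cast
      linarith
  have h2 := h1 (j / L)
  have h3 : ff μ 1 (x + j / L * L) ≤ ff μ 1 (x + j) := hmono (by
    have := Nat.div_mul_le_self j L
    omega)
  have h4 : (j : ℝ) / L ≤ ((j / L : ℕ) : ℝ) + 1 := by
    rw [div_le_iff₀ hLR]
    have h5 : j < L * (j / L + 1) := Nat.lt_mul_div_succ j hL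
    have h6 : (j : ℝ) ≤ L * (((j / L : ℕ) : ℝ) + 1) := by exact_mod_cast h5.le
    linarith
  have h5 : δ / L * j = δ * ((j : ℝ) / L) := by ring
  have h6 := mul_le_mul_of_nonneg_left h4 hδ.le
  rw [h5]
  linarith

/-- The slope of the cone decreases like a power on every stretch. -/
theorem vA_pow (h : In μ c C n₀) (hF : HF2 μ) : ∃ (K a : ℝ) (n₁ : ℕ), 0 < K ∧ 0 < a ∧ 1 ≤ n₁ ∧ ∀ m n : ℕ, n₁ ≤ m → m ≤ n →
    vA μ 1 n ≤ K * ((m : ℝ) / n) ^ a * vA μ 1 m := by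
  obtain ⟨a, b, x₁, ha, hc⟩ := cone_iter h hF
  obtain ⟨n₂, hv⟩ := vA_le2 h
  obtain ⟨B, hB⟩ : ∃ B : ℝ, B = |b| := ⟨_, rfl⟩
  have hbB : b ≤ B := by rw [hB]; exact le_abs_self b
  have hB0 : 0 ≤ B := by rw [hB]; exact abs_nonneg b
  refine ⟨4 * (2 : ℝ) ^ (B + 2 * a), a, 2 * max n₂ (2 ^ x₁) + 1, by positivity, ha, by omega, fun m n hm hmn => ?_⟩
  have hm0 : m ≠ 0 := by omega
  have hn0 : n ≠ 0 := by omega
  have hmR : (0 : ℝ) < m := by exact_mod_cast Nat.pos_of_ne_zero hm0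
  have hnR : (0 : ℝ) < n := by exact_mod_cast Nat.pos_of_ne_zero hn0
  obtain ⟨x, hx⟩ : ∃ x : ℕ, x = Nat.log 2 m := ⟨_, rfl⟩
  obtain ⟨y, hy⟩ : ∃ y : ℕ, y = Nat.log 2 n := ⟨_, rfl⟩
  have hx1 : 2 ^ x ≤ m := by rw [hx]; exact Nat.pow_log_le_self 2 hm0
  have hx2 : m < 2 ^ (x + 1) := by rw [hx]; exact Nat.lt_pow_succ_log_self (by norm_num) m
  have hy1 : 2 ^ y ≤ n := by rw [hy]; exact Nat.pow_log_le_self 2 hn0
  have hy2 : n < 2 ^ (y + 1) := by rw [hy]; exact Nat.lt_pow_succ_log_self (by norm_num) n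
  have hxy : x ≤ y := by rw [hx, hy]; exact Nat.log_mono_right hmn
  have hx3 : n₂ ≤ 2 ^ x := by
    have : 2 * max n₂ (2 ^ x₁) + 1 ≤ 2 * 2 ^ x := by
      rw [pow_succ] at hx2
      omega
    have h2 := le_max_left n₂ (2 ^ x₁)
    omega
  have hx4 : x₁ ≤ x := by
    have : 2 * max n₂ (2 ^ x₁) + 1 ≤ 2 * 2 ^ x := by
      rw [pow_succ] at hx2
      omega
    have h2 := le_max_right n₂ (2 ^ x₁)
    have h3 : 2 ^ x₁ < 2 ^ (x + 1) := by
      rw [pow_succ]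
      omega
    have := (Nat.pow_lt_pow_iff_right (by norm_num : 1 < 2)).1 h3
    omega
  have hvm := vA_pos (μ := μ) h.em one_pos m
  -- `2 ^ (- a (y - x))` against `(m / n) ^ a`
  have hratio : (2 : ℝ) ^ (-(a * ((y : ℝ) - x))) ≤ (2 : ℝ) ^ a * ((m : ℝ) / n) ^ a := by
    rw [← Real.mul_rpow (by norm_num) (by positivity)]
    have h1 : (2 : ℝ) ^ (-((y : ℝ) - x)) ≤ 2 * ((m : ℝ) / n) := by
      have e1 : (2 : ℝ) ^ (-((y : ℝ) - x)) = (2 : ℝ) ^ x / (2 : ℝ) ^ y := by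
        rw [neg_sub, Real.rpow_sub (by norm_num), Real.rpow_natCast, Real.rpow_natCast]
      rw [e1, div_le_iff₀ (by positivity)]
      have e2 : (2 : ℝ) ^ x ≤ m := by exact_mod_cast hx1
      have e3 : (n : ℝ) ≤ 2 * (2 : ℝ) ^ y := by
        have : (n : ℝ) ≤ (2 : ℝ) ^ (y + 1) := by exact_mod_cast hy2.le
        rw [pow_succ] at this
        linarith
      calc (2 : ℝ) ^ x ≤ m := e2
        _ = (m : ℝ) / n * n := by field_simp
        _ ≤ (m : ℝ) / n * (2 * (2 : ℝ) ^ y) := mul_le_mul_of_nonneg_left e3 (by positivity)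
        _ = 2 * ((m : ℝ) / n) * (2 : ℝ) ^ y := by ring
    have h2 := Real.rpow_le_rpow (Real.rpow_nonneg (by norm_num) _) h1 ha.le
    refine le_trans (le_of_eq ?_) h2
    rw [← Real.rpow_mul (by norm_num)]
    congr 1
    ring
  have hlast : 4 * (2 : ℝ) ^ (B + a) * (2 : ℝ) ^ (-(a * ((y : ℝ) - x))) * vA μ 1 m ≤
      4 * (2 : ℝ) ^ (B + 2 * a) * ((m : ℝ) / n) ^ a * vA μ 1 m := by
    refine mul_le_mul_of_nonneg_right ?_ hvm.le
    have e1 : 4 * (2 : ℝ) ^ (B + 2 * a) * ((m : ℝ) / n) ^ a = 4 * (2 : ℝ) ^ (B + a) * ((2 : ℝ) ^ a * ((m : ℝ) / n) ^ a) := by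
      have : B + 2 * a = (B + a) + a := by ring
      rw [this, Real.rpow_add (by norm_num)]
      ring
    rw [e1]
    exact mul_le_mul_of_nonneg_left hratio (by positivity)
  refine le_trans ?_ hlast
  rcases hxy.eq_or_lt with hxy' | hxy'
  · have h1 := hv m n (hx3.trans hx1) hmn
    have e1 : (2 : ℝ) ^ (-(a * ((y : ℝ) - x))) = 1 := by
      rw [← hxy']
      simp
    rw [e1, mul_one]
    have e2 : (1 : ℝ) ≤ (2 : ℝ) ^ (B + a) := Real.one_le_rpow (by norm_num) (by linarith)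
    nlinarith
  · have h1 := hv (2 ^ y) n (hx3.trans (Nat.pow_le_pow_right (by norm_num) hxy)) hy1
    have h2 := hv m (2 ^ (x + 1)) (hx3.trans hx1) hx2.le
    have h3 := hc (x + 1) (y - (x + 1)) (by omega)
    have e1 : x + 1 + (y - (x + 1)) = y := by omega
    rw [e1, Nat.cast_sub (by omega)] at h3
    push_cast at h3
    have h4 : vA μ 1 (2 ^ y) ≤ (2 : ℝ) ^ (B + a) * (2 : ℝ) ^ (-(a * ((y : ℝ) - x))) * vA μ 1 (2 ^ (x + 1)) := by
      rw [← two_rpow_ff (μ := μ) h.em one_pos y, ← two_rpow_ff (μ := μ) h.em one_pos (x + 1),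
        ← Real.rpow_add (by norm_num), ← Real.rpow_add (by norm_num)]
      refine Real.rpow_le_rpow_of_exponent_le (by norm_num) ?_
      linarith
    have h5 : 0 ≤ (2 : ℝ) ^ (B + a) * (2 : ℝ) ^ (-(a * ((y : ℝ) - x))) := by positivity
    calc vA μ 1 n ≤ 2 * vA μ 1 (2 ^ y) := h1
      _ ≤ 2 * ((2 : ℝ) ^ (B + a) * (2 : ℝ) ^ (-(a * ((y : ℝ) - x))) * vA μ 1 (2 ^ (x + 1))) :=
          mul_le_mul_of_nonneg_left h4 (by norm_num)
      _ ≤ 2 * ((2 : ℝ) ^ (B + a) * (2 : ℝ) ^ (-(a * ((y : ℝ) - x))) * (2 * vA μ 1 m)) :=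
          mul_le_mul_of_nonneg_left (mul_le_mul_of_nonneg_left h2 h5) (by norm_num)
      _ = _ := by ring

/-- The width grows at most like `n ^ (1 - a)` on every stretch. -/
theorem wd_pow (h : In μ c C n₀) (hF : HF2 μ) : ∃ (K a : ℝ) (n₁ : ℕ), 0 < K ∧ 0 < a ∧ 1 ≤ n₁ ∧ ∀ m n : ℕ, n₁ ≤ m → m ≤ n →
    wd μ n ≤ K * ((n : ℝ) / m) ^ (1 - a) * wd μ m := by
  obtain ⟨K, a, n₁, hK, ha, hn1, hv⟩ := vA_pow h hF
  refine ⟨K, a, n₁, hK, ha, hn1, fun m n hm hmn => ?_⟩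
  have hmR : (0 : ℝ) < m := by exact_mod_cast (by omega : 0 < m)
  have hnR : (0 : ℝ) < n := by exact_mod_cast (by omega : 0 < n)
  have h1 := mul_le_mul_of_nonneg_right (hv m n hm hmn) hnR.le
  unfold wd
  refine h1.trans (le_of_eq ?_)
  have e1 : ((n : ℝ) / m) ^ (1 - a) = (n : ℝ) / m * ((m : ℝ) / n) ^ a := by
    rw [Real.rpow_sub (by positivity), Real.rpow_one, ← inv_div (n : ℝ) (m : ℝ), Real.inv_rpow (by positivity)]
    ring
  rw [e1]
  field_simp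

/-- **(D2): the rate function doubles at all small scales.** -/
theorem J_dbl (h : In μ c C n₀) (hF : HF2 μ) : ∃ K v₀ : ℝ, 1 ≤ K ∧ 0 < v₀ ∧ v₀ ≤ 1 / 4 ∧ ∀ v, 0 ≤ v → v ≤ v₀ →
    J μ (2 * v) ≤ K * J μ v := by
  obtain ⟨a, b, x₁, ha, hc⟩ := cone_iter h hF
  obtain ⟨j, hj⟩ : ∃ j : ℕ, (2 + b) / a ≤ j := exists_nat_ge _
  rw [div_le_iff₀ ha] at hj
  obtain ⟨n₂, hn₂⟩ := eventually_atTop.1 (vA_lt_half (μ := μ) h.em h.nd zero_le_one)
  obtain ⟨x₂, hx₂⟩ : ∃ x₂ : ℕ, x₂ = max x₁ n₂ := ⟨_, rfl⟩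
  have hlt : ∀ x, x₂ ≤ x → vA μ 1 (2 ^ x) < 1 / 2 := fun x hx =>
    hn₂ _ (((le_max_right x₁ n₂).trans (hx₂ ▸ hx)).trans (Nat.lt_two_pow_self).le)
  have hpos : ∀ x : ℕ, 0 < vA μ 1 (2 ^ x) := fun x => vA_pos (μ := μ) h.em one_pos _
  have hJ : ∀ x, x₂ ≤ x → (2 : ℝ) ^ x * J μ (vA μ 1 (2 ^ x)) = EE μ (2 ^ x) := by
    intro x hx
    have h1 := vA_eq' (μ := μ) h.em zero_le_one (hlt x hx)
    push_cast at h1
    linarith
  have htend : Tendsto (fun x : ℕ => vA μ 1 (2 ^ x)) atTop (𝓝 0) :=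
    h.tv.comp (tendsto_pow_atTop_atTop_of_one_lt one_lt_two)
  refine ⟨(2 : ℝ) ^ (1 + j), vA μ 1 (2 ^ x₂) / 2, one_le_pow₀ (by norm_num), by have := hpos x₂; positivity,
    by linarith [hlt x₂ le_rfl], fun v hv0 hv1 => ?_⟩
  rcases hv0.eq_or_lt with rfl | hv
  · rw [mul_zero, J_zero h.em, mul_zero]
  -- the scale of `2 v`
  have hex : ∃ x, x₂ ≤ x ∧ vA μ 1 (2 ^ (x + 1)) < 2 * v := by
    obtain ⟨N, hN⟩ := eventually_atTop.1 (htend.eventually (eventually_lt_nhds (show (0 : ℝ) < 2 * v by linarith)))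
    exact ⟨max x₂ N, le_max_left _ _, hN _ ((le_max_right _ _).trans (Nat.le_succ _))⟩
  classical
  obtain ⟨x, hxd⟩ : ∃ x : ℕ, x = Nat.find hex := ⟨_, rfl⟩
  have hxs := Nat.find_spec hex
  rw [← hxd] at hxs
  have hx2 : x₂ ≤ x := hxs.1
  have hx3 : vA μ 1 (2 ^ (x + 1)) < 2 * v := hxs.2
  have hx4 : 2 * v ≤ vA μ 1 (2 ^ x) := by
    rcases hx2.eq_or_lt with h0 | h0
    · rw [← h0]
      linarith
    · by_contra hcon
      rw [not_le] at hcon
      have h1 : x - 1 < x := by omega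
      rw [hxd] at h1
      refine Nat.find_min hex h1 ⟨?_, ?_⟩
      · rw [← hxd]
        omega
      · rw [← hxd]
        have e1 : x - 1 + 1 = x := by omega
        rw [e1]
        exact hcon
  -- the scale of `v`
  have h1 := hc (x + 1) j (by rw [hx₂] at hx2; exact ((le_max_left _ _).trans hx2).trans (Nat.le_succ _))
  have h2 : vA μ 1 (2 ^ (x + 1 + j)) ≤ vA μ 1 (2 ^ (x + 1)) / 4 := by
    have h3 : ff μ 1 (x + 1) + 2 ≤ ff μ 1 (x + 1 + j) := by linarith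
    have h4 := Real.rpow_le_rpow_of_exponent_le (x := 2) (by norm_num) (show -ff μ 1 (x + 1 + j) ≤ -ff μ 1 (x + 1) + -2 by linarith)
    rw [Real.rpow_add (by norm_num), two_rpow_ff (μ := μ) h.em one_pos, two_rpow_ff (μ := μ) h.em one_pos] at h4
    have e1 : (2 : ℝ) ^ (-2 : ℝ) = 1 / 4 := by
      rw [Real.rpow_neg (by norm_num)]
      norm_num
    rw [e1] at h4
    linarith
  have h3 : vA μ 1 (2 ^ (x + 1 + j)) ≤ v := by
    have := hpos (x + 1)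
    linarith
  have h4 := J_mono' (μ := μ) h.em (vA_nonneg (μ := μ) h.em zero_le_one (2 ^ (x + 1 + j))) h3
    (by linarith [hlt x hx2, vA_le (μ := μ) h.em zero_le_one (2 ^ x)])
  have h5 := J_mono' (μ := μ) h.em (show (0 : ℝ) ≤ 2 * v by linarith) hx4 (vA_le (μ := μ) h.em zero_le_one (2 ^ x))
  have h6 := hJ x hx2
  have h7 := hJ (x + 1 + j) (by omega)
  have h8 : EE μ (2 ^ x) ≤ EE μ (2 ^ (x + 1 + j)) := EE_mono (Nat.pow_le_pow_right (by norm_num) (by omega))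
  have h9 : (2 : ℝ) ^ x * J μ (2 * v) ≤ (2 : ℝ) ^ (x + 1 + j) * J μ v := by
    calc (2 : ℝ) ^ x * J μ (2 * v) ≤ (2 : ℝ) ^ x * J μ (vA μ 1 (2 ^ x)) := mul_le_mul_of_nonneg_left h5 (by positivity)
      _ = EE μ (2 ^ x) := h6
      _ ≤ EE μ (2 ^ (x + 1 + j)) := h8
      _ = (2 : ℝ) ^ (x + 1 + j) * J μ (vA μ 1 (2 ^ (x + 1 + j))) := h7.symm
      _ ≤ (2 : ℝ) ^ (x + 1 + j) * J μ v := mul_le_mul_of_nonneg_left h4 (by positivity)
  have h10 : (2 : ℝ) ^ (x + 1 + j) = (2 : ℝ) ^ x * (2 : ℝ) ^ (1 + j) := by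
    rw [← pow_add]
    congr 1
    ring
  rw [h10, mul_assoc] at h9
  exact le_of_mul_le_mul_left h9 (by positivity)

end Pool.Agent.W_7d29a1_SR
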