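import Pool.Agent.W_7d29a1_SR.Scale
import Pool.Agent.W_7d29a1_L.LsA1
import Pool.Agent.W_7d29a1_h21g.LuckP

/-!
THEOREM (SR) (hand-in ScalingLaw), proofs row 626, section (S1).
-/

namespace Pool.Agent.W_7d29a1_SR

open MeasureTheory ProbabilityTheory Filter Topology
open Pool.Agent.W_7d29a1_F Pool.Agent.W_7d29a1_h4g Pool.Agent.W_7d29a1_G Pool.Agent.W_7d29a1_L
open Pool.Agent.W_7d29a1_L78 Pool.Agent.W_7d29a1_h60

variable {μ : Measure ℝ} [IsProbabilityMeasure μ] {c C : ℝ} {n₀ : ℕ}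

/-- The mean of the unluck of the free polymer is at most the unit. -/
theorem mean_neg_V (hEM : Pool.Agent.W_7d29a1_h47.EM μ) {m n : ℕ} (hmn : m ≤ n) :
    ∫ η, max (-V μ 0 η 0 m) 0 ∂(law μ) ≤ EE μ n := by
  refine le_trans ?_ (ref_le_EE (μ := μ) hmn)
  refine integral_mono (((Sub_V 0 m).neg.max (Sub.const 0)).integrable hEM)
    (((Sub_X 0 (md_nonneg m) (md_le m)).max (Sub.const 0)).integrable hEM) fun η => ?_
  have h1 := neg_X_le_V (μ := μ) (s := 0) η 0 (md_nonneg m) (md_le m)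
  exact max_le_max (by linarith) le_rfl

/-- A luck at the level `l` and a fresh continuation from the end point of the polymer. -/
theorem lucky_cont (hEM : Pool.Agent.W_7d29a1_h47.EM μ) (l m : ℕ) {A : ℝ} (hA : 0 < A)
    (hV : ∫ η, max (-V μ 0 η 0 m) 0 ∂(law μ) ≤ A) (Y : ℝ) :
    (law μ).real {η | Y ≤ V μ 0 η 0 l} ≤ 2 * (law μ).real {η | Y - 2 * A ≤ V μ 0 η 0 (l + m)} := by
  have hm1 : MeasurableSet {η : Env | Y ≤ V μ 0 η 0 l} := measurableSet_le measurable_const (measurable_V 0 l)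
  have hm2 : MeasurableSet {η : Env | Y - 2 * A ≤ V μ 0 η 0 (l + m)} :=
    measurableSet_le measurable_const (measurable_V 0 (l + m))
  rw [← integral_io_real hm1, ← integral_io_real hm2]
  obtain ⟨ι, hι⟩ : ∃ ι : Env → ℝ, ι = fun η => io (Y ≤ V μ 0 η 0 l) := ⟨_, rfl⟩
  obtain ⟨F, hF⟩ : ∃ F : ℤ → Env → ℝ, F = fun k η => max (-V μ 0 η ((0 : Pt).1 + l, (0 : Pt).2 + k) m) 0 := ⟨_, rfl⟩
  obtain ⟨R, hR⟩ : ∃ R : Env → ℝ, R = fun η => (∑ k ∈ Finset.Icc (0 : ℤ) l, W μ 0 η 0 l k * F k η) /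
    Real.exp (V μ 0 η 0 l) := ⟨_, rfl⟩
  have hιS : Sub ι := by rw [hι]; exact Sub_io hm1
  have hι0 : ∀ η, 0 ≤ ι η := fun η => by rw [hι]; exact io_nonneg _
  have hι1 : ∀ η, ι η ≤ 1 := fun η => by rw [hι]; exact io_le_one _
  have hιd : DependsOn ι (rows 0 ((0 : Pt).1 + l)) := by
    rw [hι]
    intro η η' h
    have h1 : V μ 0 η 0 l = V μ 0 η' 0 l := V_dep_rows (μ := μ) (s := 0) 0 l h
    show io (Y ≤ V μ 0 η 0 l) = io (Y ≤ V μ 0 η' 0 l)
    rw [h1]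
  have hFS : ∀ k, Sub (F k) := fun k => by rw [hF]; exact (Sub_V _ _).neg.max (Sub.const 0)
  have hF0 : ∀ k η, 0 ≤ F k η := fun k η => by rw [hF]; exact le_max_right _ _
  have hFd : ∀ k, DependsOn (F k) (rows ((0 : Pt).1 + l) ((0 : Pt).1 + l + m)) := by
    intro k η η' h
    have h1 : V μ 0 η ((0 : Pt).1 + l, (0 : Pt).2 + k) m = V μ 0 η' ((0 : Pt).1 + l, (0 : Pt).2 + k) m :=
      V_dep_rows (μ := μ) (s := 0) ((0 : Pt).1 + l, (0 : Pt).2 + k) m h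
    rw [hF]
    show max (-V μ 0 η ((0 : Pt).1 + l, (0 : Pt).2 + k) m) 0 = max (-V μ 0 η' ((0 : Pt).1 + l, (0 : Pt).2 + k) m) 0
    rw [h1]
  have hFi : ∀ k, ∫ η, F k η ∂(law μ) = ∫ η, max (-V μ 0 η 0 m) 0 ∂(law μ) := fun k => by
    rw [hF]
    exact integral_V_fun (μ := μ) (s := 0) (f := fun x => max (-x) 0) (measurable_neg.max measurable_const) _ m
  obtain ⟨hint, hval⟩ := cont_gen (μ := μ) (s := 0) hEM 0 l hιS.1 hι0 hι1 (c := 0) le_rfl hιd hFS hFd hFi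
  have hRm : Measurable R := by
    rw [hR]
    refine Measurable.div (Finset.measurable_sum _ fun k _ => (measurable_W 0 l k).mul (hFS k).1) ?_
    exact Real.measurable_exp.comp (measurable_V 0 l)
  have hR0 : ∀ η, 0 ≤ R η := fun η => by
    rw [hR]
    exact div_nonneg (Finset.sum_nonneg fun k _ => mul_nonneg (W_nonneg _ _ _ _) (hF0 k η)) (Real.exp_pos _).le
  have hιR : (fun η => ι η * R η) = fun η => ι η * ((∑ k ∈ Finset.Icc (0 : ℤ) l, W μ 0 η 0 l k * F k η) /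
      Real.exp (V μ 0 η 0 l)) := by rw [hR]
  have hint' : Integrable (fun η => ι η * R η) (law μ) := by rw [hιR]; exact hint
  have hval' : ∫ η, ι η * R η ∂(law μ) ≤ A * ∫ η, ι η ∂(law μ) := by
    rw [hιR, hval, mul_comm]
    exact mul_le_mul_of_nonneg_right hV (integral_nonneg hι0)
  have h1 := half_mass hEM hιS hι0 hRm hR0 hint' hA hval'
  have hRm2 : MeasurableSet {η | R η ≤ 2 * A} := measurableSet_le hRm measurable_const
  have h2 : ∫ η, ι η * io (R η ≤ 2 * A) ∂(law μ) ≤ ∫ η, io (Y - 2 * A ≤ V μ 0 η 0 (l + m)) ∂(law μ) := by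
    refine integral_mono (Sub.mul_integrable hEM hιS (Sub_io hRm2)) ((Sub_io hm2).integrable hEM) fun η => ?_
    by_cases h3 : Y ≤ V μ 0 η 0 l
    · by_cases h4 : R η ≤ 2 * A
      · have h5 := V_add_jensen (μ := μ) (s := 0) η 0 l m
        have h6 : -R η ≤ (∑ k ∈ Finset.Icc (0 : ℤ) l, W μ 0 η 0 l k * V μ 0 η ((0 : Pt).1 + l, (0 : Pt).2 + k) m) /
            Real.exp (V μ 0 η 0 l) := by
          rw [hR, ← neg_div, div_le_div_iff_of_pos_right (Real.exp_pos _), ← Finset.sum_neg_distrib]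
          refine Finset.sum_le_sum fun k _ => ?_
          rw [hF]
          have h7 : -V μ 0 η ((0 : Pt).1 + l, (0 : Pt).2 + k) m ≤
            max (-V μ 0 η ((0 : Pt).1 + l, (0 : Pt).2 + k) m) 0 := le_max_left _ _
          have h8 := mul_le_mul_of_nonneg_left h7 (W_nonneg (μ := μ) (s := 0) η 0 l k)
          show -(W μ 0 η 0 l k * max (-V μ 0 η ((0 : Pt).1 + l, (0 : Pt).2 + k) m) 0) ≤
            W μ 0 η 0 l k * V μ 0 η ((0 : Pt).1 + l, (0 : Pt).2 + k) m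
          linarith
        show ι η * io (R η ≤ 2 * A) ≤ io (Y - 2 * A ≤ V μ 0 η 0 (l + m))
        rw [io_of (show Y - 2 * A ≤ V μ 0 η 0 (l + m) by linarith)]
        have := mul_le_mul (hι1 η) (io_le_one (R η ≤ 2 * A)) (io_nonneg _) zero_le_one
        linarith
      · show ι η * io (R η ≤ 2 * A) ≤ io (Y - 2 * A ≤ V μ 0 η 0 (l + m))
        rw [io_not h4, mul_zero]
        exact io_nonneg _
    · have h4 : ι η = 0 := by rw [hι]; exact io_not h3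
      show ι η * io (R η ≤ 2 * A) ≤ io (Y - 2 * A ≤ V μ 0 η 0 (l + m))
      rw [h4, zero_mul]
      exact io_nonneg _
  have h3 : ∫ η, io (Y ≤ V μ 0 η 0 l) ∂(law μ) = ∫ η, ι η ∂(law μ) := by rw [hι]
  rw [h3]
  linarith

/-- The second moment of the positive part of the luck. -/
theorem luck_sq (h : In μ c C n₀) : ∃ A : ℝ, ∃ n₁ : ℕ, ∀ n, n₁ ≤ n → ∀ m, m ≤ n →
    ∫ η, max (V μ 0 η 0 m) 0 ^ 2 ∂(law μ) ≤ A * EE μ n ^ 2 := by
  obtain ⟨c', hc', n1, hn1⟩ := wd_ge h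
  refine ⟨2 * C ^ 3, max n₀ n1, fun n hn m hm => ?_⟩
  have hE := EE_pos (μ := μ) n
  have hC0 : 0 < C := lt_of_lt_of_le one_pos h.C1
  have hw : 0 < wd μ n := lt_of_lt_of_le (by positivity) (hn1 n ((le_max_right _ _).trans hn))
  have hl := h.luck n ((le_max_left _ _).trans hn) 0 (-(wd μ n / 2)) (by
    rw [abs_zero, zero_mul]
    have := h.c0
    positivity)
  obtain ⟨M, hM⟩ : ∃ M : Env → ℝ, M = fun η => Mh μ 0 (1 / 2) 0 (wd μ n) (-(wd μ n / 2)) (4 * n) η := ⟨_, rfl⟩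
  have hMS : Sub M := by rw [hM]; exact Sub_Mh
  have hM0 : ∀ η, 0 ≤ M η := fun η => by rw [hM]; exact Mh_nonneg η
  have hMV : ∀ η, V μ 0 η 0 m ≤ M η := by
    intro η
    have hq : (((0 : ℕ), (0 : ℤ)), m) ∈ Bx (1 / 2) (wd μ n) (-(wd μ n / 2)) (4 * n) := by
      rw [mem_Bx (by norm_num) (by norm_num)]
      refine ⟨?_, ?_, ?_⟩
      · show 0 + m ≤ 4 * n
        omega
      · show -(wd μ n / 2) < ((0 : ℤ) : ℝ) - 1 / 2 * ((0 : ℕ) : ℝ)
        push_cast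
        linarith
      · show ((0 : ℤ) : ℝ) - 1 / 2 * ((0 : ℕ) : ℝ) ≤ -(wd μ n / 2) + wd μ n
        push_cast
        linarith
    have h1 := le_Mh (μ := μ) (s := 0) (v := 1 / 2) (h := 0) η hq
    have h2 : T μ 0 (1 / 2) 0 η (((0 : ℕ) : ℤ), (0 : ℤ)) m = V μ 0 η 0 m := by
      unfold T kap
      simp only [add_zero, sub_self, zero_mul, mul_zero]
      rfl
    have h3 : T μ 0 (1 / 2) 0 η (((0 : ℕ) : ℤ), (0 : ℤ)) m ≤ M η := by
      rw [hM]
      exact h1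
    rw [← h2]
    exact h3
  have hpt : ∀ η, max (V μ 0 η 0 m) 0 ^ 2 ≤ 2 * (C * EE μ n) ^ 2 * Real.exp (M η / (C * EE μ n)) := by
    intro η
    have hCE : 0 < C * EE μ n := by positivity
    have h1 : max (V μ 0 η 0 m) 0 ≤ M η := max_le (hMV η) (hM0 η)
    have h2 : max (V μ 0 η 0 m) 0 ^ 2 ≤ M η ^ 2 := pow_le_pow_left₀ (le_max_right _ _) h1 2
    have h3 := Real.quadratic_le_exp_of_nonneg (x := M η / (C * EE μ n)) (div_nonneg (hM0 η) hCE.le)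
    have h4 : 0 ≤ M η / (C * EE μ n) := div_nonneg (hM0 η) hCE.le
    have h5 : M η ^ 2 = 2 * (C * EE μ n) ^ 2 * ((M η / (C * EE μ n)) ^ 2 / 2) := by
      field_simp
    have h6 : (M η / (C * EE μ n)) ^ 2 / 2 ≤ Real.exp (M η / (C * EE μ n)) := by linarith
    calc max (V μ 0 η 0 m) 0 ^ 2 ≤ M η ^ 2 := h2
      _ = _ := h5
      _ ≤ _ := mul_le_mul_of_nonneg_left h6 (by positivity)
  have hexpS : Sub fun η => M η / (C * EE μ n) := by
    have := hMS.const_mul (1 / (C * EE μ n))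
    refine (congrArg Pool.Agent.W_7d29a1_F.Sub (funext fun η => ?_)).mp this
    ring
  have hI := integral_mono (((Sub_V 0 m).max (Sub.const 0)).sq_integrable h.em)
    ((hexpS.exp_int h.em).const_mul (2 * (C * EE μ n) ^ 2)) hpt
  rw [integral_const_mul] at hI
  refine hI.trans ?_
  have hl' : ∫ η, Real.exp (M η / (C * EE μ n)) ∂(law μ) ≤ C := by rw [hM]; exact hl
  calc 2 * (C * EE μ n) ^ 2 * ∫ η, Real.exp (M η / (C * EE μ n)) ∂(law μ)
      ≤ 2 * (C * EE μ n) ^ 2 * C := mul_le_mul_of_nonneg_left hl' (by positivity)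
    _ = 2 * C ^ 3 * EE μ n ^ 2 := by ring

/-- (S1) LUCKY: every number of units of luck has a probability bounded below. -/
theorem lucky (h : In μ c C n₀) (K : ℝ) : ∃ p : ℝ, 0 < p ∧ ∃ n₁ : ℕ, ∀ n, n₁ ≤ n →
    p ≤ (law μ).real {η | K * EE μ n ≤ V μ 0 η 0 n} := by
  obtain ⟨α, x0, hs⟩ := h.soft
  obtain ⟨A, n1, hA⟩ := luck_sq h
  obtain ⟨k1, hk1⟩ : ∃ k1 : ℕ, α ≤ k1 := exists_nat_ge α
  obtain ⟨B, hB⟩ : ∃ B : ℝ, B = max A 1 := ⟨_, rfl⟩
  have hB1 : 1 ≤ B := hB ▸ le_max_right _ _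
  have hAB : A ≤ B := hB ▸ le_max_left _ _
  obtain ⟨p, U, hp, hlu⟩ := Pool.Agent.W_7d29a1_h21g.luck_V (μ := μ) h.em h.nd α
    (K := (|K| + 3) * 2 ^ (k1 + 2)) (Cv := B * 2 ^ k1) (by positivity) (by positivity)
  have ht : Tendsto (fun x : ℕ => EE μ (2 ^ x)) atTop atTop :=
    h.tE.comp (tendsto_pow_atTop_atTop_of_one_lt one_lt_two)
  obtain ⟨x1, hx1⟩ := Filter.eventually_atTop.1 (ht.eventually_ge_atTop U)
  obtain ⟨x2, hx2⟩ : ∃ x2 : ℕ, x2 = x0 + x1 + n1 := ⟨_, rfl⟩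
  refine ⟨p / 2, by positivity, 2 ^ (x2 + k1 + 1), fun n hn => ?_⟩
  have hn0 : n ≠ 0 := by
    have : 0 < 2 ^ (x2 + k1 + 1) := by positivity
    omega
  have hL1 : 2 ^ Nat.log 2 n ≤ n := Nat.pow_log_le_self 2 hn0
  have hL2 : n < 2 ^ (Nat.log 2 n + 1) := Nat.lt_pow_succ_log_self (by norm_num) n
  have hL3 : x2 + k1 + 1 ≤ Nat.log 2 n := Nat.le_log_of_pow_le (by norm_num) hn
  obtain ⟨x, hx⟩ : ∃ x : ℕ, Nat.log 2 n = x + k1 + 1 := ⟨Nat.log 2 n - (k1 + 1), by omega⟩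
  rw [hx] at hL1 hL2 hL3
  have hxx : x2 ≤ x := by omega
  -- the unit
  have hE := EE_pos (μ := μ) n
  have hEn : EE μ n ≤ 2 ^ (k1 + 2) * EE μ (2 ^ x) := by
    have h1 : EE μ n ≤ EE μ (2 ^ (k1 + 2) * 2 ^ x) := EE_mono (by
      have : 2 ^ (k1 + 2) * 2 ^ x = 2 ^ (x + k1 + 1 + 1) := by ring
      omega)
    have h2 := EE_mul (μ := μ) h.em (2 ^ (k1 + 2)) (2 ^ x) (Nat.one_le_pow _ _ (by norm_num))
    push_cast at h2
    exact h1.trans h2
  obtain ⟨l, hl, hpl⟩ := hlu x (hx1 x (by omega)) (hs x (by omega)) (fun l hl => by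
    have h1 : (l : ℝ) ≤ ((2 ^ (x + k1) : ℕ) : ℝ) := by
      refine hl.trans ?_
      push_cast
      rw [← Real.rpow_natCast 2 (x + k1)]
      refine Real.rpow_le_rpow_of_exponent_le one_le_two ?_
      push_cast
      linarith
    have h2 : l ≤ 2 ^ (x + k1) := by exact_mod_cast h1
    have h3 : n1 ≤ 2 ^ (x + k1) := by
      have h4 : x + k1 < 2 ^ (x + k1) := Nat.lt_two_pow_self
      omega
    have h4 := hA _ h3 l h2
    have h5 : EE μ (2 ^ (x + k1)) ≤ 2 ^ k1 * EE μ (2 ^ x) := by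
      have h6 := EE_mul (μ := μ) h.em (2 ^ k1) (2 ^ x) (Nat.one_le_pow _ _ (by norm_num))
      push_cast at h6
      rw [show 2 ^ (x + k1) = 2 ^ k1 * 2 ^ x by ring]
      exact h6
    have h6 : EE μ (2 ^ (x + k1)) ^ 2 ≤ (2 ^ k1 * EE μ (2 ^ x)) ^ 2 := pow_le_pow_left₀ (EE_pos _).le h5 2
    have h7 : B ≤ B ^ 2 := by nlinarith
    calc ∫ η, (max (V μ 0 η 0 l) 0) ^ 2 ∂(law μ) ≤ A * EE μ (2 ^ (x + k1)) ^ 2 := h4
      _ ≤ B ^ 2 * (2 ^ k1 * EE μ (2 ^ x)) ^ 2 :=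
          mul_le_mul (hAB.trans h7) h6 (sq_nonneg _) (by positivity)
      _ = (B * 2 ^ k1 * EE μ (2 ^ x)) ^ 2 := by ring)
  have hln : l ≤ n := by
    have h1 : (l : ℝ) ≤ ((2 ^ (x + k1) : ℕ) : ℝ) := by
      refine hl.trans ?_
      push_cast
      rw [← Real.rpow_natCast 2 (x + k1)]
      refine Real.rpow_le_rpow_of_exponent_le one_le_two ?_
      push_cast
      linarith
    have h2 : l ≤ 2 ^ (x + k1) := by exact_mod_cast h1
    have h3 : 2 ^ (x + k1) ≤ 2 ^ (x + k1 + 1) := Nat.pow_le_pow_right (by norm_num) (by omega)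
    omega
  have h1 : p ≤ (law μ).real {η | (|K| + 3) * EE μ n ≤ V μ 0 η 0 l} := by
    refine hpl.trans (measureReal_mono (fun η hη => ?_) (measure_ne_top _ _))
    rw [Set.mem_ofPred_eq] at hη ⊢
    refine le_trans ?_ hη
    have h2 := mul_le_mul_of_nonneg_left hEn (show (0 : ℝ) ≤ |K| + 3 by positivity)
    calc (|K| + 3) * EE μ n ≤ (|K| + 3) * (2 ^ (k1 + 2) * EE μ (2 ^ x)) := h2
      _ = _ := by ring
  have h2 := lucky_cont (μ := μ) h.em l (n - l) hE (mean_neg_V h.em (Nat.sub_le n l)) ((|K| + 3) * EE μ n)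
  rw [Nat.add_sub_cancel' hln] at h2
  have h3 : (law μ).real {η | (|K| + 3) * EE μ n - 2 * EE μ n ≤ V μ 0 η 0 n} ≤
      (law μ).real {η | K * EE μ n ≤ V μ 0 η 0 n} := by
    refine measureReal_mono (fun η hη => ?_) (measure_ne_top _ _)
    rw [Set.mem_ofPred_eq] at hη ⊢
    refine le_trans ?_ hη
    have h4 := mul_le_mul_of_nonneg_right (le_abs_self K) hE.le
    have h5 : (|K| + 3) * EE μ n - 2 * EE μ n = |K| * EE μ n + EE μ n := by ring
    linarith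
  linarith

end Pool.Agent.W_7d29a1_SR
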