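import Pool.Agent.W_7d29a1_h4g.Poly
import Pool.Agent.W_7d29a1_F.Bridge2
import Pool.Agent.W_7d29a1_F.LuckA

/-!
THEOREM (SR) (hand-in ScalingLaw), proofs row 626, section (S4): the variance of the free energy is positive at every scale.
(helper83)
-/

namespace Pool.Agent.W_7d29a1_SR

open MeasureTheory ProbabilityTheory Filter Topology
open Pool.Agent.W_7d29a1_F Pool.Agent.W_7d29a1_h4g

variable {μ : Measure ℝ} [IsProbabilityMeasure μ]

/-- Chebyshev, read backwards. -/
theorem var_lower (hEM : Pool.Agent.W_7d29a1_h47.EM μ) {F : Env → ℝ} (hF : Sub F) {S : Set Env} (hS : MeasurableSet S)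
    {r : ℝ} (hr : 0 ≤ r) (h : ∀ η ∈ S, r ≤ |F η - ∫ ξ, F ξ ∂(law μ)|) :
    r ^ 2 * (law μ).real S ≤ Var[F; law μ] := by
  rw [variance_eq_integral hF.1.aemeasurable]
  have h1 : ∫ η, S.indicator (fun _ => r ^ 2) η ∂(law μ) = r ^ 2 * (law μ).real S := by
    rw [integral_indicator_const _ hS, smul_eq_mul, mul_comm]
  rw [← h1]
  refine integral_mono ((integrable_const _).indicator hS)
    ((hF.sub (Sub.const (∫ ξ, F ξ ∂(law μ)))).sq_integrable hEM) fun η => ?_
  show S.indicator (fun _ => r ^ 2) η ≤ (F η - ∫ ξ, F ξ ∂(law μ)) ^ 2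
  by_cases hη : η ∈ S
  · rw [Set.indicator_of_mem hη, ← sq_abs (F η - ∫ ξ, F ξ ∂(law μ))]
    exact pow_le_pow_left₀ hr (h η hη) 2
  · rw [Set.indicator_of_notMem hη]
    exact sq_nonneg _

/-- The probability that all sites of a finite set are in `T`. -/
theorem real_box (B : Finset Pt) {T : Set ℝ} (hT : MeasurableSet T) :
    (law μ).real {η | ∀ x ∈ B, η x ∈ T} = μ.real T ^ B.card := by
  have h1 : {η : Env | ∀ x ∈ B, η x ∈ T} = Set.pi (B : Set Pt) fun _ => T := by
    ext η
    simp [Set.mem_pi]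
  rw [h1, measureReal_def, law, Measure.infinitePi_pi _ (fun x _ => hT), Finset.prod_const, ENNReal.toReal_pow,
    ← measureReal_def]

/-- Raising all sites by `d` raises the partition function by `e ^ (n d)`. -/
theorem Zr_gap (R : Set Pt) {η η' : Env} {a : Pt} {n : ℕ} {d : ℝ} (h : ∀ p ∈ sites a n, η p + d ≤ η' p) (y : ℤ) :
    Real.exp (n * d) * Zr R η a n y ≤ Zr R η' a n y := by
  induction n generalizing y with
  | zero =>
    simp [Zr]
  | succ n ih =>
    have ih' := ih fun p hp => h p (sites_mono a (Nat.le_succ n) hp)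
    by_cases hy : 0 ≤ y ∧ y ≤ ((n + 1 : ℕ) : ℤ)
    · show Real.exp (((n + 1 : ℕ) : ℝ) * d) * (R.indicator (fun p => Real.exp (η p)) (a.1 + ((n : ℤ) + 1), a.2 + y) *
        (Zr R η a n y + Zr R η a n (y - 1))) ≤ R.indicator (fun p => Real.exp (η' p)) (a.1 + ((n : ℤ) + 1), a.2 + y) *
        (Zr R η' a n y + Zr R η' a n (y - 1))
      by_cases hR : (a.1 + ((n : ℤ) + 1), a.2 + y) ∈ R
      · rw [Set.indicator_of_mem hR, Set.indicator_of_mem hR]
        have h1 := h (a.1 + ((n : ℤ) + 1), a.2 + y) (by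
          obtain ⟨hy0, hy1⟩ := hy
          push_cast at hy1
          refine ⟨?_, ?_, ?_, ?_⟩
          · show a.1 < a.1 + ((n : ℤ) + 1)
            omega
          · show a.1 + ((n : ℤ) + 1) ≤ a.1 + ((n + 1 : ℕ) : ℤ)
            push_cast
            exact le_rfl
          · show a.2 ≤ a.2 + y
            omega
          · show a.2 + y ≤ a.2 + ((n + 1 : ℕ) : ℤ)
            push_cast
            omega)
        have h2 : Real.exp d * Real.exp (η (a.1 + ((n : ℤ) + 1), a.2 + y)) ≤
            Real.exp (η' (a.1 + ((n : ℤ) + 1), a.2 + y)) := by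
          rw [← Real.exp_add]
          exact Real.exp_le_exp.2 (by linarith)
        have h3 : Real.exp (n * d) * (Zr R η a n y + Zr R η a n (y - 1)) ≤ Zr R η' a n y + Zr R η' a n (y - 1) := by
          rw [mul_add]
          exact add_le_add (ih' y) (ih' (y - 1))
        have h4 : Real.exp (((n + 1 : ℕ) : ℝ) * d) = Real.exp (n * d) * Real.exp d := by
          rw [← Real.exp_add]
          congr 1
          push_cast
          ring
        rw [h4]
        have h5 : 0 ≤ Zr R η a n y + Zr R η a n (y - 1) := add_nonneg (Zr_nonneg _ _ _ _ _) (Zr_nonneg _ _ _ _ _)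
        calc Real.exp (n * d) * Real.exp d * (Real.exp (η (a.1 + ((n : ℤ) + 1), a.2 + y)) *
              (Zr R η a n y + Zr R η a n (y - 1)))
            = (Real.exp d * Real.exp (η (a.1 + ((n : ℤ) + 1), a.2 + y))) *
              (Real.exp (n * d) * (Zr R η a n y + Zr R η a n (y - 1))) := by ring
          _ ≤ Real.exp (η' (a.1 + ((n : ℤ) + 1), a.2 + y)) * (Zr R η' a n y + Zr R η' a n (y - 1)) :=
              mul_le_mul h2 h3 (mul_nonneg (Real.exp_pos _).le h5) (Real.exp_pos _).le
      · rw [Set.indicator_of_notMem hR, Set.indicator_of_notMem hR, zero_mul, zero_mul, mul_zero]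
    · rw [Zr_out R η a (n + 1) y (by
        by_contra hc
        push Not at hc
        exact hy ⟨hc.1, hc.2⟩), mul_zero]
      exact Zr_nonneg _ _ _ _ _

/-- Raising all sites by `d ≥ 0` raises the free energy by at least `n d`. -/
theorem V_gap {s : ℝ} {η η' : Env} {n : ℕ} {d : ℝ} (h : ∀ p ∈ sites 0 n, η p + d ≤ η' p) :
    V μ s η 0 n + n * d ≤ V μ s η' 0 n := by
  have h1 : Real.exp (n * d) * WS μ s η 0 n (Finset.Icc (0 : ℤ) n) ≤ WS μ s η' 0 n (Finset.Icc (0 : ℤ) n) := by
    unfold WS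
    rw [Finset.mul_sum]
    refine Finset.sum_le_sum fun y _ => ?_
    unfold W WR
    have h2 := Zr_gap Set.univ h y
    have h3 := mul_le_mul_of_nonneg_left h2 (Real.exp_pos (s * y - n * lam μ s)).le
    calc Real.exp (n * d) * (Real.exp (s * y - n * lam μ s) * Zr Set.univ η 0 n y)
        = Real.exp (s * y - n * lam μ s) * (Real.exp (n * d) * Zr Set.univ η 0 n y) := by ring
      _ ≤ _ := h3
  have h2 : 0 < WS μ s η 0 n (Finset.Icc (0 : ℤ) n) := by
    rw [← exp_V]
    exact Real.exp_pos _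
  unfold V
  rw [← Real.log_exp (n * d), ← Real.log_mul h2.ne' (Real.exp_pos _).ne']
  rw [mul_comm] at h1
  exact Real.log_le_log (by positivity) h1

/-- The variance of the free energy is positive. -/
theorem var_V_pos (hEM : Pool.Agent.W_7d29a1_h47.EM μ) (hnd : Pool.Agent.W_7d29a1_h47.Nondeg μ) {n : ℕ} (hn : 1 ≤ n) :
    0 < Var[fun η => V μ 0 η 0 n; law μ] := by
  classical
  obtain ⟨p, q, hpq, hp, hq⟩ := Pool.Agent.W_7d29a1_h47.exists_gap hnd
  obtain ⟨B, hB⟩ : ∃ B : Finset Pt, B = Finset.Icc (1 : ℤ) n ×ˢ Finset.Icc (0 : ℤ) n := ⟨_, rfl⟩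
  have hsB : ∀ x ∈ sites 0 n, x ∈ B := by
    rintro x ⟨h1, h2, h3, h4⟩
    rw [hB, Finset.mem_product, Finset.mem_Icc, Finset.mem_Icc]
    have e1 : ((0 : Pt).1 : ℤ) = 0 := rfl
    have e2 : ((0 : Pt).2 : ℤ) = 0 := rfl
    rw [e1] at h1 h2
    rw [e2] at h3 h4
    refine ⟨⟨by omega, by omega⟩, by omega, by omega⟩
  have hn' : (1 : ℝ) ≤ n := by exact_mod_cast hn
  obtain ⟨m, hm⟩ : ∃ m : ℝ, m = ∫ ξ, V μ 0 ξ 0 n ∂(law μ) := ⟨_, rfl⟩
  have hgap : 0 < n * (q - p) := mul_pos (by linarith) (by linarith)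
  have key : V μ 0 (fun _ => p) 0 n + n * (q - p) ≤ V μ 0 (fun _ => q) 0 n := V_gap fun x _ => by linarith
  have hmS : ∀ T : Set ℝ, MeasurableSet T → MeasurableSet {η : Env | ∀ x ∈ B, η x ∈ T} := by
    intro T hT
    have : {η : Env | ∀ x ∈ B, η x ∈ T} = ⋂ x ∈ B, (fun η : Env => η x) ⁻¹' T := by
      ext η
      simp
    rw [this]
    exact Finset.measurableSet_biInter _ fun x _ => measurable_pi_apply x hT
  rcases le_total m (V μ 0 (fun _ => p) 0 n + n * (q - p) / 2) with hc | hc
  · -- all sites are at least `q`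
    have h1 := var_lower (μ := μ) hEM (F := fun η => V μ 0 η 0 n) (Sub_V 0 n)
      (hmS (Set.Ici q) measurableSet_Ici) (r := n * (q - p) / 2) (by linarith) (by
        intro η hη
        rw [Set.mem_ofPred_eq] at hη
        have h2 : V μ 0 (fun _ => q) 0 n + n * (0 : ℝ) ≤ V μ 0 η 0 n := V_gap fun x hx => by
          have := hη x (hsB x hx)
          rw [Set.mem_Ici] at this
          linarith
        rw [← hm]
        refine le_trans ?_ (le_abs_self _)
        linarith)
    rw [real_box B measurableSet_Ici] at h1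
    refine lt_of_lt_of_le ?_ h1
    have := hgap
    positivity
  · have h1 := var_lower (μ := μ) hEM (F := fun η => V μ 0 η 0 n) (Sub_V 0 n)
      (hmS (Set.Iic p) measurableSet_Iic) (r := n * (q - p) / 2) (by linarith) (by
        intro η hη
        rw [Set.mem_ofPred_eq] at hη
        have h2 : V μ 0 η 0 n + n * (0 : ℝ) ≤ V μ 0 (fun _ => p) 0 n := V_gap fun x hx => by
          have := hη x (hsB x hx)
          rw [Set.mem_Iic] at this
          linarith
        rw [← hm]
        refine le_trans ?_ (neg_le_abs _)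
        linarith)
    rw [real_box B measurableSet_Iic] at h1
    refine lt_of_lt_of_le ?_ h1
    have := hgap
    positivity

end Pool.Agent.W_7d29a1_SR
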