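import Mathlib

/-!
THEOREM (SR) (hand-in ScalingLaw), proofs row 626, section (S8): the exponents from the scales (abstract: `p n x r` is the probability
of the ball of radius `r` at time `n`, `w n` the width, `σ n` the standard deviation).
-/

namespace Pool.Agent.W_7d29a1_SR

open MeasureTheory ProbabilityTheory Filter Topology

section pure

/-- The logarithmic size of a sequence between two powers. -/
lemma logr_mem {w : ℕ → ℝ} {n₁ : ℕ} {b B : ℝ} (hw1 : ∀ n, n₁ ≤ n → (n : ℝ) ^ b ≤ w n)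
    (hw2 : ∀ n, n₁ ≤ n → w n ≤ (n : ℝ) ^ B) {n : ℕ} (hn : n₁ ≤ n) (hn2 : 2 ≤ n) :
    0 < w n ∧ b ≤ Real.log (w n) / Real.log n ∧ Real.log (w n) / Real.log n ≤ B := by
  have hn2' : (2 : ℝ) ≤ n := by exact_mod_cast hn2
  have hnp : (0 : ℝ) < n := by linarith
  have hl : 0 < Real.log n := Real.log_pos (by linarith)
  have hb : 0 < (n : ℝ) ^ b := Real.rpow_pos_of_pos hnp _
  have hwp : 0 < w n := hb.trans_le (hw1 n hn)
  refine ⟨hwp, ?_, ?_⟩
  · rw [le_div_iff₀ hl]
    have h3 := Real.log_le_log hb (hw1 n hn)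
    rwa [Real.log_rpow hnp] at h3
  · rw [div_le_iff₀ hl]
    have h3 := Real.log_le_log hwp (hw2 n hn)
    rwa [Real.log_rpow hnp] at h3

lemma logr_bdd {w : ℕ → ℝ} {n₁ : ℕ} {b B : ℝ} (hw1 : ∀ n, n₁ ≤ n → (n : ℝ) ^ b ≤ w n)
    (hw2 : ∀ n, n₁ ≤ n → w n ≤ (n : ℝ) ^ B) :
    IsBoundedUnder (· ≤ ·) atTop (fun n : ℕ => Real.log (w n) / Real.log n) ∧
      IsBoundedUnder (· ≥ ·) atTop fun n : ℕ => Real.log (w n) / Real.log n := by
  constructor
  · refine ⟨B, ?_⟩
    rw [eventually_map]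
    filter_upwards [eventually_ge_atTop n₁, eventually_ge_atTop 2] with n h1 h2 using (logr_mem hw1 hw2 h1 h2).2.2
  · refine ⟨b, ?_⟩
    rw [eventually_map]
    filter_upwards [eventually_ge_atTop n₁, eventually_ge_atTop 2] with n h1 h2 using (logr_mem hw1 hw2 h1 h2).2.1

/-- Sequences with difference tending to zero: one inequality. -/
lemma limsup_le_of_sub {u v : ℕ → ℝ} (hu : IsBoundedUnder (· ≥ ·) atTop u) (hv : IsBoundedUnder (· ≤ ·) atTop v)
    (h : Tendsto (fun n => u n - v n) atTop (𝓝 0)) : limsup u atTop ≤ limsup v atTop := by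
  refine le_of_forall_pos_le_add fun ε hε => ?_
  refine limsup_le_of_le hu.isCoboundedUnder_le ?_
  have h1 : ∀ᶠ n in atTop, v n < limsup v atTop + ε / 2 := eventually_lt_of_limsup_lt (by linarith) hv
  have h2 : ∀ᶠ n in atTop, u n - v n < ε / 2 := h.eventually (gt_mem_nhds (by linarith))
  filter_upwards [h1, h2] with n h3 h4
  linarith

lemma limsup_congr_sub {u v : ℕ → ℝ} (hu1 : IsBoundedUnder (· ≤ ·) atTop u) (hu2 : IsBoundedUnder (· ≥ ·) atTop u)
    (hv1 : IsBoundedUnder (· ≤ ·) atTop v) (hv2 : IsBoundedUnder (· ≥ ·) atTop v)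
    (h : Tendsto (fun n => u n - v n) atTop (𝓝 0)) : limsup u atTop = limsup v atTop := by
  refine le_antisymm (limsup_le_of_sub hu2 hv1 h) (limsup_le_of_sub hv2 hu1 ?_)
  have h2 := h.neg
  simpa using h2

end pure

variable {Ω : Type*} [MeasurableSpace Ω] {P : Measure Ω} [IsProbabilityMeasure P]

omit [IsProbabilityMeasure P] in
/-- Nonnegative functions with summable integrals tend to zero almost surely (helper12). -/
theorem ae_zero_of_sum {f : ℕ → Ω → ℝ}
    (hm : ∀ n, Measurable (f n)) (h0 : ∀ n x, 0 ≤ f n x) (hi : ∀ n, Integrable (f n) P)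
    (hs : Summable fun n => ∫ x, f n x ∂P) : ∀ᵐ x ∂P, Tendsto (fun n => f n x) atTop (𝓝 0) := by
  have h1 : ∫⁻ x, ∑' n, ENNReal.ofReal (f n x) ∂P = ∑' n, ∫⁻ x, ENNReal.ofReal (f n x) ∂P :=
    lintegral_tsum fun n => (hm n).ennreal_ofReal.aemeasurable
  have h2 : ∑' n, ∫⁻ x, ENNReal.ofReal (f n x) ∂P = ∑' n, ENNReal.ofReal (∫ x, f n x ∂P) := by
    congr 1
    funext n
    exact (ofReal_integral_eq_lintegral_ofReal (hi n) (Eventually.of_forall (h0 n))).symm
  have h3 : ∫⁻ x, ∑' n, ENNReal.ofReal (f n x) ∂P ≠ ⊤ := by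
    rw [h1, h2]
    exact hs.tsum_ofReal_ne_top
  have h4 := ae_lt_top (Measurable.tsum fun n => (hm n).ennreal_ofReal) h3
  filter_upwards [h4] with x hx
  have h5 := ENNReal.tendsto_atTop_zero_of_tsum_ne_top hx.ne
  have h6 := (ENNReal.tendsto_toReal ENNReal.zero_ne_top).comp h5
  simpa [Function.comp_def, ENNReal.toReal_ofReal (h0 _ x)] using h6

/-- The mean of a function with values in `[0,1]` from its tail at one level. -/
lemma int_le_of_tail {f : Ω → ℝ} (hm : Measurable f) (h0 : ∀ x, 0 ≤ f x) (h1 : ∀ x, f x ≤ 1) {ε A : ℝ} (hε : 0 ≤ ε)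
    (hA : P.real {x | ε ≤ f x} ≤ A) : ∫ x, f x ∂P ≤ ε + A := by
  have hS : MeasurableSet {x | ε ≤ f x} := measurableSet_le measurable_const hm
  have hi : Integrable f P := Integrable.of_bound hm.aestronglyMeasurable 1 (Eventually.of_forall fun x => by
    rw [Real.norm_eq_abs, abs_of_nonneg (h0 x)]
    exact h1 x)
  have hi2 : Integrable (fun x => ε + Set.indicator {x | ε ≤ f x} (fun _ => (1 : ℝ)) x) P :=
    (integrable_const _).add ((integrable_const _).indicator hS)
  have h2 : ∫ x, f x ∂P ≤ ∫ x, (ε + Set.indicator {x | ε ≤ f x} (fun _ => (1 : ℝ)) x) ∂P := by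
    refine integral_mono hi hi2 fun x => ?_
    by_cases hx : x ∈ {x | ε ≤ f x}
    · simp only [Set.indicator_of_mem hx]
      linarith [h1 x]
    · simp only [Set.indicator_of_notMem hx]
      have : ¬ ε ≤ f x := hx
      push Not at this
      linarith
  rw [integral_add (integrable_const _) ((integrable_const _).indicator hS), integral_indicator_const _ hS] at h2
  simp only [integral_const, probReal_univ, smul_eq_mul, mul_one, one_mul] at h2
  linarith

/-- The wandering exponent. -/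
theorem nu_eq {p : ℕ → ℝ → Ω → ℝ} {w : ℕ → ℝ} (hm : ∀ n r, Measurable (p n r)) (h0 : ∀ n r x, 0 ≤ p n r x)
    (h1 : ∀ n r x, p n r x ≤ 1) (hmono : ∀ n x, Monotone fun r => p n r x)
    {n₁ : ℕ} {b B : ℝ} (hb : 0 < b) (hw1 : ∀ n, n₁ ≤ n → (n : ℝ) ^ b ≤ w n) (hw2 : ∀ n, n₁ ≤ n → w n ≤ (n : ℝ) ^ B)
    (hexit : ∀ q : ℕ, ∃ A : ℝ, ∀ n, n₁ ≤ n → ∀ R : ℝ, 1 ≤ R → P.real {x | Real.exp (-R) ≤ 1 - p n (R * w n) x} ≤ A / R ^ q)
    {c d : ℝ} (hc : 0 < c) (hd : 0 < d) (hspread : ∀ n, n₁ ≤ n → ∫ x, p n (c * w n) x ∂P ≤ 1 - d) :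
    sInf {a : ℝ | 0 < a ∧ ∫ x, liminf (fun n : ℕ => p n ((n : ℝ) ^ a) x) atTop ∂P = 1} =
      limsup (fun n : ℕ => Real.log (w n) / Real.log n) atTop := by
  obtain ⟨hb1, hb2⟩ := logr_bdd hw1 hw2
  set L : ℝ := limsup (fun n : ℕ => Real.log (w n) / Real.log n) atTop with hL
  set S : Set ℝ := {a : ℝ | 0 < a ∧ ∫ x, liminf (fun n : ℕ => p n ((n : ℝ) ^ a) x) atTop ∂P = 1} with hS
  have hLb : b ≤ L := by
    refine le_limsup_of_frequently_le (Eventually.frequently ?_) hb1
    filter_upwards [eventually_ge_atTop n₁, eventually_ge_atTop 2] with n h1 h2 using (logr_mem hw1 hw2 h1 h2).2.1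
  have hL0 : 0 < L := hb.trans_le hLb
  have hi : ∀ n r, Integrable (p n r) P := fun n r => by
    refine Integrable.of_bound (hm n r).aestronglyMeasurable 1 (Eventually.of_forall fun x => ?_)
    rw [Real.norm_eq_abs, abs_of_nonneg (h0 n r x)]
    exact h1 n r x
  have hloc : ∀ q : ℕ, ∃ C : ℝ, ∀ n, n₁ ≤ n → ∀ R : ℝ, 1 ≤ R → ∫ x, (1 - p n (R * w n) x) ∂P ≤ C * (R ^ q)⁻¹ := by
    intro q
    obtain ⟨A, hA⟩ := hexit q
    refine ⟨(q.factorial : ℝ) + A, fun n hn R hR => ?_⟩
    have hRp : 0 < R := by linarith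
    have hRq : 0 < R ^ q := pow_pos hRp q
    have h2 := int_le_of_tail (P := P) (f := fun x => 1 - p n (R * w n) x) (measurable_const.sub (hm _ _))
      (fun x => by linarith [h1 n (R * w n) x]) (fun x => by linarith [h0 n (R * w n) x]) (Real.exp_pos (-R)).le
      (hA n hn R hR)
    have h3 : Real.exp (-R) ≤ (q.factorial : ℝ) * (R ^ q)⁻¹ := by
      have h4 := Real.pow_div_factorial_le_exp R hRp.le q
      have h5 : (0 : ℝ) < q.factorial := by exact_mod_cast q.factorial_pos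
      rw [Real.exp_neg, inv_le_comm₀ (Real.exp_pos _) (by positivity), mul_inv, inv_inv]
      rw [div_eq_inv_mul] at h4
      exact h4
    calc ∫ x, (1 - p n (R * w n) x) ∂P ≤ Real.exp (-R) + A / R ^ q := h2
      _ ≤ (q.factorial : ℝ) * (R ^ q)⁻¹ + A * (R ^ q)⁻¹ := by
          rw [div_eq_mul_inv]
          linarith
      _ = _ := by ring
  -- the exponents above the limsup
  have hup : ∀ a, L < a → a ∈ S := by
    intro a ha
    have ha0 : 0 < a := hL0.trans ha
    refine ⟨ha0, ?_⟩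
    obtain ⟨b', hLb', hba⟩ := exists_between ha
    have hev : ∀ᶠ n : ℕ in atTop, Real.log (w n) / Real.log n < b' := eventually_lt_of_limsup_lt hLb' hb1
    obtain ⟨q, hq⟩ := exists_nat_ge (2 / (a - b'))
    obtain ⟨C, hC⟩ := hloc q
    have hab : 0 < a - b' := by linarith
    have hq' : 2 ≤ (a - b') * q := by
      rw [div_le_iff₀ hab] at hq
      linarith
    have key : ∀ᶠ n : ℕ in atTop, ∫ x, (1 - p n ((n : ℝ) ^ a) x) ∂P ≤ |C| * ((n : ℝ) ^ 2)⁻¹ := by
      filter_upwards [hev, eventually_ge_atTop n₁, eventually_ge_atTop 2] with n hn hn0 hn2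
      have hn2' : (2 : ℝ) ≤ n := by exact_mod_cast hn2
      have hn1 : (1 : ℝ) ≤ n := by linarith
      have hnp : (0 : ℝ) < n := by linarith
      have hl : 0 < Real.log n := Real.log_pos (by linarith)
      have hwp : 0 < w n := (logr_mem hw1 hw2 hn0 hn2).1
      have hwb : w n ≤ (n : ℝ) ^ b' := by
        rw [div_lt_iff₀ hl] at hn
        rw [← Real.log_le_log_iff hwp (Real.rpow_pos_of_pos hnp _), Real.log_rpow hnp]
        exact hn.le
      have hR1 : 1 ≤ (n : ℝ) ^ (a - b') := Real.one_le_rpow hn1 hab.le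
      have hRw : (n : ℝ) ^ (a - b') * w n ≤ (n : ℝ) ^ a := by
        calc (n : ℝ) ^ (a - b') * w n ≤ (n : ℝ) ^ (a - b') * (n : ℝ) ^ b' :=
              mul_le_mul_of_nonneg_left hwb (by positivity)
          _ = (n : ℝ) ^ a := by
              rw [← Real.rpow_add hnp]
              congr 1
              ring
      have h5 : ∫ x, (1 - p n ((n : ℝ) ^ a) x) ∂P ≤ ∫ x, (1 - p n ((n : ℝ) ^ (a - b') * w n) x) ∂P := by
        refine integral_mono ((integrable_const _).sub (hi _ _)) ((integrable_const _).sub (hi _ _)) fun x => ?_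
        have := hmono n x hRw
        simp only at this ⊢
        linarith
      have h6 := hC n hn0 _ hR1
      have h7 : ((n : ℝ) ^ 2) ≤ ((n : ℝ) ^ (a - b')) ^ q := by
        rw [← Real.rpow_natCast ((n : ℝ) ^ (a - b')) q, ← Real.rpow_mul hnp.le, ← Real.rpow_natCast (n : ℝ) 2]
        exact Real.rpow_le_rpow_of_exponent_le hn1 (by exact_mod_cast hq')
      have h8 : (((n : ℝ) ^ (a - b')) ^ q)⁻¹ ≤ ((n : ℝ) ^ 2)⁻¹ := inv_anti₀ (by positivity) h7
      calc ∫ x, (1 - p n ((n : ℝ) ^ a) x) ∂P ≤ C * (((n : ℝ) ^ (a - b')) ^ q)⁻¹ := h5.trans h6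
        _ ≤ |C| * (((n : ℝ) ^ (a - b')) ^ q)⁻¹ := mul_le_mul_of_nonneg_right (le_abs_self C) (by positivity)
        _ ≤ _ := mul_le_mul_of_nonneg_left h8 (abs_nonneg C)
    have hsum : Summable fun n : ℕ => ∫ x, (1 - p n ((n : ℝ) ^ a) x) ∂P := by
      have h2 : Summable fun n : ℕ => |C| * ((n : ℝ) ^ 2)⁻¹ :=
        (Real.summable_nat_pow_inv.2 (by norm_num)).mul_left _
      refine summable_of_isBigO_nat h2 ?_
      refine Asymptotics.IsBigO.of_bound 1 ?_
      filter_upwards [key] with n hn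
      have h3 : 0 ≤ ∫ x, (1 - p n ((n : ℝ) ^ a) x) ∂P := integral_nonneg fun x => by
        have := h1 n ((n : ℝ) ^ a) x
        simp only [Pi.zero_apply]
        linarith
      rw [one_mul, Real.norm_eq_abs, Real.norm_eq_abs, abs_of_nonneg h3, abs_of_nonneg (by positivity)]
      exact hn
    have hae := ae_zero_of_sum (P := P) (f := fun n x => 1 - p n ((n : ℝ) ^ a) x)
      (fun n => measurable_const.sub (hm _ _)) (fun n x => by linarith [h1 n ((n : ℝ) ^ a) x])
      (fun n => (integrable_const _).sub (hi _ _)) hsum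
    have hae2 : ∀ᵐ x ∂P, liminf (fun n : ℕ => p n ((n : ℝ) ^ a) x) atTop = 1 := by
      filter_upwards [hae] with x hx
      have h3 : Tendsto (fun n : ℕ => p n ((n : ℝ) ^ a) x) atTop (𝓝 1) := by
        have h4 := hx.const_sub 1
        simpa using h4
      exact h3.liminf_eq
    rw [integral_congr_ae hae2]
    simp
  -- the exponents of the set are at least the limsup
  have hlow : ∀ a ∈ S, L ≤ a := by
    intro a ha
    obtain ⟨ha0, ha1⟩ := ha
    by_contra hlt
    push Not at hlt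
    obtain ⟨b', hab, hbL⟩ := exists_between hlt
    have hfr : ∃ᶠ n : ℕ in atTop, b' < Real.log (w n) / Real.log n :=
      frequently_lt_of_lt_limsup hb2.isCoboundedUnder_le hbL
    set g : Ω → ℝ := fun x => liminf (fun n : ℕ => p n ((n : ℝ) ^ a) x) atTop with hg
    have hbA : ∀ x, IsBoundedUnder (· ≤ ·) atTop fun n : ℕ => p n ((n : ℝ) ^ a) x := fun x =>
      ⟨1, eventually_map.2 (Eventually.of_forall fun n => h1 _ _ _)⟩
    have hbB : ∀ x, IsBoundedUnder (· ≥ ·) atTop fun n : ℕ => p n ((n : ℝ) ^ a) x := fun x =>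
      ⟨0, eventually_map.2 (Eventually.of_forall fun n => h0 _ _ _)⟩
    have hg1 : ∀ x, g x ≤ 1 := fun x =>
      liminf_le_of_frequently_le (Eventually.of_forall fun n => h1 _ _ _).frequently (hbB x)
    have hg0 : ∀ x, 0 ≤ g x := fun x =>
      le_liminf_of_le (hbA x).isCoboundedUnder_ge (Eventually.of_forall fun n => h0 _ _ _)
    have hgm : Measurable g := Measurable.liminf fun n => hm _ _
    have hgi : Integrable g P := Integrable.of_bound hgm.aestronglyMeasurable 1 (Eventually.of_forall fun x => by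
      rw [Real.norm_eq_abs, abs_of_nonneg (hg0 x)]
      exact hg1 x)
    have hgae : ∀ᵐ x ∂P, g x = 1 := by
      have h3 : ∫ x, (1 - g x) ∂P = 0 := by
        rw [integral_sub (integrable_const _) hgi, ha1]
        simp
      have h5 : ∀ x, 0 ≤ 1 - g x := fun x => by linarith [hg1 x]
      have h4 := (integral_eq_zero_iff_of_nonneg (f := fun x => 1 - g x) h5 ((integrable_const _).sub hgi)).1 h3
      filter_upwards [h4] with x hx
      have : 1 - g x = 0 := hx
      linarith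
    have hae : ∀ᵐ x ∂P, Tendsto (fun n : ℕ => p n ((n : ℝ) ^ a) x) atTop (𝓝 1) := by
      filter_upwards [hgae] with x hx
      refine tendsto_of_le_liminf_of_limsup_le hx.ge ?_ (hbA x) (hbB x)
      exact limsup_le_of_le (hbB x).isCoboundedUnder_le (Eventually.of_forall fun n => h1 _ _ _)
    have hlim : Tendsto (fun n : ℕ => ∫ x, p n ((n : ℝ) ^ a) x ∂P) atTop (𝓝 (∫ _, (1 : ℝ) ∂P)) := by
      refine tendsto_integral_of_dominated_convergence (fun _ => 1) (fun n => (hm _ _).aestronglyMeasurable)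
        (integrable_const _) (fun n => Eventually.of_forall fun x => ?_) hae
      rw [Real.norm_eq_abs, abs_of_nonneg (h0 n _ x)]
      exact h1 n _ x
    simp only [integral_const, probReal_univ, smul_eq_mul, mul_one] at hlim
    have hev1 : ∀ᶠ n : ℕ in atTop, 1 - d < ∫ x, p n ((n : ℝ) ^ a) x ∂P :=
      hlim.eventually (lt_mem_nhds (by linarith))
    have hev2 : ∀ᶠ n : ℕ in atTop, (n : ℝ) ^ a ≤ c * (n : ℝ) ^ b' := by
      have h3 : Tendsto (fun n : ℕ => (n : ℝ) ^ (b' - a)) atTop atTop :=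
        (tendsto_rpow_atTop (by linarith)).comp tendsto_natCast_atTop_atTop
      filter_upwards [h3.eventually_ge_atTop (1 / c), eventually_ge_atTop 1] with n hn hn1
      have hnp : (0 : ℝ) < n := by exact_mod_cast hn1
      have h4 : (n : ℝ) ^ b' = (n : ℝ) ^ (b' - a) * (n : ℝ) ^ a := by
        rw [← Real.rpow_add hnp]
        congr 1
        ring
      rw [div_le_iff₀ hc] at hn
      have h5 : 0 < (n : ℝ) ^ a := Real.rpow_pos_of_pos hnp _
      rw [h4]
      nlinarith
    obtain ⟨n, hn1, hn2, hn3, hn4, hn5⟩ := (hfr.and_eventually (hev1.and (hev2.and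
      ((eventually_ge_atTop n₁).and (eventually_ge_atTop 2))))).exists
    have hn2' : (2 : ℝ) ≤ n := by exact_mod_cast hn5
    have hnp : (0 : ℝ) < n := by linarith
    have hl : 0 < Real.log n := Real.log_pos (by linarith)
    have hwp : 0 < w n := (logr_mem hw1 hw2 hn4 hn5).1
    have hwb : (n : ℝ) ^ b' ≤ w n := by
      rw [lt_div_iff₀ hl] at hn1
      rw [← Real.log_le_log_iff (Real.rpow_pos_of_pos hnp _) hwp, Real.log_rpow hnp]
      exact hn1.le
    have h6 : (n : ℝ) ^ a ≤ c * w n := hn3.trans (mul_le_mul_of_nonneg_left hwb hc.le)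
    have h7 : ∫ x, p n ((n : ℝ) ^ a) x ∂P ≤ ∫ x, p n (c * w n) x ∂P :=
      integral_mono (hi _ _) (hi _ _) fun x => hmono n x h6
    have h8 := hspread n hn4
    linarith
  refine le_antisymm ?_ ?_
  · refine le_of_forall_gt_imp_ge_of_dense fun a ha => csInf_le ⟨L, hlow⟩ (hup a ha)
  · exact le_csInf ⟨L + 1, hup _ (by linarith)⟩ hlow

/-- The fluctuation exponent. -/
theorem chi_eq {σ : ℕ → ℝ} {n₁ : ℕ} {b B : ℝ} (hb : 0 < b) (h1 : ∀ n, n₁ ≤ n → (n : ℝ) ^ b ≤ σ n)
    (h2 : ∀ n, n₁ ≤ n → σ n ≤ (n : ℝ) ^ B) :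
    sSup {a : ℝ | 0 < a ∧ ∀ᶠ n : ℕ in atTop, (n : ℝ) ^ (2 * a) ≤ σ n ^ 2} =
      liminf (fun n : ℕ => Real.log (σ n) / Real.log n) atTop := by
  obtain ⟨hb1, hb2⟩ := logr_bdd h1 h2
  set L : ℝ := liminf (fun n : ℕ => Real.log (σ n) / Real.log n) atTop with hL
  have hL0 : 0 < L := by
    refine hb.trans_le (le_liminf_of_le hb1.isCoboundedUnder_ge ?_)
    filter_upwards [eventually_ge_atTop n₁, eventually_ge_atTop 2] with n h3 h4 using (logr_mem h1 h2 h3 h4).2.1
  have hup : ∀ x ∈ {x : ℝ | 0 < x ∧ ∀ᶠ n : ℕ in atTop, (n : ℝ) ^ (2 * x) ≤ σ n ^ 2}, x ≤ L := by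
    rintro x ⟨-, hx⟩
    refine le_liminf_of_le hb1.isCoboundedUnder_ge ?_
    filter_upwards [hx, eventually_ge_atTop n₁, eventually_ge_atTop 2] with n hn hn0 hn2
    have hn2' : (2 : ℝ) ≤ n := by exact_mod_cast hn2
    have hnp : (0 : ℝ) < n := by linarith
    have hl : 0 < Real.log n := Real.log_pos (by linarith)
    rw [le_div_iff₀ hl]
    have h3 := Real.log_le_log (Real.rpow_pos_of_pos hnp _) hn
    rw [Real.log_rpow hnp, Real.log_pow] at h3
    push_cast at h3
    linarith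
  have hlow : ∀ x, 0 < x → x < L → x ∈ {x : ℝ | 0 < x ∧ ∀ᶠ n : ℕ in atTop, (n : ℝ) ^ (2 * x) ≤ σ n ^ 2} := by
    intro x hx0 hx
    refine ⟨hx0, ?_⟩
    filter_upwards [eventually_lt_of_lt_liminf hx hb2, eventually_ge_atTop n₁, eventually_ge_atTop 2] with n hn hn0 hn2
    have hn2' : (2 : ℝ) ≤ n := by exact_mod_cast hn2
    have hnp : (0 : ℝ) < n := by linarith
    have hl : 0 < Real.log n := Real.log_pos (by linarith)
    have hsp : 0 < σ n := (logr_mem h1 h2 hn0 hn2).1
    rw [lt_div_iff₀ hl] at hn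
    rw [← Real.log_le_log_iff (Real.rpow_pos_of_pos hnp _) (by positivity), Real.log_rpow hnp, Real.log_pow]
    push_cast
    linarith
  refine le_antisymm (csSup_le ⟨L / 2, hlow _ (by linarith) (by linarith)⟩ hup) ?_
  refine le_of_forall_lt_imp_le_of_dense fun x hx => ?_
  rcases le_or_gt x 0 with hx0 | hx0
  · have h3 : L / 2 ≤ sSup {x : ℝ | 0 < x ∧ ∀ᶠ n : ℕ in atTop, (n : ℝ) ^ (2 * x) ≤ σ n ^ 2} :=
      le_csSup ⟨L, hup⟩ (hlow _ (by linarith) (by linarith))
    linarith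
  · exact le_csSup ⟨L, hup⟩ (hlow x hx0 hx)

/-- Constant factors do not matter. -/
theorem limsup_log_congr {u v : ℕ → ℝ} {n₁ : ℕ} {b B a A : ℝ} (ha : 0 < a) (hb : 0 < b)
    (hv1 : ∀ n, n₁ ≤ n → (n : ℝ) ^ b ≤ v n) (hv2 : ∀ n, n₁ ≤ n → v n ≤ (n : ℝ) ^ B)
    (h1 : ∀ n, n₁ ≤ n → a * v n ≤ u n) (h2 : ∀ n, n₁ ≤ n → u n ≤ A * v n) :
    limsup (fun n : ℕ => Real.log (u n) / Real.log n) atTop = limsup (fun n : ℕ => Real.log (v n) / Real.log n) atTop := by
  obtain ⟨hb1, hb2⟩ := logr_bdd hv1 hv2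
  have hlog : Tendsto (fun n : ℕ => Real.log (n : ℝ)) atTop atTop :=
    Real.tendsto_log_atTop.comp tendsto_natCast_atTop_atTop
  set K : ℝ := |Real.log a| + |Real.log A| with hK
  have hd : ∀ᶠ n : ℕ in atTop, |Real.log (u n) / Real.log n - Real.log (v n) / Real.log n| ≤ K / Real.log n := by
    filter_upwards [eventually_ge_atTop n₁, eventually_ge_atTop 2] with n hn hn2
    have hn2' : (2 : ℝ) ≤ n := by exact_mod_cast hn2
    have hl : 0 < Real.log n := Real.log_pos (by linarith)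
    have hv : 0 < v n := (logr_mem hv1 hv2 hn hn2).1
    have hu : 0 < u n := (mul_pos ha hv).trans_le (h1 n hn)
    have hA : 0 < A := by
      by_contra hA
      push Not at hA
      have := h2 n hn
      nlinarith
    have h3 := Real.log_le_log (mul_pos ha hv) (h1 n hn)
    have h4 := Real.log_le_log hu (h2 n hn)
    rw [Real.log_mul ha.ne' hv.ne'] at h3
    rw [Real.log_mul hA.ne' hv.ne'] at h4
    rw [← sub_div, abs_div, abs_of_pos hl]
    refine div_le_div_of_nonneg_right ?_ hl.le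
    rw [abs_le]
    have h5 := neg_abs_le (Real.log a)
    have h6 := le_abs_self (Real.log A)
    have h7 := abs_nonneg (Real.log a)
    have h8 := abs_nonneg (Real.log A)
    constructor <;> linarith
  have hKl : Tendsto (fun n : ℕ => K / Real.log (n : ℝ)) atTop (𝓝 0) := hlog.const_div_atTop K
  have hsub : Tendsto (fun n : ℕ => Real.log (u n) / Real.log n - Real.log (v n) / Real.log n) atTop (𝓝 0) :=
    squeeze_zero_norm' (by simpa only [Real.norm_eq_abs] using hd) hKl
  have hsub2 : ∀ᶠ n : ℕ in atTop, |Real.log (u n) / Real.log n - Real.log (v n) / Real.log n| ≤ 1 := by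
    have h3 := hsub.abs
    rw [abs_zero] at h3
    filter_upwards [h3.eventually (gt_mem_nhds one_pos)] with n hn using hn.le
  refine limsup_congr_sub ?_ ?_ hb1 hb2 hsub
  · refine ⟨B + 1, ?_⟩
    rw [eventually_map]
    filter_upwards [hsub2, eventually_ge_atTop n₁, eventually_ge_atTop 2] with n hn hn1 hn2
    have h3 := (logr_mem hv1 hv2 hn1 hn2).2.2
    have h4 := (abs_le.1 hn).2
    linarith
  · refine ⟨b - 1, ?_⟩
    rw [eventually_map]
    filter_upwards [hsub2, eventually_ge_atTop n₁, eventually_ge_atTop 2] with n hn hn1 hn2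
    have h3 := (logr_mem hv1 hv2 hn1 hn2).2.1
    have h4 := (abs_le.1 hn).1
    simp only [ge_iff_le]
    linarith

end Pool.Agent.W_7d29a1_SR
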