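import Pool.Agent.W_7d29a1_SR.ModelS

/-!
THEOREM (SR) (hand-in ScalingLaw), proofs row 626: the width `wid J σ n` attains its level (pure).
-/

namespace Pool.Agent.W_7d29a1_SR

open Filter Topology Set

/-- The width attains its level: `n J (w / n) = σ` for `w = wid J σ n`, and it is the largest such `w` below `n`. -/
theorem wid_level {J : ℝ → ℝ} (hc : ContinuousOn J (Ico 0 1)) (hm : MonotoneOn J (Ico 0 1)) (h0 : J 0 = 0)
    {σ : ℝ} {n : ℕ} (hn : 1 ≤ n) (hσ : 0 ≤ σ) (hσ1 : σ < n * J (1 / 2)) :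
    0 ≤ wid J σ n ∧ wid J σ n ≤ n / 2 ∧ n * J (wid J σ n / n) = σ ∧
      ∀ w : ℝ, 0 ≤ w → w < n → n * J (w / n) ≤ σ → w ≤ wid J σ n := by
  have hn0 : (0 : ℝ) < n := by exact_mod_cast hn
  have hhalf : (1 / 2 : ℝ) ∈ Ico (0 : ℝ) 1 := ⟨by norm_num, by norm_num⟩
  have hsub : Icc (0 : ℝ) (1 / 2) ⊆ Ico 0 1 := fun x hx => ⟨hx.1, lt_of_le_of_lt hx.2 (by norm_num)⟩
  have hcK : ContinuousOn J (Icc 0 (1 / 2)) := hc.mono hsub
  -- the set of admissible slopes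
  set K : Set ℝ := {v | v ∈ Icc (0 : ℝ) (1 / 2) ∧ J v ≤ σ / n} with hK
  have hKc : IsCompact K := by
    have h1 : IsClosed K := by
      have h2 : K = Icc (0 : ℝ) (1 / 2) ∩ J ⁻¹' Iic (σ / n) := by
        ext v
        simp [hK]
      rw [h2]
      exact hcK.preimage_isClosed_of_isClosed isClosed_Icc isClosed_Iic
    exact isCompact_Icc.of_isClosed_subset h1 fun v hv => hv.1
  have hKn : K.Nonempty := ⟨0, ⟨le_rfl, by norm_num⟩, by rw [h0]; positivity⟩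
  obtain ⟨hm1, hm2⟩ := hKc.sSup_mem hKn
  set v : ℝ := sSup K with hv
  have hgr : ∀ u ∈ K, u ≤ v := fun u hu => le_csSup hKc.bddAbove hu
  -- the level is attained
  obtain ⟨u, hu, hu'⟩ : ∃ u ∈ Icc (0 : ℝ) (1 / 2), J u = σ / n := by
    have h1 : σ / n ∈ Icc (J 0) (J (1 / 2)) := by
      rw [h0]
      refine ⟨by positivity, ?_⟩
      rw [div_le_iff₀ hn0, mul_comm]
      exact hσ1.le
    obtain ⟨u, hu, hu'⟩ := intermediate_value_Icc (by norm_num) hcK h1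
    exact ⟨u, hu, hu'⟩
  have huv : u ≤ v := hgr u ⟨hu, hu'.le⟩
  have hJv : J v = σ / n := le_antisymm hm2 (hu' ▸ hm (hsub hu) (hsub hm1) huv)
  -- the set of widths
  have hS : ∀ w : ℝ, 0 ≤ w → w < n → n * J (w / n) ≤ σ → w / n ∈ K := by
    intro w h1 h2 h3
    have h4 : J (w / n) ≤ σ / n := by
      rw [le_div_iff₀ hn0, mul_comm]
      exact h3
    have h5 : 0 ≤ w / n := by positivity
    have h6 : w / n < 1 := by
      rw [div_lt_one hn0]
      exact h2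
    refine ⟨⟨h5, ?_⟩, h4⟩
    by_contra hlt
    push Not at hlt
    have h7 := hm hhalf ⟨h5, h6⟩ hlt.le
    have h8 : σ / n < J (1 / 2) := by
      rw [div_lt_iff₀ hn0, mul_comm]
      exact hσ1
    linarith
  have hgw : IsGreatest {w : ℝ | 0 ≤ w ∧ w < n ∧ n * J (w / n) ≤ σ} (n * v) := by
    constructor
    · refine ⟨mul_nonneg hn0.le hm1.1, ?_, ?_⟩
      · have := hm1.2
        nlinarith
      · rw [mul_div_cancel_left₀ _ hn0.ne', hJv, mul_div_cancel₀ _ hn0.ne']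
    · rintro w ⟨h1, h2, h3⟩
      have := hgr _ (hS w h1 h2 h3)
      rw [div_le_iff₀ hn0] at this
      linarith
  have hwid : wid J σ n = n * v := hgw.csSup_eq
  rw [hwid]
  refine ⟨mul_nonneg hn0.le hm1.1, ?_, ?_, ?_⟩
  · have := hm1.2
    nlinarith
  · rw [mul_div_cancel_left₀ _ hn0.ne', hJv, mul_div_cancel₀ _ hn0.ne']
  · intro w h1 h2 h3
    exact hgw.2 ⟨h1, h2, h3⟩

/-- The width is positive if the level is. -/
theorem wid_pos {J : ℝ → ℝ} (hc : ContinuousOn J (Ico 0 1)) (hm : MonotoneOn J (Ico 0 1)) (h0 : J 0 = 0)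
    {σ : ℝ} {n : ℕ} (hn : 1 ≤ n) (hσ : 0 < σ) (hσ1 : σ < n * J (1 / 2)) : 0 < wid J σ n := by
  obtain ⟨h1, h2, h3, h4⟩ := wid_level hc hm h0 hn hσ.le hσ1
  refine lt_of_le_of_ne h1 fun h => ?_
  rw [← h, zero_div, h0, mul_zero] at h3
  exact hσ.ne h3

end Pool.Agent.W_7d29a1_SR
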