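import Pool.Agent.W_7d29a1_SR.Rec
import Pool.Agent.W_7d29a1_SR.Lucky

/-!
THEOREM (SR) (hand-in ScalingLaw), proofs row 626, section (S4).
-/

namespace Pool.Agent.W_7d29a1_SR

open MeasureTheory ProbabilityTheory Filter Topology
open Pool.Agent.W_7d29a1_F Pool.Agent.W_7d29a1_h4g Pool.Agent.W_7d29a1_G Pool.Agent.W_7d29a1_L

/-- A moment from a polynomial tail (layer cake). -/
theorem pow_moment_of_tail {Ω : Type*} [MeasurableSpace Ω] {P : Measure Ω} [IsProbabilityMeasure P] {Y : Ω → ℝ}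
    (hY : Measurable Y) (h0 : ∀ ω, 0 ≤ Y ω) (q : ℕ) (hq : 1 ≤ q) {A : ℝ} (hA : 0 ≤ A)
    (ht : ∀ u : ℝ, 1 ≤ u → P.real {ω | u ≤ Y ω} ≤ A / u ^ (q + 1)) :
    ∫ ω, Y ω ^ q ∂P ≤ q * (1 + A) := by
  have hq0 : (0 : ℝ) < q := by exact_mod_cast hq
  have hnn : 0 ≤ᵐ[P] fun ω => Y ω ^ q := Filter.Eventually.of_forall fun ω => pow_nonneg (h0 ω) q
  rw [integral_eq_lintegral_of_nonneg_ae hnn (hY.pow_const q).aestronglyMeasurable]
  refine ENNReal.toReal_le_of_le_ofReal (by positivity) ?_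
  have h1 := lintegral_rpow_eq_lintegral_meas_le_mul P (f := Y) (Filter.Eventually.of_forall h0)
    hY.aemeasurable hq0
  have h2 : ∀ ω, ENNReal.ofReal (Y ω ^ q) = ENNReal.ofReal (Y ω ^ (q : ℝ)) := fun ω => by
    rw [Real.rpow_natCast]
  simp only [h2]
  rw [h1, ENNReal.ofReal_mul hq0.le]
  refine mul_le_mul_right ?_ _
  have h3 : (Set.Ioi (0 : ℝ)) = Set.Ioc 0 1 ∪ Set.Ioi 1 := (Set.Ioc_union_Ioi_eq_Ioi zero_le_one).symm
  rw [h3]
  refine (lintegral_union_le _ _ _).trans ?_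
  rw [ENNReal.ofReal_add zero_le_one hA]
  refine add_le_add ?_ ?_
  · calc ∫⁻ t in Set.Ioc (0 : ℝ) 1, P {a : Ω | t ≤ Y a} * ENNReal.ofReal (t ^ ((q : ℝ) - 1))
        ≤ ∫⁻ _ in Set.Ioc (0 : ℝ) 1, 1 := by
          refine setLIntegral_mono measurable_const fun t ht => ?_
          have h4 : P {a : Ω | t ≤ Y a} ≤ 1 := prob_le_one
          have h5 : ENNReal.ofReal (t ^ ((q : ℝ) - 1)) ≤ 1 := by
            rw [ENNReal.ofReal_le_one]
            refine Real.rpow_le_one ht.1.le ht.2 ?_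
            have : (1 : ℝ) ≤ q := by exact_mod_cast hq
            linarith
          calc _ ≤ (1 : ENNReal) * 1 := mul_le_mul' h4 h5
            _ = 1 := one_mul 1
      _ = ENNReal.ofReal 1 := by simp
  · have h6 : IntegrableOn (fun t : ℝ => A * t ^ (-2 : ℝ)) (Set.Ioi 1) :=
      (integrableOn_Ioi_rpow_of_lt (by norm_num) one_pos).const_mul A
    have h7 : ∫ t in Set.Ioi (1 : ℝ), A * t ^ (-2 : ℝ) = A := by
      rw [integral_const_mul, integral_Ioi_rpow_of_lt (by norm_num) one_pos]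
      norm_num
    have h8 : 0 ≤ᵐ[volume.restrict (Set.Ioi (1 : ℝ))] fun t : ℝ => A * t ^ (-2 : ℝ) := by
      filter_upwards [self_mem_ae_restrict (measurableSet_Ioi : MeasurableSet (Set.Ioi (1 : ℝ)))] with t ht
      exact mul_nonneg hA (Real.rpow_nonneg (zero_le_one.trans (le_of_lt ht)) _)
    calc ∫⁻ t in Set.Ioi (1 : ℝ), P {a : Ω | t ≤ Y a} * ENNReal.ofReal (t ^ ((q : ℝ) - 1))
        ≤ ∫⁻ t in Set.Ioi (1 : ℝ), ENNReal.ofReal (A * t ^ (-2 : ℝ)) := by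
          refine setLIntegral_mono (by fun_prop) fun t ht' => ?_
          have ht1 : (1 : ℝ) ≤ t := le_of_lt ht'
          have ht0 : (0 : ℝ) < t := lt_of_lt_of_le one_pos ht1
          have h9 : P {a : Ω | t ≤ Y a} ≤ ENNReal.ofReal (A / t ^ (q + 1)) := by
            rw [← ofReal_measureReal (measure_ne_top P _)]
            exact ENNReal.ofReal_le_ofReal (ht t ht1)
          calc P {a : Ω | t ≤ Y a} * ENNReal.ofReal (t ^ ((q : ℝ) - 1))
              ≤ ENNReal.ofReal (A / t ^ (q + 1)) * ENNReal.ofReal (t ^ ((q : ℝ) - 1)) :=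
                mul_le_mul_left h9 _
            _ = ENNReal.ofReal (A * t ^ (-2 : ℝ)) := by
                rw [← ENNReal.ofReal_mul (by positivity)]
                congr 1
                rw [Real.rpow_sub_one ht0.ne', Real.rpow_natCast, Real.rpow_neg ht0.le, pow_succ]
                have : t ^ (2 : ℝ) = t ^ 2 := by norm_num
                rw [this]
                field_simp
      _ = ENNReal.ofReal A := by
          rw [← ofReal_integral_eq_lintegral_ofReal h6 h8, h7]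

variable {μ : Measure ℝ} [IsProbabilityMeasure μ] {c C : ℝ} {n₀ : ℕ}

/-- Powers of functions of linear growth are integrable. -/
theorem Sub_pow_integrable (hμ : Pool.Agent.W_7d29a1_h47.EM μ) {f : Env → ℝ} (hf : Sub f) (q : ℕ) :
    Integrable (fun η => |f η| ^ q) (law μ) := by
  have h1 := (hf.abs.exp_int hμ).const_mul (q.factorial : ℝ)
  refine h1.mono' (hf.abs.1.pow_const q).aestronglyMeasurable (Eventually.of_forall fun η => ?_)
  rw [Real.norm_of_nonneg (by positivity)]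
  have h2 := Real.pow_div_factorial_le_exp _ (abs_nonneg (f η)) q
  rw [div_le_iff₀ (by positivity)] at h2
  linarith

/-- The mean of the luck. -/
theorem mean_V (h : In μ c C n₀) (n : ℕ) : -EE μ n ≤ ∫ η, V μ 0 η 0 n ∂(law μ) ∧ ∫ η, V μ 0 η 0 n ∂(law μ) ≤ 0 := by
  refine ⟨?_, integral_V_nonpos h.em 0 n⟩
  have h1 := mean_neg_V (μ := μ) h.em (le_refl n)
  have h2 : ∫ η, -V μ 0 η 0 n ∂(law μ) ≤ ∫ η, max (-V μ 0 η 0 n) 0 ∂(law μ) :=
    integral_mono ((Sub_V 0 n).neg.integrable h.em) (((Sub_V 0 n).neg.max (Sub.const 0)).integrable h.em)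
      fun η => le_max_left _ _
  rw [integral_neg] at h2
  linarith

/-- The moments of the positive part of the luck. -/
theorem luck_pow (h : In μ c C n₀) (q : ℕ) : ∃ A : ℝ, 0 ≤ A ∧ ∃ n₁ : ℕ, ∀ n, n₁ ≤ n → ∀ m, m ≤ n →
    ∫ η, max (V μ 0 η 0 m) 0 ^ q ∂(law μ) ≤ A * EE μ n ^ q := by
  obtain ⟨c', hc', n1, hn1⟩ := wd_ge h
  have hC0 : 0 < C := lt_of_lt_of_le one_pos h.C1
  refine ⟨q.factorial * C ^ (q + 1), by positivity, max n₀ n1, fun n hn m hm => ?_⟩
  have hE := EE_pos (μ := μ) n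
  have hw : 0 < wd μ n := lt_of_lt_of_le (by positivity) (hn1 n ((le_max_right _ _).trans hn))
  have hl := h.luck n ((le_max_left _ _).trans hn) 0 (-(wd μ n / 2)) (by
    rw [abs_zero, zero_mul]
    have := h.c0
    positivity)
  obtain ⟨M, hM⟩ : ∃ M : Env → ℝ, M = fun η => Mh μ 0 (1 / 2) 0 (wd μ n) (-(wd μ n / 2)) (4 * n) η := ⟨_, rfl⟩
  have hMS : Sub M := by rw [hM]; exact Sub_Mh
  have hM0 : ∀ η, 0 ≤ M η := fun η => by rw [hM]; exact Mh_nonneg η
  have hMV : ∀ η, V μ 0 η 0 m ≤ M η := by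
    intro η
    have hq : (((0 : ℕ), (0 : ℤ)), m) ∈ Bx (1 / 2) (wd μ n) (-(wd μ n / 2)) (4 * n) := by
      rw [mem_Bx (by norm_num) (by norm_num)]
      refine ⟨?_, ?_, ?_⟩
      · show 0 + m ≤ 4 * n
        omega
      · show -(wd μ n / 2) < ((0 : ℤ) : ℝ) - 1 / 2 * ((0 : ℕ) : ℝ)
        push_cast
        linarith
      · show ((0 : ℤ) : ℝ) - 1 / 2 * ((0 : ℕ) : ℝ) ≤ -(wd μ n / 2) + wd μ n
        push_cast
        linarith
    have h1 := le_Mh (μ := μ) (s := 0) (v := 1 / 2) (h := 0) η hq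
    have h2 : T μ 0 (1 / 2) 0 η (((0 : ℕ) : ℤ), (0 : ℤ)) m = V μ 0 η 0 m := by
      unfold T kap
      simp only [add_zero, sub_self, zero_mul, mul_zero]
      rfl
    have h3 : T μ 0 (1 / 2) 0 η (((0 : ℕ) : ℤ), (0 : ℤ)) m ≤ M η := by
      rw [hM]
      exact h1
    rw [← h2]
    exact h3
  have hpt : ∀ η, max (V μ 0 η 0 m) 0 ^ q ≤ q.factorial * (C * EE μ n) ^ q * Real.exp (M η / (C * EE μ n)) := by
    intro η
    have hCE : 0 < C * EE μ n := by positivity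
    have h1 : max (V μ 0 η 0 m) 0 ≤ M η := max_le (hMV η) (hM0 η)
    have h2 : max (V μ 0 η 0 m) 0 ^ q ≤ M η ^ q := pow_le_pow_left₀ (le_max_right _ _) h1 q
    have h3 := Real.pow_div_factorial_le_exp (x := M η / (C * EE μ n)) (div_nonneg (hM0 η) hCE.le) q
    rw [div_le_iff₀ (by positivity), div_pow, div_le_iff₀ (by positivity)] at h3
    calc max (V μ 0 η 0 m) 0 ^ q ≤ M η ^ q := h2
      _ ≤ _ := h3
      _ = _ := by ring
  have hexpS : Sub fun η => M η / (C * EE μ n) := by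
    have := hMS.const_mul (1 / (C * EE μ n))
    refine (congrArg Pool.Agent.W_7d29a1_F.Sub (funext fun η => ?_)).mp this
    ring
  have hVi : Integrable (fun η => max (V μ 0 η 0 m) 0 ^ q) (law μ) := by
    refine (Sub_pow_integrable h.em ((Sub_V (μ := μ) (s := 0) 0 m).max (Sub.const 0)) q).congr
      (Eventually.of_forall fun η => ?_)
    show |max (V μ 0 η 0 m) 0| ^ q = max (V μ 0 η 0 m) 0 ^ q
    rw [abs_of_nonneg (le_max_right _ _)]
  have hI := integral_mono hVi ((hexpS.exp_int h.em).const_mul (q.factorial * (C * EE μ n) ^ q)) hpt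
  rw [integral_const_mul] at hI
  refine hI.trans ?_
  have hl' : ∫ η, Real.exp (M η / (C * EE μ n)) ∂(law μ) ≤ C := by rw [hM]; exact hl
  calc q.factorial * (C * EE μ n) ^ q * ∫ η, Real.exp (M η / (C * EE μ n)) ∂(law μ)
      ≤ q.factorial * (C * EE μ n) ^ q * C := mul_le_mul_of_nonneg_left hl' (by positivity)
    _ = q.factorial * C ^ (q + 1) * EE μ n ^ q := by ring

/-- The tail of the bad luck. -/
theorem tail_V (h : In μ c C n₀) (q : ℕ) : ∃ A : ℝ, ∀ n : ℕ, 1 ≤ n → ∀ u : ℝ, 1 ≤ u →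
    (law μ).real {η | V μ 0 η 0 n ≤ -(u * EE μ n)} ≤ A / u ^ q := by
  obtain ⟨A, hA⟩ := unlucky h q
  refine ⟨A, fun n hn u hu => ?_⟩
  have h1 : 2 * md n ≤ n ∧ (n : ℤ) ≤ 2 * md n + 1 := by unfold md; omega
  have h2 : 2 * (md n : ℝ) ≤ n := by exact_mod_cast h1.1
  have h3 : (n : ℝ) ≤ 2 * (md n : ℝ) + 1 := by exact_mod_cast h1.2
  have h4 : 0 ≤ c / 16 * vA μ 1 n * n :=
    mul_nonneg (mul_nonneg (by have := h.c0; positivity) (vA_nonneg h.em zero_le_one n)) (Nat.cast_nonneg n)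
  refine le_trans ?_ (hA n hn (md n) (md_nonneg n) (md_le n) ?_ u hu)
  · refine measureReal_mono (fun η hη => ?_) (measure_ne_top _ _)
    rw [Set.mem_setOf_eq] at hη ⊢
    have h5 := neg_X_le_V (μ := μ) (s := 0) η 0 (md_nonneg n) (md_le n)
    linarith
  · rw [abs_le]
    constructor <;> linarith

/-- The moments of the negative part of the luck. -/
theorem unluck_pow (h : In μ c C n₀) (q : ℕ) (hq : 1 ≤ q) : ∃ A : ℝ, 0 ≤ A ∧ ∀ n : ℕ, 1 ≤ n →
    ∫ η, max (-V μ 0 η 0 n) 0 ^ q ∂(law μ) ≤ A * EE μ n ^ q := by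
  obtain ⟨A, hA⟩ := tail_V h (q + 1)
  have hA0 : 0 ≤ A := by
    have h1 := hA 1 le_rfl 1 le_rfl
    rw [one_pow, div_one] at h1
    exact measureReal_nonneg.trans h1
  refine ⟨q * (1 + A), by positivity, fun n hn => ?_⟩
  have hE := EE_pos (μ := μ) n
  have h1 := pow_moment_of_tail (P := law μ) (Y := fun η => max (-V μ 0 η 0 n) 0 / EE μ n)
    ((((Sub_V (μ := μ) (s := 0) 0 n).neg.max (Sub.const 0)).1).div_const _)
    (fun η => div_nonneg (le_max_right _ _) hE.le) q hq hA0 (fun u hu => by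
      refine le_trans (measureReal_mono (fun η hη => ?_) (measure_ne_top _ _)) (hA n hn u hu)
      rw [Set.mem_setOf_eq, le_div_iff₀ hE] at hη
      rw [Set.mem_setOf_eq]
      have h2 : 0 < u * EE μ n := by positivity
      rcases le_max_iff.1 hη with h3 | h3
      · linarith
      · linarith)
  have h2 : ∀ η, max (-V μ 0 η 0 n) 0 ^ q = EE μ n ^ q * (max (-V μ 0 η 0 n) 0 / EE μ n) ^ q := fun η => by
    rw [div_pow]
    field_simp
  simp only [h2]
  rw [integral_const_mul]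
  calc EE μ n ^ q * ∫ η, (max (-V μ 0 η 0 n) 0 / EE μ n) ^ q ∂(law μ) ≤ EE μ n ^ q * (q * (1 + A)) :=
        mul_le_mul_of_nonneg_left h1 (by positivity)
    _ = q * (1 + A) * EE μ n ^ q := by ring

/-- (S4) MOMENTS. -/
theorem moments (h : In μ c C n₀) (q : ℕ) : ∃ A : ℝ, ∀ n : ℕ, 1 ≤ n →
    Integrable (fun η => |V μ 0 η 0 n| ^ q) (law μ) ∧ ∫ η, |V μ 0 η 0 n| ^ q ∂(law μ) ≤ A * EE μ n ^ q := by
  rcases Nat.eq_zero_or_pos q with rfl | hq
  · refine ⟨1, fun n _ => ⟨Sub_pow_integrable h.em (Sub_V 0 n) 0, ?_⟩⟩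
    simp
  obtain ⟨A1, hA1, n1, h1⟩ := luck_pow h q
  obtain ⟨A2, hA2, h2⟩ := unluck_pow h q hq
  obtain ⟨S, hS⟩ : ∃ S : ℝ, S = ∑ k ∈ Finset.range n1, ∫ η, |V μ 0 η 0 k| ^ q ∂(law μ) := ⟨_, rfl⟩
  have hk0 : ∀ k : ℕ, 0 ≤ ∫ η, |V μ 0 η 0 k| ^ q ∂(law μ) := fun k => integral_nonneg fun η => by positivity
  have hS0 : 0 ≤ S := by
    rw [hS]
    exact Finset.sum_nonneg fun k _ => hk0 k
  refine ⟨A1 + A2 + S, fun n hn => ⟨Sub_pow_integrable h.em (Sub_V 0 n) q, ?_⟩⟩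
  have hE1 : 1 ≤ EE μ n := one_le_EE n
  have hEq : 1 ≤ EE μ n ^ q := one_le_pow₀ hE1
  rcases lt_or_ge n n1 with hlt | hge
  · have h3 : ∫ η, |V μ 0 η 0 n| ^ q ∂(law μ) ≤ S := by
      rw [hS]
      exact Finset.single_le_sum (f := fun k => ∫ η, |V μ 0 η 0 k| ^ q ∂(law μ)) (fun k _ => hk0 k)
        (Finset.mem_range.2 hlt)
    calc ∫ η, |V μ 0 η 0 n| ^ q ∂(law μ) ≤ S * 1 := by rw [mul_one]; exact h3
      _ ≤ (A1 + A2 + S) * EE μ n ^ q := mul_le_mul (by linarith) hEq zero_le_one (by linarith)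
  · have hp : Integrable (fun η => max (V μ 0 η 0 n) 0 ^ q) (law μ) := by
      refine (Sub_pow_integrable h.em ((Sub_V (μ := μ) (s := 0) 0 n).max (Sub.const 0)) q).congr
        (Eventually.of_forall fun η => ?_)
      show |max (V μ 0 η 0 n) 0| ^ q = max (V μ 0 η 0 n) 0 ^ q
      rw [abs_of_nonneg (le_max_right _ _)]
    have hm : Integrable (fun η => max (-V μ 0 η 0 n) 0 ^ q) (law μ) := by
      refine (Sub_pow_integrable h.em ((Sub_V (μ := μ) (s := 0) 0 n).neg.max (Sub.const 0)) q).congr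
        (Eventually.of_forall fun η => ?_)
      show |max (-V μ 0 η 0 n) 0| ^ q = max (-V μ 0 η 0 n) 0 ^ q
      rw [abs_of_nonneg (le_max_right _ _)]
    have h3 : ∫ η, |V μ 0 η 0 n| ^ q ∂(law μ) ≤
        ∫ η, (max (V μ 0 η 0 n) 0 ^ q + max (-V μ 0 η 0 n) 0 ^ q) ∂(law μ) := by
      refine integral_mono (Sub_pow_integrable h.em (Sub_V 0 n) q) (hp.add hm) fun η => ?_
      show |V μ 0 η 0 n| ^ q ≤ max (V μ 0 η 0 n) 0 ^ q + max (-V μ 0 η 0 n) 0 ^ q
      rcases le_total 0 (V μ 0 η 0 n) with h4 | h4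
      · rw [abs_of_nonneg h4, max_eq_left h4]
        have : 0 ≤ max (-V μ 0 η 0 n) 0 ^ q := pow_nonneg (le_max_right _ _) q
        linarith
      · rw [abs_of_nonpos h4, max_eq_left (neg_nonneg.2 h4)]
        have : 0 ≤ max (V μ 0 η 0 n) 0 ^ q := pow_nonneg (le_max_right _ _) q
        linarith
    rw [integral_add hp hm] at h3
    have h4 := h1 n hge n le_rfl
    have h5 := h2 n hn
    have h6 : 0 ≤ S * EE μ n ^ q := by positivity
    calc ∫ η, |V μ 0 η 0 n| ^ q ∂(law μ) ≤ A1 * EE μ n ^ q + A2 * EE μ n ^ q := by linarith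
      _ ≤ (A1 + A2 + S) * EE μ n ^ q := by linarith

end Pool.Agent.W_7d29a1_SR
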