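import Pool.Agent.W_7d29a1_SR.Rec
import Pool.Agent.W_7d29a1_L.LsA1

/-!
THEOREM (SR) (hand-in ScalingLaw), proofs row 626, section (S4), stretched exponential form: the mean of the luck, the tail
of the bad luck, the tail of the good luck, and the deviations of the luck from the mean, in units.
-/

namespace Pool.Agent.W_7d29a1_SR

open MeasureTheory ProbabilityTheory Filter Topology
open Pool.Agent.W_7d29a1_F Pool.Agent.W_7d29a1_h4g Pool.Agent.W_7d29a1_G Pool.Agent.W_7d29a1_L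

variable {μ : Measure ℝ} [IsProbabilityMeasure μ] {c C : ℝ} {n₀ : ℕ}

/-- The mean of the luck. -/
theorem mean_VE (h : In μ c C n₀) (n : ℕ) :
    -(EE μ n - 1) ≤ ∫ η, V μ 0 η 0 n ∂(law μ) ∧ ∫ η, V μ 0 η 0 n ∂(law μ) ≤ 0 := by
  refine ⟨?_, integral_V_nonpos h.em 0 n⟩
  have hXS : Sub fun η : Env => X μ 0 η 0 n (md n) := Sub_X (0 : Pt) (md_nonneg n) (md_le n)
  have hVS : Sub fun η : Env => V μ 0 η 0 n := Sub_V _ _
  have h1 : ∫ η, -max (X μ 0 η 0 n (md n)) 0 ∂(law μ) ≤ ∫ η, V μ 0 η 0 n ∂(law μ) := by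
    refine integral_mono (((hXS.max (Sub.const 0)).neg).integrable h.em) (hVS.integrable h.em) fun η => ?_
    have h2 := neg_X_le_V (μ := μ) (s := 0) η 0 (md_nonneg n) (md_le n)
    have h3 := le_max_left (X μ 0 η 0 n (md n)) 0
    show -max (X μ 0 η 0 n (md n)) 0 ≤ V μ 0 η 0 n
    linarith
  rw [integral_neg] at h1
  have h4 : ∫ η, max (X μ 0 η 0 n (md n)) 0 ∂(law μ) ≤ EE μ n - 1 := ep_le_EE (μ := μ) (le_refl n)
  linarith

private theorem MomE_tail (h : In μ c C n₀) : ∃ A a g : ℝ, 0 < A ∧ 0 < a ∧ 0 < g ∧ g ≤ 1 ∧ ∀ n : ℕ, 1 ≤ n → ∀ u : ℝ, 0 ≤ u →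
    (law μ).real {η | V μ 0 η 0 n ≤ -(u * EE μ n)} ≤ A * Real.exp (-(a * u ^ g)) := by
  obtain ⟨A, a, g, hA, ha, hg, hg1, hU⟩ := unlucky_exp h
  refine ⟨A, a, g, hA, ha, hg, hg1, fun n hn u hu => ?_⟩
  have hc0 := h.c0
  have hcone : |((md n : ℤ) : ℝ) - n / 2| ≤ c / 16 * vA μ 1 n * n + 1 := by
    have h4 : 0 ≤ c / 16 * vA μ 1 n * n := by
      have := vA_nonneg (A := 1) h.em zero_le_one n
      positivity
    have h5 : |((md n : ℤ) : ℝ) - n / 2| ≤ 1 := by
      have h6 : (n : ℤ) - 1 ≤ 2 * md n ∧ 2 * md n ≤ n := by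
        unfold md
        omega
      have h7 : (n : ℝ) - 1 ≤ 2 * ((md n : ℤ) : ℝ) := by exact_mod_cast h6.1
      have h8 : 2 * ((md n : ℤ) : ℝ) ≤ n := by exact_mod_cast h6.2
      rw [abs_le]
      constructor <;> linarith
    linarith
  refine le_trans (measureReal_mono (fun η hη => ?_) (measure_ne_top _ _))
    (hU n hn (md n) (md_nonneg n) (md_le n) hcone u hu)
  rw [Set.mem_ofPred_eq] at hη ⊢
  have h2 := neg_X_le_V (μ := μ) (s := 0) η 0 (md_nonneg n) (md_le n)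
  linarith

/-- The tail of the bad luck, stretched exponential form. -/
theorem tail_V_exp (h : In μ c C n₀) : ∃ A a g : ℝ, 0 < a ∧ 0 < g ∧ g ≤ 1 ∧ ∀ n : ℕ, 1 ≤ n → ∀ u : ℝ, 0 ≤ u →
    (law μ).real {η | V μ 0 η 0 n ≤ -(u * EE μ n)} ≤ A * Real.exp (-(a * u ^ g)) := by
  obtain ⟨A, a, g, -, ha, hg, hg1, hT⟩ := MomE_tail h
  exact ⟨A, a, g, ha, hg, hg1, hT⟩

omit [IsProbabilityMeasure μ] in
private theorem MomE_markov {f : Env → ℝ} (hf : Integrable (fun η => Real.exp (f η)) (law μ)) (t : ℝ) :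
    (law μ).real {η | t ≤ f η} ≤ (∫ η, Real.exp (f η) ∂(law μ)) * Real.exp (-t) := by
  have h1 := mul_meas_ge_le_integral_of_nonneg (μ := law μ) (Eventually.of_forall fun η => (Real.exp_pos (f η)).le) hf
    (Real.exp t)
  have h2 : {η | t ≤ f η} = {η | Real.exp t ≤ Real.exp (f η)} := by
    ext η
    rw [Set.mem_ofPred_eq, Set.mem_ofPred_eq, Real.exp_le_exp]
  rw [h2, Real.exp_neg, ← div_eq_mul_inv, le_div_iff₀ (Real.exp_pos t), mul_comm]
  exact h1

/-- The tail of the good luck, exponential. -/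
theorem upper_V_exp (h : In μ c C n₀) : ∃ A a : ℝ, 0 < A ∧ 0 < a ∧ ∀ n : ℕ, 1 ≤ n → ∀ u : ℝ, 0 ≤ u →
    (law μ).real {η | u * EE μ n ≤ V μ 0 η 0 n} ≤ A * Real.exp (-(a * u)) := by
  have hC := h.C1
  have hC0 : 0 < C := by linarith
  obtain ⟨D, hD⟩ : ∃ D : ℕ → ℝ, ∀ n, D n = ∫ η, Real.exp (V μ 0 η 0 n) ∂(law μ) := ⟨_, fun _ => rfl⟩
  have hD0 : ∀ n, 0 ≤ D n := fun n => by
    rw [hD]
    exact integral_nonneg fun η => (Real.exp_pos _).le
  have hS : 0 ≤ ∑ n ∈ Finset.range n₀, D n := Finset.sum_nonneg fun n _ => hD0 n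
  refine ⟨C + ∑ n ∈ Finset.range n₀, D n, 1 / C, by linarith, by positivity, fun n hn u hu => ?_⟩
  have hE := one_le_EE (μ := μ) n
  by_cases hn0 : n₀ ≤ n
  · have hw : 0 < wd μ n := by
      unfold wd
      have h1 := vA_pos h.em one_pos n
      have h2 : (0 : ℝ) < n := by exact_mod_cast hn
      positivity
    have hl := h.luck n hn0 0 (-(wd μ n) / 2) (by
      rw [abs_zero, zero_mul]
      have := h.c0
      positivity)
    have hMS : Sub fun η => Mh μ 0 (1 / 2) 0 (wd μ n) (-(wd μ n) / 2) (4 * n) η / (C * EE μ n) := by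
      have h1 := (Sub_Mh (μ := μ) (s := 0) (v := 1 / 2) (h := 0) (w := wd μ n) (z := -(wd μ n) / 2)
        (n := 4 * n)).const_mul (C * EE μ n)⁻¹
      simpa only [div_eq_inv_mul] using h1
    have h1 := MomE_markov (hMS.exp_int h.em) (u / C)
    refine le_trans (measureReal_mono (fun η hη => ?_) (measure_ne_top _ _)) (h1.trans ?_)
    · rw [Set.mem_ofPred_eq] at hη ⊢
      have hq : (((0, 0), n) : (ℕ × ℤ) × ℕ) ∈ Bx (1 / 2) (wd μ n) (-(wd μ n) / 2) (4 * n) := by
        rw [mem_Bx (by norm_num) (by norm_num)]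
        refine ⟨by simp only; omega, ?_, ?_⟩
        · simp only [Nat.cast_zero, Int.cast_zero, mul_zero, sub_zero]
          linarith
        · simp only [Nat.cast_zero, Int.cast_zero, mul_zero, sub_zero]
          linarith
      have h2 := le_Mh (μ := μ) (s := 0) (h := 0) η hq
      have h3 : T μ 0 (1 / 2) 0 η (((0 : ℕ) : ℤ), (0 : ℤ)) n = V μ 0 η 0 n := by
        unfold T kap
        rw [add_zero, sub_self, zero_mul, sub_zero, mul_zero, add_zero]
        rfl
      have h4 : V μ 0 η 0 n ≤ Mh μ 0 (1 / 2) 0 (wd μ n) (-(wd μ n) / 2) (4 * n) η := by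
        rw [← h3]
        exact h2
      rw [le_div_iff₀ (by positivity)]
      have h5 : u / C * (C * EE μ n) = u * EE μ n := by
        field_simp
      rw [h5]
      exact hη.trans h4
    · have h6 : u / C = 1 / C * u := by ring
      rw [h6]
      refine mul_le_mul_of_nonneg_right ?_ (Real.exp_pos _).le
      linarith
  · push Not at hn0
    have h1 := MomE_markov ((Sub_V (μ := μ) (s := 0) (0 : Pt) n).exp_int h.em) (u * EE μ n)
    refine h1.trans ?_
    rw [← hD]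
    refine mul_le_mul ?_ (Real.exp_le_exp.2 ?_) (Real.exp_pos _).le (by linarith)
    · have := Finset.single_le_sum (f := D) (fun n _ => hD0 n) (Finset.mem_range.2 hn0)
      linarith
    · have h2 : 1 / C ≤ 1 := by
        rw [div_le_one hC0]
        exact hC
      have h3 : 1 / C * u ≤ 1 * u := mul_le_mul_of_nonneg_right h2 hu
      have h4 : u * 1 ≤ u * EE μ n := mul_le_mul_of_nonneg_left hE hu
      linarith

/-- The deviations of the luck from the mean, stretched exponential form. -/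
theorem dev_V_exp (h : In μ c C n₀) : ∃ A a g : ℝ, 0 < a ∧ 0 < g ∧ g ≤ 1 ∧ ∀ n : ℕ, 1 ≤ n → ∀ u : ℝ, 0 ≤ u →
    (law μ).real {η | u * EE μ n ≤ |V μ 0 η 0 n - ∫ ξ, V μ 0 ξ 0 n ∂(law μ)|} ≤ A * Real.exp (-(a * u ^ g)) := by
  obtain ⟨A, a, g, hA, ha, hg, hg1, hT⟩ := MomE_tail h
  obtain ⟨B, b, hB, hb, hV⟩ := upper_V_exp h
  obtain ⟨d, hd, hda, hdb⟩ : ∃ d : ℝ, 0 < d ∧ d ≤ a ∧ d ≤ b := ⟨min a b, lt_min ha hb, min_le_left _ _, min_le_right _ _⟩
  have hBb : 0 < B * Real.exp b := mul_pos hB (Real.exp_pos b)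
  refine ⟨A + B * Real.exp b + Real.exp d, d, g, hd, hg, hg1, fun n hn u hu => ?_⟩
  have hug : 0 ≤ u ^ g := by positivity
  have hE := one_le_EE (μ := μ) n
  have hx := Real.exp_pos (-(d * u ^ g))
  rcases le_or_gt u 1 with hu1 | hu1
  · refine measureReal_le_one.trans ?_
    have h1 : u ^ g ≤ 1 := Real.rpow_le_one hu hu1 hg.le
    have h2 : 1 ≤ Real.exp d * Real.exp (-(d * u ^ g)) := by
      rw [← Real.exp_add]
      refine Real.one_le_exp ?_
      have := mul_le_mul_of_nonneg_left h1 hd.le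
      linarith
    have h3 : 0 ≤ (A + B * Real.exp b) * Real.exp (-(d * u ^ g)) := by positivity
    calc (1 : ℝ) ≤ (A + B * Real.exp b) * Real.exp (-(d * u ^ g)) + Real.exp d * Real.exp (-(d * u ^ g)) := by linarith
      _ = _ := by ring
  · obtain ⟨hm1, hm2⟩ := mean_VE h n
    have h1 := hT n hn u hu
    have h2 := hV n hn (u - 1) (by linarith)
    have h3 : (law μ).real {η | u * EE μ n ≤ |V μ 0 η 0 n - ∫ ξ, V μ 0 ξ 0 n ∂(law μ)|} ≤
        (law μ).real ({η | V μ 0 η 0 n ≤ -(u * EE μ n)} ∪ {η | (u - 1) * EE μ n ≤ V μ 0 η 0 n}) := by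
      refine measureReal_mono (fun η hη => ?_) (measure_ne_top _ _)
      rw [Set.mem_ofPred_eq] at hη
      rw [Set.mem_union, Set.mem_ofPred_eq, Set.mem_ofPred_eq]
      rcases le_abs.1 hη with h4 | h4
      · right
        have h5 : (u - 1) * EE μ n = u * EE μ n - EE μ n := by ring
        rw [h5]
        linarith
      · left
        linarith
    have h6 : A * Real.exp (-(a * u ^ g)) ≤ A * Real.exp (-(d * u ^ g)) := by
      refine mul_le_mul_of_nonneg_left (Real.exp_le_exp.2 ?_) hA.le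
      have := mul_le_mul_of_nonneg_right hda hug
      linarith
    have h7 : B * Real.exp (-(b * (u - 1))) ≤ B * Real.exp b * Real.exp (-(d * u ^ g)) := by
      rw [mul_assoc, ← Real.exp_add]
      refine mul_le_mul_of_nonneg_left (Real.exp_le_exp.2 ?_) hB.le
      have e1 : u ^ g ≤ u := by
        calc u ^ g ≤ u ^ (1 : ℝ) := Real.rpow_le_rpow_of_exponent_le hu1.le hg1
          _ = u := Real.rpow_one u
      have e2 : d * u ^ g ≤ b * u := mul_le_mul hdb e1 hug hb.le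
      linarith
    have h8 := measureReal_union_le (μ := law μ) {η | V μ 0 η 0 n ≤ -(u * EE μ n)} {η | (u - 1) * EE μ n ≤ V μ 0 η 0 n}
    have h9 : 0 ≤ Real.exp d * Real.exp (-(d * u ^ g)) := by positivity
    calc _ ≤ A * Real.exp (-(d * u ^ g)) + B * Real.exp b * Real.exp (-(d * u ^ g)) + Real.exp d * Real.exp (-(d * u ^ g)) := by
          linarith
      _ = _ := by ring

end Pool.Agent.W_7d29a1_SR
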