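import Pool.Agent.W_7d29a1_SR.Lucky
import Pool.Agent.W_7d29a1_SR.VarA

/-!
THEOREM (SR) (hand-in ScalingLaw), proofs row 626, section (S4).
-/

namespace Pool.Agent.W_7d29a1_SR

open MeasureTheory ProbabilityTheory Filter Topology
open Pool.Agent.W_7d29a1_F Pool.Agent.W_7d29a1_h4g Pool.Agent.W_7d29a1_G Pool.Agent.W_7d29a1_L

variable {μ : Measure ℝ} [IsProbabilityMeasure μ] {c C : ℝ} {n₀ : ℕ}

/-- A positive lower bound for finitely many positive numbers. -/
private lemma fin_min {f : ℕ → ℝ} (hf : ∀ n, 1 ≤ n → 0 < f n) (N : ℕ) :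
    ∃ a : ℝ, 0 < a ∧ ∀ n, 1 ≤ n → n < N → a ≤ f n := by
  induction N with
  | zero => exact ⟨1, one_pos, fun n _ h => absurd h (Nat.not_lt_zero n)⟩
  | succ N ih =>
    obtain ⟨a, ha, h⟩ := ih
    rcases Nat.eq_zero_or_pos N with hN | hN
    · exact ⟨a, ha, fun n h1 h2 => by omega⟩
    · refine ⟨min a (f N), lt_min ha (hf N hN), fun n h1 h2 => ?_⟩
      rcases Nat.lt_succ_iff_lt_or_eq.1 h2 with h3 | h3
      · exact (min_le_left _ _).trans (h n h1 h3)
      · rw [h3]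
        exact min_le_right _ _

/-- The lower bound of the variance (from `lucky` and `∫ V ≤ 0`). -/
theorem var_ge (h : In μ c C n₀) : ∃ a : ℝ, 0 < a ∧ ∀ n : ℕ, 1 ≤ n →
    a * EE μ n ^ 2 ≤ Var[fun η => V μ 0 η 0 n; law μ] := by
  obtain ⟨p, hp, n1, hn1⟩ := lucky h 1
  have hpos : ∀ n : ℕ, 1 ≤ n → 0 < Var[fun η => V μ 0 η 0 n; law μ] / EE μ n ^ 2 := fun n hn =>
    div_pos (var_V_pos h.em h.nd hn) (pow_pos (lt_of_lt_of_le one_pos (one_le_EE n)) 2)
  obtain ⟨a, ha, ha1⟩ := fin_min hpos n1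
  refine ⟨min p a, lt_min hp ha, fun n hn => ?_⟩
  have hE : 0 < EE μ n := lt_of_lt_of_le one_pos (one_le_EE n)
  rcases lt_or_ge n n1 with hlt | hge
  · have h1 := ha1 n hn hlt
    rw [le_div_iff₀ (pow_pos hE 2)] at h1
    exact le_trans (mul_le_mul_of_nonneg_right (min_le_right _ _) (sq_nonneg _)) h1
  · have h1 := hn1 n hge
    have h2 := var_lower (μ := μ) h.em (F := fun η => V μ 0 η 0 n) (Sub_V 0 n)
      (S := {η | 1 * EE μ n ≤ V μ 0 η 0 n}) (measurableSet_le measurable_const (measurable_V 0 n)) hE.le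
      (fun η hη => by
        rw [Set.mem_ofPred_eq, one_mul] at hη
        have h3 := integral_V_nonpos (μ := μ) h.em 0 n
        refine le_trans ?_ (le_abs_self _)
        linarith)
    refine le_trans ?_ h2
    rw [mul_comm]
    exact mul_le_mul_of_nonneg_left ((min_le_left _ _).trans h1) (sq_nonneg _)

end Pool.Agent.W_7d29a1_SR
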