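import Pool.Agent.W_7d29a1_SR.Scale
import Pool.Agent.W_7d29a1_SR.ModelS

/-!
THEOREM (SR) (hand-in ScalingLaw), proofs row 626, section (S7): the width by the standard deviation (pure).
-/

namespace Pool.Agent.W_7d29a1_SR

open MeasureTheory ProbabilityTheory Filter Topology
open Pool.Agent.W_7d29a1_F Pool.Agent.W_7d29a1_h4g Pool.Agent.W_7d29a1_G Pool.Agent.W_7d29a1_L

variable {μ : Measure ℝ} [IsProbabilityMeasure μ] {c C : ℝ} {n₀ : ℕ}

/-- The set in the definition of the width. -/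
theorem wid_bdd (J : ℝ → ℝ) (s : ℝ) (n : ℕ) : BddAbove {w : ℝ | 0 ≤ w ∧ w < n ∧ n * J (w / n) ≤ s} :=
  ⟨n, fun _ hw => hw.2.1.le⟩

/-- (S7), one scale, lower bound. -/
theorem le_wid (hEM : Pool.Agent.W_7d29a1_h47.EM μ) {s a : ℝ} (ha : 0 < a) (ha1 : a ≤ 1) {n : ℕ} (hn : 1 ≤ n)
    (hs : a * EE μ n ≤ s) : a * wd μ n ≤ wid (fun v => J μ (v / 2)) s n := by
  have hnR : (0 : ℝ) < n := by exact_mod_cast hn
  have hE := EE_pos (μ := μ) n
  have h0 := vA_nonneg (μ := μ) hEM zero_le_one n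
  have h1 := vA_le (μ := μ) hEM zero_le_one n
  have h2 := vA_mem (μ := μ) hEM zero_le_one n
  rw [one_mul] at h2
  refine le_csSup (wid_bdd (fun v => J μ (v / 2)) s n) ⟨?_, ?_, ?_⟩
  · unfold wd
    positivity
  · unfold wd
    have : a * vA μ 1 n ≤ 1 * (1 / 2) := mul_le_mul ha1 h1 h0 zero_le_one
    nlinarith
  · have e1 : a * wd μ n / n / 2 = a * vA μ 1 n / 2 := by
      unfold wd
      field_simp
    simp only
    rw [e1]
    have e2 : 2 / a * (a * vA μ 1 n / 2) = vA μ 1 n := by field_simp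
    have h3 := J_mul hEM (v := a * vA μ 1 n / 2) (t := 2 / a) (by positivity)
      (by rw [le_div_iff₀ ha]; linarith) (by rw [e2]; exact h1)
    rw [e2, div_mul_eq_mul_div, div_le_iff₀ ha] at h3
    have h4 := mul_le_mul_of_nonneg_left h3 hnR.le
    have h5 : n * (J μ (vA μ 1 n) * a) ≤ EE μ n * a := by
      have := mul_le_mul_of_nonneg_right h2 ha.le
      linarith
    nlinarith

/-- (S7), one scale, upper bound. -/
theorem wid_le (hEM : Pool.Agent.W_7d29a1_h47.EM μ) {s A : ℝ} (hA : 1 ≤ A) {n : ℕ} (hn : 1 ≤ n)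
    (hs : s ≤ A * EE μ n) : wid (fun v => J μ (v / 2)) s n ≤ 2 * A * wd μ n := by
  have hnR : (0 : ℝ) < n := by exact_mod_cast hn
  have hA0 : 0 < A := by linarith
  have hv0 := vA_nonneg (μ := μ) hEM zero_le_one n
  refine Real.sSup_le ?_ (by unfold wd; positivity)
  rintro w ⟨h0, h1, h2⟩
  simp only at h2
  have h3 : w / n / 2 ≤ 1 / 2 := by
    have : w / n ≤ 1 := by
      rw [div_le_one hnR]
      exact h1.le
    linarith
  have h4 : 0 ≤ w / n / 2 := by positivity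
  have h5 : w / n / 2 ≤ vA μ A n := le_vA h4 h3 (h2.trans hs)
  have h6 := vA_scale (μ := μ) hEM one_pos hA n
  rw [div_one] at h6
  have h7 : w / n ≤ 2 * A * vA μ 1 n := by linarith
  rw [div_le_iff₀ hnR] at h7
  unfold wd
  linarith

/-- (S7) If `σ n` is of the order of `EE n` then the width by `σ` is of the order of `wd`. -/
theorem widthS (h : In μ c C n₀) {σ : ℕ → ℝ} {a A : ℝ} (ha : 0 < a) {n₂ : ℕ}
    (hσ : ∀ n, n₂ ≤ n → a * EE μ n ≤ σ n ∧ σ n ≤ A * EE μ n) : ∃ b B : ℝ, 0 < b ∧ ∃ n₁ : ℕ, ∀ n, n₁ ≤ n →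
    b * wd μ n ≤ wid (fun v => J μ (v / 2)) (σ n) n ∧ wid (fun v => J μ (v / 2)) (σ n) n ≤ B * wd μ n := by
  refine ⟨min a 1, 2 * max A 1, lt_min ha one_pos, max n₂ 1, fun n hn => ?_⟩
  have hn2 : n₂ ≤ n := (le_max_left _ _).trans hn
  have hn1 : 1 ≤ n := (le_max_right _ _).trans hn
  have hE := EE_pos (μ := μ) n
  obtain ⟨h1, h2⟩ := hσ n hn2
  refine ⟨le_wid h.em (lt_min ha one_pos) (min_le_right _ _) hn1 (le_trans ?_ h1),
    wid_le h.em (le_max_right _ _) hn1 (h2.trans ?_)⟩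
  · exact mul_le_mul_of_nonneg_right (min_le_left _ _) hE.le
  · exact mul_le_mul_of_nonneg_right (le_max_left _ _) hE.le

end Pool.Agent.W_7d29a1_SR
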