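import Pool.Agent.W_7d29a1_SR.ExitS
import Pool.Agent.W_7d29a1_SR.VarS
import Pool.Agent.W_7d29a1_h68.Sites
import Pool.Agent.W_7d29a1_SL.NotConf17

/-!
THEOREM (SR) (hand-in ScalingLaw): the variance of the free energy is at least of the order `n / w_n` (Newman - Piza in the tube
of half width `R w_n`). (helper10)
-/

namespace Pool.Agent.W_7d29a1_SR

open MeasureTheory ProbabilityTheory Filter Topology
open Pool.Agent.W_7d29a1_F Pool.Agent.W_7d29a1_h4g Pool.Agent.W_7d29a1_G Pool.Agent.W_7d29a1_L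
open Pool.Agent.W_7d29a1_h68 (SiteForm W_up_ne W_up_after W_up_eq cell mem_cell tube mem_tube sum_tube card_tube np_clip)

variable {μ : Measure ℝ} {c C : ℝ} {n₀ : ℕ}

/-- The Gibbs probability of the site `(t, z)` for the polymer of length `t + m` with free end. -/
noncomputable def pf (μ : Measure ℝ) (η : Env) (t m : ℕ) (z : ℤ) : ℝ :=
  W μ 0 η 0 t z * Real.exp (V μ 0 η ((t : ℤ), z) m) / Real.exp (V μ 0 η 0 (t + m))

private lemma pf_add0 (η : Env) (t m : ℕ) : Real.exp (V μ 0 η 0 (t + m)) =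
    ∑ k ∈ Finset.Icc (0 : ℤ) t, W μ 0 η 0 t k * Real.exp (V μ 0 η ((t : ℤ), k) m) := by
  rw [exp_V_add η 0 t m]
  refine Finset.sum_congr rfl fun k _ => ?_
  have e1 : (((0 : Pt).1 + (t : ℤ), (0 : Pt).2 + k) : Pt) = ((t : ℤ), k) := by simp
  rw [e1]

private lemma V_up_after (η : Env) (t : ℕ) (z k : ℤ) (u : ℝ) (m : ℕ) :
    V μ 0 (Function.update η ((t : ℤ), z) u) ((t : ℤ), k) m = V μ 0 η ((t : ℤ), k) m := by
  have h : Real.exp (V μ 0 (Function.update η ((t : ℤ), z) u) ((t : ℤ), k) m) =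
      Real.exp (V μ 0 η ((t : ℤ), k) m) := by
    rw [exp_V, exp_V]
    exact Finset.sum_congr rfl fun y _ => W_up_after η t z k u m y
  exact Real.exp_injective h

theorem siteForm_pf {t m : ℕ} (ht : 1 ≤ t) {z : ℤ} (hz : z ∈ Finset.Icc (0 : ℤ) t) :
    SiteForm (fun η => V μ 0 η 0 (t + m)) (fun η => pf μ η t m z) ((t : ℤ), z) := by
  intro η
  obtain ⟨A, hA⟩ : ∃ A, A = Real.exp (-η ((t : ℤ), z)) * W μ 0 η 0 t z *
    Real.exp (V μ 0 η ((t : ℤ), z) m) := ⟨_, rfl⟩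
  obtain ⟨B, hB⟩ : ∃ B, B = ∑ k ∈ (Finset.Icc (0 : ℤ) t).erase z,
    W μ 0 η 0 t k * Real.exp (V μ 0 η ((t : ℤ), k) m) := ⟨_, rfl⟩
  have hA0 : 0 ≤ A := by
    rw [hA]
    exact mul_nonneg (mul_nonneg (Real.exp_pos _).le (W_nonneg _ _ _ _)) (Real.exp_pos _).le
  have hB0 : 0 ≤ B := by
    rw [hB]
    exact Finset.sum_nonneg fun k _ => mul_nonneg (W_nonneg _ _ _ _) (Real.exp_pos _).le
  have hu : ∀ u : ℝ, Real.exp (V μ 0 (Function.update η ((t : ℤ), z) u) 0 (t + m)) =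
      A * Real.exp u + B ∧ W μ 0 (Function.update η ((t : ℤ), z) u) 0 t z *
        Real.exp (V μ 0 (Function.update η ((t : ℤ), z) u) ((t : ℤ), z) m) = A * Real.exp u := by
    intro u
    have e1 : W μ 0 (Function.update η ((t : ℤ), z) u) 0 t z *
        Real.exp (V μ 0 (Function.update η ((t : ℤ), z) u) ((t : ℤ), z) m) = A * Real.exp u := by
      rw [W_up_eq η ht z u, V_up_after η t z z u m, hA]
      ring
    refine ⟨?_, e1⟩
    rw [pf_add0, ← Finset.add_sum_erase _ _ hz, e1, hB]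
    congr 1
    refine Finset.sum_congr rfl fun k hk => ?_
    rw [W_up_ne η t (Finset.ne_of_mem_erase hk) u, V_up_after η t z k u m]
  have hAB : 0 < A + B := by
    have h2 := (hu 0).1
    rw [Real.exp_zero, mul_one] at h2
    rw [← h2]
    exact Real.exp_pos _
  refine ⟨A, B, hA0, hB0, hAB, fun u => ⟨?_, ?_⟩⟩
  · show V μ 0 (Function.update η ((t : ℤ), z) u) 0 (t + m) = _
    rw [← (hu u).1, Real.log_exp]
  · show pf μ (Function.update η ((t : ℤ), z) u) t m z = _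
    unfold pf
    rw [(hu u).2, (hu u).1]

lemma pf_nonneg (η : Env) (t m : ℕ) (z : ℤ) : 0 ≤ pf μ η t m z :=
  div_nonneg (mul_nonneg (W_nonneg _ _ _ _) (Real.exp_pos _).le) (Real.exp_pos _).le

lemma measurable_pf (t m : ℕ) (z : ℤ) : Measurable fun η => pf μ η t m z := by
  unfold pf
  exact ((measurable_W _ _ _).mul (Real.measurable_exp.comp (measurable_V _ _))).div
    (Real.measurable_exp.comp (measurable_V _ _))

lemma pf_sum (η : Env) (t m : ℕ) : ∑ z ∈ Finset.Icc (0 : ℤ) t, pf μ η t m z = 1 := by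
  unfold pf
  rw [← Finset.sum_div, ← pf_add0]
  exact div_self (Real.exp_pos _).ne'

/-- The paths in the strip pass through the sites of the strip. -/
lemma cf_le_pf (η : Env) {t : ℕ} (ht : 1 ≤ t) (m : ℕ) (r : ℝ) :
    cf μ r η 0 (t + m) / Real.exp (V μ 0 η 0 (t + m)) ≤ ∑ z ∈ cell r t, pf μ η t m z := by
  unfold pf
  rw [← Finset.sum_div]
  refine div_le_div_of_nonneg_right ?_ (Real.exp_pos _).le
  have h1 : cf μ r η 0 (t + m) = ∑ k ∈ Finset.Icc (0 : ℤ) t, WR μ 0 (St r 0) η 0 t k *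
      Pool.Agent.W_7d29a1_SL.ZR μ 0 (St r 0) η ((0 : Pt).1 + t, (0 : Pt).2 + k) m :=
    Pool.Agent.W_7d29a1_SL.ZR_add (St r 0) η 0 t m
  rw [h1]
  have h2 : ∀ k ∈ Finset.Icc (0 : ℤ) t, k ∉ cell r t → WR μ 0 (St r 0) η 0 t k *
      Pool.Agent.W_7d29a1_SL.ZR μ 0 (St r 0) η ((0 : Pt).1 + t, (0 : Pt).2 + k) m = 0 := by
    intro k hk hk2
    rw [Pool.Agent.W_7d29a1_SL.WR_end (St r 0) η 0 ht (k := k) ?_, zero_mul]
    intro h3
    apply hk2
    rw [mem_cell]
    refine ⟨hk, ?_⟩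
    have h4 : |2 * (((0 : Pt).2 + k : ℤ) - (((0 : Pt).2 : ℤ) : ℝ)) - ((((0 : Pt).1 + (t : ℤ) : ℤ) : ℝ) -
      (((0 : Pt).1 : ℤ) : ℝ))| ≤ 2 * r := h3
    simp only [Prod.fst_zero, Prod.snd_zero, Int.cast_zero, sub_zero, zero_add, Int.cast_natCast] at h4
    rw [abs_le] at h4 ⊢
    constructor <;> linarith [h4.1, h4.2]
  have h5 : cell r t ⊆ Finset.Icc (0 : ℤ) t := fun k hk => (mem_cell.1 hk).1
  rw [← Finset.sum_subset h5 h2]
  refine Finset.sum_le_sum fun k _ => ?_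
  have e1 : (((0 : Pt).1 + (t : ℤ), (0 : Pt).2 + k) : Pt) = ((t : ℤ), k) := by simp
  rw [e1]
  exact mul_le_mul (WR_le_W _ _ _ _ _) (Pool.Agent.W_7d29a1_SL.ZR_le _ _ _ _)
    (Pool.Agent.W_7d29a1_SL.ZR_nonneg _ _ _ _) (W_nonneg _ _ _ _)

/-- The Gibbs probability of the site `p` for the polymer of length `N`. -/
noncomputable def pq (μ : Measure ℝ) (N : ℕ) (p : Pt) (η : Env) : ℝ :=
  pf μ η p.1.toNat (N - p.1.toNat) p.2

lemma pq_nat (N : ℕ) (t : ℕ) (z : ℤ) (η : Env) : pq μ N ((t : ℤ), z) η = pf μ η t (N - t) z := by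
  unfold pq
  rw [Int.toNat_natCast]

variable [IsProbabilityMeasure μ]

/-- **Newman - Piza**: if the polymer with free end stays in the strip of half width `b` with probability at least `7 / 8` then
the variance of the free energy is at least of the order `N / b` (up to an additive constant). -/
theorem np_var (hEM : Pool.Agent.W_7d29a1_h47.EM μ) (hnd : Pool.Agent.W_7d29a1_h47.Nondeg μ) :
    ∃ a K : ℝ, 0 < a ∧ 0 ≤ K ∧ ∀ (N : ℕ) (b : ℝ),
      7 / 8 ≤ ∫ η, cf μ b η 0 N / Real.exp (V μ 0 η 0 N) ∂(law μ) →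
      0 < Var[fun η => V μ 0 η 0 N; law μ] →
      a * N ≤ (2 * |b| + 1) * (Var[fun η => V μ 0 η 0 N; law μ] + K) := by
  obtain ⟨c, K, hc, hK, H⟩ := np_clip hEM hnd
  refine ⟨c ^ 2 / 72, K ^ 2 / 144, by positivity, by positivity, ?_⟩
  intro N b hconf hv
  obtain ⟨v, hvd⟩ : ∃ v, v = Var[fun η => V μ 0 η 0 N; law μ] := ⟨_, rfl⟩
  obtain ⟨m, hmd⟩ : ∃ m, m = ∫ η, V μ 0 η 0 N ∂(law μ) := ⟨_, rfl⟩
  rw [← hvd] at hv ⊢
  obtain ⟨r, hr⟩ : ∃ r, r = Real.sqrt (16 * v) := ⟨_, rfl⟩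
  have hr2 : r ^ 2 = 16 * v := by rw [hr, Real.sq_sqrt (by positivity)]
  have hr0 : 0 < r := by rw [hr]; exact Real.sqrt_pos.2 (by positivity)
  have hF : Measurable fun η => V μ 0 η 0 N := measurable_V 0 N
  have hP : (law μ).real {η | r ≤ |V μ 0 η 0 N - m|} ≤ 1 / 16 := by
    have h1 := Pool.Agent.W_7d29a1_SR.var_lower (μ := μ) hEM (F := fun η => V μ 0 η 0 N) (Sub_V 0 N)
      (S := {η | r ≤ |V μ 0 η 0 N - m|}) (measurableSet_le measurable_const (hF.sub_const m).abs) hr0.le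
      (fun η hη => by rw [← hmd]; exact hη)
    rw [← hvd, hr2] at h1
    have h2 : v * (16 * (law μ).real {η | r ≤ |V μ 0 η 0 N - m|}) ≤ v * 1 := by linarith
    have h3 := le_of_mul_le_mul_left h2 hv
    linarith
  obtain ⟨P, hPd⟩ : ∃ P, P = (law μ).real {η | r ≤ |V μ 0 η 0 N - m|} := ⟨_, rfl⟩
  have hP0 : 0 ≤ P := by
    rw [hPd]
    exact measureReal_nonneg
  have hπ : ∀ p ∈ tube b N, Measurable (pq μ N p) := fun p _ => measurable_pf _ _ _
  have hS : ∀ p ∈ tube b N, SiteForm (fun η => V μ 0 η 0 N) (pq μ N p) p := by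
    intro p hp
    obtain ⟨t, z, ht1, htN, hz, rfl⟩ := mem_tube.1 hp
    have e1 : t + (N - t) = N := by omega
    have h2 := siteForm_pf (μ := μ) (m := N - t) ht1 (mem_cell.1 hz).1
    rw [e1] at h2
    have e2 : pq μ N ((t : ℤ), z) = fun η => pf μ η t (N - t) z := by
      funext η
      exact pq_nat N t z η
    rw [e2]
    exact h2
  have hle1 : ∀ (t m : ℕ) (η : Env), ∑ z ∈ cell b t, pf μ η t m z ≤ 1 := by
    intro t m η
    rw [← pf_sum (μ := μ) η t m]
    exact Finset.sum_le_sum_of_subset_of_nonneg (fun z hz => (mem_cell.1 hz).1)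
      fun z _ _ => pf_nonneg _ _ _ _
  have hint : ∀ t : ℕ, ∀ z : ℤ, t ∈ Finset.Icc 1 N → z ∈ cell b t →
      Integrable (fun η => pf μ η t (N - t) z) (law μ) := by
    intro t z ht hz
    rw [Finset.mem_Icc] at ht
    have e1 : t + (N - t) = N := by omega
    refine Integrable.of_bound (C := 1) (measurable_pf _ _ _).aestronglyMeasurable
      (Filter.Eventually.of_forall fun η => ?_)
    have h2 := (siteForm_pf (μ := μ) (m := N - t) ht.1 (mem_cell.1 hz).1).mem η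
    rw [Real.norm_eq_abs, abs_of_nonneg h2.1]
    exact h2.2
  have hM : ∀ η, ∑ p ∈ tube b N, pq μ N p η ≤ N := by
    intro η
    rw [sum_tube b N fun p => pq μ N p η]
    calc ∑ t ∈ Finset.Icc 1 N, ∑ z ∈ cell b t, pq μ N ((t : ℤ), z) η
        ≤ ∑ _t ∈ Finset.Icc 1 N, (1 : ℝ) := by
          refine Finset.sum_le_sum fun t _ => ?_
          simp only [pq_nat]
          exact hle1 t (N - t) η
      _ = N := by
          rw [Finset.sum_const, Nat.card_Icc, nsmul_eq_mul]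
          simp
  have hcfi : Integrable (fun η => cf μ b η 0 N / Real.exp (V μ 0 η 0 N)) (law μ) := by
    refine Integrable.of_bound (C := 1) ?_ (Filter.Eventually.of_forall fun η => ?_)
    · exact ((Finset.measurable_sum _ fun y _ => measurable_WR _ 0 N y).div
        (Real.measurable_exp.comp hF)).aestronglyMeasurable
    · have h1 : 0 ≤ cf μ b η 0 N := Finset.sum_nonneg fun _ _ => WR_nonneg _ _ _ _ _
      have h2 : cf μ b η 0 N ≤ Real.exp (V μ 0 η 0 N) := Pool.Agent.W_7d29a1_SL.ZR_le _ η 0 N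
      rw [Real.norm_eq_abs, abs_of_nonneg (div_nonneg h1 (Real.exp_pos _).le)]
      exact div_le_one_of_le₀ h2 (Real.exp_pos _).le
  have hsum : 7 / 8 * (N : ℝ) ≤ ∑ p ∈ tube b N, ∫ η, pq μ N p η ∂(law μ) := by
    rw [sum_tube b N fun p => ∫ η, pq μ N p η ∂(law μ)]
    calc 7 / 8 * (N : ℝ) = ∑ _t ∈ Finset.Icc 1 N, (7 / 8 : ℝ) := by
          rw [Finset.sum_const, Nat.card_Icc, nsmul_eq_mul]
          simp
          ring
      _ ≤ ∑ t ∈ Finset.Icc 1 N, ∑ z ∈ cell b t, ∫ η, pq μ N ((t : ℤ), z) η ∂(law μ) := by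
          refine Finset.sum_le_sum fun t ht => ?_
          simp only [pq_nat]
          rw [← integral_finsetSum _ fun z hz => hint t z ht hz]
          rw [Finset.mem_Icc] at ht
          refine hconf.trans (integral_mono hcfi (integrable_finsetSum _ fun z hz =>
            hint t z (Finset.mem_Icc.2 ht) hz) fun η => ?_)
          have h1 := cf_le_pf (μ := μ) η ht.1 (N - t) b
          rw [show t + (N - t) = N by omega] at h1
          exact h1
  have hN0 : (0 : ℝ) ≤ N := Nat.cast_nonneg N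
  rw [← hPd] at hP
  have hNP : (N : ℝ) * P ≤ N * (1 / 16) := mul_le_mul_of_nonneg_left hP hN0
  have hX : N / 2 ≤ 7 / 8 * (∑ p ∈ tube b N, ∫ η, pq μ N p η ∂(law μ)) - N * P := by
    linarith
  have h3 := H (tube b N) _ (pq μ N) hF hπ hS N m r hr0.le hM (by
    rw [← hPd]
    linarith)
  rw [← hPd] at h3
  have h4 : (c * (N / 2)) ^ 2 ≤ ((tube b N).card : ℝ) * (r ^ 2 + (r + K) ^ 2 * P) := by
    refine le_trans ?_ h3
    exact pow_le_pow_left₀ (by positivity) (mul_le_mul_of_nonneg_left hX hc.le) 2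
  have h5 : r ^ 2 + (r + K) ^ 2 * P ≤ 18 * (v + K ^ 2 / 144) := by
    have h6 := mul_le_mul_of_nonneg_left hP (sq_nonneg (r + K))
    have h7 : (r + K) ^ 2 ≤ 2 * r ^ 2 + 2 * K ^ 2 := by nlinarith [sq_nonneg (r - K)]
    rw [hr2] at h7 ⊢
    nlinarith
  have h6 : (c * (N / 2)) ^ 2 ≤ (N * (2 * |b| + 1)) * (18 * (v + K ^ 2 / 144)) := by
    refine h4.trans (mul_le_mul (card_tube b N) h5 (by positivity) (by positivity))
  rcases Nat.eq_zero_or_pos N with hN | hN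
  · rw [hN]
    simp only [Nat.cast_zero, mul_zero]
    positivity
  · have hN1 : (0 : ℝ) < N := by exact_mod_cast hN
    have h7 : N * (c ^ 2 / 72 * N) ≤ N * ((2 * |b| + 1) * (v + K ^ 2 / 144)) := by
      have h8 : (c * ((N : ℝ) / 2)) ^ 2 = 18 * (N * (c ^ 2 / 72 * N)) := by ring
      rw [h8] at h6
      have h9 : (N * (2 * |b| + 1)) * (18 * (v + K ^ 2 / 144)) = 18 * (N * ((2 * |b| + 1) * (v + K ^ 2 / 144))) := by ring
      rw [h9] at h6
      linarith
    exact le_of_mul_le_mul_left h7 hN1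

/-- The polymer stays in the strip of half width `R w_n`. -/
theorem conf_wd (h : In μ c C n₀) (ht : ∃ A : ℝ, ∀ n : ℕ, 1 ≤ n → ∀ u : ℝ, 1 ≤ u →
    (law μ).real {η | V μ 0 η 0 n ≤ -(u * EE μ n)} ≤ A / u ^ 1) {ε : ℝ} (hε : 0 < ε) :
    ∃ R : ℝ, 1 ≤ R ∧ ∃ n₁ : ℕ, ∀ n, n₁ ≤ n →
      1 - ε ≤ ∫ η, cf μ (R * wd μ n) η 0 n / Real.exp (V μ 0 η 0 n) ∂(law μ) := by
  obtain ⟨A, c', hc', n1, H⟩ := exitS h 1 ht
  obtain ⟨R, hR⟩ : ∃ R : ℝ, R = max (max 1 (2 * A / ε)) (2 / (c' * ε)) := ⟨_, rfl⟩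
  have hR1 : 1 ≤ R := by rw [hR]; exact (le_max_left _ _).trans (le_max_left _ _)
  have hRA : 2 * A / ε ≤ R := by rw [hR]; exact (le_max_right _ _).trans (le_max_left _ _)
  have hRc : 2 / (c' * ε) ≤ R := by rw [hR]; exact le_max_right _ _
  refine ⟨R, hR1, n1, fun n hn => ?_⟩
  have hE := one_le_EE (μ := μ) n
  have h1 := H n hn R hR1
  rw [pow_one] at h1
  have hR0 : 0 < R := lt_of_lt_of_le one_pos hR1
  have h2 : A / R ≤ ε / 2 := by
    rw [div_le_iff₀ hR0]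
    rw [div_le_iff₀ hε] at hRA
    linarith
  have h3 : Real.exp (-(c' * R * EE μ n)) ≤ ε / 2 := by
    have h4 : 2 / ε ≤ c' * R * EE μ n := by
      rw [div_le_iff₀ (by positivity)] at hRc
      rw [div_le_iff₀ hε]
      have h5 : 2 ≤ c' * R * ε := by linarith
      have h6 : c' * R * ε * 1 ≤ c' * R * ε * EE μ n := mul_le_mul_of_nonneg_left hE (by positivity)
      linarith
    have h7 : 2 / ε ≤ Real.exp (c' * R * EE μ n) := by
      have := Real.add_one_le_exp (c' * R * EE μ n)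
      linarith
    rw [Real.exp_neg]
    have h8 := inv_anti₀ (by positivity : 0 < 2 / ε) h7
    rwa [inv_div] at h8
  obtain ⟨B, hB⟩ : ∃ B : Set Env, B = {η | Real.exp (-(c' * R * EE μ n)) * Real.exp (V μ 0 η 0 n) ≤
    Real.exp (V μ 0 η 0 n) - cf μ (R * wd μ n) η 0 n} := ⟨_, rfl⟩
  have hF : Measurable fun η => V μ 0 η 0 n := measurable_V 0 n
  have hcf : Measurable fun η => cf μ (R * wd μ n) η 0 n := Finset.measurable_sum _ fun y _ => measurable_WR _ 0 n y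
  have hBm : MeasurableSet B := by
    rw [hB]
    exact measurableSet_le ((Real.measurable_exp.comp hF).const_mul _) ((Real.measurable_exp.comp hF).sub hcf)
  rw [← hB] at h1
  have h9 : ∀ η, (1 - ε / 2) - B.indicator (fun _ => (1 : ℝ)) η ≤
      cf μ (R * wd μ n) η 0 n / Real.exp (V μ 0 η 0 n) := by
    intro η
    have hc0 : 0 ≤ cf μ (R * wd μ n) η 0 n := Finset.sum_nonneg fun _ _ => WR_nonneg _ _ _ _ _
    have he := Real.exp_pos (V μ 0 η 0 n)
    by_cases hη : η ∈ B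
    · rw [Set.indicator_of_mem hη]
      have := div_nonneg hc0 he.le
      linarith
    · rw [Set.indicator_of_notMem hη, sub_zero]
      rw [hB, Set.mem_ofPred_eq, not_le] at hη
      rw [le_div_iff₀ he]
      have h10 := mul_le_mul_of_nonneg_right h3 he.le
      linarith
  have hcfi : Integrable (fun η => cf μ (R * wd μ n) η 0 n / Real.exp (V μ 0 η 0 n)) (law μ) := by
    refine Integrable.of_bound (C := 1) (hcf.div (Real.measurable_exp.comp hF)).aestronglyMeasurable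
      (Filter.Eventually.of_forall fun η => ?_)
    have h1 : 0 ≤ cf μ (R * wd μ n) η 0 n := Finset.sum_nonneg fun _ _ => WR_nonneg _ _ _ _ _
    have h2 : cf μ (R * wd μ n) η 0 n ≤ Real.exp (V μ 0 η 0 n) := Pool.Agent.W_7d29a1_SL.ZR_le _ η 0 n
    rw [Real.norm_eq_abs, abs_of_nonneg (div_nonneg h1 (Real.exp_pos _).le)]
    exact div_le_one_of_le₀ h2 (Real.exp_pos _).le
  have h11 := integral_mono ((integrable_const (1 - ε / 2)).sub ((integrable_const (1 : ℝ)).indicator hBm)) hcfi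
    fun η => h9 η
  have h12 : ∫ η, ((1 - ε / 2) - B.indicator (fun _ => (1 : ℝ)) η) ∂(law μ) = (1 - ε / 2) - (law μ).real B := by
    rw [integral_sub (integrable_const _) ((integrable_const (1 : ℝ)).indicator hBm), integral_indicator_const _ hBm]
    simp
  have h13 : (1 - ε / 2) - (law μ).real B ≤
      ∫ η, cf μ (R * wd μ n) η 0 n / Real.exp (V μ 0 η 0 n) ∂(law μ) := by
    rw [← h12]
    exact h11
  linarith

/-- **The variance is at least of the order `n / w_n`.** -/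
theorem var_ge_w (h : In μ c C n₀) (ht : ∃ A : ℝ, ∀ n : ℕ, 1 ≤ n → ∀ u : ℝ, 1 ≤ u →
    (law μ).real {η | V μ 0 η 0 n ≤ -(u * EE μ n)} ≤ A / u ^ 1) :
    ∃ a : ℝ, 0 < a ∧ ∃ n₁ : ℕ, ∀ n, n₁ ≤ n → a * n ≤ wd μ n * Var[fun η => V μ 0 η 0 n; law μ] := by
  obtain ⟨R, hR1, n1, hR⟩ := conf_wd h ht (ε := 1 / 8) (by norm_num)
  obtain ⟨a, K, ha, hK, H⟩ := np_var h.em h.nd
  obtain ⟨a0, ha0, hV⟩ := var_ge h
  obtain ⟨n2, hw⟩ := eventually_atTop.1 ((wd_tendsto h).eventually_ge_atTop 1)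
  have hR0 : 0 < R := lt_of_lt_of_le one_pos hR1
  refine ⟨a / ((2 * R + 1) * (1 + K / a0)), by positivity, n1 + n2 + 1, fun n hn => ?_⟩
  have hw1 : 1 ≤ wd μ n := hw n (by omega)
  have hE := one_le_EE (μ := μ) n
  have hv := hV n (by omega)
  have hva : a0 ≤ Var[fun η => V μ 0 η 0 n; law μ] := by
    refine le_trans ?_ hv
    have : (1 : ℝ) ≤ EE μ n ^ 2 := one_le_pow₀ hE
    nlinarith
  obtain ⟨v, hvd⟩ : ∃ v, v = Var[fun η => V μ 0 η 0 n; law μ] := ⟨_, rfl⟩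
  have h1 := H n (R * wd μ n) (by have := hR n (by omega); linarith) (by linarith)
  rw [← hvd] at h1 hva ⊢
  have hv0 : 0 < v := by linarith
  have h2 : v + K ≤ (1 + K / a0) * v := by
    have h3 : K ≤ K / a0 * v := by
      rw [div_mul_eq_mul_div, le_div_iff₀ ha0]
      exact mul_le_mul_of_nonneg_left hva hK
    linarith
  have h4 : 2 * |R * wd μ n| + 1 ≤ (2 * R + 1) * wd μ n := by
    rw [abs_of_nonneg (by positivity)]
    linarith
  rw [div_mul_eq_mul_div, div_le_iff₀ (by positivity)]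
  calc a * n ≤ (2 * |R * wd μ n| + 1) * (v + K) := h1
    _ ≤ ((2 * R + 1) * wd μ n) * ((1 + K / a0) * v) :=
        mul_le_mul h4 h2 (by positivity) (by positivity)
    _ = _ := by ring

end Pool.Agent.W_7d29a1_SR
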