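import Pool.Agent.W_7d29a1_SR.Scale
import Pool.Agent.W_7d29a1_h95g.TubeDet
import Pool.Agent.W_7d29a1_L.LsA1

/-!
THEOREM (SR) (hand-in ScalingLaw), proofs row 626, section (S5): the paths which leave the strip of half width
`R wd n`. A path which leaves it meets one of the lines `t / 2 + K`, `t / 2 - K` with `K = floor (R wd n)`
(`tube_split`); its weight up to the line is at most `exp (T (h) - h (K - 1/2))` with the tilt `h = c EE n / wd n`, the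
weight after the line is at most `exp` of the luck of a site of the line: four box maxima. Their exponential moments are
`In.luck`, and `log (2 n)` is at most `2 C EE n`.
-/

namespace Pool.Agent.W_7d29a1_SR

open MeasureTheory ProbabilityTheory Filter Topology
open Pool.Agent.W_7d29a1_F Pool.Agent.W_7d29a1_h4g Pool.Agent.W_7d29a1_G Pool.Agent.W_7d29a1_L
open Pool.Agent.W_7d29a1_h95g

private lemma ex_T0 {μ : Measure ℝ} (η : Env) (a : Pt) (m : ℕ) : T μ 0 (1 / 2) 0 η a m = V μ 0 η a m := by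
  unfold T kap
  simp

private lemma ex_W {μ : Measure ℝ} {h : ℝ} (η : Env) (a : Pt) (n : ℕ) (y : ℤ) :
    W μ 0 η a n y ≤ Real.exp (T μ 0 (1 / 2) h η a n - h * ((y : ℝ) - 1 / 2 * n)) := by
  by_cases hy : 0 ≤ y ∧ y ≤ n
  · have h1 := exp_T (μ := μ) (s := 0) (v := 1 / 2) (h := h) η a n
    have h2 : W μ 0 η a n y * Real.exp (h * ((y : ℝ) - 1 / 2 * n)) ≤ Real.exp (T μ 0 (1 / 2) h η a n) := by
      rw [h1]
      exact Finset.single_le_sum (f := fun y : ℤ => W μ 0 η a n y * Real.exp (h * ((y : ℝ) - 1 / 2 * n)))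
        (fun y _ => mul_nonneg (W_nonneg _ _ _ _) (Real.exp_nonneg _)) (Finset.mem_Icc.2 hy)
    rw [Real.exp_sub, le_div_iff₀ (Real.exp_pos _)]
    exact h2
  · rw [W_eq_zero η a hy]
    exact (Real.exp_pos _).le

/-- The exits through one line. -/
private lemma ex_line {μ : Measure ℝ} (l : ℤ → ℤ) (η : Env) (n : ℕ) {B : ℝ}
    (hB : ∀ k : ℕ, k < n → W μ 0 η 0 (k + 1) (l ((k + 1 : ℕ) : ℤ)) *
      Real.exp (V μ 0 η (((k + 1 : ℕ) : ℤ), l ((k + 1 : ℕ) : ℤ)) (n - (k + 1))) ≤ B) :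
    ∑ y ∈ Finset.Icc (0 : ℤ) n, ∑ k ∈ Finset.range n, W μ 0 η 0 (k + 1) (l ((k + 1 : ℕ) : ℤ)) *
      W μ 0 η (((k + 1 : ℕ) : ℤ), l ((k + 1 : ℕ) : ℤ)) (n - (k + 1)) (y - l ((k + 1 : ℕ) : ℤ)) ≤ n * B := by
  rw [Finset.sum_comm]
  have h1 : ∀ k ∈ Finset.range n, ∑ y ∈ Finset.Icc (0 : ℤ) n, W μ 0 η 0 (k + 1) (l ((k + 1 : ℕ) : ℤ)) *
      W μ 0 η (((k + 1 : ℕ) : ℤ), l ((k + 1 : ℕ) : ℤ)) (n - (k + 1)) (y - l ((k + 1 : ℕ) : ℤ)) ≤ B := by
    intro k hk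
    rw [Finset.mem_range] at hk
    rw [← Finset.mul_sum]
    refine le_trans (mul_le_mul_of_nonneg_left ?_ (W_nonneg _ _ _ _)) (hB k hk)
    have h2 := WS_le_exp_V (μ := μ) (s := 0) η (((k + 1 : ℕ) : ℤ), l ((k + 1 : ℕ) : ℤ)) (n - (k + 1))
      ((Finset.Icc (0 : ℤ) n).map (Equiv.subRight (l ((k + 1 : ℕ) : ℤ))).toEmbedding)
    unfold WS at h2
    rw [Finset.sum_map] at h2
    simpa using h2
  calc ∑ k ∈ Finset.range n, _ ≤ ∑ k ∈ Finset.range n, B := Finset.sum_le_sum h1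
    _ = n * B := by rw [Finset.sum_const, Finset.card_range, nsmul_eq_mul]

/-- THE DETERMINISTIC PART: the paths which leave the strip, against four box maxima. -/
private lemma ex_det {μ : Measure ℝ} [IsProbabilityMeasure μ] {h w b ρ : ℝ} {K n : ℕ} (hh : 0 ≤ h) (hw : 1 ≤ w)
    (hK : 1 ≤ K) (hρ : (K : ℝ) ≤ ρ) (η : Env)
    (m1 : Mh μ 0 (1 / 2) h w (-(w / 2)) (4 * n) η ≤ b)
    (m2 : Mh μ 0 (1 / 2) (-h) w (-(w / 2)) (4 * n) η ≤ b)
    (m3 : Mh μ 0 (1 / 2) 0 w (K - 1 / 2 - w / 4) (4 * n) η ≤ b)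
    (m4 : Mh μ 0 (1 / 2) 0 w (-K - 1 / 2 - w / 4) (4 * n) η ≤ b) :
    Real.exp (V μ 0 η 0 n) - ∑ y ∈ Finset.Icc (0 : ℤ) n,
      WR μ 0 {p : Pt | |2 * ((p.2 : ℝ) - (((0 : Pt).2 : ℤ) : ℝ)) - ((p.1 : ℝ) - (((0 : Pt).1 : ℤ) : ℝ))| ≤ 2 * ρ} η 0 n y ≤
      2 * n * Real.exp (2 * b - h * (K - 1 / 2)) := by
  obtain ⟨lp, hlp⟩ : ∃ lp : ℤ → ℤ, lp = fun t : ℤ => t / 2 + (K : ℤ) := ⟨_, rfl⟩
  obtain ⟨lm, hlm⟩ : ∃ lm : ℤ → ℤ, lm = fun t : ℤ => t / 2 - (K : ℤ) := ⟨_, rfl⟩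
  have hp : IsLine lp := ⟨fun t => by rw [hlp]; dsimp only; omega, fun t => by rw [hlp]; dsimp only; omega⟩
  have hm : IsLine lm := ⟨fun t => by rw [hlm]; dsimp only; omega, fun t => by rw [hlm]; dsimp only; omega⟩
  have hp0 : 0 < lp 0 := by rw [hlp]; dsimp only; omega
  have hm0 : lm 0 < 0 := by rw [hlm]; dsimp only; omega
  -- positions of the lines
  have hfl : ∀ t : ℤ, (t : ℝ) / 2 - 1 / 2 ≤ ((t / 2 : ℤ) : ℝ) ∧ ((t / 2 : ℤ) : ℝ) ≤ (t : ℝ) / 2 := by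
    intro t
    have h1 : t - 1 ≤ 2 * (t / 2) := by omega
    have h2 : 2 * (t / 2) ≤ t := by omega
    have h1' : (t : ℝ) - 1 ≤ 2 * ((t / 2 : ℤ) : ℝ) := by exact_mod_cast h1
    have h2' : 2 * ((t / 2 : ℤ) : ℝ) ≤ (t : ℝ) := by exact_mod_cast h2
    constructor <;> linarith
  have hpR : ∀ t : ℤ, (t : ℝ) / 2 + (K - 1 / 2) ≤ (lp t : ℝ) ∧ (lp t : ℝ) ≤ (t : ℝ) / 2 + K := by
    intro t
    have := hfl t
    rw [hlp]
    push_cast
    constructor <;> linarith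
  have hmR : ∀ t : ℤ, (t : ℝ) / 2 - (K + 1 / 2) ≤ (lm t : ℝ) ∧ (lm t : ℝ) ≤ (t : ℝ) / 2 - K := by
    intro t
    have := hfl t
    rw [hlm]
    push_cast
    constructor <;> linarith
  -- the region
  have hsub : Tb lm lp ⊆ {p : Pt | |2 * ((p.2 : ℝ) - (((0 : Pt).2 : ℤ) : ℝ)) - ((p.1 : ℝ) - (((0 : Pt).1 : ℤ) : ℝ))| ≤ 2 * ρ} := by
    rintro ⟨t, x⟩ hx
    obtain ⟨h1, h2⟩ := hx
    have e1 : lp t = t / 2 + (K : ℤ) := by rw [hlp]
    have e2 : lm t = t / 2 - (K : ℤ) := by rw [hlm]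
    change lm t < x at h1
    change x < lp t at h2
    rw [e2] at h1
    rw [e1] at h2
    have h3 : 2 * x - t ≤ 2 * K := by omega
    have h4 : -(2 * K) ≤ 2 * x - t := by omega
    have h3' : 2 * (x : ℝ) - t ≤ 2 * K := by exact_mod_cast h3
    have h4' : -(2 * (K : ℝ)) ≤ 2 * (x : ℝ) - t := by exact_mod_cast h4
    simp only [Set.mem_ofPred_eq, Prod.fst_zero, Prod.snd_zero, Int.cast_zero, sub_zero]
    rw [abs_le]
    constructor <;> linarith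
  -- the four lucks
  have hv0 : (0 : ℝ) ≤ 1 / 2 := by norm_num
  have hv1 : (1 / 2 : ℝ) ≤ 1 := by norm_num
  have l1 : ∀ k : ℕ, k < n → T μ 0 (1 / 2) h η 0 (k + 1) ≤ b := by
    intro k hk
    refine le_trans ?_ m1
    refine le_Mh (μ := μ) (s := 0) (v := 1 / 2) (h := h) (w := w) (z := -(w / 2)) (n := 4 * n) η
      (q := ((0, 0), k + 1)) ((mem_Bx hv0 hv1).2 ⟨by dsimp only; omega, ?_, ?_⟩)
    · push_cast
      linarith
    · push_cast
      linarith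
  have l2 : ∀ k : ℕ, k < n → T μ 0 (1 / 2) (-h) η 0 (k + 1) ≤ b := by
    intro k hk
    refine le_trans ?_ m2
    refine le_Mh (μ := μ) (s := 0) (v := 1 / 2) (h := -h) (w := w) (z := -(w / 2)) (n := 4 * n) η
      (q := ((0, 0), k + 1)) ((mem_Bx hv0 hv1).2 ⟨by dsimp only; omega, ?_, ?_⟩)
    · push_cast
      linarith
    · push_cast
      linarith
  have l3 : ∀ k : ℕ, k < n → V μ 0 η (((k + 1 : ℕ) : ℤ), lp ((k + 1 : ℕ) : ℤ)) (n - (k + 1)) ≤ b := by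
    intro k hk
    rw [← ex_T0]
    refine le_trans ?_ m3
    have hx := hpR ((k + 1 : ℕ) : ℤ)
    have hcast : ((((k + 1 : ℕ) : ℤ)) : ℝ) = ((k + 1 : ℕ) : ℝ) := by push_cast; ring
    rw [hcast] at hx
    refine le_Mh (μ := μ) (s := 0) (v := 1 / 2) (h := 0) (w := w) (z := K - 1 / 2 - w / 4) (n := 4 * n) η
      (q := ((k + 1, lp ((k + 1 : ℕ) : ℤ)), n - (k + 1))) ((mem_Bx hv0 hv1).2 ⟨by dsimp only; omega, ?_, ?_⟩)
    · dsimp only
      linarith [hx.1]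
    · dsimp only
      linarith [hx.2]
  have l4 : ∀ k : ℕ, k < n → V μ 0 η (((k + 1 : ℕ) : ℤ), lm ((k + 1 : ℕ) : ℤ)) (n - (k + 1)) ≤ b := by
    intro k hk
    rw [← ex_T0]
    refine le_trans ?_ m4
    have hx := hmR ((k + 1 : ℕ) : ℤ)
    have hcast : ((((k + 1 : ℕ) : ℤ)) : ℝ) = ((k + 1 : ℕ) : ℝ) := by push_cast; ring
    rw [hcast] at hx
    refine le_Mh (μ := μ) (s := 0) (v := 1 / 2) (h := 0) (w := w) (z := -K - 1 / 2 - w / 4) (n := 4 * n) η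
      (q := ((k + 1, lm ((k + 1 : ℕ) : ℤ)), n - (k + 1))) ((mem_Bx hv0 hv1).2 ⟨by dsimp only; omega, ?_, ?_⟩)
    · dsimp only
      linarith [hx.1]
    · dsimp only
      linarith [hx.2]
  -- the two lines
  have q1 := ex_line (μ := μ) lp η n (B := Real.exp (2 * b - h * (K - 1 / 2))) (fun k hk => by
    have hx := hpR ((k + 1 : ℕ) : ℤ)
    have hcast : ((((k + 1 : ℕ) : ℤ)) : ℝ) = ((k + 1 : ℕ) : ℝ) := by push_cast; ring
    rw [hcast] at hx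
    have h1 := ex_W (μ := μ) (h := h) η 0 (k + 1) (lp ((k + 1 : ℕ) : ℤ))
    have h2 : Real.exp (T μ 0 (1 / 2) h η 0 (k + 1) - h * ((lp ((k + 1 : ℕ) : ℤ) : ℝ) - 1 / 2 * ((k + 1 : ℕ) : ℝ))) ≤
        Real.exp (b - h * (K - 1 / 2)) := by
      refine Real.exp_le_exp.2 ?_
      have h3 : h * (K - 1 / 2) ≤ h * ((lp ((k + 1 : ℕ) : ℤ) : ℝ) - 1 / 2 * ((k + 1 : ℕ) : ℝ)) :=
        mul_le_mul_of_nonneg_left (by linarith [hx.1]) hh
      linarith [l1 k hk]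
    have h3 := Real.exp_le_exp.2 (l3 k hk)
    calc _ ≤ Real.exp (b - h * (K - 1 / 2)) * Real.exp b :=
          mul_le_mul (h1.trans h2) h3 (Real.exp_nonneg _) (Real.exp_nonneg _)
      _ = Real.exp (2 * b - h * (K - 1 / 2)) := by rw [← Real.exp_add]; congr 1; ring)
  have q2 := ex_line (μ := μ) lm η n (B := Real.exp (2 * b - h * (K - 1 / 2))) (fun k hk => by
    have hx := hmR ((k + 1 : ℕ) : ℤ)
    have hcast : ((((k + 1 : ℕ) : ℤ)) : ℝ) = ((k + 1 : ℕ) : ℝ) := by push_cast; ring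
    rw [hcast] at hx
    have h1 := ex_W (μ := μ) (h := -h) η 0 (k + 1) (lm ((k + 1 : ℕ) : ℤ))
    have h2 : Real.exp (T μ 0 (1 / 2) (-h) η 0 (k + 1) - -h * ((lm ((k + 1 : ℕ) : ℤ) : ℝ) - 1 / 2 * ((k + 1 : ℕ) : ℝ))) ≤
        Real.exp (b - h * (K - 1 / 2)) := by
      refine Real.exp_le_exp.2 ?_
      have h3 : h * (K - 1 / 2) ≤ h * (1 / 2 * ((k + 1 : ℕ) : ℝ) - (lm ((k + 1 : ℕ) : ℤ) : ℝ)) :=
        mul_le_mul_of_nonneg_left (by linarith [hx.2]) hh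
      nlinarith [l2 k hk]
    have h3 := Real.exp_le_exp.2 (l4 k hk)
    calc _ ≤ Real.exp (b - h * (K - 1 / 2)) * Real.exp b :=
          mul_le_mul (h1.trans h2) h3 (Real.exp_nonneg _) (Real.exp_nonneg _)
      _ = Real.exp (2 * b - h * (K - 1 / 2)) := by rw [← Real.exp_add]; congr 1; ring)
  have hsum : Real.exp (V μ 0 η 0 n) ≤ ∑ y ∈ Finset.Icc (0 : ℤ) n, (WR μ 0 (Tb lm lp) η 0 n y +
      (∑ k ∈ Finset.range n, W μ 0 η 0 (k + 1) (lp ((k + 1 : ℕ) : ℤ)) *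
        W μ 0 η (((k + 1 : ℕ) : ℤ), lp ((k + 1 : ℕ) : ℤ)) (n - (k + 1)) (y - lp ((k + 1 : ℕ) : ℤ))) +
      ∑ k ∈ Finset.range n, W μ 0 η 0 (k + 1) (lm ((k + 1 : ℕ) : ℤ)) *
        W μ 0 η (((k + 1 : ℕ) : ℤ), lm ((k + 1 : ℕ) : ℤ)) (n - (k + 1)) (y - lm ((k + 1 : ℕ) : ℤ))) := by
    rw [exp_V]
    unfold WS
    exact Finset.sum_le_sum fun y _ => tube_split (μ := μ) (s := 0) hm hp hm0 hp0 η n y
  rw [Finset.sum_add_distrib, Finset.sum_add_distrib] at hsum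
  have hreg : ∑ y ∈ Finset.Icc (0 : ℤ) n, WR μ 0 (Tb lm lp) η 0 n y ≤ ∑ y ∈ Finset.Icc (0 : ℤ) n,
      WR μ 0 {p : Pt | |2 * ((p.2 : ℝ) - (((0 : Pt).2 : ℤ) : ℝ)) - ((p.1 : ℝ) - (((0 : Pt).1 : ℤ) : ℝ))| ≤ 2 * ρ} η 0 n y := by
    refine Finset.sum_le_sum fun y _ => ?_
    rw [WR_def', WR_def']
    exact mul_le_mul_of_nonneg_left (Zr_mono hsub η 0 n y) (Real.exp_nonneg _)
  linarith

private lemma ex_markov {μ : Measure ℝ} [IsProbabilityMeasure μ] {c C : ℝ} {n₀ : ℕ} (h : In μ c C n₀) {n : ℕ}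
    (hn : n₀ ≤ n) {t z b : ℝ} (ht : |t| * wd μ n ≤ c * EE μ n) :
    (law μ).real {η | b < Mh μ 0 (1 / 2) t (wd μ n) z (4 * n) η} ≤ C * Real.exp (-(b / (C * EE μ n))) := by
  have hE : 0 < EE μ n := lt_of_lt_of_le one_pos (one_le_EE n)
  have hC : 0 < C := lt_of_lt_of_le one_pos h.C1
  have hCE : 0 < C * EE μ n := mul_pos hC hE
  have hint : Integrable (fun η : Env => Real.exp (Mh μ 0 (1 / 2) t (wd μ n) z (4 * n) η / (C * EE μ n))) (law μ) := by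
    have h1 := ((Sub_Mh (μ := μ) (s := 0) (v := 1 / 2) (h := t) (w := wd μ n) (z := z) (n := 4 * n)).const_mul
      (C * EE μ n)⁻¹).exp_int h.em
    refine h1.congr (Eventually.of_forall fun η => ?_)
    show Real.exp ((C * EE μ n)⁻¹ * Mh μ 0 (1 / 2) t (wd μ n) z (4 * n) η) =
      Real.exp (Mh μ 0 (1 / 2) t (wd μ n) z (4 * n) η / (C * EE μ n))
    congr 1
    ring
  have h1 := mul_meas_ge_le_integral_of_nonneg (μ := law μ)
    (Eventually.of_forall fun η => (Real.exp_pos (Mh μ 0 (1 / 2) t (wd μ n) z (4 * n) η / (C * EE μ n))).le) hint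
    (Real.exp (b / (C * EE μ n)))
  have h2 : (law μ).real {η | b < Mh μ 0 (1 / 2) t (wd μ n) z (4 * n) η} ≤
      (law μ).real {η | Real.exp (b / (C * EE μ n)) ≤ Real.exp (Mh μ 0 (1 / 2) t (wd μ n) z (4 * n) η / (C * EE μ n))} := by
    refine measureReal_mono (fun η hη => ?_)
    have hη' : b < Mh μ 0 (1 / 2) t (wd μ n) z (4 * n) η := hη
    show Real.exp (b / (C * EE μ n)) ≤ Real.exp (Mh μ 0 (1 / 2) t (wd μ n) z (4 * n) η / (C * EE μ n))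
    exact Real.exp_le_exp.2 (div_le_div_of_nonneg_right hη'.le hCE.le)
  have h3 : Real.exp (b / (C * EE μ n)) * (law μ).real {η | b < Mh μ 0 (1 / 2) t (wd μ n) z (4 * n) η} ≤ C :=
    (mul_le_mul_of_nonneg_left h2 (Real.exp_nonneg _)).trans (h1.trans (h.luck n hn t z ht))
  rw [Real.exp_neg, ← div_eq_mul_inv, le_div_iff₀ (Real.exp_pos _), mul_comm]
  exact h3

private lemma ex_exp {x : ℝ} (hx : 0 < x) (q : ℕ) : Real.exp (-x) ≤ (q.factorial : ℝ) / x ^ q := by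
  have h1 := Real.pow_div_factorial_le_exp x hx.le q
  have hf : (0 : ℝ) < (q.factorial : ℝ) := by exact_mod_cast q.factorial_pos
  have hx' : 0 < x ^ q := pow_pos hx q
  rw [div_le_iff₀ hf] at h1
  rw [Real.exp_neg, le_div_iff₀ hx', inv_mul_le_iff₀ (Real.exp_pos _)]
  exact h1

variable {μ : Measure ℝ} [IsProbabilityMeasure μ] {c C : ℝ} {n₀ : ℕ}

/-- (S5) for `R ≥ R0`: the exit probability against the luck moments and the tail of `V`. -/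
theorem exit_main (h : In μ c C n₀) : ∃ R0 : ℝ, 1 ≤ R0 ∧ (∀ R : ℝ, R0 ≤ R → 1 ≤ c * R / 16) ∧ ∃ n₁ : ℕ, 1 ≤ n₁ ∧
    ∀ n, n₁ ≤ n → ∀ R : ℝ, R0 ≤ R →
      (law μ).real {η | Real.exp (-(c / 64 * R * EE μ n)) * Real.exp (V μ 0 η 0 n) ≤
        Real.exp (V μ 0 η 0 n) - cf μ (R * wd μ n) η 0 n} ≤
      4 * (C * Real.exp (-(c * R / (16 * C)))) + (law μ).real {η | V μ 0 η 0 n ≤ -(c * R / 16 * EE μ n)} := by
  have hc0 := h.c0
  have hC1 := h.C1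
  have hC0 : 0 < C := lt_of_lt_of_le one_pos hC1
  obtain ⟨n₂, hn₂⟩ := eventually_atTop.1 ((wd_tendsto h).eventually_ge_atTop 4)
  obtain ⟨R0, hR0⟩ : ∃ R0 : ℝ, R0 = 128 * C / (3 * c) + 1 := ⟨_, rfl⟩
  have hR01 : 1 ≤ R0 := by
    rw [hR0]
    have : 0 ≤ 128 * C / (3 * c) := by positivity
    linarith
  refine ⟨R0, hR01, fun R hRR => ?_, max (max n₀ n₂) 1, le_max_right _ _, fun n hn R hRR => ?_⟩
  · have h4 : 128 * C / (3 * c) ≤ R := by linarith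
    have h5 : 128 * C ≤ R * (3 * c) := by rwa [div_le_iff₀ (by positivity)] at h4
    linarith
  have hR : 1 ≤ R := hR01.trans hRR
  have hn0 : n₀ ≤ n := (le_max_left _ _).trans ((le_max_left _ _).trans hn)
  have hn2 : n₂ ≤ n := (le_max_right _ _).trans ((le_max_left _ _).trans hn)
  have hn1 : 1 ≤ n := (le_max_right _ _).trans hn
  have hRp : 0 < R := lt_of_lt_of_le one_pos hR
  have hw4 : 4 ≤ wd μ n := hn₂ n hn2
  have hw0 : 0 < wd μ n := by linarith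
  have hE1 : 1 ≤ EE μ n := one_le_EE n
  have hE0 : 0 < EE μ n := by linarith
  -- the numbers
  obtain ⟨t, htd⟩ : ∃ t : ℝ, t = c * EE μ n / wd μ n := ⟨_, rfl⟩
  have ht0 : 0 ≤ t := by rw [htd]; positivity
  have htw : t * wd μ n = c * EE μ n := by rw [htd]; field_simp
  obtain ⟨K, hKd⟩ : ∃ K : ℕ, K = ⌊R * wd μ n⌋₊ := ⟨_, rfl⟩
  have hRw : 4 ≤ R * wd μ n := by nlinarith
  have hRw' : wd μ n ≤ R * wd μ n := le_mul_of_one_le_left hw0.le hR
  have hK1 : (K : ℝ) ≤ R * wd μ n := by rw [hKd]; exact Nat.floor_le (by positivity)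
  have hK2 : R * wd μ n < K + 1 := by rw [hKd]; exact Nat.lt_floor_add_one _
  have hK0 : 1 ≤ K := by
    have : (1 : ℝ) < (K : ℝ) := by linarith
    have h2 : 1 < K := by exact_mod_cast this
    omega
  have hK3 : R * wd μ n / 4 ≤ (K : ℝ) - 1 / 2 := by linarith
  obtain ⟨b, hb⟩ : ∃ b : ℝ, b = c * R * EE μ n / 16 := ⟨_, rfl⟩
  have htK : 4 * b ≤ t * (K - 1 / 2) := by
    have h1 := mul_le_mul_of_nonneg_left hK3 ht0
    have h2 : t * (R * wd μ n / 4) = R * (t * wd μ n) / 4 := by ring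
    rw [h2, htw] at h1
    rw [hb]
    linarith
  have hb0 : 0 < b := by rw [hb]; positivity
  -- the logarithm
  have hlog : (n : ℝ) * 2 ≤ Real.exp (2 * b - b - c / 64 * R * EE μ n) ∧ 2 * b - b - c / 64 * R * EE μ n = 3 / 4 * b := by
    have e1 : 2 * b - b - c / 64 * R * EE μ n = 3 / 4 * b := by rw [hb]; ring
    refine ⟨?_, e1⟩
    rw [e1]
    have hnp : (0 : ℝ) < n := by exact_mod_cast (by omega : 0 < n)
    have h1 : Real.log ((n : ℝ) * 2) ≤ 3 / 4 * b := by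
      rw [Real.log_mul hnp.ne' (by norm_num)]
      have h2 := h.lg n hn1
      have h3 : Real.log 2 ≤ 1 := by
        have := Real.log_two_lt_d9
        linarith
      have h4 : 128 * C / (3 * c) ≤ R := by linarith
      have h5 : 128 * C ≤ R * (3 * c) := by rwa [div_le_iff₀ (by positivity)] at h4
      have h6 : 128 * C * EE μ n ≤ R * (3 * c) * EE μ n := mul_le_mul_of_nonneg_right h5 hE0.le
      have h7 : 1 ≤ C * EE μ n := one_le_mul_of_one_le_of_one_le hC1 hE1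
      rw [hb]
      linarith
    calc (n : ℝ) * 2 = Real.exp (Real.log ((n : ℝ) * 2)) := (Real.exp_log (by positivity)).symm
      _ ≤ _ := Real.exp_le_exp.2 h1
  -- the event
  have habs1 : |t| * wd μ n ≤ c * EE μ n := by rw [abs_of_nonneg ht0, htw]
  have habs2 : |(-t)| * wd μ n ≤ c * EE μ n := by rw [abs_neg]; exact habs1
  have habs3 : |(0 : ℝ)| * wd μ n ≤ c * EE μ n := by rw [abs_zero, zero_mul]; positivity
  have hsub : {η : Env | Real.exp (-(c / 64 * R * EE μ n)) * Real.exp (V μ 0 η 0 n) ≤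
        Real.exp (V μ 0 η 0 n) - cf μ (R * wd μ n) η 0 n} ⊆
      ((({η : Env | b < Mh μ 0 (1 / 2) t (wd μ n) (-(wd μ n / 2)) (4 * n) η} ∪
        {η : Env | b < Mh μ 0 (1 / 2) (-t) (wd μ n) (-(wd μ n / 2)) (4 * n) η}) ∪
        {η : Env | b < Mh μ 0 (1 / 2) 0 (wd μ n) (K - 1 / 2 - wd μ n / 4) (4 * n) η}) ∪
        {η : Env | b < Mh μ 0 (1 / 2) 0 (wd μ n) (-K - 1 / 2 - wd μ n / 4) (4 * n) η}) ∪
        {η : Env | V μ 0 η 0 n ≤ -(c * R / 16 * EE μ n)} := by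
    intro η hη
    by_contra hcon
    simp only [Set.mem_union, Set.mem_ofPred_eq, not_or, not_lt, not_le] at hcon
    obtain ⟨⟨⟨⟨m1, m2⟩, m3⟩, m4⟩, m5⟩ := hcon
    have h1 := ex_det (μ := μ) ht0 (by linarith) hK0 hK1 η m1 m2 m3 m4
    have h2 : Real.exp (-(c / 64 * R * EE μ n)) * Real.exp (V μ 0 η 0 n) ≤
        Real.exp (V μ 0 η 0 n) - cf μ (R * wd μ n) η 0 n := hη
    have h3 := h2.trans h1
    have h4 : Real.exp (-(c / 64 * R * EE μ n)) * Real.exp (-b) < Real.exp (-(c / 64 * R * EE μ n)) * Real.exp (V μ 0 η 0 n) := by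
      refine mul_lt_mul_of_pos_left (Real.exp_lt_exp.2 ?_) (Real.exp_pos _)
      rw [hb]
      linarith
    have h5 : 2 * (n : ℝ) * Real.exp (2 * b - t * (K - 1 / 2)) ≤ Real.exp (-(c / 64 * R * EE μ n)) * Real.exp (-b) := by
      have h6 : Real.exp (2 * b - t * (K - 1 / 2)) ≤ Real.exp (-(2 * b)) := Real.exp_le_exp.2 (by linarith)
      calc 2 * (n : ℝ) * Real.exp (2 * b - t * (K - 1 / 2)) ≤ 2 * (n : ℝ) * Real.exp (-(2 * b)) :=
            mul_le_mul_of_nonneg_left h6 (by positivity)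
        _ = ((n : ℝ) * 2) * Real.exp (-(2 * b)) := by ring
        _ ≤ Real.exp (2 * b - b - c / 64 * R * EE μ n) * Real.exp (-(2 * b)) :=
            mul_le_mul_of_nonneg_right hlog.1 (Real.exp_nonneg _)
        _ = Real.exp (-(c / 64 * R * EE μ n)) * Real.exp (-b) := by
            rw [← Real.exp_add, ← Real.exp_add]
            congr 1
            ring
    linarith
  have hM : ∀ r z : ℝ, |r| * wd μ n ≤ c * EE μ n →
      (law μ).real {η : Env | b < Mh μ 0 (1 / 2) r (wd μ n) z (4 * n) η} ≤ C * Real.exp (-(c * R / (16 * C))) := by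
    intro r z hr
    have h1 := ex_markov h hn0 (z := z) (b := b) hr
    have e1 : b / (C * EE μ n) = c * R / (16 * C) := by
      rw [hb]
      field_simp
    rwa [e1] at h1
  have hall := measureReal_mono (μ := law μ) hsub
  have u1 := measureReal_union_le (μ := law μ) ((({η : Env | b < Mh μ 0 (1 / 2) t (wd μ n) (-(wd μ n / 2)) (4 * n) η} ∪
        {η : Env | b < Mh μ 0 (1 / 2) (-t) (wd μ n) (-(wd μ n / 2)) (4 * n) η}) ∪
        {η : Env | b < Mh μ 0 (1 / 2) 0 (wd μ n) (K - 1 / 2 - wd μ n / 4) (4 * n) η}) ∪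
        {η : Env | b < Mh μ 0 (1 / 2) 0 (wd μ n) (-K - 1 / 2 - wd μ n / 4) (4 * n) η})
        {η : Env | V μ 0 η 0 n ≤ -(c * R / 16 * EE μ n)}
  have u2 := measureReal_union_le (μ := law μ) (({η : Env | b < Mh μ 0 (1 / 2) t (wd μ n) (-(wd μ n / 2)) (4 * n) η} ∪
        {η : Env | b < Mh μ 0 (1 / 2) (-t) (wd μ n) (-(wd μ n / 2)) (4 * n) η}) ∪
        {η : Env | b < Mh μ 0 (1 / 2) 0 (wd μ n) (K - 1 / 2 - wd μ n / 4) (4 * n) η})
        {η : Env | b < Mh μ 0 (1 / 2) 0 (wd μ n) (-K - 1 / 2 - wd μ n / 4) (4 * n) η}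
  have u3 := measureReal_union_le (μ := law μ) ({η : Env | b < Mh μ 0 (1 / 2) t (wd μ n) (-(wd μ n / 2)) (4 * n) η} ∪
        {η : Env | b < Mh μ 0 (1 / 2) (-t) (wd μ n) (-(wd μ n / 2)) (4 * n) η})
        {η : Env | b < Mh μ 0 (1 / 2) 0 (wd μ n) (K - 1 / 2 - wd μ n / 4) (4 * n) η}
  have u4 := measureReal_union_le (μ := law μ) {η : Env | b < Mh μ 0 (1 / 2) t (wd μ n) (-(wd μ n / 2)) (4 * n) η}
        {η : Env | b < Mh μ 0 (1 / 2) (-t) (wd μ n) (-(wd μ n / 2)) (4 * n) η}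
  have v1 := hM t (-(wd μ n / 2)) habs1
  have v2 := hM (-t) (-(wd μ n / 2)) habs2
  have v3 := hM 0 (K - 1 / 2 - wd μ n / 4) habs3
  have v4 := hM 0 (-K - 1 / 2 - wd μ n / 4) habs3
  linarith

/-- (S5) EXIT. The hypothesis `ht` is `tail_V`. -/
theorem exitS (h : In μ c C n₀) (q : ℕ) (ht : ∃ A : ℝ, ∀ n : ℕ, 1 ≤ n → ∀ u : ℝ, 1 ≤ u →
      (law μ).real {η | V μ 0 η 0 n ≤ -(u * EE μ n)} ≤ A / u ^ q) :
    ∃ A c' : ℝ, 0 < c' ∧ ∃ n₁ : ℕ, ∀ n, n₁ ≤ n → ∀ R : ℝ, 1 ≤ R →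
      (law μ).real {η | Real.exp (-(c' * R * EE μ n)) * Real.exp (V μ 0 η 0 n) ≤
        Real.exp (V μ 0 η 0 n) - cf μ (R * wd μ n) η 0 n} ≤ A / R ^ q := by
  obtain ⟨At, hAt⟩ := ht
  have hc0 := h.c0
  have hC1 := h.C1
  have hC0 : 0 < C := lt_of_lt_of_le one_pos hC1
  obtain ⟨R0, hR01, hu, n₁, hn₁, hmain⟩ := exit_main h
  obtain ⟨F, hF⟩ : ∃ F : ℝ, F = 4 * (C * ((q.factorial : ℝ) * (16 * C / c) ^ q)) := ⟨_, rfl⟩
  have hF0 : 0 ≤ F := by rw [hF]; positivity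
  obtain ⟨G, hG⟩ : ∃ G : ℝ, G = |At| * (16 / c) ^ q := ⟨_, rfl⟩
  have hG0 : 0 ≤ G := by rw [hG]; positivity
  refine ⟨R0 ^ q + F + G, c / 64, by positivity, n₁, fun n hn R hR => ?_⟩
  have hn1 : 1 ≤ n := hn₁.trans hn
  have hRp : 0 < R := lt_of_lt_of_le one_pos hR
  have hRq : 0 < R ^ q := pow_pos hRp q
  rcases lt_or_ge R R0 with hRR | hRR
  · refine measureReal_le_one.trans ?_
    rw [le_div_iff₀ hRq, one_mul]
    have h1 : R ^ q ≤ R0 ^ q := pow_le_pow_left₀ hRp.le hRR.le q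
    linarith
  refine (hmain n hn R hRR).trans ?_
  have hM : C * Real.exp (-(c * R / (16 * C))) ≤ C * ((q.factorial : ℝ) * (16 * C / c) ^ q) / R ^ q := by
    have h1 := ex_exp (x := c * R / (16 * C)) (by positivity) q
    have h2 : (q.factorial : ℝ) / (c * R / (16 * C)) ^ q = (q.factorial : ℝ) * (16 * C / c) ^ q / R ^ q := by
      rw [div_pow, div_pow, mul_pow]
      field_simp
    rw [h2] at h1
    have h3 := mul_le_mul_of_nonneg_left h1 hC0.le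
    refine h3.trans (le_of_eq ?_)
    ring
  have hV : (law μ).real {η : Env | V μ 0 η 0 n ≤ -(c * R / 16 * EE μ n)} ≤ G / R ^ q := by
    refine (hAt n hn1 _ (hu R hRR)).trans ?_
    have h1 : At / (c * R / 16) ^ q ≤ |At| / (c * R / 16) ^ q :=
      div_le_div_of_nonneg_right (le_abs_self _) (by positivity)
    refine h1.trans (le_of_eq ?_)
    rw [hG, div_pow, div_pow, mul_pow]
    field_simp
  have hR0q : 0 ≤ R0 ^ q / R ^ q := by positivity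
  have e3 : (R0 ^ q + F + G) / R ^ q = R0 ^ q / R ^ q + 4 * (C * ((q.factorial : ℝ) * (16 * C / c) ^ q) / R ^ q) + G / R ^ q := by
    rw [hF]
    ring
  rw [e3]
  linarith

end Pool.Agent.W_7d29a1_SR
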