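import Pool.Agent.W_7d29a1_SR.Defs
import Pool.Agent.W_7d29a1_G.FrDefs
import Pool.Agent.W_7d29a1_G.SoftAll
import Pool.Agent.W_7d29a1_G.Main
import Pool.Agent.W_7d29a1_h18.HEU
import Pool.Agent.W_7d29a1_L.LsA1

/-!
THEOREM (SR) (hand-in ScalingLaw), proofs row 626: the input structure `In` from the statements of track G.
-/

namespace Pool.Agent.W_7d29a1_SR

open MeasureTheory ProbabilityTheory Filter Topology
open Pool.Agent.W_7d29a1_F Pool.Agent.W_7d29a1_h4g Pool.Agent.W_7d29a1_G Pool.Agent.W_7d29a1_L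

variable {μ : Measure ℝ} [IsProbabilityMeasure μ]

theorem in_of (hμ : Pool.Agent.W_7d29a1_h47.EM μ) (hnd : Pool.Agent.W_7d29a1_h47.Nondeg μ)
    (hT : Targets μ) (hI : FIn μ) (hL : FLuck μ) : ∃ (c C : ℝ) (n₀ : ℕ), In μ c C n₀ := by
  have he := elem hμ hnd
  obtain ⟨α, hB0⟩ := hT.hB0
  obtain ⟨β, hB⟩ := hT.hB
  have hB0' := hB0.mono he.smono (le_max_left α β)
  have hB' := hB.mono he.smono (le_max_right α β)
  have hG := HG_all hμ hnd hT.hEE
  obtain ⟨c₀, hc₀, hI⟩ := hI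
  obtain ⟨C₁, n₁, hI⟩ := hI 4
  obtain ⟨c₂, C₂, n₂, hc₂, hL⟩ := hL 4
  obtain ⟨n₃, hlog⟩ := Pool.Agent.W_7d29a1_h18.EE_log hμ hnd 1
  obtain ⟨c, hc⟩ : ∃ c : ℝ, c = min 1 (min c₀ c₂) := ⟨_, rfl⟩
  have hc0 : 0 < c := by rw [hc]; exact lt_min one_pos (lt_min hc₀ hc₂)
  have hc1 : c ≤ 1 := by rw [hc]; exact min_le_left _ _
  have hcc₀ : c ≤ c₀ := by rw [hc]; exact (min_le_right _ _).trans (min_le_left _ _)
  have hcc₂ : c ≤ c₂ := by rw [hc]; exact (min_le_right _ _).trans (min_le_right _ _)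
  obtain ⟨C, hC⟩ : ∃ C : ℝ, C = 1 + |C₁| + |C₂| + 1 / c₂ + Real.log (n₃ + 1) := ⟨_, rfl⟩
  have hl3 : 0 ≤ Real.log ((n₃ : ℝ) + 1) := Real.log_nonneg (by have : (0 : ℝ) ≤ n₃ := Nat.cast_nonneg _; linarith)
  have h2i : 0 < 1 / c₂ := by positivity
  have hC1 : 1 ≤ C := by rw [hC]; have := abs_nonneg C₁; have := abs_nonneg C₂; linarith
  have hCC₁ : C₁ ≤ C := by rw [hC]; have := le_abs_self C₁; have := abs_nonneg C₂; linarith
  have hCC₂ : C₂ ≤ C := by rw [hC]; have := le_abs_self C₂; have := abs_nonneg C₁; linarith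
  have hCi : 1 / c₂ ≤ C := by rw [hC]; have := abs_nonneg C₁; have := abs_nonneg C₂; linarith
  have hCl : Real.log ((n₃ : ℝ) + 1) ≤ C := by
    rw [hC]; have := abs_nonneg C₁; have := abs_nonneg C₂; linarith
  refine ⟨c, C, max n₁ n₂, ⟨hμ, hnd, hc0, hc1, hC1, fun n hn => ?_, hT.hEE, vA_tendsto hμ hnd zero_le_one, soft_all he hT.hS hB0' hB' hG,
    double_all he hT.hS hB0' hB' hG, fun n hn m y hm h0 h1 hy => ?_, fun n hn h z hh => ?_⟩⟩
  · have hE := Pool.Agent.W_7d29a1_G.one_le_EE (μ := μ) n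
    rcases le_or_gt n₃ n with h | h
    · have h2 := hlog n h
      rw [one_mul] at h2
      nlinarith
    · have h2 : Real.log n ≤ Real.log ((n₃ : ℝ) + 1) := by
        refine Real.log_le_log (by exact_mod_cast hn) ?_
        have : (n : ℝ) < n₃ := by exact_mod_cast h
        linarith
      nlinarith
  · have hE := Pool.Agent.W_7d29a1_G.one_le_EE (μ := μ) n
    have hv := vA_nonneg (μ := μ) hμ zero_le_one n
    refine (hI n ((le_max_left _ _).trans hn) m y hm h0 h1 (hy.trans ?_)).trans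
      (mul_le_mul_of_nonneg_right hCC₁ (by linarith))
    have hm0 : (0 : ℝ) ≤ m := Nat.cast_nonneg _
    have := mul_le_mul_of_nonneg_right (mul_le_mul_of_nonneg_right hcc₀ hv) hm0
    linarith
  · have hE := Pool.Agent.W_7d29a1_G.one_le_EE (μ := μ) n
    have hE0 : 0 < EE μ n := by linarith
    have h1 := hL n ((le_max_right _ _).trans hn) h z (hh.trans (mul_le_mul_of_nonneg_right hcc₂ hE0.le))
    refine le_trans ?_ (h1.trans hCC₂)
    have i1 := (Pool.Agent.W_7d29a1_L.Sub_Mh (μ := μ) (s := 0) (v := 1 / 2) (h := h) (w := wA μ n) (z := z)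
      (n := 4 * n)).const_mul (c₂ / EE μ n)
    have i2 := (Pool.Agent.W_7d29a1_L.Sub_Mh (μ := μ) (s := 0) (v := 1 / 2) (h := h) (w := wA μ n) (z := z)
      (n := 4 * n)).const_mul (1 / (C * EE μ n))
    have e : ∀ η : Env, Mh μ 0 (1 / 2) h (wd μ n) z (4 * n) η / (C * EE μ n) =
        1 / (C * EE μ n) * Mh μ 0 (1 / 2) h (wA μ n) z (4 * n) η := by
      intro η
      rw [div_eq_mul_one_div, mul_comm]
      rfl
    simp only [e]
    refine integral_mono (i2.exp_int hμ) (i1.exp_int hμ) fun η => ?_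
    refine Real.exp_le_exp.2 (mul_le_mul_of_nonneg_right ?_ (Pool.Agent.W_7d29a1_L.Mh_nonneg η))
    rw [div_le_div_iff₀ (by positivity) hE0, one_mul]
    have h3 : 1 ≤ c₂ * C := by
      have := mul_le_mul_of_nonneg_left hCi hc₂.le
      rw [mul_one_div_cancel hc₂.ne'] at this
      exact this
    nlinarith

end Pool.Agent.W_7d29a1_SR
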