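import Pool.Agent.W_7d29a1_SR.FinS
import Pool.Agent.W_7d29a1_SR.Rel
import Pool.Agent.W_7d29a1_SR.VarW
import Pool.Agent.W_7d29a1_SR.NuEq
import Pool.Agent.W_7d29a1_G.Exponents

/-!
THEOREM (SR) (hand-in ScalingLaw), proofs row 626: assembly.
-/

namespace Pool.Agent.W_7d29a1_SR

open MeasureTheory ProbabilityTheory Filter Topology
open Pool.Agent.W_7d29a1_F Pool.Agent.W_7d29a1_h4g Pool.Agent.W_7d29a1_G Pool.Agent.W_7d29a1_L
open Pool.Agent.W_7d29a1_h47 (LamN EM_of Nondeg_of map_toEnv tendsto_logZ log_endMGF endMGF endP)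
open Pool.Agent.W_7d29a1_h46 (Expd)

section pure

theorem ev_pow {δ : ℝ} (hδ : 0 < δ) (K : ℝ) : ∀ᶠ n : ℕ in atTop, K ≤ (n : ℝ) ^ δ :=
  ((tendsto_rpow_atTop hδ).comp tendsto_natCast_atTop_atTop).eventually_ge_atTop K

/-- A power absorbs constants. -/
theorem ev_absorb {b b' K : ℝ} (hK : 0 < K) (h : b' < b) : ∀ᶠ n : ℕ in atTop, (n : ℝ) ^ b' ≤ K * (n : ℝ) ^ b := by
  filter_upwards [ev_pow (sub_pos.2 h) (1 / K), eventually_ge_atTop 1] with n h1 hn
  have hn0 : (0 : ℝ) < n := by exact_mod_cast hn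
  have h2 : (n : ℝ) ^ b = (n : ℝ) ^ b' * (n : ℝ) ^ (b - b') := by
    rw [← Real.rpow_add hn0]
    congr 1
    ring
  rw [h2]
  have h3 : 0 < (n : ℝ) ^ b' := Real.rpow_pos_of_pos hn0 _
  have h4 : 1 ≤ K * (n : ℝ) ^ (b - b') := by
    have h5 := mul_le_mul_of_nonneg_left h1 hK.le
    rwa [mul_one_div_cancel hK.ne'] at h5
  nlinarith

/-- The exponents of `w` and `σ` from `n ≤ C w σ²`. -/
theorem chi_ge_nu {w σ : ℕ → ℝ} {c b B b' B' : ℝ} (hc : 0 < c) (hb : 0 < b) (hb' : 0 < b')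
    (hw1 : ∀ᶠ n : ℕ in atTop, (n : ℝ) ^ b ≤ w n) (hw2 : ∀ᶠ n : ℕ in atTop, w n ≤ (n : ℝ) ^ B)
    (hσ1 : ∀ᶠ n : ℕ in atTop, (n : ℝ) ^ b' ≤ σ n) (hσ2 : ∀ᶠ n : ℕ in atTop, σ n ≤ (n : ℝ) ^ B')
    (h : ∀ᶠ n : ℕ in atTop, c * n ≤ w n * σ n ^ 2) :
    (1 - limsup (fun n : ℕ => Real.log (w n) / Real.log n) atTop) / 2 ≤
      liminf (fun n : ℕ => Real.log (σ n) / Real.log n) atTop := by
  obtain ⟨n₁, h1⟩ := eventually_atTop.1 (hw1.and (hw2.and (hσ1.and hσ2)))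
  have hbw := logr_bdd (w := w) (n₁ := n₁) (b := b) (B := B) (fun n hn => (h1 n hn).1) fun n hn => (h1 n hn).2.1
  have hbs := logr_bdd (w := σ) (n₁ := n₁) (b := b') (B := B') (fun n hn => (h1 n hn).2.2.1) fun n hn => (h1 n hn).2.2.2
  refine le_of_forall_pos_le_add fun ε hε => ?_
  rw [← sub_le_iff_le_add]
  refine le_liminf_of_le hbs.1.isCoboundedUnder_ge ?_
  have hev : ∀ᶠ n : ℕ in atTop, Real.log (w n) / Real.log n <
      limsup (fun n : ℕ => Real.log (w n) / Real.log n) atTop + ε :=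
    eventually_lt_of_limsup_lt (by linarith) hbw.1
  have hlog : Tendsto (fun n : ℕ => Real.log n) atTop atTop := Real.tendsto_log_atTop.comp tendsto_natCast_atTop_atTop
  filter_upwards [h, hev, eventually_ge_atTop n₁, eventually_ge_atTop 2, hlog.eventually_ge_atTop (|Real.log c| / ε)]
    with n h2 h3 h4 h5 h6
  have hn2 : (2 : ℝ) ≤ n := by exact_mod_cast h5
  have hn0 : (0 : ℝ) < n := by linarith
  have hl : 0 < Real.log n := Real.log_pos (by linarith)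
  obtain ⟨k1, k2, k3, k4⟩ := h1 n h4
  have hwp : 0 < w n := (Real.rpow_pos_of_pos hn0 _).trans_le k1
  have hsp : 0 < σ n := (Real.rpow_pos_of_pos hn0 _).trans_le k3
  have h7 := Real.log_le_log (by positivity) h2
  rw [Real.log_mul hc.ne' hn0.ne', Real.log_mul hwp.ne' (by positivity), Real.log_pow] at h7
  push_cast at h7
  have h8 : -(ε * Real.log n) ≤ Real.log c := by
    rw [div_le_iff₀ hε] at h6
    have := neg_abs_le (Real.log c)
    linarith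
  rw [div_lt_iff₀ hl] at h3
  rw [le_div_iff₀ hl]
  nlinarith

end pure

variable {Ω : Type*} [MeasurableSpace Ω] {P : Measure Ω} [IsProbabilityMeasure P] {ω : ℕ × ℤ → Ω → ℝ} {β : ℝ}

/-- The law of large numbers for the free energy. -/
theorem lim_pZ {μ : Measure ℝ} [IsProbabilityMeasure μ] (hμ : Pool.Agent.W_7d29a1_h47.EM μ)
    (hmp : MeasurePreserving (fun x => Pool.Agent.W_7d29a1_h47.toEnv β fun p => ω p x) P (Pool.Agent.W_7d29a1_h47.law μ)) :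
    ∀ᵐ x ∂P, Tendsto (fun n : ℕ => Real.log (pZ β (fun p => ω p x) n) / n) atTop
      (𝓝 (Pool.Agent.W_7d29a1_h47.Lam μ 0 - Real.log 2)) := by
  have g := hmp.quasiMeasurePreserving.ae (tendsto_logZ hμ 0)
  filter_upwards [g] with x hx
  have h1 : ∀ n : ℕ, Real.log (pZ β (fun p => ω p x) n) =
      Real.log (Pool.Agent.W_7d29a1_h47.Z (Pool.Agent.W_7d29a1_h47.toEnv β fun p => ω p x) 0 0 0 n) - n * Real.log 2 := by
    intro n
    rw [← log_parZ]
    unfold pZ parZ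
    simp
  refine (hx.sub_const (Real.log 2)).congr' ?_
  filter_upwards [eventually_ge_atTop 1] with n hn
  have hn0 : (n : ℝ) ≠ 0 := by
    have : (0 : ℝ) < n := by exact_mod_cast hn
    exact this.ne'
  rw [h1, sub_div, mul_div_cancel_left₀ _ hn0]

section scale

variable {μ : Measure ℝ} [IsProbabilityMeasure μ] {c C : ℝ} {n₀ : ℕ}

/-- All the scale statements at the problem level, for the rate function `v ↦ J μ (v / 2)`. -/
theorem scaleP (h : In μ c C n₀) (hmp : MeasurePreserving (fun x => toF β fun p => ω p x) P (law μ)) {c₂ K₂ : ℝ}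
    (hc₂ : 0 < c₂) (hK₂ : 0 < K₂) (hJ : ∀ v, |v| < 1 → c₂ * |v| ^ K₂ ≤ J μ (v / 2)) :
    ∃ (b C' c' : ℝ) (M : ℕ), 0 < b ∧ 0 < C' ∧ 0 < c' ∧ ∀ᶠ n : ℕ in atTop,
      (n : ℝ) ^ b ≤ sgm P β ω n ∧ sgm P β ω n ≤ C' * (n : ℝ) ^ (1 / 2 : ℝ) ∧
      (n : ℝ) ^ b ≤ wth P β ω (fun v => J μ (v / 2)) n ∧ wth P β ω (fun v => J μ (v / 2)) n ≤ (n : ℝ) ^ (1 - b) ∧
      n * J μ (wth P β ω (fun v => J μ (v / 2)) n / n / 2) = sgm P β ω n ∧
      c' * n ≤ wth P β ω (fun v => J μ (v / 2)) n * sgm P β ω n ^ 2 ∧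
      2 * sgm P β ω n ≤ sgm P β ω (M * n) ∧
      2 * wth P β ω (fun v => J μ (v / 2)) n ≤ wth P β ω (fun v => J μ (v / 2)) (M * n) ∧
      0 ≤ n * (Pool.Agent.W_7d29a1_h47.Lam μ 0 - Real.log 2) - ∫ x, Real.log (pZ β (fun p => ω p x) n) ∂P ∧
      n * (Pool.Agent.W_7d29a1_h47.Lam μ 0 - Real.log 2) - ∫ x, Real.log (pZ β (fun p => ω p x) n) ∂P ≤ C' * sgm P β ω n := by
  obtain ⟨a, A, b, B, ha, hA, hb, hB, n₁, hn₁, hsc⟩ := scales (P := P) (β := β) (ω := ω) h hmp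
  obtain ⟨b₀, K₀, hb₀, hK₀, hpow⟩ := EE_pow h
  obtain ⟨K₁, hK₁, hsqrt⟩ := EE_sqrt h
  obtain ⟨cw, hcw, n₂, hwE⟩ := wd_ge h
  obtain ⟨av, hav, n₃, hvar⟩ := var_ge_w h (tail_V h 1)
  obtain ⟨Jn, n₄, hgr⟩ := wd_grow h (max (2 * A / a) (2 * B / b)) (by positivity)
  have hJc : ContinuousOn (fun v => J μ (v / 2)) (Set.Ico 0 1) := by
    refine (J_cont0 h.em).comp (continuous_id.div_const 2).continuousOn fun v hv => ?_
    have h1 := hv.1
    have h2 := hv.2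
    refine ⟨?_, ?_⟩
    · show (0 : ℝ) ≤ v / 2
      linarith
    · show v / 2 ≤ 1 / 2
      linarith
  have hJm : MonotoneOn (fun v => J μ (v / 2)) (Set.Ico 0 1) := by
    intro u hu v hv huv
    exact J_mono' h.em (by have := hu.1; positivity) (by linarith) (by have := hv.2; linarith)
  have hJ0 : (fun v => J μ (v / 2)) 0 = 0 := by
    show J μ (0 / 2) = 0
    rw [zero_div]
    exact J_zero h.em
  have hJh : 0 < J μ ((1 / 2 : ℝ) / 2) := J_pos h.em h.nd (by norm_num) (by norm_num)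
  obtain ⟨δ, hδ⟩ : ∃ δ : ℝ, δ = min (b₀ / 2) (min (1 / (4 * K₂)) (1 / 2)) := ⟨_, rfl⟩
  have hδ0 : 0 < δ := by rw [hδ]; positivity
  have hδ1 : δ ≤ b₀ / 2 := by rw [hδ]; exact min_le_left _ _
  have hδ2 : δ ≤ 1 / (4 * K₂) := by rw [hδ]; exact (min_le_right _ _).trans (min_le_left _ _)
  have hδb : δ < b₀ := by linarith
  have hδ3 : 0 < 1 / (2 * K₂) - δ := by
    have : 1 / (4 * K₂) < 1 / (2 * K₂) := one_div_lt_one_div_of_lt (by positivity) (by linarith)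
    linarith
  refine ⟨δ, max (A * K₁) (1 / a), b * av, 2 ^ Jn, hδ0, by positivity, by positivity, ?_⟩
  filter_upwards [eventually_ge_atTop n₁, eventually_ge_atTop n₂, eventually_ge_atTop n₃, eventually_ge_atTop n₄,
    ev_absorb (b := b₀) (b' := δ) (K := a * K₀) (by positivity) hδb,
    ev_absorb (b := b₀) (b' := δ) (K := b * (cw * K₀)) (by positivity) hδb,
    ev_pow (δ := 1 / 2) (by norm_num) (A * K₁ / J μ ((1 / 2 : ℝ) / 2) + 1),
    ev_pow hδ3 ((A * K₁ / c₂) ^ (1 / K₂))] with n e1 e2 e3 e4 e5 e6 e7 e8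
  obtain ⟨s1, s2, s3, s4, s5⟩ := hsc n e1
  have hn1 : 1 ≤ n := hn₁.trans e1
  have hn0 : (0 : ℝ) < n := by exact_mod_cast hn1
  have hE := Pool.Agent.W_7d29a1_G.one_le_EE (μ := μ) n
  have hE0 : 0 < EE μ n := by linarith
  have hσ0 : 0 < sgm P β ω n := lt_of_lt_of_le (by positivity) s1
  have q1 : a * K₀ * (n : ℝ) ^ b₀ ≤ sgm P β ω n := by
    refine le_trans ?_ s1
    have := mul_le_mul_of_nonneg_left (hpow n hn1) ha.le
    linarith
  have q2 : sgm P β ω n ≤ A * K₁ * (n : ℝ) ^ (1 / 2 : ℝ) := by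
    refine s2.trans ?_
    have := mul_le_mul_of_nonneg_left (hsqrt n hn1) hA.le
    rw [Real.sqrt_eq_rpow] at this
    linarith
  have q3 : b * (cw * K₀) * (n : ℝ) ^ b₀ ≤ wth P β ω (fun v => J μ (v / 2)) n := by
    refine le_trans ?_ s3
    have h1 := hwE n e2
    have h2 := mul_le_mul_of_nonneg_left (hpow n hn1) hcw.le
    have h3 := mul_le_mul_of_nonneg_left (h2.trans h1) hb.le
    linarith
  -- the level
  have hσJ : sgm P β ω n < n * (fun v => J μ (v / 2)) (1 / 2) := by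
    show sgm P β ω n < n * J μ ((1 / 2 : ℝ) / 2)
    have h1 : (n : ℝ) = (n : ℝ) ^ (1 / 2 : ℝ) * (n : ℝ) ^ (1 / 2 : ℝ) := by
      rw [← Real.rpow_add hn0]
      norm_num
    have h2 : 0 < (n : ℝ) ^ (1 / 2 : ℝ) := Real.rpow_pos_of_pos hn0 _
    have h3 : A * K₁ < J μ ((1 / 2 : ℝ) / 2) * (n : ℝ) ^ (1 / 2 : ℝ) := by
      have h4 : A * K₁ / J μ ((1 / 2 : ℝ) / 2) < (n : ℝ) ^ (1 / 2 : ℝ) := by linarith
      rw [div_lt_iff₀ hJh] at h4
      linarith
    calc sgm P β ω n ≤ A * K₁ * (n : ℝ) ^ (1 / 2 : ℝ) := q2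
      _ < J μ ((1 / 2 : ℝ) / 2) * (n : ℝ) ^ (1 / 2 : ℝ) * (n : ℝ) ^ (1 / 2 : ℝ) := mul_lt_mul_of_pos_right h3 h2
      _ = n * J μ ((1 / 2 : ℝ) / 2) := by
        rw [mul_assoc, ← h1]
        ring
  obtain ⟨l1, l2, l3, l4⟩ := wid_level hJc hJm hJ0 hn1 hσ0.le hσJ
  have lw : n * J μ (wth P β ω (fun v => J μ (v / 2)) n / n / 2) = sgm P β ω n := l3
  have hw0 : 0 < wth P β ω (fun v => J μ (v / 2)) n :=
    lt_of_lt_of_le (by have := Real.rpow_pos_of_pos hn0 b₀; positivity) q3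
  refine ⟨e5.trans q1, q2.trans (mul_le_mul_of_nonneg_right (le_max_left _ _) (Real.rpow_nonneg hn0.le _)), e6.trans q3, ?_, lw,
    ?_, ?_, ?_, ?_, ?_⟩
  · -- the upper bound of the width
    have hv1 : wth P β ω (fun v => J μ (v / 2)) n / n < 1 := by
      rw [div_lt_one hn0]
      have : wth P β ω (fun v => J μ (v / 2)) n ≤ n / 2 := l2
      linarith
    have hv0 : 0 < wth P β ω (fun v => J μ (v / 2)) n / n := div_pos hw0 hn0
    have h1 := hJ (wth P β ω (fun v => J μ (v / 2)) n / n) (by rw [abs_of_pos hv0]; exact hv1)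
    rw [abs_of_pos hv0] at h1
    have h2 : n * (c₂ * (wth P β ω (fun v => J μ (v / 2)) n / n) ^ K₂) ≤ A * K₁ * (n : ℝ) ^ (1 / 2 : ℝ) :=
      ((mul_le_mul_of_nonneg_left h1 hn0.le).trans_eq lw).trans q2
    have h3 : (wth P β ω (fun v => J μ (v / 2)) n / n) ^ K₂ ≤ A * K₁ / c₂ * (n : ℝ) ^ (-(1 / 2) : ℝ) := by
      have h4 : (n : ℝ) ^ (-(1 / 2) : ℝ) * n = (n : ℝ) ^ (1 / 2 : ℝ) := by
        rw [← Real.rpow_add_one hn0.ne']
        norm_num
      rw [div_mul_eq_mul_div, le_div_iff₀ hc₂]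
      refine le_of_mul_le_mul_left ?_ hn0
      calc n * ((wth P β ω (fun v => J μ (v / 2)) n / n) ^ K₂ * c₂) = n * (c₂ * (wth P β ω (fun v => J μ (v / 2)) n / n) ^ K₂) := by
            ring
        _ ≤ A * K₁ * (n : ℝ) ^ (1 / 2 : ℝ) := h2
        _ = n * (A * K₁ * (n : ℝ) ^ (-(1 / 2) : ℝ)) := by rw [← h4]; ring
    have h5 : wth P β ω (fun v => J μ (v / 2)) n / n ≤ (A * K₁ / c₂) ^ (1 / K₂) * (n : ℝ) ^ (-(1 / (2 * K₂)) : ℝ) := by
      have h6 := Real.rpow_le_rpow (by positivity) h3 (show 0 ≤ 1 / K₂ by positivity)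
      rw [← Real.rpow_mul hv0.le, mul_one_div_cancel hK₂.ne', Real.rpow_one, Real.mul_rpow (by positivity)
        (Real.rpow_nonneg hn0.le _), ← Real.rpow_mul hn0.le] at h6
      refine h6.trans (le_of_eq ?_)
      congr 2
      field_simp
    have h6 : wth P β ω (fun v => J μ (v / 2)) n / n ≤ (n : ℝ) ^ (-δ) := by
      refine h5.trans ?_
      calc (A * K₁ / c₂) ^ (1 / K₂) * (n : ℝ) ^ (-(1 / (2 * K₂)) : ℝ) ≤
            (n : ℝ) ^ (1 / (2 * K₂) - δ) * (n : ℝ) ^ (-(1 / (2 * K₂)) : ℝ) :=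
            mul_le_mul_of_nonneg_right e8 (Real.rpow_nonneg hn0.le _)
        _ = (n : ℝ) ^ (-δ) := by
            rw [← Real.rpow_add hn0]
            congr 1
            ring
    rw [div_le_iff₀ hn0, ← Real.rpow_add_one hn0.ne'] at h6
    refine h6.trans (le_of_eq ?_)
    congr 1
    ring
  · -- Newman - Piza
    have h1 := hvar n e3
    have h2 : Var[fun η => V μ 0 η 0 n; law μ] = sgm P β ω n ^ 2 := by
      rw [sgm, Real.sq_sqrt (variance_nonneg _ _), var_pZ hmp]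
    rw [h2] at h1
    have h3 : b * (wd μ n * sgm P β ω n ^ 2) ≤ wth P β ω (fun v => J μ (v / 2)) n * sgm P β ω n ^ 2 := by
      have := mul_le_mul_of_nonneg_right s3 (sq_nonneg (sgm P β ω n))
      linarith
    have h4 := mul_le_mul_of_nonneg_left h1 hb.le
    linarith
  · -- growth of the deviation
    obtain ⟨g1, g2⟩ := hgr n e4
    have hMn : n₁ ≤ 2 ^ Jn * n := e1.trans (Nat.le_mul_of_pos_left n (by positivity))
    obtain ⟨t1, -, -, -, -⟩ := hsc (2 ^ Jn * n) hMn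
    have h1 : 2 * A / a * EE μ n ≤ EE μ (2 ^ Jn * n) := (mul_le_mul_of_nonneg_right (le_max_left _ _) hE0.le).trans g1
    have h2 : 2 * (A * EE μ n) ≤ a * EE μ (2 ^ Jn * n) := by
      have h3 := mul_le_mul_of_nonneg_left h1 ha.le
      have h4 : a * (2 * A / a * EE μ n) = 2 * (A * EE μ n) := by field_simp
      linarith
    linarith
  · -- growth of the width
    obtain ⟨g1, g2⟩ := hgr n e4
    have hMn : n₁ ≤ 2 ^ Jn * n := e1.trans (Nat.le_mul_of_pos_left n (by positivity))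
    obtain ⟨-, -, t3, -, -⟩ := hsc (2 ^ Jn * n) hMn
    have hwd0 : 0 ≤ wd μ n := by linarith
    have h1 : 2 * B / b * wd μ n ≤ wd μ (2 ^ Jn * n) := (mul_le_mul_of_nonneg_right (le_max_right _ _) hwd0).trans g2
    have h2 : 2 * (B * wd μ n) ≤ b * wd μ (2 ^ Jn * n) := by
      have h3 := mul_le_mul_of_nonneg_left h1 hb.le
      have h4 : b * (2 * B / b * wd μ n) = 2 * (B * wd μ n) := by field_simp
      linarith
    linarith
  · rw [mean_pZ h.em hmp]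
    have := (mean_V h n).2
    linarith
  · rw [mean_pZ h.em hmp]
    have h1 := (mean_V h n).1
    have h2 : EE μ n ≤ 1 / a * sgm P β ω n := by
      rw [one_div, inv_mul_eq_div, le_div_iff₀ ha]
      linarith
    have h3 : 1 / a * sgm P β ω n ≤ max (A * K₁) (1 / a) * sgm P β ω n :=
      mul_le_mul_of_nonneg_right (le_max_right _ _) hσ0.le
    linarith

end scale

end Pool.Agent.W_7d29a1_SR
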