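import Pool.Agent.W_7d29a1_SR.FinS
import Pool.Agent.W_7d29a1_SR.SubH2

/-!
THEOREM (SR) (hand-in ScalingLaw), second version: the two scales are regular at all scales.
-/

namespace Pool.Agent.W_7d29a1_SR

open MeasureTheory ProbabilityTheory Filter Topology
open Pool.Agent.W_7d29a1_F Pool.Agent.W_7d29a1_h4g Pool.Agent.W_7d29a1_G Pool.Agent.W_7d29a1_L

variable {μ : Measure ℝ} [IsProbabilityMeasure μ] {c C : ℝ} {n₀ : ℕ}

/-- The unit grows at least like a power, from every scale on. -/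
theorem EE_ratio (h : In μ c C n₀) : ∃ a k : ℝ, 0 < a ∧ 0 < k ∧ ∃ n₁ : ℕ, 1 ≤ n₁ ∧ ∀ m n : ℕ, n₁ ≤ m → m ≤ n →
    k * ((n : ℝ) / m) ^ a * EE μ m ≤ EE μ n := by
  obtain ⟨J₀, n₁, hg⟩ := EE_grow h 2
  obtain ⟨J, hJ⟩ : ∃ J : ℕ, J = J₀ + 1 := ⟨_, rfl⟩
  have hJR : (0 : ℝ) < J := by rw [hJ]; positivity
  have hL1 : 1 < 2 ^ J := Nat.one_lt_two_pow (by omega)
  have hg' : ∀ n : ℕ, n₁ ≤ n → 2 * EE μ n ≤ EE μ (2 ^ J * n) := fun n hn =>
    (hg n hn).trans (EE_mono (Nat.mul_le_mul_right n (Nat.pow_le_pow_right (by norm_num) (by omega))))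
  have hit : ∀ i m : ℕ, n₁ ≤ m → 2 ^ i * EE μ m ≤ EE μ ((2 ^ J) ^ i * m) := by
    intro i m hm
    induction i with
    | zero => simp
    | succ i ih =>
      have h1 : n₁ ≤ (2 ^ J) ^ i * m := hm.trans (Nat.le_mul_of_pos_left m (by positivity))
      have h2 := hg' _ h1
      have e : (2 ^ J) ^ (i + 1) * m = 2 ^ J * ((2 ^ J) ^ i * m) := by ring
      rw [e]
      calc (2 : ℝ) ^ (i + 1) * EE μ m = 2 * (2 ^ i * EE μ m) := by ring
        _ ≤ 2 * EE μ ((2 ^ J) ^ i * m) := by linarith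
        _ ≤ _ := h2
  refine ⟨1 / J, 1 / 2, by positivity, by norm_num, max n₁ 1, le_max_right _ _, fun m n hm hmn => ?_⟩
  have hm1 : 1 ≤ m := (le_max_right _ _).trans hm
  have hm2 : n₁ ≤ m := (le_max_left _ _).trans hm
  have hmR : (0 : ℝ) < m := by exact_mod_cast hm1
  obtain ⟨q, hq⟩ : ∃ q : ℕ, q = n / m := ⟨_, rfl⟩
  have hq1 : q ≠ 0 := by
    rw [hq]
    exact (Nat.div_pos hmn hm1).ne'
  obtain ⟨i, hi⟩ : ∃ i : ℕ, i = Nat.log (2 ^ J) q := ⟨_, rfl⟩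
  have h1 : (2 ^ J) ^ i ≤ q := by rw [hi]; exact Nat.pow_log_le_self _ hq1
  have h2 : q < (2 ^ J) ^ (i + 1) := by rw [hi]; exact Nat.lt_pow_succ_log_self hL1 q
  have h3 : (2 ^ J) ^ i * m ≤ n := (Nat.mul_le_mul_right m h1).trans (by rw [hq]; exact Nat.div_mul_le_self n m)
  have h4 : (n : ℝ) / m ≤ ((2 ^ J) ^ (i + 1) : ℕ) := by
    rw [div_le_iff₀ hmR]
    have h5 : n < (q + 1) * m := by
      rw [hq]
      have := Nat.lt_div_mul_add (a := n) (b := m) hm1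
      calc n < n / m * m + m := this
        _ = (n / m + 1) * m := by ring
    have h6 : (q + 1) * m ≤ (2 ^ J) ^ (i + 1) * m := Nat.mul_le_mul_right m h2
    exact_mod_cast (h5.le.trans h6)
  have h5 : ((n : ℝ) / m) ^ (1 / (J : ℝ)) ≤ 2 ^ (i + 1) := by
    have h6 := Real.rpow_le_rpow (by positivity) h4 (show 0 ≤ 1 / (J : ℝ) by positivity)
    refine h6.trans (le_of_eq ?_)
    push_cast
    rw [← pow_mul, ← Real.rpow_natCast, ← Real.rpow_mul (by norm_num), ← Real.rpow_natCast]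
    congr 1
    push_cast
    field_simp
  have hE := lt_of_lt_of_le one_pos (Pool.Agent.W_7d29a1_G.one_le_EE (μ := μ) m)
  have h6 := hit i m hm2
  calc 1 / 2 * ((n : ℝ) / m) ^ (1 / (J : ℝ)) * EE μ m ≤ 1 / 2 * 2 ^ (i + 1) * EE μ m :=
        mul_le_mul_of_nonneg_right (mul_le_mul_of_nonneg_left h5 (by norm_num)) hE.le
    _ = 2 ^ i * EE μ m := by ring
    _ ≤ EE μ ((2 ^ J) ^ i * m) := h6
    _ ≤ EE μ n := EE_mono h3

/-- The width grows at least like a power, from every scale on. -/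
theorem wd_ratio (h : In μ c C n₀) : ∃ a k : ℝ, 0 < a ∧ 0 < k ∧ ∃ n₁ : ℕ, 1 ≤ n₁ ∧ ∀ m n : ℕ, n₁ ≤ m → m ≤ n →
    k * ((n : ℝ) / m) ^ a * wd μ m ≤ wd μ n := by
  obtain ⟨a, k, ha, hk, n₁, hn1, hE⟩ := EE_ratio h
  obtain ⟨n₂, hw⟩ := wd_growth h
  obtain ⟨n₃, hp⟩ := eventually_atTop.1 ((wd_tendsto h).eventually_ge_atTop 1)
  refine ⟨a, k / 2, ha, by positivity, max n₁ (max n₂ n₃), hn1.trans (le_max_left _ _), fun m n hm hmn => ?_⟩
  have h1 := hE m n ((le_max_left _ _).trans hm) hmn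
  have h2 := hw m n ((le_max_left _ _).trans ((le_max_right _ _).trans hm)) hmn
  have h3 := hp m ((le_max_right _ _).trans ((le_max_right _ _).trans hm))
  have hE0 := lt_of_lt_of_le one_pos (Pool.Agent.W_7d29a1_G.one_le_EE (μ := μ) m)
  have h4 := mul_le_mul_of_nonneg_left h1 (show 0 ≤ wd μ m by linarith)
  refine le_of_mul_le_mul_left ?_ (show 0 < 2 * EE μ m by positivity)
  calc 2 * EE μ m * (k / 2 * ((n : ℝ) / m) ^ a * wd μ m) = wd μ m * (k * ((n : ℝ) / m) ^ a * EE μ m) := by ring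
    _ ≤ wd μ m * EE μ n := h4
    _ ≤ 2 * EE μ m * wd μ n := h2

variable {Ω : Type*} [MeasurableSpace Ω] {P : Measure Ω} [IsProbabilityMeasure P] {ω : ℕ × ℤ → Ω → ℝ} {β : ℝ}

/-- The deviation and the width are regular at all scales: `hsub` is the upper bound of the growth of the unit. -/
theorem regP (h : In μ c C n₀) (hF : HF2 μ) (hmp : MeasurePreserving (fun x => toF β fun p => ω p x) P (law μ)) {g A₀ : ℝ}
    {n₂ : ℕ} (hA₀ : 0 < A₀) (hsub : ∀ m n : ℕ, n₂ ≤ m → m ≤ n → EE μ n ≤ A₀ * ((n : ℝ) / m) ^ g * EE μ m) :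
    ∃ c' C' : ℝ, 0 < c' ∧ 0 < C' ∧ ∃ n₁ : ℕ, 1 ≤ n₁ ∧ ∀ m n : ℕ, n₁ ≤ m → m ≤ n →
      c' * ((n : ℝ) / m) ^ c' * sgm P β ω m ≤ sgm P β ω n ∧ sgm P β ω n ≤ C' * ((n : ℝ) / m) ^ g * sgm P β ω m ∧
      c' * ((n : ℝ) / m) ^ c' * wth P β ω (fun v => J μ (v / 2)) m ≤ wth P β ω (fun v => J μ (v / 2)) n ∧
      wth P β ω (fun v => J μ (v / 2)) n ≤ C' * ((n : ℝ) / m) ^ (1 - c') * wth P β ω (fun v => J μ (v / 2)) m := by
  obtain ⟨a, A, b, B, ha, hA, hb, hB, n₃, hn₃, hsc⟩ := scales (P := P) (β := β) (ω := ω) h hmp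
  obtain ⟨a₁, k₁, ha₁, hk₁, n₄, hn₄, hE⟩ := EE_ratio h
  obtain ⟨a₂, k₂, ha₂, hk₂, n₅, hn₅, hW⟩ := wd_ratio h
  obtain ⟨K, a₃, n₆, hK, ha₃, hn₆, hV⟩ := wd_pow h hF
  obtain ⟨c', hc'⟩ : ∃ c' : ℝ, c' = min (min (min a₁ a₂) a₃) (min (a * k₁ / A) (b * k₂ / B)) := ⟨_, rfl⟩
  have k0 : 0 < c' := by rw [hc']; positivity
  have k1 : c' ≤ a₁ := by rw [hc']; exact (min_le_left _ _).trans ((min_le_left _ _).trans (min_le_left _ _))
  have k2 : c' ≤ a₂ := by rw [hc']; exact (min_le_left _ _).trans ((min_le_left _ _).trans (min_le_right _ _))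
  have k3 : c' ≤ a₃ := by rw [hc']; exact (min_le_left _ _).trans (min_le_right _ _)
  have k4 : c' ≤ a * k₁ / A := by rw [hc']; exact (min_le_right _ _).trans (min_le_left _ _)
  have k5 : c' ≤ b * k₂ / B := by rw [hc']; exact (min_le_right _ _).trans (min_le_right _ _)
  refine ⟨c', max (A * A₀ / a) (B * K / b), k0, by positivity, max (max n₂ n₃) (max n₄ (max n₅ n₆)),
    hn₃.trans ((le_max_right _ _).trans (le_max_left _ _)), fun m n hm hmn => ?_⟩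
  have l2 : n₂ ≤ m := (le_max_left _ _).trans ((le_max_left _ _).trans hm)
  have l3 : n₃ ≤ m := (le_max_right _ _).trans ((le_max_left _ _).trans hm)
  have l4 : n₄ ≤ m := (le_max_left _ _).trans ((le_max_right _ _).trans hm)
  have l5 : n₅ ≤ m := (le_max_left _ _).trans ((le_max_right _ _).trans ((le_max_right _ _).trans hm))
  have l6 : n₆ ≤ m := (le_max_right _ _).trans ((le_max_right _ _).trans ((le_max_right _ _).trans hm))
  have hm1 : 1 ≤ m := hn₃.trans l3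
  have hmR : (0 : ℝ) < m := by exact_mod_cast hm1
  have hr : (1 : ℝ) ≤ (n : ℝ) / m := by
    rw [le_div_iff₀ hmR, one_mul]
    exact_mod_cast hmn
  have hr0 : (0 : ℝ) < (n : ℝ) / m := by linarith
  obtain ⟨s1, s2, s3, s4, s5⟩ := hsc m l3
  obtain ⟨t1, t2, t3, t4, t5⟩ := hsc n (l3.trans hmn)
  have hEm := lt_of_lt_of_le one_pos (Pool.Agent.W_7d29a1_G.one_le_EE (μ := μ) m)
  have hEn := lt_of_lt_of_le one_pos (Pool.Agent.W_7d29a1_G.one_le_EE (μ := μ) n)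
  have p1 : ((n : ℝ) / m) ^ c' ≤ ((n : ℝ) / m) ^ a₁ := Real.rpow_le_rpow_of_exponent_le hr k1
  have p2 : ((n : ℝ) / m) ^ c' ≤ ((n : ℝ) / m) ^ a₂ := Real.rpow_le_rpow_of_exponent_le hr k2
  have p3 : ((n : ℝ) / m) ^ (1 - a₃) ≤ ((n : ℝ) / m) ^ (1 - c') := Real.rpow_le_rpow_of_exponent_le hr (by linarith)
  have q0 : 0 ≤ ((n : ℝ) / m) ^ c' := Real.rpow_nonneg hr0.le _
  have qg : 0 ≤ ((n : ℝ) / m) ^ g := Real.rpow_nonneg hr0.le _
  have q3 : 0 ≤ ((n : ℝ) / m) ^ (1 - c') := Real.rpow_nonneg hr0.le _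
  have hσm : 0 < sgm P β ω m := lt_of_lt_of_le (by positivity) s1
  have hwm : 0 < wth P β ω (fun v => J μ (v / 2)) m := lt_of_lt_of_le (by positivity) s3
  refine ⟨?_, ?_, ?_, ?_⟩
  · calc c' * ((n : ℝ) / m) ^ c' * sgm P β ω m ≤ a * k₁ / A * ((n : ℝ) / m) ^ c' * (A * EE μ m) :=
          mul_le_mul (mul_le_mul_of_nonneg_right k4 q0) s2 hσm.le (by positivity)
      _ = a * (k₁ * ((n : ℝ) / m) ^ c' * EE μ m) := by field_simp
      _ ≤ a * (k₁ * ((n : ℝ) / m) ^ a₁ * EE μ m) :=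
          mul_le_mul_of_nonneg_left (mul_le_mul_of_nonneg_right (mul_le_mul_of_nonneg_left p1 hk₁.le) hEm.le) ha.le
      _ ≤ a * EE μ n := mul_le_mul_of_nonneg_left (hE m n l4 hmn) ha.le
      _ ≤ _ := t1
  · calc sgm P β ω n ≤ A * EE μ n := t2
      _ ≤ A * (A₀ * ((n : ℝ) / m) ^ g * EE μ m) := mul_le_mul_of_nonneg_left (hsub m n l2 hmn) hA.le
      _ = A * A₀ / a * ((n : ℝ) / m) ^ g * (a * EE μ m) := by field_simp
      _ ≤ A * A₀ / a * ((n : ℝ) / m) ^ g * sgm P β ω m := mul_le_mul_of_nonneg_left s1 (by positivity)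
      _ ≤ _ := mul_le_mul_of_nonneg_right (mul_le_mul_of_nonneg_right (le_max_left _ _) qg) hσm.le
  · calc c' * ((n : ℝ) / m) ^ c' * wth P β ω (fun v => J μ (v / 2)) m ≤ b * k₂ / B * ((n : ℝ) / m) ^ c' * (B * wd μ m) :=
          mul_le_mul (mul_le_mul_of_nonneg_right k5 q0) s4 hwm.le (by positivity)
      _ = b * (k₂ * ((n : ℝ) / m) ^ c' * wd μ m) := by field_simp
      _ ≤ b * (k₂ * ((n : ℝ) / m) ^ a₂ * wd μ m) :=
          mul_le_mul_of_nonneg_left (mul_le_mul_of_nonneg_right (mul_le_mul_of_nonneg_left p2 hk₂.le) (by linarith)) hb.le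
      _ ≤ b * wd μ n := mul_le_mul_of_nonneg_left (hW m n l5 hmn) hb.le
      _ ≤ _ := t3
  · calc wth P β ω (fun v => J μ (v / 2)) n ≤ B * wd μ n := t4
      _ ≤ B * (K * ((n : ℝ) / m) ^ (1 - a₃) * wd μ m) := mul_le_mul_of_nonneg_left (hV m n l6 hmn) hB.le
      _ ≤ B * (K * ((n : ℝ) / m) ^ (1 - c') * wd μ m) :=
          mul_le_mul_of_nonneg_left (mul_le_mul_of_nonneg_right (mul_le_mul_of_nonneg_left p3 hK.le) (by linarith)) hB.le
      _ = B * K / b * ((n : ℝ) / m) ^ (1 - c') * (b * wd μ m) := by field_simp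
      _ ≤ B * K / b * ((n : ℝ) / m) ^ (1 - c') * wth P β ω (fun v => J μ (v / 2)) m :=
          mul_le_mul_of_nonneg_left s3 (by positivity)
      _ ≤ _ := mul_le_mul_of_nonneg_right (mul_le_mul_of_nonneg_right (le_max_right _ _) q3) hwm.le

end Pool.Agent.W_7d29a1_SR
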