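import Pool.Agent.W_7d29a1_SR.SubH2
import Pool.Agent.W_7d29a1_SL.N2

/-!
THEOREM (SR) (hand-in ScalingLaw), second version: the rate function is regular at `0`.
-/

namespace Pool.Agent.W_7d29a1_SR

open MeasureTheory ProbabilityTheory Filter Topology
open Pool.Agent.W_7d29a1_F Pool.Agent.W_7d29a1_h4g Pool.Agent.W_7d29a1_G Pool.Agent.W_7d29a1_L

variable {μ : Measure ℝ} [IsProbabilityMeasure μ] {c C : ℝ} {n₀ : ℕ}

/-- The rate function grows at every scale at least like a power larger than `1` and at most like a power. -/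
theorem J_reg (h : In μ c C n₀) (hF : HF2 μ) : ∃ a K : ℝ, 0 < a ∧ 1 ≤ K ∧ ∀ v R : ℝ, 0 < v → 1 ≤ R → R * v ≤ a →
    a * R ^ (1 + a) * J μ v ≤ J μ (R * v) ∧ J μ (R * v) ≤ K * R ^ K * J μ v := by
  obtain ⟨K₁, a₁, v₁, hK₁, ha₁, ha₁1, hv₁, hv₁1, hsup⟩ := Pool.Agent.W_7d29a1_SL.n2 h
  obtain ⟨K₂, v₂, hK₂, hv₂, hv₂1, hdb⟩ := J_dbl h hF
  obtain ⟨a, ha⟩ : ∃ a : ℝ, a = min (min a₁ (1 / K₁)) (min v₁ v₂) := ⟨_, rfl⟩
  have ha0 : 0 < a := by rw [ha]; positivity
  have l1 : a ≤ a₁ := by rw [ha]; exact (min_le_left _ _).trans (min_le_left _ _)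
  have l2 : a ≤ 1 / K₁ := by rw [ha]; exact (min_le_left _ _).trans (min_le_right _ _)
  have l3 : a ≤ v₁ := by rw [ha]; exact (min_le_right _ _).trans (min_le_left _ _)
  have l4 : a ≤ v₂ := by rw [ha]; exact (min_le_right _ _).trans (min_le_right _ _)
  obtain ⟨g, hg⟩ : ∃ g : ℝ, g = Real.logb 2 K₂ := ⟨_, rfl⟩
  have hK₂0 : 0 < K₂ := by linarith
  have hg0 : 0 ≤ g := by rw [hg]; exact Real.logb_nonneg (by norm_num) hK₂
  have hg2 : (2 : ℝ) ^ g = K₂ := by rw [hg]; exact Real.rpow_logb (by norm_num) (by norm_num) hK₂0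
  refine ⟨a, max K₂ g, ha0, hK₂.trans (le_max_left _ _), fun v R hv hR hRv => ?_⟩
  have hR0 : 0 < R := by linarith
  have hRv0 : 0 < R * v := mul_pos hR0 hv
  have hv2 : v ≤ R * v := le_mul_of_one_le_left hv.le hR
  have hJv : 0 ≤ J μ v := J_nonneg h.em (by rw [abs_of_pos hv]; linarith)
  constructor
  · have h1 := hsup v R hv hR (hRv.trans l3)
    have h2 : R ^ (1 + a) ≤ R ^ (1 + a₁) := Real.rpow_le_rpow_of_exponent_le hR (by linarith)
    have h3 : a * R ^ (1 + a) * J μ v ≤ 1 / K₁ * (R ^ (1 + a₁) * J μ v) := by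
      rw [mul_assoc]
      exact mul_le_mul l2 (mul_le_mul_of_nonneg_right h2 hJv) (mul_nonneg (Real.rpow_nonneg hR0.le _) hJv) (by positivity)
    refine h3.trans ?_
    rw [one_div, inv_mul_eq_div, div_le_iff₀ hK₁, mul_comm (J μ (R * v))]
    exact h1
  · -- the number of doublings
    have hit : ∀ i : ℕ, (2 : ℝ) ^ i * v ≤ 2 * v₂ → J μ (2 ^ i * v) ≤ K₂ ^ i * J μ v := by
      intro i
      induction i with
      | zero => intro _; simp
      | succ i ih =>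
        intro h1
        have e : (2 : ℝ) ^ (i + 1) * v = 2 * (2 ^ i * v) := by ring
        rw [e] at h1 ⊢
        have h2 : (2 : ℝ) ^ i * v ≤ v₂ := by linarith
        have h3 := hdb (2 ^ i * v) (by positivity) h2
        have h4 := ih (by linarith)
        calc J μ (2 * (2 ^ i * v)) ≤ K₂ * J μ (2 ^ i * v) := h3
          _ ≤ K₂ * (K₂ ^ i * J μ v) := mul_le_mul_of_nonneg_left h4 hK₂0.le
          _ = K₂ ^ (i + 1) * J μ v := by ring
    obtain ⟨i, hi⟩ : ∃ i : ℕ, i = ⌈Real.logb 2 R⌉₊ := ⟨_, rfl⟩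
    have hlR : 0 ≤ Real.logb 2 R := Real.logb_nonneg (by norm_num) hR
    have h2R : (2 : ℝ) ^ Real.logb 2 R = R := Real.rpow_logb (by norm_num) (by norm_num) hR0
    have hi1 : Real.logb 2 R ≤ i := by rw [hi]; exact Nat.le_ceil _
    have hi2 : (i : ℝ) ≤ Real.logb 2 R + 1 := by rw [hi]; exact (Nat.ceil_lt_add_one hlR).le
    have h1 : R ≤ 2 ^ i := by
      calc R = (2 : ℝ) ^ Real.logb 2 R := h2R.symm
        _ ≤ (2 : ℝ) ^ (i : ℝ) := Real.rpow_le_rpow_of_exponent_le (by norm_num) hi1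
        _ = 2 ^ i := Real.rpow_natCast _ _
    have h2 : (2 : ℝ) ^ i ≤ 2 * R := by
      calc (2 : ℝ) ^ i = (2 : ℝ) ^ (i : ℝ) := (Real.rpow_natCast _ _).symm
        _ ≤ (2 : ℝ) ^ (Real.logb 2 R + 1) := Real.rpow_le_rpow_of_exponent_le (by norm_num) hi2
        _ = 2 * R := by rw [Real.rpow_add (by norm_num), h2R, Real.rpow_one, mul_comm]
    have h3 : (2 : ℝ) ^ i * v ≤ 2 * v₂ := by
      have := mul_le_mul_of_nonneg_right h2 hv.le
      linarith
    have h4 := hit i h3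
    have h5 : J μ (R * v) ≤ J μ (2 ^ i * v) :=
      J_mono' h.em hRv0.le (mul_le_mul_of_nonneg_right h1 hv.le) (by linarith)
    have h6 : K₂ ^ i ≤ K₂ * R ^ g := by
      calc K₂ ^ i = ((2 : ℝ) ^ i) ^ g := by
            rw [← Real.rpow_natCast 2 i, ← Real.rpow_mul (by norm_num), mul_comm, Real.rpow_mul (by norm_num), hg2,
              Real.rpow_natCast]
        _ ≤ (2 * R) ^ g := Real.rpow_le_rpow (by positivity) h2 hg0
        _ = K₂ * R ^ g := by rw [Real.mul_rpow (by norm_num) hR0.le, hg2]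
    have h7 : R ^ g ≤ R ^ max K₂ g := Real.rpow_le_rpow_of_exponent_le hR (le_max_right _ _)
    calc J μ (R * v) ≤ K₂ ^ i * J μ v := h5.trans h4
      _ ≤ K₂ * R ^ g * J μ v := mul_le_mul_of_nonneg_right h6 hJv
      _ ≤ max K₂ g * R ^ max K₂ g * J μ v :=
          mul_le_mul_of_nonneg_right (mul_le_mul (le_max_left _ _) h7 (Real.rpow_nonneg hR0.le _) (by positivity)) hJv

end Pool.Agent.W_7d29a1_SR
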