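import Pool.Agent.W_7d29a1_G.FR0
import Pool.Agent.W_7d29a1_L.LsDefs

/-!
THEOREM (SR) (hand-in ScalingLaw), MP_7d29a1_pr: the scaling law in dimension `1 + 1`. Definitions and the input
from track G. Coordinates of `W_7d29a1_F`, tilt `0`, centre of the displacements of time `n`: `n / 2`.

Notation: `EE μ n` is the unit (direction `0`), `vA μ 1 n` the width of the cone (a slope), `wd μ n` the width in sites,
`V μ 0 η 0 n` is `log Z_n - n λ`.
-/

namespace Pool.Agent.W_7d29a1_SR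

open MeasureTheory ProbabilityTheory Filter Topology
open Pool.Agent.W_7d29a1_F Pool.Agent.W_7d29a1_h4g Pool.Agent.W_7d29a1_G Pool.Agent.W_7d29a1_L

noncomputable section

/-- The width of the cone at the scale `n`, in sites: `n J(wd n / n) = EE n`. -/
def wd (μ : Measure ℝ) (n : ℕ) : ℝ := vA μ 1 n * n

/-- The vertical strip of half width `r` (in sites) around the site `a`. -/
def St (r : ℝ) (a : Pt) : Set Pt := {p | |2 * ((p.2 : ℝ) - (a.2 : ℝ)) - ((p.1 : ℝ) - (a.1 : ℝ))| ≤ 2 * r}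

/-- The total weight of the paths of length `n` from `a` which stay in the strip of half width `r`. -/
def cf (μ : Measure ℝ) (r : ℝ) (η : Env) (a : Pt) (n : ℕ) : ℝ := ∑ y ∈ Finset.Icc (0 : ℤ) n, WR μ 0 (St r a) η a n y

/-- The results of track G which are used. -/
structure In (μ : Measure ℝ) (c C : ℝ) (n₀ : ℕ) : Prop where
  em : Pool.Agent.W_7d29a1_h47.EM μ
  nd : Pool.Agent.W_7d29a1_h47.Nondeg μ
  c0 : 0 < c
  c1 : c ≤ 1
  C1 : 1 ≤ C
  /-- The unit is at least of the order of the logarithm. -/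
  lg : ∀ n : ℕ, 1 ≤ n → Real.log n ≤ C * EE μ n
  /-- The unit tends to infinity. -/
  tE : Tendsto (EE μ) atTop atTop
  /-- The cone closes. -/
  tv : Tendsto (vA μ 1) atTop (𝓝 0)
  /-- All large scales are soft. -/
  soft : ∃ (α : ℝ) (x₀ : ℕ), ∀ x, x₀ ≤ x → Sf μ x α
  /-- The unit doubles in boundedly many octaves. -/
  dbl : ∃ T x₀ : ℕ, ∀ x, x₀ ≤ x → gg μ x + 1 ≤ gg μ (x + T)
  /-- Displacements in the cone are cheap. -/
  inn : ∀ n, n₀ ≤ n → ∀ (m : ℕ) (y : ℤ), m ≤ 4 * n → 0 ≤ y → y ≤ m →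
    |(y : ℝ) - m / 2| ≤ c * vA μ 1 n * m + 1 → ep μ m y ≤ C * EE μ n
  /-- Exponential moments of the tilted lucks of the boxes of width `wd n` (starts and lengths up to the time `4 n`). -/
  luck : ∀ n, n₀ ≤ n → ∀ h z : ℝ, |h| * wd μ n ≤ c * EE μ n →
    ∫ η, Real.exp (Mh μ 0 (1 / 2) h (wd μ n) z (4 * n) η / (C * EE μ n)) ∂(law μ) ≤ C

end

end Pool.Agent.W_7d29a1_SR
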