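import Pool.Agent.W_7d29a1_SR.Main2

/-!
THEOREM (SR) (hand-in ScalingLaw), proofs row 626: the theorem on the probability space of the problem.
-/

namespace Pool.Agent.W_7d29a1_SR

open MeasureTheory ProbabilityTheory Filter Topology
open Pool.Agent.W_7d29a1_F Pool.Agent.W_7d29a1_h4g Pool.Agent.W_7d29a1_G Pool.Agent.W_7d29a1_L
open Pool.Agent.W_7d29a1_h47 (LamN EM_of Nondeg_of map_toEnv tendsto_logZ log_endMGF endMGF endP)
open Pool.Agent.W_7d29a1_h46 (Expd)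

/-- A nonnegative function which vanishes at `0` and has a Hölder continuous derivative is superlinear at `0`. -/
theorem superlin {J : ℝ → ℝ} (h0 : J 0 = 0) (hn : ∀ v, |v| < 1 → 0 ≤ J v) (hd : ∀ v, |v| < 1 → DifferentiableAt ℝ J v)
    {C e : ℝ} (he : 0 < e) (hC : ∀ v w : ℝ, |v| ≤ 1 / 2 → |w| ≤ 1 / 2 → |deriv J v - deriv J w| ≤ C * |v - w| ^ e) :
    ∀ v, |v| ≤ 1 / 2 → J v ≤ (|C| + 1) * |v| ^ (1 + e) := by
  have hd0 : deriv J 0 = 0 := by
    have h1 : IsLocalMin J 0 := by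
      have h2 : ∀ᶠ v : ℝ in 𝓝 0, |v| < 1 := by
        have : Tendsto (fun v : ℝ => |v|) (𝓝 0) (𝓝 |0|) := continuous_abs.tendsto 0
        rw [abs_zero] at this
        exact this.eventually (gt_mem_nhds one_pos)
      filter_upwards [h2] with v hv
      rw [h0]
      exact hn v hv
    exact h1.deriv_eq_zero
  have hder : ∀ v, |v| ≤ 1 / 2 → |deriv J v| ≤ |C| * |v| ^ e := by
    intro v hv
    have h1 := hC v 0 hv (by norm_num)
    rw [hd0, sub_zero, sub_zero] at h1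
    exact h1.trans (mul_le_mul_of_nonneg_right (le_abs_self C) (Real.rpow_nonneg (abs_nonneg _) _))
  intro v hv
  have hK : ∀ x ∈ Set.Icc (-|v|) |v|, ‖deriv J x‖ ≤ |C| * |v| ^ e := by
    intro x hx
    have hx' : |x| ≤ |v| := abs_le.2 hx
    rw [Real.norm_eq_abs]
    exact (hder x (hx'.trans hv)).trans
      (mul_le_mul_of_nonneg_left (Real.rpow_le_rpow (abs_nonneg _) hx' he.le) (abs_nonneg C))
  have h1 := (convex_Icc (-|v|) |v|).norm_image_sub_le_of_norm_deriv_le (f := J) (C := |C| * |v| ^ e)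
    (fun x hx => hd x (lt_of_le_of_lt (abs_le.2 hx) (lt_of_le_of_lt hv (by norm_num)))) hK
    (x := 0) (y := v) ⟨by simp, abs_nonneg v⟩ ⟨neg_abs_le v, le_abs_self v⟩
  rw [h0, sub_zero, sub_zero, Real.norm_eq_abs, Real.norm_eq_abs] at h1
  have h2 : |C| * |v| ^ e * |v| = |C| * |v| ^ (1 + e) := by
    rcases eq_or_lt_of_le (abs_nonneg v) with h3 | h3
    · rw [← h3, mul_zero, Real.zero_rpow (by positivity), mul_zero]
    · rw [Real.rpow_add h3, Real.rpow_one]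
      ring
  rw [h2] at h1
  have h3 : 0 ≤ |v| ^ (1 + e) := Real.rpow_nonneg (abs_nonneg _) _
  have h4 := le_abs_self (J v)
  nlinarith

/-- **Theorem (SR)** from the input structure and the power convexity at `0`. -/
theorem main_S
    (hIn : ∀ (μ : Measure ℝ) [IsProbabilityMeasure μ], Pool.Agent.W_7d29a1_h47.EM μ → Pool.Agent.W_7d29a1_h47.Nondeg μ →
      ∃ (c C : ℝ) (n₀ : ℕ), In μ c C n₀)
    (hPow : ∀ (μ : Measure ℝ) [IsProbabilityMeasure μ], Pool.Agent.W_7d29a1_h47.EM μ → Pool.Agent.W_7d29a1_h47.Nondeg μ →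
      ∃ α : ℝ, 0 < α ∧ Expd (Pool.Agent.W_7d29a1_h47.Lam μ) α 0 0)
    {Ω : Type*} [MeasurableSpace Ω] (P : Measure Ω) [IsProbabilityMeasure P]
    (ω : ℕ × ℤ → Ω → ℝ) (hmeas : ∀ p, Measurable (ω p)) (hindep : iIndepFun ω P)
    (hident : ∀ p q, IdentDistrib (ω p) (ω q) P P) (hnc : ¬ ∃ c : ℝ, ∀ᵐ x ∂P, ω (0, 0) x = c)
    (hexp : ∀ b : ℝ, Integrable (fun x => Real.exp (b * ω (0, 0) x)) P) {β : ℝ} (hβ : 0 < β) :
    ∃ (lam J : ℝ → ℝ) (F : ℝ) (σ w : ℕ → ℝ) (c C : ℝ) (M : ℕ), 0 < c ∧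
      -- the free energy and the rate function
      (∀ᵐ x ∂P, Tendsto (fun n : ℕ => Real.log (pZ β (fun p => ω p x) n) / n) atTop (𝓝 F)) ∧
      (∀ h, ∀ᵐ x ∂P, Tendsto (fun n : ℕ => Real.log (endMGF β h (fun p => ω p x) n) / n) atTop (𝓝 (lam h))) ∧
      (∀ v, |v| < 1 → ∀ y : ℕ → ℤ, (∀ n, (y n - n) % 2 = 0) → Tendsto (fun n : ℕ => (y n : ℝ) / n) atTop (𝓝 v) →
        ∀ᵐ x ∂P, Tendsto (fun n : ℕ => -Real.log (endP β (fun p => ω p x) n (y n)) / n) atTop (𝓝 (J v))) ∧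
      (∀ v, |v| < 1 → IsLUB (Set.range fun h => h * v - lam h) (J v)) ∧
      (∀ h, |h| ≤ 1 → lam h ≤ C * |h| ^ (1 + c)) ∧ (∀ v, |v| < 1 → c * |v| ^ C ≤ J v) ∧
      -- the standard deviation and the width
      (∀ n, σ n = Real.sqrt (Var[fun x => Real.log (pZ β (fun p => ω p x) n); P])) ∧
      (∀ n, w n = sSup {r : ℝ | 0 ≤ r ∧ r < n ∧ n * J (r / n) ≤ σ n}) ∧
      (∀ᶠ n : ℕ in atTop, (n : ℝ) ^ c ≤ σ n ∧ σ n ≤ C * (n : ℝ) ^ (1 / 2 : ℝ) ∧
        (n : ℝ) ^ (1 / 3 + c) ≤ w n ∧ w n ≤ (n : ℝ) ^ (1 - c) ∧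
        n * J (w n / n) = σ n ∧ c * n ≤ w n * σ n ^ 2 ∧ 2 * σ n ≤ σ (M * n) ∧ 2 * w n ≤ w (M * n) ∧
        0 ≤ n * F - ∫ x, Real.log (pZ β (fun p => ω p x) n) ∂P ∧
        n * F - ∫ x, Real.log (pZ β (fun p => ω p x) n) ∂P ≤ C * σ n ∧ (n : ℝ) ^ c * σ n ≤ w n) ∧
      -- the fluctuations of the free energy
      (∀ᶠ n : ℕ in atTop, ∀ s : ℝ, 0 ≤ s →
        P.real {x | s * σ n ≤ |Real.log (pZ β (fun p => ω p x) n) - ∫ y, Real.log (pZ β (fun p => ω p y) n) ∂P|} ≤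
          C * Real.exp (-(c * s ^ c))) ∧
      (∀ K : ℝ, ∃ p : ℝ, 0 < p ∧ ∀ᶠ n : ℕ in atTop,
        p ≤ P.real {x | K * σ n ≤ Real.log (pZ β (fun p => ω p x) n) - ∫ y, Real.log (pZ β (fun p => ω p y) n) ∂P}) ∧
      -- the fluctuations of the path
      (∀ᶠ n : ℕ in atTop, ∀ R : ℝ, 1 ≤ R →
        1 - ∫ x, polP β (fun p => ω p x) n (ball n (R * w n)) ∂P ≤ C * Real.exp (-(c * R ^ c))) ∧
      (∀ ε : ℝ, 0 < ε → ∃ a : ℝ, 0 < a ∧ ∀ᶠ n : ℕ in atTop, ∫ x, polP β (fun p => ω p x) n (ball n (a * w n)) ∂P ≤ ε) ∧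
      (∀ q : ℕ, ∃ a A : ℝ, 0 < a ∧ ∀ᶠ n : ℕ in atTop,
        a * w n ^ q ≤ ∫ x, Pool.Agent.W_7d29a1_h47.polE β (fun p => ω p x) n (fun s => mx s ^ q) ∂P ∧
        ∫ x, Pool.Agent.W_7d29a1_h47.polE β (fun p => ω p x) n (fun s => mx s ^ q) ∂P ≤ A * w n ^ q) ∧
      -- the exponents
      nuP P β ω = limsup (fun n : ℕ => Real.log (w n) / Real.log n) atTop ∧
      chiP P β ω = liminf (fun n : ℕ => Real.log (σ n) / Real.log n) atTop ∧
      1 / 3 + c ≤ liminf (fun n : ℕ => Real.log (w n) / Real.log n) atTop ∧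
      liminf (fun n : ℕ => Real.log (w n) / Real.log n) atTop ≤ nuP P β ω ∧ nuP P β ω ≤ 1 - c ∧
      c ≤ chiP P β ω ∧ chiP P β ω ≤ 1 / 2 ∧ (1 - nuP P β ω) / 2 ≤ chiP P β ω ∧
      ∀ κ : ℝ, Tendsto (fun v : ℝ => Real.log (J v) / Real.log v) (𝓝[>] 0) (𝓝 κ) →
        limsup (fun n : ℕ => Real.log (σ n) / Real.log n) atTop = 1 - κ * (1 - nuP P β ω) ∧
        chiP P β ω = 1 - κ * (1 - liminf (fun n : ℕ => Real.log (w n) / Real.log n) atTop) ∧
        (2 * κ - 1) / (2 * κ + 1) ≤ liminf (fun n : ℕ => Real.log (w n) / Real.log n) atTop ∧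
        nuP P β ω ≤ 1 - 1 / (2 * κ) := by
  obtain ⟨⟨lam, J, -, -, -, hlamp, -, h4, -, h6, h7, -, hJd, hJH⟩, -⟩ :=
    Pool.Agent.W_7d29a1_F.main_FV P ω hmeas hindep hident hnc hexp hβ
  obtain ⟨μ, hμdef⟩ : ∃ μ : Measure ℝ, μ = P.map fun x => β * ω (0, 0) x := ⟨_, rfl⟩
  have hm0 : Measurable fun x => β * ω (0, 0) x := (hmeas _).const_mul β
  have hprob : IsProbabilityMeasure μ := by
    rw [hμdef]
    exact Measure.isProbabilityMeasure_map hm0.aemeasurable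
  have hμ : Pool.Agent.W_7d29a1_h47.EM μ := by
    rw [hμdef]
    exact EM_of (hmeas _) hexp β
  have hnd : Pool.Agent.W_7d29a1_h47.Nondeg μ := by
    rw [hμdef]
    exact Nondeg_of (hmeas _) hnc hβ
  have hmpE := map_toEnv hmeas hindep hident β
  rw [← hμdef] at hmpE
  have hmp := mp_toF hmeas hindep hident β
  rw [← hμdef] at hmp
  have hid : lam = LamN μ := by
    funext h
    have g1 := hmpE.quasiMeasurePreserving.ae (tendsto_logZ hμ h)
    have g2 := hmpE.quasiMeasurePreserving.ae (tendsto_logZ hμ 0)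
    obtain ⟨x, hx1, hx2, hx3⟩ := (g1.and (g2.and (h4 h))).exists
    refine tendsto_nhds_unique hx3 ((hx1.sub hx2).congr fun n => ?_)
    rw [log_endMGF, sub_div]
  have hidL : ∀ h, lam h = Pool.Agent.W_7d29a1_h47.Lam μ h - Pool.Agent.W_7d29a1_h47.Lam μ 0 := by
    intro h
    rw [hid]
    rfl
  have hJJ : ∀ v, |v| < 1 → J v = Pool.Agent.W_7d29a1_G.J μ (v / 2) := fun v hv => (J_of_lub hidL (h6 v hv)).symm
  obtain ⟨c₀, C₀, n₀, hI⟩ := hIn μ hμ hnd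
  obtain ⟨a, ha, C₁, hC₁⟩ := hPow μ hμ hnd
  have hlam0 : lam 0 = 0 := by rw [hidL, sub_self]
  -- the lower bound of the rate function
  have hlam : ∀ h : ℝ, |h| ≤ 1 → lam h ≤ max C₁ 1 * |h| ^ (1 + a) := by
    intro h hh
    have h1 := hC₁ h hh
    rw [zero_add, zero_mul, add_zero] at h1
    have h2 := hidL h
    have h3 : C₁ * |h| ^ (1 + a) ≤ max C₁ 1 * |h| ^ (1 + a) :=
      mul_le_mul_of_nonneg_right (le_max_left _ _) (by positivity)
    linarith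
  obtain ⟨c₁, hc₁def⟩ : ∃ c₁ : ℝ, c₁ = (1 / (2 * max C₁ 1)) ^ (1 / a) / 2 := ⟨_, rfl⟩
  have hc₁ : 0 < c₁ := by
    rw [hc₁def]
    have : 0 < max C₁ 1 := lt_of_lt_of_le one_pos (le_max_right _ _)
    positivity
  have hJlow : ∀ v, |v| < 1 → c₁ * |v| ^ (1 + 1 / a) ≤ J v := by
    intro v hv
    rw [hc₁def]
    exact legendre_pow ha (le_max_right _ _) hlam hv (h6 v hv)
  -- the upper bound of the rate function
  have hJ0 : ∀ v, |v| < 1 → 0 ≤ J v := by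
    intro v hv
    have h1 : 0 * v - lam 0 ≤ J v := (h6 v hv).1 ⟨0, rfl⟩
    rw [hlam0] at h1
    linarith
  have hJz : J 0 = 0 := by
    refine le_antisymm ((h6 0 (by norm_num)).2 ?_) (hJ0 0 (by norm_num))
    rintro _ ⟨h, rfl⟩
    show h * 0 - lam h ≤ 0
    rcases eq_or_ne h 0 with rfl | hh
    · rw [hlam0]
      norm_num
    · have := hlamp h hh
      linarith
  obtain ⟨CH, hCH⟩ := hJH (1 / 2) (by norm_num)
  have hJup := superlin hJz hJ0 hJd (e := 1 / 99) (by norm_num) hCH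
  have hCHp : 0 < |CH| + 1 := by positivity
  obtain ⟨σ, w, c, C, M, hσ, hw, hc, hc1, hC, hca, hCa, hS, hdev, hluck, hexit, hspr, hmax, hnu, hchi, e1, e2, e3, e4, e5, e6, hκ⟩ :=
    core_P hI hmeas hmp (c₂ := c₁) (K₂ := 1 + 1 / a) (C₃ := |CH| + 1) (a₃ := 1 / 99) hc₁ (by positivity)
      (fun v hv => by rw [← hJJ v hv]; exact hJlow v hv) hCHp (by norm_num)
      (fun v hv => by rw [← hJJ v (lt_of_le_of_lt hv (by norm_num))]; exact hJup v hv)
      (c₉ := min a c₁) (lt_min ha hc₁) (max (max C₁ 1) (1 + 1 / a))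
  have hca1 : c ≤ a := hca.trans (min_le_left _ _)
  have hcc1 : c ≤ c₁ := hca.trans (min_le_right _ _)
  have hCC1 : max C₁ 1 ≤ C := (le_max_left _ _).trans hCa
  have hCC2 : 1 + 1 / a ≤ C := (le_max_right _ _).trans hCa
  refine ⟨lam, J, Pool.Agent.W_7d29a1_h47.Lam μ 0 - Real.log 2, σ, w, c, C, M, hc, lim_pZ hμ hmpE, h4, h7, h6, ?_, ?_, hσ, ?_,
    ?_, hdev, hluck, hexit, hspr, hmax, hnu, hchi, e1, e2, e3, e4, e5, e6, ?_⟩
  · intro h hh
    refine (hlam h hh).trans (mul_le_mul hCC1 ?_ (Real.rpow_nonneg (abs_nonneg _) _) hC.le)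
    rcases eq_or_lt_of_le (abs_nonneg h) with h1 | h1
    · rw [← h1, Real.zero_rpow (by positivity), Real.zero_rpow (by positivity)]
    · exact Real.rpow_le_rpow_of_exponent_ge h1 hh (by linarith)
  · intro v hv
    refine le_trans (mul_le_mul hcc1 ?_ (Real.rpow_nonneg (abs_nonneg _) _) hc₁.le) (hJlow v hv)
    rcases eq_or_lt_of_le (abs_nonneg v) with h1 | h1
    · rw [← h1, Real.zero_rpow (by positivity), Real.zero_rpow (by positivity)]
    · exact Real.rpow_le_rpow_of_exponent_ge h1 hv.le hCC2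
  · intro n
    rw [hw, ← wid_congr hJJ]
    rfl
  · filter_upwards [hS, eventually_ge_atTop 1, ev_pow hc 2] with n h1 h2 h3
    obtain ⟨m1, m2, m3, m4, m5, m6, m7, m8, m9, m10, m11⟩ := h1
    have hn0 : (0 : ℝ) < n := by exact_mod_cast h2
    have hw0 : 0 < w n := (Real.rpow_pos_of_pos hn0 _).trans_le m3
    have hv0 : 0 < w n / n := div_pos hw0 hn0
    have hv1 : w n / n < 1 := by
      have h5 : (n : ℝ) ^ (1 - c) * (n : ℝ) ^ c = n := by
        rw [← Real.rpow_add hn0]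
        norm_num
      have h6 : 0 < (n : ℝ) ^ (1 - c) := Real.rpow_pos_of_pos hn0 _
      rw [div_lt_one hn0]
      nlinarith
    refine ⟨m1, m2, m3, m4, ?_, m6, m7, m8, m9, m10, m11⟩
    rw [hJJ _ (by rw [abs_of_pos hv0]; exact hv1)]
    exact m5
  · intro κ h1
    refine hκ κ (h1.congr' ?_)
    have h2 : ∀ᶠ v : ℝ in 𝓝[>] 0, 0 < v ∧ v < 1 :=
      Filter.Eventually.and self_mem_nhdsWithin ((gt_mem_nhds one_pos).filter_mono nhdsWithin_le_nhds)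
    filter_upwards [h2] with v hv
    rw [hJJ v (by rw [abs_of_pos hv.1]; exact hv.2)]

end Pool.Agent.W_7d29a1_SR
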