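import Pool.Agent.W_7d29a1_SR.Defs
import Pool.Agent.W_7d29a1_G.Frame3

/-!
THEOREM (SR) (hand-in ScalingLaw), proofs row 626, section (S0).
-/

namespace Pool.Agent.W_7d29a1_SR

open MeasureTheory ProbabilityTheory Filter Topology
open Pool.Agent.W_7d29a1_F Pool.Agent.W_7d29a1_h4g Pool.Agent.W_7d29a1_G Pool.Agent.W_7d29a1_L

variable {μ : Measure ℝ} [IsProbabilityMeasure μ] {c C : ℝ} {n₀ : ℕ}

private lemma EE_pos' (n : ℕ) : 0 < EE μ n := lt_of_lt_of_le one_pos (one_le_EE n)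

/-- Doubling, iterated. -/
private lemma dbl_iter {T x₀ : ℕ} (h : ∀ x, x₀ ≤ x → gg μ x + 1 ≤ gg μ (x + T)) (k x : ℕ) (hx : x₀ ≤ x) :
    (2 : ℝ) ^ k * EE μ (2 ^ x) ≤ EE μ (2 ^ (x + k * T)) := by
  have hg : ∀ k : ℕ, gg μ x + k ≤ gg μ (x + k * T) := by
    intro k
    induction k with
    | zero => simp
    | succ k ih =>
      have h1 := h (x + k * T) (by omega)
      have h2 : x + k * T + T = x + (k + 1) * T := by ring
      rw [h2] at h1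
      push_cast
      linarith
  have h3 := hg k
  have h4 := Real.rpow_le_rpow_of_exponent_le (x := 2) (by norm_num) h3
  have e1 : (2 : ℝ) ^ (gg μ x) = EE μ (2 ^ x) := by
    unfold gg
    exact Real.rpow_logb (by norm_num) (by norm_num) (EE_pos' _)
  have e2 : (2 : ℝ) ^ (gg μ (x + k * T)) = EE μ (2 ^ (x + k * T)) := by
    unfold gg
    exact Real.rpow_logb (by norm_num) (by norm_num) (EE_pos' _)
  rw [Real.rpow_add (by norm_num), e1, e2, Real.rpow_natCast] at h4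
  linarith

/-- (0a) -/
theorem scale_a (h : In μ c C n₀) (B : ℝ) : ∃ J n₁ : ℕ, ∀ m n : ℕ, n₁ ≤ n → 2 ^ J * m ≤ n → B * EE μ m ≤ EE μ n := by
  obtain ⟨T, x₀, hd⟩ := h.dbl
  obtain ⟨k, hk⟩ := pow_unbounded_of_one_lt B (one_lt_two (α := ℝ))
  obtain ⟨n₁, hn₁⟩ := eventually_atTop.1 (h.tE.eventually_ge_atTop ((2 : ℝ) ^ k * EE μ (2 ^ x₀)))
  refine ⟨k * T + 1, n₁, fun m n hn hmn => ?_⟩
  have hm0 := EE_pos' (μ := μ) m
  have hB : B * EE μ m ≤ (2 : ℝ) ^ k * EE μ m := mul_le_mul_of_nonneg_right hk.le hm0.le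
  refine hB.trans ?_
  rcases lt_or_ge m (2 ^ x₀) with hm | hm
  · have h1 : EE μ m ≤ EE μ (2 ^ x₀) := EU_mono hm.le
    exact (mul_le_mul_of_nonneg_left h1 (by positivity)).trans (hn₁ n hn)
  · have hm1 : m ≠ 0 := by
      have : 0 < 2 ^ x₀ := by positivity
      omega
    obtain ⟨x, hx⟩ : ∃ x : ℕ, x = Nat.log 2 m := ⟨_, rfl⟩
    have h1 : m < 2 ^ (x + 1) := by
      rw [hx]
      exact Nat.lt_pow_succ_log_self (by norm_num) m
    have h2 : 2 ^ x ≤ m := by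
      rw [hx]
      exact Nat.pow_log_le_self 2 hm1
    have h3 : x₀ ≤ x + 1 := by
      by_contra hcon
      have h4 : 2 ^ (x + 1) ≤ 2 ^ x₀ := Nat.pow_le_pow_right (by norm_num) (by omega)
      omega
    have h5 := dbl_iter hd k (x + 1) h3
    have h6 : 2 ^ (x + 1 + k * T) ≤ n := by
      calc 2 ^ (x + 1 + k * T) = 2 ^ (k * T + 1) * 2 ^ x := by rw [← pow_add]; congr 1; ring
        _ ≤ 2 ^ (k * T + 1) * m := Nat.mul_le_mul_left _ h2
        _ ≤ n := hmn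
    have h7 : EE μ m ≤ EE μ (2 ^ (x + 1)) := EU_mono h1.le
    have h8 : EE μ (2 ^ (x + 1 + k * T)) ≤ EE μ n := EU_mono h6
    have h9 : (2 : ℝ) ^ k * EE μ m ≤ (2 : ℝ) ^ k * EE μ (2 ^ (x + 1)) := mul_le_mul_of_nonneg_left h7 (by positivity)
    linarith

/-- (0b) -/
theorem scale_b (h : In μ c C n₀) {m n : ℕ} (hm : 1 ≤ m) (hmn : m ≤ n) : m * EE μ n ≤ 2 * (n * EE μ m) :=
  EE_rate h.em hm hmn

theorem vA_le2 (h : In μ c C n₀) : ∃ n₁ : ℕ, ∀ m n : ℕ, n₁ ≤ m → m ≤ n → vA μ 1 n ≤ 2 * vA μ 1 m :=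
  ⟨1, fun _ _ hm hmn => vA_le_two h.em zero_le_one hm hmn⟩

/-- (0c) -/
theorem wd_growth (h : In μ c C n₀) : ∃ n₁ : ℕ, ∀ m n : ℕ, n₁ ≤ m → m ≤ n → wd μ m * EE μ n ≤ 2 * EE μ m * wd μ n := by
  obtain ⟨n₁, hn₁⟩ := eventually_atTop.1 (vA_lt_half h.em h.nd (A := 1) zero_le_one)
  refine ⟨max n₁ 1, fun m n hm hmn => ?_⟩
  have hm1 : 1 ≤ m := (le_max_right _ _).trans hm
  have hm2 : n₁ ≤ m := (le_max_left _ _).trans hm
  have hm0 : (0 : ℝ) < m := by exact_mod_cast hm1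
  have hn0 : (0 : ℝ) < n := by exact_mod_cast (show 0 < n by omega)
  have hvm := hn₁ m hm2
  have hvn := hn₁ n (hm2.trans hmn)
  have pm := vA_pos h.em one_pos m
  have pn := vA_pos h.em one_pos n
  have em := vA_eq' h.em zero_le_one hvm
  have en := vA_eq' h.em zero_le_one hvn
  rw [one_mul] at em en
  have hEm := EE_pos' (μ := μ) m
  have hEn := EE_pos' (μ := μ) n
  unfold wd
  rcases le_or_gt (vA μ 1 n) (vA μ 1 m) with h1 | h1
  · have h2 := J_mul h.em (v := vA μ 1 n) (t := vA μ 1 m / vA μ 1 n) pn.le (by rwa [one_le_div pn])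
      (by rw [div_mul_cancel₀ _ pn.ne']; exact hvm.le)
    rw [div_mul_cancel₀ _ pn.ne', div_mul_eq_mul_div, div_le_iff₀ pn] at h2
    -- `v_m J(v_n) ≤ J(v_m) v_n`
    have h3 : vA μ 1 m * m * EE μ n ≤ EE μ m * (vA μ 1 n * n) := by
      rw [← em, ← en]
      calc vA μ 1 m * m * (n * J μ (vA μ 1 n)) = (m * n) * (vA μ 1 m * J μ (vA μ 1 n)) := by ring
        _ ≤ (m * n) * (J μ (vA μ 1 m) * vA μ 1 n) := mul_le_mul_of_nonneg_left h2 (by positivity)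
        _ = m * J μ (vA μ 1 m) * (vA μ 1 n * n) := by ring
    have h4 : 0 ≤ EE μ m * (vA μ 1 n * n) := by positivity
    nlinarith
  · have h2 := scale_b h hm1 hmn
    calc vA μ 1 m * m * EE μ n = vA μ 1 m * (m * EE μ n) := by ring
      _ ≤ vA μ 1 n * (m * EE μ n) := mul_le_mul_of_nonneg_right h1.le (by positivity)
      _ ≤ vA μ 1 n * (2 * (n * EE μ m)) := mul_le_mul_of_nonneg_left h2 pn.le
      _ = 2 * EE μ m * (vA μ 1 n * n) := by ring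

/-- (0d) -/
theorem wd_lower (h : In μ c C n₀) : ∃ n₁ : ℕ, ∀ m n : ℕ, n₁ ≤ m → m ≤ n → m * wd μ n ≤ 2 * (n * wd μ m) := by
  obtain ⟨n₁, hn₁⟩ := vA_le2 h
  refine ⟨n₁, fun m n hm hmn => ?_⟩
  have h1 := hn₁ m n hm hmn
  unfold wd
  calc (m : ℝ) * (vA μ 1 n * n) = (m * n) * vA μ 1 n := by ring
    _ ≤ (m * n) * (2 * vA μ 1 m) := mul_le_mul_of_nonneg_left h1 (by positivity)
    _ = 2 * (n * (vA μ 1 m * m)) := by ring

/-- (0e) -/
theorem wd_ge (h : In μ c C n₀) : ∃ c' : ℝ, 0 < c' ∧ ∃ n₁ : ℕ, ∀ n, n₁ ≤ n → c' * EE μ n ≤ wd μ n := by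
  obtain ⟨D, hD, hw⟩ := wA_ge h.em h.nd (A := 1) one_pos
  obtain ⟨n₁, hn₁⟩ := eventually_atTop.1 hw
  refine ⟨1 / D, by positivity, n₁, fun n hn => ?_⟩
  have h1 := hn₁ n hn
  unfold wd
  rw [one_div, inv_mul_le_iff₀ hD]
  exact h1

theorem wd_tendsto (h : In μ c C n₀) : Tendsto (wd μ) atTop atTop := by
  obtain ⟨c', hc', n₁, hn₁⟩ := wd_ge h
  refine tendsto_atTop_mono' atTop (eventually_atTop.2 ⟨n₁, hn₁⟩) ?_
  exact h.tE.const_mul_atTop hc'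

end Pool.Agent.W_7d29a1_SR
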