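import Pool.Agent.W_7d29a1_SR.VarS
import Pool.Agent.W_7d29a1_SL.T1b
import Pool.Agent.W_7d29a1_G.SecA3
import Pool.Agent.W_7d29a1_L.LsA1

/-!
THEOREM (SR) / STORM X, (SUB) with the exponent `1 / 2` at all scales: `Var V_(k n) ≤ A k EE(n)^2`, hence
`EE n ≤ A (n / m) ^ (1 / 2) EE m` for all `n ≥ m`. Proof: (T1) at the scale `k n` with `θ = 1 / (C EE n)`, the unit of the scale
`n`; the exponential moment is at most `B ^ k` (cell kernels of `W_7d29a1_G/SecA2`, `SecA3` and the field `luck` of `In`).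
-/

namespace Pool.Agent.W_7d29a1_SR

open MeasureTheory ProbabilityTheory Filter Topology
open Pool.Agent.W_7d29a1_F Pool.Agent.W_7d29a1_h4g Pool.Agent.W_7d29a1_G Pool.Agent.W_7d29a1_L
open Pool.Agent.W_7d29a1_G20 (Bk Gk Mom Bk_dom Gk_dom Gk_iter le_Gk Dom)

variable {μ : Measure ℝ} [IsProbabilityMeasure μ] {c C : ℝ} {n₀ : ℕ}

omit [IsProbabilityMeasure μ] in
/-- A part of the end points, all of them at the distance at least `r` on one side. -/
private lemma sb_part {h r : ℝ} (η : Env) (a : Pt) (n : ℕ) (w : ℕ) (f : ℕ → ℤ) (hf : Function.Injective f)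
    (hr : ∀ l < w, h * r ≤ h * ((f l : ℝ) - 1 / 2 * n)) :
    ∑ l ∈ Finset.range w, W μ 0 η a n (f l) ≤ Real.exp (T μ 0 (1 / 2) h η a n - h * r) := by
  rw [Real.exp_sub, le_div_iff₀ (Real.exp_pos _), Finset.sum_mul, exp_T]
  have h1 : ∀ l ∈ Finset.range w, W μ 0 η a n (f l) * Real.exp (h * r) ≤
      W μ 0 η a n (f l) * Real.exp (h * ((f l : ℝ) - 1 / 2 * n)) := fun l hl =>
    mul_le_mul_of_nonneg_left (Real.exp_le_exp.2 (hr l (Finset.mem_range.1 hl))) (W_nonneg _ _ _ _)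
  refine (Finset.sum_le_sum h1).trans ?_
  have h2 : ∑ l ∈ Finset.range w, W μ 0 η a n (f l) * Real.exp (h * ((f l : ℝ) - 1 / 2 * n)) =
      ∑ y ∈ (Finset.range w).image f, W μ 0 η a n y * Real.exp (h * ((y : ℝ) - 1 / 2 * n)) := by
    rw [Finset.sum_image fun x _ y _ hxy => hf hxy]
  rw [h2]
  have h3 : ∑ y ∈ (Finset.range w).image f, W μ 0 η a n y * Real.exp (h * ((y : ℝ) - 1 / 2 * n)) =
      ∑ y ∈ ((Finset.range w).image f).filter (fun y : ℤ => 0 ≤ y ∧ y ≤ n),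
        W μ 0 η a n y * Real.exp (h * ((y : ℝ) - 1 / 2 * n)) := by
    rw [Finset.sum_filter_of_ne]
    intro y _ hy
    by_contra hcon
    exact hy (by rw [W_eq_zero η a hcon, zero_mul])
  rw [h3]
  refine Finset.sum_le_sum_of_subset_of_nonneg ?_ fun y _ _ => mul_nonneg (W_nonneg _ _ _ _) (Real.exp_nonneg _)
  intro y hy
  rw [Finset.mem_filter] at hy
  exact Finset.mem_Icc.2 hy.2

omit [IsProbabilityMeasure μ] in
/-- One block: the kernel to the cell `k` against the two tilted lucks. -/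
private lemma sb_Bk {h : ℝ} (hh : 0 ≤ h) {w : ℕ} (hw : 0 < w) {W' : ℝ} (hW : (w : ℝ) ≤ W') (n : ℕ) (k : ℤ) (η : Env) :
    Bk μ 0 w n (md n) k η ≤
      Real.exp (max (Mh μ 0 (1 / 2) h W' (-1) (4 * n) η) (Mh μ 0 (1 / 2) (-h) W' (-1) (4 * n) η) -
        h * (max (|(k : ℝ)| - 1) 0 * w)) := by
  have : Nonempty (Fin w) := ⟨⟨0, hw⟩⟩
  refine ciSup_le fun i => ?_
  obtain ⟨i, hi⟩ := i
  have hv0 : (0 : ℝ) ≤ 1 / 2 := by norm_num
  have hv1 : (1 / 2 : ℝ) ≤ 1 := by norm_num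
  have hiR : (i : ℝ) + 1 ≤ w := by exact_mod_cast hi
  have hi0 : (0 : ℝ) ≤ i := Nat.cast_nonneg i
  have hT : ∀ h' : ℝ, T μ 0 (1 / 2) h' η (0, (i : ℤ)) n ≤ Mh μ 0 (1 / 2) h' W' (-1) (4 * n) η := by
    intro h'
    refine le_Mh (μ := μ) (s := 0) (v := 1 / 2) (h := h') (w := W') (z := -1) (n := 4 * n) η
      (q := ((0, (i : ℤ)), n)) ((mem_Bx hv0 hv1).2 ⟨by dsimp only; omega, ?_, ?_⟩)
    · push_cast
      linarith
    · push_cast
      linarith
  have hD1 : ((md n : ℤ) : ℝ) ≤ 1 / 2 * n := by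
    have : 2 * md n ≤ (n : ℤ) := by unfold md; omega
    have : 2 * ((md n : ℤ) : ℝ) ≤ (n : ℝ) := by exact_mod_cast this
    linarith
  have hD2 : 1 / 2 * (n : ℝ) - 1 / 2 ≤ ((md n : ℤ) : ℝ) := by
    have : (n : ℤ) - 1 ≤ 2 * md n := by unfold md; omega
    have : (n : ℝ) - 1 ≤ 2 * ((md n : ℤ) : ℝ) := by exact_mod_cast this
    linarith
  have hinj : Function.Injective fun l : ℕ => md n + k * w + (l : ℤ) - (i : ℕ) := by
    intro l l' hl
    simp only at hl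
    omega
  have hM : ∀ h' : ℝ, (h' = h ∨ h' = -h) → Mh μ 0 (1 / 2) h' W' (-1) (4 * n) η ≤
      max (Mh μ 0 (1 / 2) h W' (-1) (4 * n) η) (Mh μ 0 (1 / 2) (-h) W' (-1) (4 * n) η) := by
    rintro h' (rfl | rfl)
    · exact le_max_left _ _
    · exact le_max_right _ _
  rcases lt_or_ge k 1 with hk | hk
  · rcases lt_or_ge k 0 with hk0 | hk0
    · -- to the left
      have hkR : (k : ℝ) ≤ -1 := by exact_mod_cast (by omega : k ≤ -1)
      have hab : max (|(k : ℝ)| - 1) 0 = -k - 1 := by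
        rw [abs_of_nonpos (by linarith), max_eq_left (by linarith)]
      refine (sb_part (μ := μ) (h := -h) (r := -((-k - 1) * w)) η (0, (i : ℤ)) n w _ hinj ?_).trans
        (Real.exp_le_exp.2 ?_)
      · intro l hl
        have hlR : (l : ℝ) + 1 ≤ w := by exact_mod_cast hl
        push_cast
        have h1 : ((md n : ℤ) : ℝ) + k * w + l - i - 1 / 2 * n ≤ -((-k - 1) * w) := by
          have : -((-(k : ℝ) - 1) * w) = k * w + w := by ring
          rw [this]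
          linarith
        have := mul_le_mul_of_nonneg_left h1 hh
        linarith
      · rw [hab]
        have h1 := (hT (-h)).trans (hM (-h) (Or.inr rfl))
        have h2 : -h * -((-(k : ℝ) - 1) * w) = h * ((-(k : ℝ) - 1) * w) := by ring
        linarith
    · -- the same cell
      have hk1 : k = 0 := by omega
      subst hk1
      have hab : max (|((0 : ℤ) : ℝ)| - 1) 0 = 0 := by
        rw [Int.cast_zero, abs_zero, max_eq_right (by norm_num)]
      rw [hab, zero_mul ((w : ℕ) : ℝ), mul_zero h, sub_zero]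
      have h0 := sb_part (μ := μ) (h := 0) (r := 0) η (0, (i : ℤ)) n w _ hinj (fun l hl => by simp)
      refine h0.trans (Real.exp_le_exp.2 ?_)
      rw [zero_mul, sub_zero]
      -- `T` at the tilt `0` is at most the maximum of the two tilts
      have e1 : Real.exp (T μ 0 (1 / 2) 0 η (0, (i : ℤ)) n) ≤
          Real.exp (max (Mh μ 0 (1 / 2) h W' (-1) (4 * n) η) (Mh μ 0 (1 / 2) (-h) W' (-1) (4 * n) η)) := by
        have p1 : ∀ y : ℤ, W μ 0 η (0, (i : ℤ)) n y * Real.exp (0 * ((y : ℝ) - 1 / 2 * n)) ≤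
            (W μ 0 η (0, (i : ℤ)) n y * Real.exp (h * ((y : ℝ) - 1 / 2 * n)) +
              W μ 0 η (0, (i : ℤ)) n y * Real.exp (-h * ((y : ℝ) - 1 / 2 * n))) / 2 := by
          intro y
          have q1 := Real.add_one_le_exp (h * ((y : ℝ) - 1 / 2 * n))
          have q2 := Real.add_one_le_exp (-h * ((y : ℝ) - 1 / 2 * n))
          have q3 := W_nonneg (μ := μ) (s := 0) η (0, (i : ℤ)) n y
          rw [zero_mul, Real.exp_zero]
          nlinarith
        have p2 : Real.exp (T μ 0 (1 / 2) 0 η (0, (i : ℤ)) n) ≤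
            (Real.exp (T μ 0 (1 / 2) h η (0, (i : ℤ)) n) + Real.exp (T μ 0 (1 / 2) (-h) η (0, (i : ℤ)) n)) / 2 := by
          rw [exp_T, exp_T, exp_T, ← Finset.sum_add_distrib, Finset.sum_div]
          exact Finset.sum_le_sum fun y _ => p1 y
        have p3 := Real.exp_le_exp.2 ((hT h).trans (hM h (Or.inl rfl)))
        have p4 := Real.exp_le_exp.2 ((hT (-h)).trans (hM (-h) (Or.inr rfl)))
        linarith
      exact Real.exp_le_exp.1 e1
  · -- to the right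
    have hkR : (1 : ℝ) ≤ k := by exact_mod_cast hk
    have hab : max (|(k : ℝ)| - 1) 0 = k - 1 := by
      rw [abs_of_nonneg (by linarith), max_eq_left (by linarith)]
    refine (sb_part (μ := μ) (h := h) (r := (k - 1) * w) η (0, (i : ℤ)) n w _ hinj ?_).trans (Real.exp_le_exp.2 ?_)
    · intro l hl
      have hl0 : (0 : ℝ) ≤ l := Nat.cast_nonneg l
      push_cast
      have h1 : ((k : ℝ) - 1) * w ≤ ((md n : ℤ) : ℝ) + k * w + l - i - 1 / 2 * n := by
        have : ((k : ℝ) - 1) * w = k * w - w := by ring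
        rw [this]
        linarith
      exact mul_le_mul_of_nonneg_left h1 hh
    · rw [hab]
      have h1 := (hT h).trans (hM h (Or.inl rfl))
      linarith

/-- The moment of one block, at the unit of the block. -/
theorem sb_Mom (h : In μ c C n₀) : ∃ n₁ : ℕ, n₀ ≤ n₁ ∧ 1 ≤ n₁ ∧ ∀ n, n₁ ≤ n → 0 < ⌊wd μ n⌋₊ ∧
    Mom μ 0 (1 / (C * EE μ n)) ⌊wd μ n⌋₊ n (md n) (2 * C * Real.exp (c / (2 * C))) (Real.exp (-(c / (6 * C)))) := by
  obtain ⟨n₂, hn₂⟩ := eventually_atTop.1 ((wd_tendsto h).eventually_ge_atTop 4)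
  refine ⟨max (max n₀ n₂) 1, (le_max_left _ _).trans (le_max_left _ _), le_max_right _ _, fun n hn => ?_⟩
  have hn0 : n₀ ≤ n := (le_max_left _ _).trans ((le_max_left _ _).trans hn)
  have hn2 : n₂ ≤ n := (le_max_right _ _).trans ((le_max_left _ _).trans hn)
  have hw4 : 4 ≤ wd μ n := hn₂ n hn2
  have hw0 : 0 < wd μ n := by linarith
  have hE1 : 1 ≤ EE μ n := one_le_EE n
  have hE0 : 0 < EE μ n := by linarith
  have hC0 : 0 < C := lt_of_lt_of_le one_pos h.C1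
  have hc0 := h.c0
  have hCE : 0 < C * EE μ n := mul_pos hC0 hE0
  obtain ⟨w, hwd⟩ : ∃ w : ℕ, w = ⌊wd μ n⌋₊ := ⟨_, rfl⟩
  have hw1 : (w : ℝ) ≤ wd μ n := by rw [hwd]; exact Nat.floor_le hw0.le
  have hw2 : wd μ n < w + 1 := by rw [hwd]; exact Nat.lt_floor_add_one _
  have hw3 : wd μ n / 2 ≤ w := by linarith
  have hwp : 0 < w := by
    have : (0 : ℝ) < w := by linarith
    exact_mod_cast this
  rw [← hwd]
  refine ⟨hwp, fun k => ?_⟩
  obtain ⟨t, htd⟩ : ∃ t : ℝ, t = c * EE μ n / wd μ n := ⟨_, rfl⟩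
  have ht0 : 0 ≤ t := by rw [htd]; positivity
  have htw : t * wd μ n = c * EE μ n := by rw [htd]; field_simp
  have habs1 : |t| * wd μ n ≤ c * EE μ n := by rw [abs_of_nonneg ht0, htw]
  have habs2 : |(-t)| * wd μ n ≤ c * EE μ n := by rw [abs_neg]; exact habs1
  obtain ⟨θ, hθd⟩ : ∃ θ : ℝ, θ = 1 / (C * EE μ n) := ⟨_, rfl⟩
  have hθ0 : 0 < θ := by rw [hθd]; positivity
  rw [← hθd]
  obtain ⟨M1, hM1⟩ : ∃ M1 : Env → ℝ, M1 = fun η => Mh μ 0 (1 / 2) t (wd μ n) (-1) (4 * n) η := ⟨_, rfl⟩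
  obtain ⟨M2, hM2⟩ : ∃ M2 : Env → ℝ, M2 = fun η => Mh μ 0 (1 / 2) (-t) (wd μ n) (-1) (4 * n) η := ⟨_, rfl⟩
  have hS1 : Sub M1 := by rw [hM1]; exact Sub_Mh
  have hS2 : Sub M2 := by rw [hM2]; exact Sub_Mh
  have hI1 : Integrable (fun η => Real.exp (θ * M1 η)) (law μ) := (hS1.const_mul θ).exp_int h.em
  have hI2 : Integrable (fun η => Real.exp (θ * M2 η)) (law μ) := (hS2.const_mul θ).exp_int h.em
  have hB1 : ∫ η, Real.exp (θ * M1 η) ∂(law μ) ≤ C := by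
    refine le_trans (le_of_eq ?_) (h.luck n hn0 t (-1) habs1)
    refine integral_congr_ae (Eventually.of_forall fun η => ?_)
    show Real.exp (θ * M1 η) = _
    rw [hM1, hθd]
    congr 1
    ring
  have hB2 : ∫ η, Real.exp (θ * M2 η) ∂(law μ) ≤ C := by
    refine le_trans (le_of_eq ?_) (h.luck n hn0 (-t) (-1) habs2)
    refine integral_congr_ae (Eventually.of_forall fun η => ?_)
    show Real.exp (θ * M2 η) = _
    rw [hM2, hθd]
    congr 1
    ring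
  obtain ⟨r, hr⟩ : ∃ r : ℝ, r = max (|(k : ℝ)| - 1) 0 := ⟨_, rfl⟩
  have hr0 : 0 ≤ r := by rw [hr]; exact le_max_right _ _
  have hpt : ∀ η, Bk μ 0 w n (md n) k η ^ θ ≤ Real.exp (-(θ * (t * (r * w)))) * (Real.exp (θ * M1 η) + Real.exp (θ * M2 η)) := by
    intro η
    have h1 := sb_Bk (μ := μ) ht0 hwp hw1 n k η
    have h2 := Real.rpow_le_rpow ((Bk_dom (μ := μ) (s := 0) hwp n (md n) k).nonneg η) h1 hθ0.le
    refine h2.trans ?_
    rw [← Real.exp_mul, ← hr]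
    have e1 : (max (Mh μ 0 (1 / 2) t (wd μ n) (-1) (4 * n) η) (Mh μ 0 (1 / 2) (-t) (wd μ n) (-1) (4 * n) η) -
        t * (r * w)) * θ = -(θ * (t * (r * w))) + θ * max (M1 η) (M2 η) := by
      rw [hM1, hM2]
      ring
    rw [e1, Real.exp_add]
    refine mul_le_mul_of_nonneg_left ?_ (Real.exp_nonneg _)
    rcases le_total (M1 η) (M2 η) with h3 | h3
    · rw [max_eq_right h3]
      linarith [Real.exp_pos (θ * M1 η)]
    · rw [max_eq_left h3]
      linarith [Real.exp_pos (θ * M2 η)]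
  have hint : ∫ η, Bk μ 0 w n (md n) k η ^ θ ∂(law μ) ≤ Real.exp (-(θ * (t * (r * w)))) * (C + C) := by
    calc ∫ η, Bk μ 0 w n (md n) k η ^ θ ∂(law μ)
        ≤ ∫ η, Real.exp (-(θ * (t * (r * w)))) * (Real.exp (θ * M1 η) + Real.exp (θ * M2 η)) ∂(law μ) :=
          integral_mono ((Bk_dom (μ := μ) (s := 0) hwp n (md n) k).rpow_int h.em hθ0.le)
            ((hI1.add hI2).const_mul _) hpt
      _ = Real.exp (-(θ * (t * (r * w)))) * ((∫ η, Real.exp (θ * M1 η) ∂(law μ)) + ∫ η, Real.exp (θ * M2 η) ∂(law μ)) := by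
          rw [integral_const_mul, integral_add hI1 hI2]
      _ ≤ _ := mul_le_mul_of_nonneg_left (add_le_add hB1 hB2) (Real.exp_nonneg _)
  refine hint.trans ?_
  -- the exponent
  have h1 : c / (2 * C) ≤ θ * (t * w) := by
    have h2 : c * EE μ n / 2 ≤ t * w := by
      have := mul_le_mul_of_nonneg_left hw3 ht0
      have h3 : t * (wd μ n / 2) = t * wd μ n / 2 := by ring
      rw [h3, htw] at this
      exact this
    have h4 := mul_le_mul_of_nonneg_left h2 hθ0.le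
    refine le_trans (le_of_eq ?_) h4
    rw [hθd]
    field_simp
  have h5 : c / (2 * C) * r ≤ θ * (t * (r * w)) := by
    have := mul_le_mul_of_nonneg_right h1 hr0
    have h6 : θ * (t * w) * r = θ * (t * (r * w)) := by ring
    linarith
  have h6 : |(k : ℝ)| - 1 ≤ r := by rw [hr]; exact le_max_left _ _
  have h7 : Real.exp (-(θ * (t * (r * w)))) ≤ Real.exp (c / (2 * C)) * Real.exp (-(c / (6 * C))) ^ (3 * k.natAbs) := by
    rw [← Real.exp_nat_mul, ← Real.exp_add]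
    refine Real.exp_le_exp.2 ?_
    have hk : ((k.natAbs : ℕ) : ℝ) = |(k : ℝ)| := by
      rw [← Int.cast_natCast, Int.natCast_natAbs, Int.cast_abs]
    push_cast
    rw [hk]
    have h8 : c / (2 * C) * (|(k : ℝ)| - 1) ≤ c / (2 * C) * r := mul_le_mul_of_nonneg_left h6 (by positivity)
    have h9 : 3 * |(k : ℝ)| * -(c / (6 * C)) = -(c / (2 * C) * |(k : ℝ)|) := by
      field_simp
      ring
    rw [h9]
    nlinarith
  have h8 : 0 ≤ C + C := by linarith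
  calc Real.exp (-(θ * (t * (r * w)))) * (C + C)
      ≤ (Real.exp (c / (2 * C)) * Real.exp (-(c / (6 * C))) ^ (3 * k.natAbs)) * (C + C) :=
        mul_le_mul_of_nonneg_right h7 h8
    _ = _ := by ring

/-- The exponential moment of the luck of `M` blocks at the unit of one block. -/
theorem block_exp (h : In μ c C n₀) : ∃ B : ℝ, 1 ≤ B ∧ ∃ n₁ : ℕ, n₀ ≤ n₁ ∧ 1 ≤ n₁ ∧ ∀ n, n₁ ≤ n → ∀ M : ℕ,
    ∫ η, Real.exp (1 / (C * EE μ n) * V μ 0 η 0 (M * n)) ∂(law μ) ≤ B ^ M := by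
  obtain ⟨n₁, hn0, hn1, hM⟩ := sb_Mom h
  have hC0 : 0 < C := lt_of_lt_of_le one_pos h.C1
  have hc0 := h.c0
  have hρ0 : 0 ≤ Real.exp (-(c / (6 * C))) := Real.exp_nonneg _
  have hρ1 : Real.exp (-(c / (6 * C))) < 1 := by
    rw [Real.exp_lt_one_iff]
    have : 0 < c / (6 * C) := by positivity
    linarith
  have hC' : 1 ≤ 2 * C * Real.exp (c / (2 * C)) := by
    have h1 : 1 ≤ Real.exp (c / (2 * C)) := Real.one_le_exp (by positivity)
    have h2 := h.C1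
    nlinarith
  have hB : 1 ≤ 2 * C * Real.exp (c / (2 * C)) * (2 / (1 - Real.exp (-(c / (6 * C))))) := by
    have h1 := Pool.Agent.W_7d29a1_G20.one_le_two_div hρ0 hρ1
    nlinarith
  refine ⟨_, hB, n₁, hn0, hn1, fun n hn M => ?_⟩
  obtain ⟨hw, hMo⟩ := hM n hn
  have hE1 : 1 ≤ EE μ n := one_le_EE n
  have hCE : 1 ≤ C * EE μ n := one_le_mul_of_one_le_of_one_le h.C1 hE1
  have hθ0 : 0 < 1 / (C * EE μ n) := by positivity
  have hθ1 : 1 / (C * EE μ n) ≤ 1 := by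
    rw [div_le_one (by linarith)]
    exact hCE
  refine le_trans ?_ (Gk_iter h.em hθ0 hθ1 hw (md_nonneg n) (md_le n) hC' hρ0 hρ1 hMo M)
  refine integral_mono (((Sub_V (μ := μ) (s := 0) 0 (M * n)).const_mul _).exp_int h.em)
    ((Gk_dom (μ := μ) (s := 0) hw (M * n)).rpow_int h.em hθ0.le) fun η => ?_
  have h1 := le_Gk (μ := μ) (s := 0) (M * n) η 0 hw
  have h2 := Real.rpow_le_rpow (Real.exp_nonneg _) h1 hθ0.le
  refine le_trans (le_of_eq ?_) h2
  rw [← Real.exp_mul, mul_comm]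
  rfl

private lemma sb_mean (h : In μ c C n₀) (n : ℕ) : -EE μ n ≤ ∫ η, V μ 0 η 0 n ∂(law μ) := by
  have h1 := mean_neg_V (μ := μ) h.em (le_refl n)
  have h2 : ∫ η, -V μ 0 η 0 n ∂(law μ) ≤ ∫ η, max (-V μ 0 η 0 n) 0 ∂(law μ) :=
    integral_mono ((Sub_V 0 n).neg.integrable h.em) (((Sub_V 0 n).neg.max (Sub.const 0)).integrable h.em)
      fun η => le_max_left _ _
  rw [integral_neg] at h2
  linarith

/-- **The variance of `M` blocks is at most `M` times the square of the unit of one block.** -/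
theorem var_block (h : In μ c C n₀) : ∃ A : ℝ, 0 < A ∧ ∃ n₁ : ℕ, n₀ ≤ n₁ ∧ 1 ≤ n₁ ∧ ∀ n, n₁ ≤ n → ∀ M : ℕ, 1 ≤ M →
    Var[fun η => V μ 0 η 0 (M * n); law μ] ≤ A * M * EE μ n ^ 2 := by
  obtain ⟨B, hB, n₁, hn0, hn1, hblock⟩ := block_exp h
  obtain ⟨c', hc', hT1⟩ := Pool.Agent.W_7d29a1_SL.t1_XV h.em h.nd
  have hC0 : 0 < C := lt_of_lt_of_le one_pos h.C1
  have hlB : 0 ≤ Real.log B := Real.log_nonneg hB
  refine ⟨C ^ 2 * (Real.log B + 1 / C) / c', by positivity, n₁, hn0, hn1, fun n hn M hM => ?_⟩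
  have hE1 : 1 ≤ EE μ n := one_le_EE n
  have hE0 : 0 < EE μ n := by linarith
  have hMR : (0 : ℝ) < M := by exact_mod_cast hM
  obtain ⟨θ, hθd⟩ : ∃ θ : ℝ, θ = 1 / (C * EE μ n) := ⟨_, rfl⟩
  have hθ0 : 0 < θ := by rw [hθd]; positivity
  have hCE : 1 ≤ C * EE μ n := one_le_mul_of_one_le_of_one_le h.C1 hE1
  have hθ1 : θ ≤ 1 := by
    rw [hθd, div_le_one (by linarith)]
    exact hCE
  have h1 := (hT1 0 (M * n) θ hθ0.le hθ1).1
  have h2 : Real.log (∫ η, Real.exp (θ * V μ 0 η 0 (M * n)) ∂(law μ)) ≤ M * Real.log B := by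
    have h3 := hblock n hn M
    rw [← hθd] at h3
    have h4 : 0 < ∫ η, Real.exp (θ * V μ 0 η 0 (M * n)) ∂(law μ) :=
      integral_exp_pos (((Sub_V (μ := μ) (s := 0) 0 (M * n)).const_mul _).exp_int h.em)
    have h5 := Real.log_le_log h4 h3
    rwa [Real.log_pow] at h5
  have h3 : -(M * EE μ n) ≤ ∫ η, V μ 0 η 0 (M * n) ∂(law μ) := by
    have h4 := sb_mean (μ := μ) h (M * n)
    have h5 := EE_mul (μ := μ) h.em M n hM
    linarith
  have hvar : Var[fun η => V μ 0 η 0 (M * n); law μ] =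
      ∫ η, (V μ 0 η 0 (M * n) - ∫ ξ, V μ 0 ξ 0 (M * n) ∂(law μ)) ^ 2 ∂(law μ) :=
    variance_eq_integral (measurable_V 0 (M * n)).aemeasurable
  rw [hvar]
  obtain ⟨v, hv⟩ : ∃ v : ℝ, v = ∫ η, (V μ 0 η 0 (M * n) - ∫ ξ, V μ 0 ξ 0 (M * n) ∂(law μ)) ^ 2 ∂(law μ) := ⟨_, rfl⟩
  rw [← hv] at h1 ⊢
  have h4 : c' * θ ^ 2 * v ≤ M * (Real.log B + 1 / C) := by
    have h5 := mul_le_mul_of_nonneg_left h3 hθ0.le
    have h6 : θ * -(M * EE μ n) = -(M * (1 / C)) := by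
      rw [hθd]
      field_simp
    rw [h6] at h5
    have h7 : M * (Real.log B + 1 / C) = M * Real.log B + M * (1 / C) := by ring
    linarith
  have h5 : θ ^ 2 * (C ^ 2 * EE μ n ^ 2) = 1 := by
    rw [hθd]
    field_simp
  have h6 : v = θ ^ 2 * v * (C ^ 2 * EE μ n ^ 2) := by
    calc v = (θ ^ 2 * (C ^ 2 * EE μ n ^ 2)) * v := by rw [h5, one_mul]
      _ = _ := by ring
  have h7 : θ ^ 2 * v ≤ M * (Real.log B + 1 / C) / c' := by
    rw [le_div_iff₀ hc']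
    linarith
  have h8 : 0 ≤ C ^ 2 * EE μ n ^ 2 := by positivity
  calc v = θ ^ 2 * v * (C ^ 2 * EE μ n ^ 2) := h6
    _ ≤ (M * (Real.log B + 1 / C) / c') * (C ^ 2 * EE μ n ^ 2) := mul_le_mul_of_nonneg_right h7 h8
    _ = _ := by ring

/-- **(SUB) with the exponent `1 / 2`, all scales.** -/
theorem sub_half (h : In μ c C n₀) : ∃ A : ℝ, 0 < A ∧ ∃ n₁ : ℕ, 1 ≤ n₁ ∧ ∀ m n : ℕ, n₁ ≤ m → m ≤ n →
    EE μ n ^ 2 ≤ A * (n / m) * EE μ m ^ 2 := by
  obtain ⟨A, hA, n₁, hn0, hn1, hv⟩ := var_block h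
  obtain ⟨a, ha, hva⟩ := var_ge h
  refine ⟨2 * A / a, by positivity, n₁, hn1, fun m n hm hmn => ?_⟩
  have hm0 : 0 < m := by omega
  have hmR : (0 : ℝ) < m := by exact_mod_cast hm0
  obtain ⟨M, hM⟩ : ∃ M : ℕ, M = n / m + 1 := ⟨_, rfl⟩
  have hM1 : 1 ≤ M := by rw [hM]; exact Nat.le_add_left 1 _
  have hnM : n ≤ M * m := by
    have h1 := Nat.lt_mul_div_succ n hm0
    rw [hM, mul_comm]
    exact h1.le
  have hM2 : (M : ℝ) ≤ 2 * (n / m) := by
    have h1 : ((n / m : ℕ) : ℝ) ≤ (n : ℝ) / m := Nat.cast_div_le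
    have h2 : (1 : ℝ) ≤ (n : ℝ) / m := by
      rw [one_le_div hmR]
      exact_mod_cast hmn
    rw [hM]
    push_cast
    linarith
  have hMm : 1 ≤ M * m := Nat.mul_pos hM1 hm0
  have h1 := hva (M * m) hMm
  have h2 := hv m hm M hM1
  have h3 : EE μ n ≤ EE μ (M * m) := EE_mono hnM
  have hE : 0 < EE μ n := EE_pos n
  have h4 : EE μ n ^ 2 ≤ EE μ (M * m) ^ 2 := pow_le_pow_left₀ hE.le h3 2
  have h5 : a * EE μ n ^ 2 ≤ A * M * EE μ m ^ 2 := (mul_le_mul_of_nonneg_left h4 ha.le).trans (h1.trans h2)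
  have h6 : A * M * EE μ m ^ 2 ≤ A * (2 * (n / m)) * EE μ m ^ 2 :=
    mul_le_mul_of_nonneg_right (mul_le_mul_of_nonneg_left hM2 hA.le) (sq_nonneg _)
  have h7 : EE μ n ^ 2 ≤ A * (2 * (n / m)) * EE μ m ^ 2 / a := by
    rw [le_div_iff₀ ha]
    linarith
  refine h7.trans (le_of_eq ?_)
  ring

end Pool.Agent.W_7d29a1_SR
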