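import Pool.Agent.W_7d29a1_SR.ModelS
import Pool.Agent.W_7d29a1_h46.Tr

/-!
THEOREM (SR) (hand-in ScalingLaw): the exponents of the walk model of `ModelS` are the exponents of the problem in the model on
`ℤ^d` (`Site 1 = Fin 1 → ℤ`) (helper12).
-/

namespace Pool.Agent.W_7d29a1_SR

open MeasureTheory ProbabilityTheory Filter Topology
open Pool.Agent.W_MP_7d29a1_pr (Site Step nu Pol inBall nrm nuSet)
open Pool.Agent.W_7d29a1_h46 (chiT Zn ZT wgt tr_e tr_e_bij tr_pos)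

/-- The environment on `ℕ × ℤ^1` of an environment on `ℕ × ℤ`. -/
def ofZ {α : Type*} (η : ℕ × ℤ → α) : ℕ × Site 1 → α := fun p => η (p.1, p.2 0)

lemma energy_tr_e {n : ℕ} (η : ℕ × ℤ → ℝ) (s : Fin n → Bool) :
    Pool.Agent.W_MP_7d29a1_pr.energy (ofZ η) (tr_e s) = Pool.Agent.W_7d29a1_h47.energy η s := by
  unfold Pool.Agent.W_MP_7d29a1_pr.energy Pool.Agent.W_7d29a1_h47.energy ofZ
  refine Finset.sum_congr rfl fun i _ => ?_
  rw [tr_pos]

lemma mem_inBall {n : ℕ} (r : ℝ) (s : Fin n → Bool) : tr_e s ∈ inBall 1 n r ↔ s ∈ ball n r := by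
  change (∀ i ≤ n, _) ↔ ∀ i ≤ n, _
  refine forall_congr' fun i => forall_congr' fun hi => ?_
  rw [tr_pos]
  unfold nrm
  simp [Real.sqrt_sq_eq_abs]

/-- The polymer measures. -/
theorem Pol_eq (β : ℝ) (η : ℕ × ℤ → ℝ) (n : ℕ) (r : ℝ) :
    Pol β (ofZ η) n (inBall 1 n r) = polP β η n (ball n r) := by
  classical
  unfold Pol polP Pool.Agent.W_7d29a1_h47.polE
  rw [← (tr_e_bij n).sum_comp, ← (tr_e_bij n).sum_comp]
  congr 1
  · refine Finset.sum_congr rfl fun s _ => ?_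
    beta_reduce
    rw [energy_tr_e]
    by_cases h : s ∈ ball n r
    · rw [if_pos ((mem_inBall r s).2 h), if_pos h, one_mul]
    · rw [if_neg fun h' => h ((mem_inBall r s).1 h'), if_neg h, zero_mul]
  · refine Finset.sum_congr rfl fun s _ => ?_
    rw [energy_tr_e]

/-- The partition functions. -/
theorem Zn_eq (β : ℝ) (η : ℕ × ℤ → ℝ) (n : ℕ) : Zn β 0 (ofZ η) n = pZ β η n := by
  classical
  unfold Zn pZ ZT
  rw [← (tr_e_bij n).sum_comp]
  congr 1
  · refine Finset.sum_congr rfl fun s _ => ?_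
    rw [if_pos (Set.mem_univ _)]
    unfold wgt
    rw [energy_tr_e, inner_zero_left, zero_add]
  · norm_num

variable {Ω : Type*} [MeasurableSpace Ω] (P : Measure Ω) (β : ℝ) (ω : ℕ × ℤ → Ω → ℝ)

/-- The wandering exponent. -/
theorem nuP_eq : nuP P β ω = nu P β (fun p : ℕ × Site 1 => ω (p.1, p.2 0)) := by
  unfold nuP nu nuSet
  congr 1
  ext a
  have h : ∀ (x : Ω) (n : ℕ), Pol β (fun p : ℕ × Site 1 => ω (p.1, p.2 0) x) n (inBall 1 n ((n : ℝ) ^ a)) =
      polP β (fun p => ω p x) n (ball n ((n : ℝ) ^ a)) := fun x n => Pol_eq β (fun p => ω p x) n _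
  simp only [Set.mem_ofPred_eq, h]

/-- The fluctuation exponent. -/
theorem chiP_eq : chiP P β ω = chiT P β (fun p : ℕ × Site 1 => ω (p.1, p.2 0)) 0 := by
  unfold chiP chiT
  congr 1
  ext a
  have h : ∀ (x : Ω) (n : ℕ), Zn β 0 (fun p : ℕ × Site 1 => ω (p.1, p.2 0) x) n = pZ β (fun p => ω p x) n :=
    fun x n => Zn_eq β (fun p => ω p x) n
  simp only [Set.mem_ofPred_eq, h]

end Pool.Agent.W_7d29a1_SR
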